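import Mathlib

/-!
# SYR/Gauge : the gauge in which `Re σ` is constant

Let `𝒳 → [0, U]` be a locally trivial family of primitive symplectic varieties `X_u`, `V_0` an
ambient smooth vector field on `𝒳` which lifts `d/du` and is tangent to the strata, `σ_u` the
symplectic forms and `θ_u` ambient smooth Kähler forms with `[σ_u]' = i [θ_u]`. The closed 2-form
`β = L_{V_0} σ_u - i θ_u` on the regular parts of the fibres has the class `0` in `H²(X_u, ℂ)`. We
show that `β = dγ` for a global ambient smooth form `γ` of type `(1,0)`. Then the real vector field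
`V = V_0 - 2 Re σ_u⁻¹ γ` is ambient smooth, tangent to the strata, and `L_V σ_u = i θ_u`.

All forms are relative forms, that is, forms on the fibres. An ambient smooth form of type `(1,0)` is
locally a sum of products of ambient smooth functions and reflexive holomorphic relative 1-forms;
`σ_u` identifies these with the ambient smooth vertical vector fields of type `(1,0)`, since
holomorphic symplectic forms identify derivations and reflexive 1-forms (and ambient smooth functions
are flat over holomorphic functions, by Malgrange).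
-/

set_option autoImplicit false

open Set

namespace Pool.Agent.SYR

/-- The data: the union `M` of the regular parts of the `X_u`, and the traces `U i` on `M` of a finite
cover of `𝒳` by products of the open stars of a fine triangulation of the fibre and of small
intervals, each in a small Stein open set of the family. `E1`, `E2` are the fibres of the bundles of
complex relative 1-forms and 2-forms (forms are functions with these values in measurable frames),
`d0` and `d1` the differentials of functions and of 1-forms, zero where they are not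
differentiable. -/
structure Cech where
  M : Type
  r : ℕ
  U : Fin r → Set M
  E1 : Type
  [grp1 : AddCommGroup E1]
  E2 : Type
  [grp2 : AddCommGroup E2]
  d0 : (M → ℂ) → M → E1
  d1 : (M → E1) → M → E2
  /-- functions which are smooth functions of `u` on an open set -/
  con : Set M → Set (M → ℂ)
  /-- functions which are smooth and holomorphic on the fibres on an open set -/
  hol : Set M → Set (M → ℂ)
  /-- forms which are ambient smooth of type `(1,0)` on an open set -/
  amb : Set M → Set (M → E1)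
  β : M → E2

attribute [instance] Cech.grp1 Cech.grp2

namespace Cech

variable (G : Cech)

/-- The facts. -/
structure Facts : Prop where
  cover : ∀ x, ∃ i, x ∈ G.U i
  /-- locally `β` is the differential of an ambient smooth `(1,0)`-form: `θ_u = dd^c ρ_i` with a
  smooth function `ρ_i`, and `L_{V_0} σ_u = d γ` because near every point there is a lift `V_i` of
  `d/du`, holomorphic along the fibres, with `L_{V_i} σ_u = 0` (the symplectic form is locally
  trivial in the family: `[σ_u] = 0` on the regular part of a small Stein open set `S`, and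
  `H¹(S_reg, O) = H²(S_reg, O) = 0`, since `X_u` is Cohen-Macaulay and its singular set has codimension
  at least four) -/
  loc : ∀ i, ∃ γ ∈ G.amb (G.U i), ∀ x ∈ G.U i, G.d1 γ x = G.β x
  /-- a closed ambient smooth `(1,0)`-form is a reflexive holomorphic form on the fibres, so it is
  locally the differential of a holomorphic function (rational singularities); on the contractible
  intersections also globally -/
  exact : ∀ i j, ∀ γ ∈ G.amb (G.U i ∩ G.U j), (∀ x ∈ G.U i ∩ G.U j, G.d1 γ x = 0) →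
    ∃ k ∈ G.hol (G.U i ∩ G.U j), ∀ x ∈ G.U i ∩ G.U j, γ x = G.d0 k x
  /-- the functions `k_ij + k_jl + k_li` of `u` are a Čech cocycle of the class of `β` in
  `H²(X_u, ℂ)`, which is zero -/
  class_zero : ∀ (γ : Fin G.r → G.M → G.E1) (k : Fin G.r → Fin G.r → G.M → ℂ),
    (∀ i, γ i ∈ G.amb (G.U i) ∧ ∀ x ∈ G.U i, G.d1 (γ i) x = G.β x) →
    (∀ i j, k i j ∈ G.hol (G.U i ∩ G.U j) ∧
      ∀ x ∈ G.U i ∩ G.U j, γ i x - γ j x = G.d0 (k i j) x) →
    ∃ c : Fin G.r → Fin G.r → G.M → ℂ, (∀ i j, c i j ∈ G.con (G.U i ∩ G.U j)) ∧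
      ∀ i j l, ∀ x ∈ G.U i ∩ G.U j ∩ G.U l,
        (k i j x - c i j x) + (k j l x - c j l x) + (k l i x - c l i x) = 0
  /-- `H¹(X_u, O) = 0` -/
  h1 : ∀ k : Fin G.r → Fin G.r → G.M → ℂ, (∀ i j, k i j ∈ G.hol (G.U i ∩ G.U j)) →
    (∀ i j l, ∀ x ∈ G.U i ∩ G.U j ∩ G.U l, k i j x + k j l x + k l i x = 0) →
    ∃ m : Fin G.r → G.M → ℂ, (∀ i, m i ∈ G.hol (G.U i)) ∧
      ∀ i j, ∀ x ∈ G.U i ∩ G.U j, k i j x = m i x - m j x
  hol_sub_con : ∀ i j, ∀ k ∈ G.hol (G.U i ∩ G.U j), ∀ c ∈ G.con (G.U i ∩ G.U j),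
    (fun x => k x - c x) ∈ G.hol (G.U i ∩ G.U j) ∧
      ∀ x ∈ G.U i ∩ G.U j, G.d0 (fun x => k x - c x) x = G.d0 k x
  /-- `d (m_i - m_j) = d m_i - d m_j` for a function which is equal to `m_i - m_j` -/
  d0_sub : ∀ i j, ∀ m ∈ G.hol (G.U i), ∀ m' ∈ G.hol (G.U j), ∀ k : G.M → ℂ,
    (∀ x ∈ G.U i ∩ G.U j, k x = m x - m' x) →
      ∀ x ∈ G.U i ∩ G.U j, G.d0 k x = G.d0 m x - G.d0 m' x
  amb_diff : ∀ i j, ∀ γ ∈ G.amb (G.U i), ∀ γ' ∈ G.amb (G.U j),
    (fun x => γ x - γ' x) ∈ G.amb (G.U i ∩ G.U j) ∧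
      ∀ x ∈ G.U i ∩ G.U j, G.d1 (fun x => γ x - γ' x) x = G.d1 γ x - G.d1 γ' x
  amb_sub : ∀ i, ∀ γ ∈ G.amb (G.U i), ∀ m ∈ G.hol (G.U i),
    (fun x => γ x - G.d0 m x) ∈ G.amb (G.U i) ∧
      ∀ x ∈ G.U i, G.d1 (fun x => γ x - G.d0 m x) x = G.d1 γ x
  /-- ambient smooth forms are a sheaf, `d` is local -/
  glue : ∀ γ : Fin G.r → G.M → G.E1, (∀ i, γ i ∈ G.amb (G.U i)) →
    (∀ i j, ∀ x ∈ G.U i ∩ G.U j, γ i x = γ j x) →
    ∃ Γ ∈ G.amb univ, ∀ i, ∀ x ∈ G.U i, Γ x = γ i x ∧ G.d1 Γ x = G.d1 (γ i) x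

/-- `β = dγ` with a global ambient smooth `(1,0)`-form `γ` -/
def Global : Prop := ∃ γ ∈ G.amb univ, ∀ x, G.d1 γ x = G.β x

variable {G}

theorem Facts.global (h : G.Facts) : G.Global := by
  choose γ hγ hγβ using h.loc
  have hdiff : ∀ i j, ∃ k ∈ G.hol (G.U i ∩ G.U j), ∀ x ∈ G.U i ∩ G.U j,
      γ i x - γ j x = G.d0 k x := by
    intro i j
    obtain ⟨h1, h2⟩ := h.amb_diff i j (γ i) (hγ i) (γ j) (hγ j)
    refine h.exact i j _ h1 fun x hx => ?_
    rw [h2 x hx, hγβ i x hx.1, hγβ j x hx.2, sub_self]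
  choose k hk hkd using hdiff
  obtain ⟨c, hcc, hc⟩ := h.class_zero γ k (fun i => ⟨hγ i, hγβ i⟩) (fun i j => ⟨hk i j, hkd i j⟩)
  obtain ⟨m, hm, hmk⟩ := h.h1 (fun i j x => k i j x - c i j x)
    (fun i j => (h.hol_sub_con i j (k i j) (hk i j) (c i j) (hcc i j)).1)
    (fun i j l x hx => hc i j l x hx)
  obtain ⟨Γ, hΓ, hΓ'⟩ := h.glue (fun i x => γ i x - G.d0 (m i) x)
    (fun i => (h.amb_sub i (γ i) (hγ i) (m i) (hm i)).1) (by
      intro i j x hx
      have h1 := hkd i j x hx
      have h2 := (h.hol_sub_con i j (k i j) (hk i j) (c i j) (hcc i j)).2 x hx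
      have h3 := h.d0_sub i j (m i) (hm i) (m j) (hm j) (fun x => k i j x - c i j x)
        (fun x hx => hmk i j x hx) x hx
      have h4 : γ i x - γ j x = G.d0 (m i) x - G.d0 (m j) x := by
        rw [h1, ← h2, h3]
      show γ i x - G.d0 (m i) x = γ j x - G.d0 (m j) x
      have h5 : γ i x = G.d0 (m i) x - G.d0 (m j) x + γ j x := by
        rw [← h4]; abel
      rw [h5]; abel)
  refine ⟨Γ, hΓ, fun x => ?_⟩
  obtain ⟨i, hi⟩ := h.cover x
  rw [(hΓ' i x hi).2, (h.amb_sub i (γ i) (hγ i) (m i) (hm i)).2 x hi, hγβ i x hi]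

end Cech

end Pool.Agent.SYR
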