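import Pool.Agent.SYR.Iso
import Pool.Agent.SYR.Gauge
import Pool.Agent.SYM.SingMain

/-!
# SYR/Family : the rotation theorem

`Family` is the data of SYR/Arc together with the calculus of the metrics `g_u` (SYM/SingData) and the
holomorphic maps from `X_s^reg`, with the complex structure rotated by the angle `t - s`, to `X_t`.
The theorem `Family.rotated`: the flow from time `0` to time `u` extends to a homeomorphism of `M`,
that is, `X_0^reg` with the rotated complex structure is the regular part of `X_u`, with the metric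
`g_u`, for all `u ∈ [0, U]`.
-/

set_option autoImplicit false

open Matrix MeasureTheory Filter Topology Set
open scoped ENNReal

namespace Pool.Agent.SYR

namespace Arc

variable {ι : Type} [Fintype ι] [DecidableEq ι] (a : Arc ι)

/-- Geometric facts, without those which depend on the `RCD` property. The constant `C` does not
depend on `u ∈ [0, U]` (estimates for families; simultaneous resolution of the `X_u`). -/
structure Geom0 (C : ℝ) : Prop where
  fin : IsFiniteMeasure a.μ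
  pos : a.μ.IsOpenPosMeasure
  U_pos : 0 < a.U
  C_nonneg : 0 ≤ C
  card : 4 ≤ Fintype.card ι
  quat : Quat a.I a.J a.K
  P_meas : ∀ i j, Measurable (fun z : ℝ × a.M => a.P z.1 z.2 i j)
  Θ_meas : ∀ i j, Measurable (fun z : ℝ × a.M => a.Θ z.1 z.2 i j)
  η_meas : ∀ i, Measurable (fun z : ℝ × a.M => a.η z.1 z.2 i)
  W_meas : ∀ i, Measurable (fun z : ℝ × a.M => a.W z.1 z.2 i)
  A_meas : ∀ i j, Measurable (fun z : ℝ × a.M => a.A z.1 z.2 i j)
  inv : ∀ u ∈ Icc 0 a.U, ∀ x, IsUnit (a.P u x).det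
  symp : ∀ u ∈ Icc 0 a.U, ∀ x, (a.P u x)ᵀ * a.J * a.P u x = a.J
  /-- `d/du Im σ_u = θ_u` -/
  B_deriv : ∀ u ∈ Icc 0 a.U, ∀ x i j,
    HasDerivWithinAt (fun s => a.B s x i j) (a.Θ u x i j) (Icc 0 a.U) u
  /-- `θ_s ≤ C g_u`: the Ricci-flat metrics are Kähler currents (Guedj-Guenancia-Zeriahi,
  Chen-Chiu-Hallgren-Székelyhidi-Tô-Tong) -/
  Θ_bdd : ∀ u ∈ Icc 0 a.U, ∀ s ∈ Icc 0 a.U, ∀ x, nrm (a.hat u x (a.Θ s x)) ≤ C
  Θ_lip : ∀ u ∈ Icc 0 a.U, ∀ s ∈ Icc 0 a.U, ∀ x,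
    nrm (a.hat u x (a.Θ s x - a.Θ u x)) ≤ C * |s - u|
  /-- `L_W` of the triple, `W = ∓ J grad ψ` -/
  lie : ∀ u ∈ Icc 0 a.U, ∀ x,
    Lie a.I a.J a.K (a.hat u x (a.A u x)) (a.hat u x (a.Θ u x))
  cs_sm : a.cs ⊆ a.sm
  sm_cont : ∀ φ ∈ a.sm, Continuous φ
  cs_bdd : ∀ φ ∈ a.cs, ∃ L, ∀ x, |φ x| ≤ L
  dl_meas : ∀ φ ∈ a.sm, ∀ i, Measurable (fun x => a.dl φ x i)
  cs_sq : ∀ φ ∈ a.cs, (fun x => φ x ^ 2) ∈ a.cs ∧
    ∀ x, a.dl (fun x => φ x ^ 2) x = (2 * φ x) • a.dl φ x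
  cs_mul : ∀ φ ∈ a.cs, ∀ f ∈ a.sm, (fun x => φ x * f x) ∈ a.cs ∧
    ∀ x, a.dl (fun x => φ x * f x) x = φ x • a.dl f x + f x • a.dl φ x
  sm_sub : ∀ f ∈ a.sm, ∀ h ∈ a.sm, (fun x => f x - h x) ∈ a.sm ∧
    ∀ x, a.dl (fun x => f x - h x) x = a.dl f x - a.dl h x
  sm_mul : ∀ f ∈ a.sm, ∀ h ∈ a.sm, (fun x => f x * h x) ∈ a.sm ∧
    ∀ x, a.dl (fun x => f x * h x) x = f x • a.dl h x + h x • a.dl f x
  pr_cont : ∀ u ∈ Icc 0 a.U, ∀ φ ∈ a.sm, Continuous (fun x => a.pr u x (a.dl φ x) (a.dl φ x))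
  /-- uniform bounds on compact sets -/
  supp : ∀ φ ∈ a.cs, ∃ L, ∀ u ∈ Icc 0 a.U, ∀ x, φ x ≠ 0 →
    nrm (a.P u x) ≤ L ∧ nrm (a.P u x)⁻¹ ≤ L ∧ nrm (a.A u x) ≤ L
  χ_cs : ∀ j, a.χ j ∈ a.cs
  χ_nonneg : ∀ j x, 0 ≤ a.χ j x
  χ_le_one : ∀ j x, a.χ j x ≤ 1
  χ_lim : ∀ x, Tendsto (fun j => a.χ j x) atTop (𝓝 1)
  c_bdd : ∀ φ ∈ a.cs, ∃ L, ∀ u ∈ Icc 0 a.U, ∀ x, a.pr u x (a.dl φ x) (a.dl φ x) ≤ L
  /-- the complement of `M` has capacity zero: `χ_j` is a function of `log (-log |F|²) / j`, where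
  `F` generates the ideal of the singular set of `X_0`; the flow of `V` preserves the ideals, so the
  same functions serve for all `u` -/
  c_sq : ∃ ε : ℕ → ℝ, Tendsto ε atTop (𝓝 0) ∧ ∀ j, ∀ u ∈ Icc 0 a.U,
    ∫ x, a.pr u x (a.dl (a.χ j) x) (a.dl (a.χ j) x) ∂a.μ ≤ ε j
  cl_sub : ∀ α ∈ a.Cl, ∀ β ∈ a.Cl, (fun x => α x - β x) ∈ a.Cl
  ω_cl : ∀ u ∈ Icc 0 a.U, a.ω u ∈ a.Cl
  A_cl : ∀ u ∈ Icc 0 a.U, a.A u ∈ a.Cl
  η_ex : ∀ u ∈ Icc 0 a.U, a.Ex (a.η u) (fun x => a.ω u x - a.Θ u x)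
  A_ex : ∀ u ∈ Icc 0 a.U, a.Ex (fun x => a.ω u x *ᵥ a.W u x) (a.A u)
  /-- Stokes' theorem for `φ α ∧ dβ ∧ ω_u^(n-2)`, `2n` the real dimension; `C` is also larger than
  a universal constant -/
  stokes : ∀ u ∈ Icc 0 a.U, ∀ φ ∈ a.cs, ∀ α ∈ a.Cl, ∀ β β', a.Ex β β' →
    |∫ x, φ x * Q a.I (a.hat u x (α x)) (a.hat u x (β' x)) ∂a.μ| ≤
      C * ∫ x, Real.sqrt (a.pr u x (a.dl φ x) (a.dl φ x)) * Real.sqrt (a.pr u x (β x) (β x)) *
        nrm (a.hat u x (α x)) ∂a.μ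
  /-- the intersection number of `κ_s` and `κ_u^(n-1)` (`θ_s` is an ambient smooth form on `X_u` in
  the class `κ_s`; bounded potentials) -/
  coh : ∀ u ∈ Icc 0 a.U, ∀ s ∈ Icc 0 a.U,
    ∫ x, ip a.I (a.hat u x (a.Θ s x)) ∂a.μ = Fintype.card ι * Real.cos (s - u) * a.V
  /-- the metrics depend continuously on `u` -/
  cont : ∀ x i j, ContinuousOn (fun u => a.g u x i j) (Icc 0 a.U)
  /-- the divergence of `W_u` is zero -/
  div : ∀ u ∈ Icc 0 a.U, ∀ φ ∈ a.cs, ∫ x, a.dl φ x ⬝ᵥ a.W u x ∂a.μ = 0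

/-- Facts which follow from the `RCD` property: functions with bounded Laplacian are Lipschitz and
their Hessian is in `L²` (diameter and volume are bounded above and below on `[0, U]`); this is
applied to `ψ_u`, whose Laplacian is bounded by `θ_u ≤ C g_u`. -/
structure Pot (C : ℝ) : Prop where
  /-- `|dψ_u| ≤ C` -/
  η_bdd : ∀ u ∈ Icc 0 a.U, ∀ x, a.pr u x (a.η u x) (a.η u x) ≤ C ^ 2
  W_bdd : ∀ u ∈ Icc 0 a.U, ∀ x, vsq (a.P u x *ᵥ a.W u x) ≤ C ^ 2
  A_sq : ∀ u ∈ Icc 0 a.U, Integrable (fun x => nsq (a.hat u x (a.A u x))) a.μ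

variable {a}

theorem Geom0.toGeom {C C' : ℝ} (h : a.Geom0 C) (h' : a.Pot C') (hC' : 0 ≤ C') :
    ∃ C'' h0, a.Geom C'' h0 := by
  have hC : 0 ≤ C := h.C_nonneg
  have h1 : C ≤ max C C' := le_max_left _ _
  have h2 : C' ≤ max C C' := le_max_right _ _
  have h3 : 0 ≤ max C C' := le_trans hC h1
  have hd : 0 < 16 * (max C C' + 1) := by positivity
  have hsq : C' ^ 2 ≤ max C C' ^ 2 := by nlinarith
  refine ⟨max C C', min 1 (1 / (16 * (max C C' + 1))), ?_⟩
  exact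
    { fin := h.fin
      pos := h.pos
      U_pos := h.U_pos
      h0_pos := by positivity
      h0_le := min_le_left _ _
      C_nonneg := h3
      small := by
        have h4 : min 1 (1 / (16 * (max C C' + 1))) ≤ 1 / (16 * (max C C' + 1)) := min_le_right _ _
        have h5 : 8 * max C C' * (1 / (16 * (max C C' + 1))) ≤ 1 / 2 := by
          rw [mul_one_div, div_le_div_iff₀ hd (by norm_num)]
          nlinarith
        exact le_trans (mul_le_mul_of_nonneg_left h4 (by positivity)) h5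
      card := h.card
      quat := h.quat
      P_meas := h.P_meas
      Θ_meas := h.Θ_meas
      η_meas := h.η_meas
      W_meas := h.W_meas
      A_meas := h.A_meas
      inv := h.inv
      symp := h.symp
      B_deriv := h.B_deriv
      Θ_bdd := fun u hu s hs x => (h.Θ_bdd u hu s hs x).trans h1
      Θ_lip := fun u hu s hs x => (h.Θ_lip u hu s hs x).trans
        (mul_le_mul_of_nonneg_right h1 (abs_nonneg _))
      η_bdd := fun u hu x => (h'.η_bdd u hu x).trans hsq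
      W_bdd := fun u hu x => (h'.W_bdd u hu x).trans hsq
      lie := h.lie
      A_sq := h'.A_sq
      cs_sm := h.cs_sm
      sm_cont := h.sm_cont
      cs_bdd := h.cs_bdd
      dl_meas := h.dl_meas
      cs_sq := h.cs_sq
      cs_mul := h.cs_mul
      sm_sub := h.sm_sub
      sm_mul := h.sm_mul
      pr_cont := h.pr_cont
      supp := h.supp
      χ_cs := h.χ_cs
      χ_nonneg := h.χ_nonneg
      χ_le_one := h.χ_le_one
      χ_lim := h.χ_lim
      c_bdd := h.c_bdd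
      c_sq := h.c_sq
      cl_sub := h.cl_sub
      ω_cl := h.ω_cl
      A_cl := h.A_cl
      η_ex := h.η_ex
      A_ex := h.A_ex
      stokes := fun u hu φ hφ α hα β β' hβ => (h.stokes u hu φ hφ α hα β β' hβ).trans
        (mul_le_mul_of_nonneg_right h1 (integral_nonneg fun x => by
          have : 0 ≤ nrm (a.hat u x (α x)) := Real.sqrt_nonneg _
          positivity))
      coh := h.coh
      cont := h.cont
      div := h.div }

end Arc

/-- The data. -/
structure Family (ι : Type) extends Arc ι where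
  /-- smooth functions, smooth functions with compact support, and for the metric `g_u` the
  functions of `Reg` -/
  smi : Set (M → ℝ)
  csi : Set (M → ℝ)
  vol : ℝ → Measure M
  gr : ℝ → (M → ℝ) → (M → ℝ) → M → ℝ
  lap : ℝ → (M → ℝ) → M → ℝ
  h20 : ℝ → (M → ℝ) → M → ℝ
  h11 : ℝ → (M → ℝ) → M → ℝ
  /-- the points of the compact space `X_t`, the inclusion of the regular part -/
  Xc : ℝ → Type
  inc : (t : ℝ) → M → Xc t
  /-- holomorphic maps to `X_t` from `X_s^reg` with the complex structure rotated by `t - s` -/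
  Hol : ℝ → (t : ℝ) → Set (M → Xc t)

namespace Family

variable {ι : Type} [Fintype ι] [DecidableEq ι] (T : Family ι)

/-- the metric `g_u` with its calculus -/
def reg (u : ℝ) : SYM.Reg where
  X := T.M
  vol := T.vol u
  sm := T.smi
  cs := T.csi
  gr := T.gr u
  lap := T.lap u
  h20 := T.h20 u
  h11 := T.h11 u

/-- The flow of `W` exists almost everywhere, rotates the triple of forms and preserves distances. -/
structure Good : Prop where
  null : ∀ s ∈ Icc 0 T.U, ∀ t ∈ Icc 0 T.U, T.μ (T.Dom s t)ᶜ = 0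
  rot : ∀ u ∈ Icc 0 T.U, ∀ y ∈ T.Dom 0 u,
      (T.DF u y)ᵀ * T.ω u (T.Fl 0 u y) * T.DF u y =
        Real.cos u • T.ω 0 y - Real.sin u • T.B 0 y ∧
      (T.DF u y)ᵀ * T.J * T.DF u y = T.J ∧
      (T.DF u y)ᵀ * T.B u (T.Fl 0 u y) * T.DF u y =
        Real.cos u • T.B 0 y + Real.sin u • T.ω 0 y
  dist_eq : ∀ u ∈ Icc 0 T.U, ∀ x ∈ T.Dom 0 u, ∀ y ∈ T.Dom 0 u,
    T.dist u (T.Fl 0 u x) (T.Fl 0 u y) = T.dist 0 x y

/-- parameters in `[0, U]`, one of which is `0` -/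
def Ends (s t : ℝ) : Prop := s ∈ Icc 0 T.U ∧ t ∈ Icc 0 T.U ∧ (s = 0 ∨ t = 0)

/-- The published facts. -/
structure Facts (C : ℝ) : Prop where
  t2 : T2Space T.M
  geom : T.toArc.Geom0 C
  flow : T.toArc.Flow
  calculus : ∀ u ∈ Icc 0 T.U, (T.reg u).Calculus
  leibniz : ∀ u ∈ Icc 0 T.U, (T.reg u).Leibniz
  pole : ∀ u ∈ Icc 0 T.U, ∃ φ, (T.reg u).Pole φ
  approx : ∀ u ∈ Icc 0 T.U, (T.reg u).Approx
  sobolev : ∀ u ∈ Icc 0 T.U, (T.reg u).Sobolev
  /-- Honda's criterion: if the eigenfunctions have bounded gradient then the completions of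
  `(M, g_u, μ)` are `RCD(0, N)` spaces; theory of these spaces, uniformly in `u` (diameter bound of
  Guo-Phong-Song-Sturm) -/
  rcd : (∀ u ∈ Icc 0 T.U, ∀ f ∈ T.smi, ∀ l : ℝ, (∃ K, ∀ x, |f x| ≤ K) →
      (∀ x, T.lap u f x = - l * f x) → ∃ K, ∀ x, T.gr u f f x ≤ K) →
    T.toArc.Rcd ∧ ∃ C', 0 ≤ C' ∧ T.toArc.Pot C'
  inc_inj : ∀ t, Function.Injective (T.inc t)
  /-- a map from `X_s^reg` to `X_t`, Lipschitz for the metric `θ_t ≤ C g_t`, which is holomorphic on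
  an open set of full measure extends to a holomorphic map on `X_s^reg` (Weyl's lemma) -/
  ext : T.Good → ∀ s t, T.Ends s t →
    ∃ F ∈ T.Hol s t, ∀ x ∈ T.Dom s t, F x = T.inc t (T.Fl s t x)
  /-- its fibres are discrete: `F^* ω_t` is a closed positive current with bounded (even continuous)
  potentials, equal to the (rotated) Kähler form `ω_s` almost everywhere, hence `≥ ω_s`; on a fibre
  it would be zero -/
  disc : T.Good → ∀ s t, T.Ends s t → ∀ F ∈ T.Hol s t,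
    (∀ x ∈ T.Dom s t, F x = T.inc t (T.Fl s t x)) → ∀ x, ∀ᶠ y in 𝓝 x, F y = F x → y = x
  /-- a holomorphic map with discrete fibres, injective on an open set of full measure, to a
  normal space of the same dimension, is an open embedding; so its image is in the regular part -/
  zmt : T.Good → ∀ s t, T.Ends s t → ∀ F ∈ T.Hol s t,
    (∀ x ∈ T.Dom s t, F x = T.inc t (T.Fl s t x)) → (∀ x, ∀ᶠ y in 𝓝 x, F y = F x → y = x) →
    ∃ F' : T.M → T.M, Continuous F' ∧ Function.Injective F' ∧ ∀ x, F x = T.inc t (F' x)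

/-- `X_0^reg` with the complex structure rotated by `u` is `X_u^reg`: the flow from time `0` to time
`u` extends to a homeomorphism. -/
structure Rotated : Prop extends T.Good where
  homeo : ∀ u ∈ Icc 0 T.U, ∃ Φ : T.M ≃ₜ T.M, ∀ x ∈ T.Dom 0 u, Φ x = T.Fl 0 u x

variable {T} {C : ℝ}

theorem Facts.exists_geom (h : T.Facts C) : T.toArc.Rcd ∧ ∃ C' h0, T.toArc.Geom C' h0 := by
  obtain ⟨hR, C', hC', hP⟩ := h.rcd (fun u hu f hf l hb hl => by
    obtain ⟨M, hM⟩ := hb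
    obtain ⟨φ, hφ⟩ := h.pole u hu
    exact SYM.Reg.lipschitz_of_sobolev (h.calculus u hu) (h.leibniz u hu) hφ (h.approx u hu)
      (h.sobolev u hu) hf hM hl)
  exact ⟨hR, h.geom.toGeom hP hC'⟩

theorem Facts.good (h : T.Facts C) : T.Good := by
  obtain ⟨hR, C', h0, hG⟩ := h.exists_geom
  exact
    { null := fun s hs t ht => Arc.dom_null hG h.flow hs ht
      rot := fun u hu y hy => h.flow.rot (Arc.R2 hG) u hu y hy
      dist_eq := fun u hu => Arc.isometry hG h.flow hR hu }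

/-- The rotation theorem. -/
theorem rotated (h : T.Facts C) : T.Rotated := by
  obtain ⟨hR, C', h0, hG⟩ := h.exists_geom
  have hgood := h.good
  have h00 : (0 : ℝ) ∈ Icc 0 T.U := ⟨le_refl _, hG.U_pos.le⟩
  have := h.t2
  have key : ∀ s t, T.Ends s t → ∃ F' : T.M → T.M, Continuous F' ∧
      ∀ x ∈ T.Dom s t, F' x = T.Fl s t x := by
    intro s t hst
    obtain ⟨F, hF, hF1⟩ := h.ext hgood s t hst
    obtain ⟨F', h1, _, h3⟩ := h.zmt hgood s t hst F hF hF1 (h.disc hgood s t hst F hF hF1)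
    refine ⟨F', h1, fun x hx => h.inc_inj t ?_⟩
    rw [← h3, hF1 x hx]
  refine { toGood := hgood, homeo := fun u hu => ?_ }
  obtain ⟨F, hFc, hF⟩ := key 0 u ⟨h00, hu, Or.inl rfl⟩
  obtain ⟨G, hGc, hG'⟩ := key u 0 ⟨hu, h00, Or.inr rfl⟩
  have hGF : ∀ x, G (F x) = x := by
    have hd := Arc.dom_dense hG h.flow h00 hu
    have : (fun x => G (F x)) = id := by
      refine Continuous.ext_on hd (hGc.comp hFc) continuous_id fun x hx => ?_
      obtain ⟨h1, h2⟩ := h.flow.inv 0 h00 u hu x hx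
      show G (F x) = x
      rw [hF x hx, hG' _ h1, h2]
    exact fun x => congrFun this x
  have hFG : ∀ x, F (G x) = x := by
    have hd := Arc.dom_dense hG h.flow hu h00
    have : (fun x => F (G x)) = id := by
      refine Continuous.ext_on hd (hFc.comp hGc) continuous_id fun x hx => ?_
      obtain ⟨h1, h2⟩ := h.flow.inv u hu 0 h00 x hx
      show F (G x) = x
      rw [hG' x hx, hF _ h1, h2]
    exact fun x => congrFun this x
  exact ⟨⟨⟨F, G, hGF, hFG⟩, hFc, hGc⟩, hF⟩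

end Family

end Pool.Agent.SYR
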