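import Pool.Agent.SYR.Defs

/-!
# SYR/Alg1 : identities for a hyperkähler triple with frame `P`

All identities were checked numerically (N = 8, random P). Hints: `E := J * Sm P τ`,
`P * I * P⁻¹ = I - E` because `J⁻¹ K = -(J K) = -I` and
`(Pᵀ J P)⁻¹ (Pᵀ K P) = P⁻¹ (J⁻¹ K) P`.
-/

set_option autoImplicit false

open Matrix

namespace Pool.Agent.SYR

variable {ι : Type} [Fintype ι] [DecidableEq ι] {I J K P τ : Matrix ι ι ℝ}

private theorem mi (h : Tri J K P τ) : P * P⁻¹ = 1 := Matrix.mul_nonsing_inv P h.inv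

private theorem im (h : Tri J K P τ) : P⁻¹ * P = 1 := Matrix.nonsing_inv_mul P h.inv

private theorem inv_eq (hq : Quat I J K) (h : Tri J K P τ) : P⁻¹ = -(J * Pᵀ * J) := by
  have h1 : -(J * Pᵀ * J) * P = 1 := by
    have : -(J * Pᵀ * J) * P = -(J * (Pᵀ * J * P)) := by noncomm_ring
    rw [this, h.symp, hq.JJ, neg_neg]
  calc P⁻¹ = (-(J * Pᵀ * J) * P) * P⁻¹ := by rw [h1, one_mul]
    _ = -(J * Pᵀ * J) * (P * P⁻¹) := by rw [mul_assoc]
    _ = -(J * Pᵀ * J) := by rw [mi h, mul_one]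

private theorem PJ (hq : Quat I J K) (h : Tri J K P τ) : P * J = J * (P⁻¹)ᵀ := by
  have h1 : (P⁻¹)ᵀ = -(J * P * J) := by
    rw [inv_eq hq h, transpose_neg, transpose_mul, transpose_mul, transpose_transpose, hq.Jt]
    noncomm_ring
  rw [h1]
  have : J * -(J * P * J) = -(J * J) * P * J := by noncomm_ring
  rw [this, hq.JJ, neg_neg, one_mul]

theorem Tri.tau_skew (hq : Quat I J K) (h : Tri J K P τ) : τᵀ = -τ := by
  have h1 : τ = Pᵀ * K * P - K := by rw [h.tau]; abel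
  rw [h1, transpose_sub, transpose_mul, transpose_mul, transpose_transpose, hq.Kt]
  noncomm_ring

theorem Tri.det_sq (hq : Quat I J K) (h : Tri J K P τ) : P.det ^ 2 = 1 := by
  have h1 := congrArg Matrix.det h.symp
  rw [det_mul, det_mul, det_transpose] at h1
  have h2 := congrArg Matrix.det hq.JJ
  rw [det_mul, det_neg, det_one, mul_one] at h2
  have h3 : J.det ≠ 0 := by
    intro h0
    rw [h0, mul_zero] at h2
    exact pow_ne_zero _ (by norm_num : (-1 : ℝ) ≠ 0) h2.symm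
  have h4 : (P.det ^ 2 - 1) * J.det = 0 := by linear_combination h1
  rcases mul_eq_zero.1 h4 with h5 | h5
  · linarith
  · exact absurd h5 h3

theorem Tri.det_gm (hq : Quat I J K) (h : Tri J K P τ) : (gm P).det = 1 := by
  unfold gm
  rw [det_mul, det_transpose, ← sq, h.det_sq hq]

/-- the complex structure of the triple -/
theorem Tri.conj (hq : Quat I J K) (h : Tri J K P τ) : P⁻¹ * I * P = I + J * τ := by
  rw [inv_eq hq h]
  have h1 : -(J * Pᵀ * J) * I * P = -(J * Pᵀ * (J * I) * P) := by noncomm_ring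
  rw [h1, hq.JI]
  have h2 : -(J * Pᵀ * -K * P) = J * (Pᵀ * K * P) := by noncomm_ring
  rw [h2, h.tau, mul_add, hq.JK]

private theorem E_eq' (hq : Quat I J K) (h : Tri J K P τ) :
    J * Sm P τ = P * (J * τ) * P⁻¹ := by
  unfold Sm
  have h1 : P * (J * τ) * P⁻¹ = (P * J) * τ * P⁻¹ := by noncomm_ring
  rw [h1, PJ hq h]
  noncomm_ring

theorem Tri.conj' (hq : Quat I J K) (h : Tri J K P τ) :
    P * I * P⁻¹ = I - J * Sm P τ := by
  have h1 : P * (P⁻¹ * I * P) * P⁻¹ = I := by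
    have : P * (P⁻¹ * I * P) * P⁻¹ = (P * P⁻¹) * I * (P * P⁻¹) := by noncomm_ring
    rw [this, mi h, one_mul, mul_one]
  rw [h.conj hq, mul_add, add_mul, ← E_eq' hq h] at h1
  exact eq_sub_of_add_eq h1

theorem Tri.E_eq (hq : Quat I J K) (h : Tri J K P τ) :
    J * Sm P τ = P * (J * τ) * P⁻¹ := E_eq' hq h

theorem Tri.rel (hq : Quat I J K) (h : Tri J K P τ) :
    I * (J * Sm P τ) + (J * Sm P τ) * I = (J * Sm P τ) * (J * Sm P τ) := by
  have h1 : (P * I * P⁻¹) * (P * I * P⁻¹) = -1 := by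
    have : (P * I * P⁻¹) * (P * I * P⁻¹) = P * (I * (P⁻¹ * P) * I) * P⁻¹ := by noncomm_ring
    rw [this, im h, mul_one, hq.II, mul_neg, mul_one, neg_mul, mi h]
  rw [h.conj' hq] at h1
  generalize J * Sm P τ = E at h1 ⊢
  have h2 : (I - E) * (I - E) = I * I - (I * E + E * I) + E * E := by noncomm_ring
  rw [h2, hq.II] at h1
  have h3 : I * E + E * I = E * E - (-1 - (I * E + E * I) + E * E) + -1 := by abel
  rw [h3, h1]
  abel

private theorem omI (hq : Quat I J K) (h : Tri J K P τ) :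
    om I P * I = -(Pᵀ * (1 + I * (J * Sm P τ)) * P) := by
  have h1 : om I P * I = Pᵀ * I * (P * I * P⁻¹) * P := by
    unfold om
    have : Pᵀ * I * (P * I * P⁻¹) * P = Pᵀ * I * P * I * (P⁻¹ * P) := by noncomm_ring
    rw [this, im h, mul_one]
  rw [h1, h.conj' hq]
  have h2 : Pᵀ * I * (I - J * Sm P τ) * P =
      Pᵀ * (I * I - I * (J * Sm P τ)) * P := by noncomm_ring
  rw [h2, hq.II]
  noncomm_ring

private theorem Iom (hq : Quat I J K) (h : Tri J K P τ) :
    I * om I P = -(Pᵀ * (1 + (I * (J * Sm P τ))ᵀ) * P) := by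
  have h1 : I * om I P = (om I P * I)ᵀ := by
    unfold om
    simp only [transpose_mul, transpose_transpose, hq.It]
    noncomm_ring
  rw [h1, omI hq h]
  simp only [transpose_mul, transpose_neg, transpose_add, transpose_one, transpose_transpose]
  noncomm_ring

theorem Tri.her_om (hq : Quat I J K) (h : Tri J K P τ) :
    her I (om I P) = Pᵀ * (1 + Ym I J P τ) * P := by
  unfold her Ym
  rw [omI hq h, Iom hq h]
  generalize I * (J * Sm P τ) = A
  have h1 : (1 : Matrix ι ι ℝ) + (1 / 2 : ℝ) • (A + Aᵀ) =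
      (1 / 2 : ℝ) • ((1 + A) + (1 + Aᵀ)) := by module
  have h2 : Pᵀ * ((1 + A) + (1 + Aᵀ)) * P = Pᵀ * (1 + A) * P + Pᵀ * (1 + Aᵀ) * P := by
    rw [Matrix.mul_add Pᵀ (1 + A) (1 + Aᵀ), Matrix.add_mul]
  rw [h1, Matrix.mul_smul, Matrix.smul_mul, h2, ← neg_add, smul_neg, neg_smul, neg_neg]

theorem Tri.Ym_symm : (Ym I J P τ)ᵀ = Ym I J P τ := by
  unfold Ym
  rw [transpose_smul, transpose_add, transpose_transpose, add_comm]

private theorem tr_conj (h : Tri J K P τ) (A : Matrix ι ι ℝ) : (P * A * P⁻¹).trace = A.trace := by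
  rw [trace_mul_comm, ← mul_assoc, im h, one_mul]

theorem Tri.trace_Ym (hq : Quat I J K) (h : Tri J K P τ) :
    (Ym I J P τ).trace = 1 / 2 * ((J * τ) * (J * τ)).trace := by
  have h1 := congrArg Matrix.trace (h.rel hq)
  have h2 : (J * Sm P τ) * (J * Sm P τ) = P * ((J * τ) * (J * τ)) * P⁻¹ := by
    rw [h.E_eq hq]
    have : P * (J * τ) * P⁻¹ * (P * (J * τ) * P⁻¹) =
      P * ((J * τ) * (P⁻¹ * P) * (J * τ)) * P⁻¹ := by noncomm_ring
    rw [this, im h, mul_one]
  rw [h2, tr_conj h, trace_add, trace_mul_comm (J * Sm P τ) I] at h1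
  unfold Ym
  rw [trace_smul, trace_add, trace_transpose, smul_eq_mul, h1]

theorem Tri.trace_Ym_sq (hq : Quat I J K) (h : Tri J K P τ) :
    (Ym I J P τ * Ym I J P τ).trace =
      1 / 2 * ((((I + J * τ) * (J * τ)) * ((I + J * τ) * (J * τ))).trace + nsq (Sm P τ)) := by
  have h1 : ((I + J * τ) * (J * τ)) = P⁻¹ * (I * (J * Sm P τ)) * P := by
    rw [← h.conj hq, h.E_eq hq]
    have : P⁻¹ * (I * (P * (J * τ) * P⁻¹)) * P = P⁻¹ * I * P * (J * τ) * (P⁻¹ * P) := by
      noncomm_ring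
    rw [this, im h, mul_one]
  have h2 : (((I + J * τ) * (J * τ)) * ((I + J * τ) * (J * τ))).trace =
      ((I * (J * Sm P τ)) * (I * (J * Sm P τ))).trace := by
    rw [h1]
    have : P⁻¹ * (I * (J * Sm P τ)) * P * (P⁻¹ * (I * (J * Sm P τ)) * P) =
      P⁻¹ * ((I * (J * Sm P τ)) * (P * P⁻¹) * (I * (J * Sm P τ))) * P := by noncomm_ring
    rw [this, mi h, mul_one, trace_mul_comm, ← mul_assoc, mi h, one_mul]
  have h3 : nsq (Sm P τ) = ((I * (J * Sm P τ)) * (I * (J * Sm P τ))ᵀ).trace := by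
    have h4 : (I * (J * Sm P τ)) * (I * (J * Sm P τ))ᵀ =
        I * (J * (Sm P τ * (Sm P τ)ᵀ) * J) * I := by
      rw [transpose_mul, transpose_mul, hq.It, hq.Jt]
      noncomm_ring
    have h5 : (I * (J * (Sm P τ * (Sm P τ)ᵀ) * J) * I).trace = (Sm P τ * (Sm P τ)ᵀ).trace := by
      rw [trace_mul_comm, ← mul_assoc, hq.II, neg_mul, one_mul, trace_neg, trace_mul_comm,
        ← mul_assoc, hq.JJ, neg_mul, one_mul, trace_neg, neg_neg]
    rw [h4, h5]
    unfold nsq ip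
    simp only [Matrix.trace, Matrix.diag, Matrix.mul_apply, transpose_apply]
  rw [h2, h3]
  unfold Ym
  generalize I * (J * Sm P τ) = A
  have h6 : ((1 / 2 : ℝ) • (A + Aᵀ)) * ((1 / 2 : ℝ) • (A + Aᵀ)) =
      (1 / 4 : ℝ) • (A * A + A * Aᵀ + Aᵀ * A + Aᵀ * Aᵀ) := by
    rw [Matrix.smul_mul, Matrix.mul_smul, smul_smul]
    have : (A + Aᵀ) * (A + Aᵀ) = A * A + A * Aᵀ + Aᵀ * A + Aᵀ * Aᵀ := by noncomm_ring
    rw [this]
    norm_num
  have h7 : (Aᵀ * Aᵀ).trace = (A * A).trace := by rw [← transpose_mul, trace_transpose]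
  rw [h6, trace_smul, trace_add, trace_add, trace_add, h7, trace_mul_comm Aᵀ A, smul_eq_mul]
  ring

private theorem om_eq (hq : Quat I J K) (h : Tri J K P τ) :
    om I P = gm P * (I + J * τ) := by
  rw [← h.conj hq]
  unfold om gm
  have : Pᵀ * P * (P⁻¹ * I * P) = Pᵀ * (P * P⁻¹) * I * P := by noncomm_ring
  rw [this, mi h, mul_one]

private theorem Ih_sq (hq : Quat I J K) (h : Tri J K P τ) :
    (I + J * τ) * (I + J * τ) = -1 := by
  rw [← h.conj hq]
  have : P⁻¹ * I * P * (P⁻¹ * I * P) = P⁻¹ * (I * (P * P⁻¹) * I) * P := by noncomm_ring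
  rw [this, mi h, mul_one, hq.II, mul_neg, mul_one, neg_mul, im h]

private theorem om_tr (hq : Quat I J K) : (om I P)ᵀ = -om I P := by
  unfold om
  rw [transpose_mul, transpose_mul, transpose_transpose, hq.It]
  noncomm_ring

private theorem gm_tr : (gm P)ᵀ = gm P := by
  unfold gm
  rw [transpose_mul, transpose_transpose]

theorem Tri.gm_eq (hq : Quat I J K) (h : Tri J K P τ) :
    gm P = -(om I P * (I + J * τ)) := by
  rw [om_eq hq h, mul_assoc, Ih_sq hq h, mul_neg, mul_one, neg_neg]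

theorem Tri.two_om (hq : Quat I J K) (h : Tri J K P τ) :
    two I (om I P) = (1 / 2 : ℝ) •
      (gm P * J * τ - τ * J * gm P - τ * J * om I P * J * τ) := by
  unfold two
  congr 1
  obtain ⟨A, hA⟩ : ∃ A, A = I + J * τ := ⟨_, rfl⟩
  have h1 : gm P = -(om I P * A) := by rw [hA]; exact h.gm_eq hq
  have hAt : Aᵀ = -I + τ * J := by
    rw [hA, transpose_add, transpose_mul, hq.It, hq.Jt, h.tau_skew hq]
    noncomm_ring
  have h2 : gm P = Aᵀ * om I P := by
    have := congrArg transpose h1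
    rw [gm_tr, transpose_neg, transpose_mul, om_tr hq] at this
    rw [this]
    noncomm_ring
  have h3 : A * A = -1 := by rw [hA]; exact Ih_sq hq h
  have hI : I = A - J * τ := by rw [hA]; abel
  have hI' : I = -Aᵀ + τ * J := by rw [hAt]; abel
  have h4 : om I P = gm P * A := by rw [hA]; exact om_eq hq h
  have h5 : I * om I P * I = (-Aᵀ + τ * J) * om I P * (A - J * τ) := by
    rw [← hI, ← hI']
  rw [h5]
  have h6 : (-Aᵀ + τ * J) * om I P * (A - J * τ) =
      -(Aᵀ * om I P) * A + (Aᵀ * om I P) * (J * τ) + τ * J * (om I P * A) -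
        τ * J * om I P * (J * τ) := by noncomm_ring
  have h7 : om I P * A = -gm P := by rw [h1, neg_neg]
  rw [h6, ← h2, h7]
  have h8 : -gm P * A = -om I P := by rw [h4]; noncomm_ring
  rw [h8]
  noncomm_ring

theorem Tri.nsq_Sm (hq : Quat I J K) (h : Tri J K P τ) :
    nsq (Sm P τ) = ((gm P)⁻¹ * τᵀ * (gm P)⁻¹ * τ).trace := by
  have h1 : (gm P)⁻¹ = P⁻¹ * (P⁻¹)ᵀ := by
    unfold gm
    rw [Matrix.mul_inv_rev, transpose_nonsing_inv]
  have h2 : nsq (Sm P τ) = ((Sm P τ)ᵀ * Sm P τ).trace := by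
    unfold nsq ip
    simp only [Matrix.trace, Matrix.diag, Matrix.mul_apply, transpose_apply]
    rw [Finset.sum_comm]
  rw [h2, h1]
  unfold Sm
  rw [transpose_mul, transpose_mul, transpose_transpose]
  have h3 : (P⁻¹)ᵀ * (τᵀ * P⁻¹) * ((P⁻¹)ᵀ * τ * P⁻¹) =
      ((P⁻¹)ᵀ * τᵀ * P⁻¹ * (P⁻¹)ᵀ * τ) * P⁻¹ := by noncomm_ring
  rw [h3, trace_mul_comm]
  congr 1
  noncomm_ring

theorem Tri.det_her (hq : Quat I J K) (h : Tri J K P τ) :
    (her I (om I P)).det = (1 + Ym I J P τ).det := by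
  rw [h.her_om hq, det_mul, det_mul, det_transpose]
  have := h.det_sq hq
  linear_combination (1 + Ym I J P τ).det * this

end Pool.Agent.SYR
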