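import Pool.Agent.SYR.Slice

/-!
# SYR/Arc : an arc of the twistor circle of a primitive symplectic variety

`X_u`, `u ∈ [0, U]`, are the members of a locally trivial family of compact `ℚ`-factorial terminal
primitive symplectic varieties with Kähler classes `κ_u` and `[σ_u]' = i κ_u`, `κ_u' = -[Im σ_u]`.
`M` is the regular part of `X_0`; all `X_u^reg` are identified with `M` by the flow of an ambient
smooth vector field `V` for which `L_V σ_u = i θ_u`, `θ_u` an ambient smooth Kähler form in `κ_u`.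
So `Re σ_u` and the volume `μ` do not depend on `u`; the flow preserves ambient smooth forms. `g_u` is
the singular Ricci-flat metric in `κ_u` (Eyssidieux, Guedj, Zeriahi), with Kähler form
`ω_u = θ_u + dd^c ψ_u`; `ψ_u` depends continuously on `u`, with all derivatives on compact subsets of
`M`. The metric is normalised so that `(ω_u, Re σ_u, Im σ_u)` is a hyperkähler triple.

Forms are matrices in a fixed measurable frame `(e_i)` of the tangent bundle of `M` which is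
orthonormal and adapted to the triple of `g_0`: the matrix of a bilinear form `α` is
`(α(e_j, e_i))_ij`, so `i_W α` is `α *ᵥ W` and the pull-back of `α` by `P` is `Pᵀ α P`. `Re σ` is the
constant matrix `J`. `P u x` is the matrix (fixed frame to adapted orthonormal frame of `g_u`) for
which `ω_u = Pᵀ I P`, `Re σ_u = Pᵀ J P`, `Im σ_u = Pᵀ K P`, `g_u = Pᵀ P`.
-/

set_option autoImplicit false

open Matrix MeasureTheory Filter Topology Set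
open scoped ENNReal

namespace Pool.Agent.SYR

/-- The data. -/
structure Arc (ι : Type) where
  M : Type
  [top : TopologicalSpace M]
  [mea : MeasurableSpace M]
  [bor : BorelSpace M]
  /-- the volume of all the metrics -/
  μ : Measure M
  /-- length of the arc -/
  U : ℝ
  I : Matrix ι ι ℝ
  J : Matrix ι ι ℝ
  K : Matrix ι ι ℝ
  P : ℝ → M → Matrix ι ι ℝ
  /-- the ambient smooth form `θ_u` -/
  Θ : ℝ → M → Matrix ι ι ℝ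
  /-- `d^c ψ_u` -/
  η : ℝ → M → ι → ℝ
  /-- the vector field `W_u` with `L_W σ_u = i (ω_u - θ_u)` -/
  W : ℝ → M → ι → ℝ
  /-- the form `L_W ω_u = d(i_W ω_u)` -/
  A : ℝ → M → Matrix ι ι ℝ
  /-- functions of class `C¹` on `M` -/
  sm : Set (M → ℝ)
  /-- those with compact support -/
  cs : Set (M → ℝ)
  /-- differential of a function of class `C¹` -/
  dl : (M → ℝ) → M → ι → ℝ
  /-- closed smooth real 2-forms -/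
  Cl : Set (M → Matrix ι ι ℝ)
  /-- `Ex β β'`: the smooth 1-form `β` has exterior derivative `β'` -/
  Ex : (M → ι → ℝ) → (M → Matrix ι ι ℝ) → Prop
  /-- cut-off functions -/
  χ : ℕ → M → ℝ
  /-- the flow of `W` from time `s` to time `t` and its domain -/
  Fl : ℝ → ℝ → M → M
  Dom : ℝ → ℝ → Set M
  /-- differential of `Fl 0 u` -/
  DF : ℝ → M → Matrix ι ι ℝ
  /-- the length distance of `(M, g_u)` -/
  dist : ℝ → M → M → ℝ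
  /-- the resolvent `(l - Δ_u)⁻¹` on bounded functions -/
  Res : ℝ → ℝ → (M → ℝ) → M → ℝ

attribute [instance] Arc.top Arc.mea Arc.bor

namespace Arc

variable {ι : Type} [Fintype ι] [DecidableEq ι] (a : Arc ι)

/-- total volume -/
noncomputable def V : ℝ := a.μ.real univ

/-- the Kähler form `ω_u` -/
def ω (u : ℝ) (x : a.M) : Matrix ι ι ℝ := om a.I (a.P u x)

/-- the form `Im σ_u` -/
def B (u : ℝ) (x : a.M) : Matrix ι ι ℝ := (a.P u x)ᵀ * a.K * a.P u x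

/-- the metric `g_u` -/
def g (u : ℝ) (x : a.M) : Matrix ι ι ℝ := gm (a.P u x)

/-- a bilinear form in the adapted frame of `g_u` -/
noncomputable def hat (u : ℝ) (x : a.M) (A : Matrix ι ι ℝ) : Matrix ι ι ℝ :=
  ((a.P u x)⁻¹)ᵀ * A * (a.P u x)⁻¹

/-- a covector in the adapted frame of `g_u` -/
noncomputable def co (u : ℝ) (x : a.M) (v : ι → ℝ) : ι → ℝ := ((a.P u x)⁻¹)ᵀ *ᵥ v

/-- product of covectors for `g_u` -/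
noncomputable def pr (u : ℝ) (x : a.M) (v w : ι → ℝ) : ℝ := a.co u x v ⬝ᵥ a.co u x w

/-- the Lie derivative `L_W g_u` in the adapted frame -/
noncomputable def S (u : ℝ) (x : a.M) : Matrix ι ι ℝ :=
  -(a.hat u x (a.A u x) * a.I + a.J - a.K * a.hat u x (a.Θ u x))

/-- Geometric facts. -/
structure Geom (C h0 : ℝ) : Prop where
  fin : IsFiniteMeasure a.μ
  pos : a.μ.IsOpenPosMeasure
  U_pos : 0 < a.U
  h0_pos : 0 < h0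
  h0_le : h0 ≤ 1
  C_nonneg : 0 ≤ C
  small : 8 * C * h0 ≤ 1 / 2
  card : 4 ≤ Fintype.card ι
  quat : Quat a.I a.J a.K
  P_meas : ∀ i j, Measurable (fun z : ℝ × a.M => a.P z.1 z.2 i j)
  Θ_meas : ∀ i j, Measurable (fun z : ℝ × a.M => a.Θ z.1 z.2 i j)
  η_meas : ∀ i, Measurable (fun z : ℝ × a.M => a.η z.1 z.2 i)
  W_meas : ∀ i, Measurable (fun z : ℝ × a.M => a.W z.1 z.2 i)
  A_meas : ∀ i j, Measurable (fun z : ℝ × a.M => a.A z.1 z.2 i j)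
  inv : ∀ u ∈ Icc 0 a.U, ∀ x, IsUnit (a.P u x).det
  symp : ∀ u ∈ Icc 0 a.U, ∀ x, (a.P u x)ᵀ * a.J * a.P u x = a.J
  /-- `d/du Im σ_u = θ_u` -/
  B_deriv : ∀ u ∈ Icc 0 a.U, ∀ x i j,
    HasDerivWithinAt (fun s => a.B s x i j) (a.Θ u x i j) (Icc 0 a.U) u
  /-- `θ_s ≤ C g_u` -/
  Θ_bdd : ∀ u ∈ Icc 0 a.U, ∀ s ∈ Icc 0 a.U, ∀ x, nrm (a.hat u x (a.Θ s x)) ≤ C
  Θ_lip : ∀ u ∈ Icc 0 a.U, ∀ s ∈ Icc 0 a.U, ∀ x,
    nrm (a.hat u x (a.Θ s x - a.Θ u x)) ≤ C * |s - u|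
  /-- `|dψ_u| ≤ C` -/
  η_bdd : ∀ u ∈ Icc 0 a.U, ∀ x, a.pr u x (a.η u x) (a.η u x) ≤ C ^ 2
  W_bdd : ∀ u ∈ Icc 0 a.U, ∀ x, vsq (a.P u x *ᵥ a.W u x) ≤ C ^ 2
  lie : ∀ u ∈ Icc 0 a.U, ∀ x,
    Lie a.I a.J a.K (a.hat u x (a.A u x)) (a.hat u x (a.Θ u x))
  /-- the Hessian of `ψ_u` is in `L²` -/
  A_sq : ∀ u ∈ Icc 0 a.U, Integrable (fun x => nsq (a.hat u x (a.A u x))) a.μ
  cs_sm : a.cs ⊆ a.sm
  sm_cont : ∀ φ ∈ a.sm, Continuous φ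
  cs_bdd : ∀ φ ∈ a.cs, ∃ L, ∀ x, |φ x| ≤ L
  dl_meas : ∀ φ ∈ a.sm, ∀ i, Measurable (fun x => a.dl φ x i)
  cs_sq : ∀ φ ∈ a.cs, (fun x => φ x ^ 2) ∈ a.cs ∧
    ∀ x, a.dl (fun x => φ x ^ 2) x = (2 * φ x) • a.dl φ x
  cs_mul : ∀ φ ∈ a.cs, ∀ f ∈ a.sm, (fun x => φ x * f x) ∈ a.cs ∧
    ∀ x, a.dl (fun x => φ x * f x) x = φ x • a.dl f x + f x • a.dl φ x
  sm_sub : ∀ f ∈ a.sm, ∀ h ∈ a.sm, (fun x => f x - h x) ∈ a.sm ∧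
    ∀ x, a.dl (fun x => f x - h x) x = a.dl f x - a.dl h x
  sm_mul : ∀ f ∈ a.sm, ∀ h ∈ a.sm, (fun x => f x * h x) ∈ a.sm ∧
    ∀ x, a.dl (fun x => f x * h x) x = f x • a.dl h x + h x • a.dl f x
  pr_cont : ∀ u ∈ Icc 0 a.U, ∀ φ ∈ a.sm, Continuous (fun x => a.pr u x (a.dl φ x) (a.dl φ x))
  /-- uniform bounds on compact sets -/
  supp : ∀ φ ∈ a.cs, ∃ L, ∀ u ∈ Icc 0 a.U, ∀ x, φ x ≠ 0 →
    nrm (a.P u x) ≤ L ∧ nrm (a.P u x)⁻¹ ≤ L ∧ nrm (a.A u x) ≤ L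
  χ_cs : ∀ j, a.χ j ∈ a.cs
  χ_nonneg : ∀ j x, 0 ≤ a.χ j x
  χ_le_one : ∀ j x, a.χ j x ≤ 1
  χ_lim : ∀ x, Tendsto (fun j => a.χ j x) atTop (𝓝 1)
  c_bdd : ∀ φ ∈ a.cs, ∃ L, ∀ u ∈ Icc 0 a.U, ∀ x, a.pr u x (a.dl φ x) (a.dl φ x) ≤ L
  /-- the complement of `M` has capacity zero -/
  c_sq : ∃ ε : ℕ → ℝ, Tendsto ε atTop (𝓝 0) ∧ ∀ j, ∀ u ∈ Icc 0 a.U,
    ∫ x, a.pr u x (a.dl (a.χ j) x) (a.dl (a.χ j) x) ∂a.μ ≤ ε j
  cl_sub : ∀ α ∈ a.Cl, ∀ β ∈ a.Cl, (fun x => α x - β x) ∈ a.Cl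
  ω_cl : ∀ u ∈ Icc 0 a.U, a.ω u ∈ a.Cl
  A_cl : ∀ u ∈ Icc 0 a.U, a.A u ∈ a.Cl
  η_ex : ∀ u ∈ Icc 0 a.U, a.Ex (a.η u) (fun x => a.ω u x - a.Θ u x)
  A_ex : ∀ u ∈ Icc 0 a.U, a.Ex (fun x => a.ω u x *ᵥ a.W u x) (a.A u)
  /-- Stokes' theorem for `φ α ∧ dβ ∧ ω_u^(n-2)` -/
  stokes : ∀ u ∈ Icc 0 a.U, ∀ φ ∈ a.cs, ∀ α ∈ a.Cl, ∀ β β', a.Ex β β' →
    |∫ x, φ x * Q a.I (a.hat u x (α x)) (a.hat u x (β' x)) ∂a.μ| ≤
      C * ∫ x, Real.sqrt (a.pr u x (a.dl φ x) (a.dl φ x)) * Real.sqrt (a.pr u x (β x) (β x)) *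
        nrm (a.hat u x (α x)) ∂a.μ
  /-- the intersection number of `κ_s` and `κ_u^(n-1)` -/
  coh : ∀ u ∈ Icc 0 a.U, ∀ s ∈ Icc 0 a.U,
    ∫ x, ip a.I (a.hat u x (a.Θ s x)) ∂a.μ = Fintype.card ι * Real.cos (s - u) * a.V
  /-- the metrics depend continuously on `u` -/
  cont : ∀ x i j, ContinuousOn (fun u => a.g u x i j) (Icc 0 a.U)
  /-- the divergence of `W_u` is zero -/
  div : ∀ u ∈ Icc 0 a.U, ∀ φ ∈ a.cs, ∫ x, a.dl φ x ⬝ᵥ a.W u x ∂a.μ = 0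

/-- Facts on the flow of the time dependent vector field `W_u` on the manifold `M` (Cauchy-Lipschitz;
`rot` is Cartan's formula: the hypothesis says `d/du ω_u = - L_W ω_u - Im σ_u`). -/
structure Flow : Prop where
  self : ∀ s ∈ Icc 0 a.U, ∀ x, x ∈ a.Dom s s ∧ a.Fl s s x = x
  isOpen : ∀ s ∈ Icc 0 a.U, ∀ t ∈ Icc 0 a.U, IsOpen (a.Dom s t)
  cont : ∀ s ∈ Icc 0 a.U, ∀ t ∈ Icc 0 a.U, ContinuousOn (a.Fl s t) (a.Dom s t)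
  comp : ∀ s ∈ Icc 0 a.U, ∀ t ∈ Icc 0 a.U, ∀ r ∈ uIcc s t, ∀ x ∈ a.Dom s t,
    x ∈ a.Dom s r ∧ a.Fl s r x ∈ a.Dom r t ∧ a.Fl r t (a.Fl s r x) = a.Fl s t x
  inv : ∀ s ∈ Icc 0 a.U, ∀ t ∈ Icc 0 a.U, ∀ x ∈ a.Dom s t,
    a.Fl s t x ∈ a.Dom t s ∧ a.Fl t s (a.Fl s t x) = x
  /-- a trajectory which does not exist up to time `t` leaves every compact set -/
  blow : ∀ s ∈ Icc 0 a.U, ∀ t ∈ Icc 0 a.U, ∀ x, x ∉ a.Dom s t → ∀ φ ∈ a.cs,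
    ∃ r ∈ uIcc s t, x ∈ a.Dom s r ∧ φ (a.Fl s r x) = 0
  deriv : ∀ φ ∈ a.sm, ∀ s ∈ Icc 0 a.U, ∀ t ∈ Icc 0 a.U, ∀ x ∈ a.Dom s t, ∀ r ∈ uIcc s t,
    HasDerivWithinAt (fun r => φ (a.Fl s r x)) (a.dl φ (a.Fl s r x) ⬝ᵥ a.W r (a.Fl s r x))
      (uIcc s t) r
  deriv_cont : ∀ φ ∈ a.sm, ∀ s ∈ Icc 0 a.U, ∀ t ∈ Icc 0 a.U, ∀ x ∈ a.Dom s t,
    ContinuousOn (fun r => a.dl φ (a.Fl s r x) ⬝ᵥ a.W r (a.Fl s r x)) (uIcc s t)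
  meas : ∀ s ∈ Icc 0 a.U, Measurable (fun z : ℝ × a.M => a.Fl s z.1 z.2) ∧
    MeasurableSet {z : ℝ × a.M | z.1 ∈ Icc 0 a.U ∧ z.2 ∈ a.Dom s z.1}
  /-- the flow preserves the volume -/
  pres : ∀ s ∈ Icc 0 a.U, ∀ t ∈ Icc 0 a.U, ∀ f : a.M → ℝ≥0∞, Measurable f →
    ∫⁻ x in a.Dom s t, f (a.Fl s t x) ∂a.μ = ∫⁻ x in a.Dom t s, f x ∂a.μ
  chain : ∀ u ∈ Icc 0 a.U, ∀ φ ∈ a.sm, ∀ ψ ∈ a.sm,
    (∀ y ∈ a.Dom 0 u, ψ y = φ (a.Fl 0 u y)) → ∀ y ∈ a.Dom 0 u,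
      a.dl ψ y = (a.DF u y)ᵀ *ᵥ a.dl φ (a.Fl 0 u y)
  rot : (∀ u ∈ Icc 0 a.U, ∀ᵐ x ∂a.μ, ∀ i j,
      a.ω u x i j = a.ω 0 x i j - ∫ s in (0 : ℝ)..u, (a.A s x i j + a.B s x i j)) →
    ∀ u ∈ Icc 0 a.U, ∀ y ∈ a.Dom 0 u,
      (a.DF u y)ᵀ * a.ω u (a.Fl 0 u y) * a.DF u y =
        Real.cos u • a.ω 0 y - Real.sin u • a.B 0 y ∧
      (a.DF u y)ᵀ * a.J * a.DF u y = a.J ∧
      (a.DF u y)ᵀ * a.B u (a.Fl 0 u y) * a.DF u y =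
        Real.cos u • a.B 0 y + Real.sin u • a.ω 0 y

/-- Facts on the metric measure spaces `(M, g_u, μ)`, whose completions are `RCD(0, N)` spaces:
resolvents of bounded functions are Lipschitz, the gradient contraction of Bakry and Emery. -/
structure Rcd : Prop where
  dist_self : ∀ u ∈ Icc 0 a.U, ∀ x, a.dist u x x = 0
  dist_nonneg : ∀ u ∈ Icc 0 a.U, ∀ x y, 0 ≤ a.dist u x y
  dist_comm : ∀ u ∈ Icc 0 a.U, ∀ x y, a.dist u x y = a.dist u y x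
  dist_tri : ∀ u ∈ Icc 0 a.U, ∀ x y z, a.dist u x z ≤ a.dist u x y + a.dist u y z
  dist_cont : ∀ u ∈ Icc 0 a.U, ∀ x, Continuous (fun z => a.dist u x z)
  /-- `g_u` is the length distance -/
  lip : ∀ u ∈ Icc 0 a.U, ∀ φ ∈ a.sm, ∀ L, 0 ≤ L →
    (∀ x, a.pr u x (a.dl φ x) (a.dl φ x) ≤ L ^ 2) → ∀ x y, |φ x - φ y| ≤ L * a.dist u x y
  res_sm : ∀ l, 0 < l → ∀ u ∈ Icc 0 a.U, ∀ f : a.M → ℝ, Measurable f → ∀ L, (∀ x, |f x| ≤ L) →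
    a.Res l u f ∈ a.sm ∧ ∀ x, |a.Res l u f x| ≤ L / l
  res_congr : ∀ l, 0 < l → ∀ u ∈ Icc 0 a.U, ∀ f h : a.M → ℝ, f =ᵐ[a.μ] h →
    a.Res l u f = a.Res l u h
  res_grad : ∀ l, 0 < l → ∃ D, 0 ≤ D ∧ ∀ u ∈ Icc 0 a.U, ∀ f : a.M → ℝ, Measurable f →
    ∀ L, (∀ x, |f x| ≤ L) → ∀ x, a.pr u x (a.dl (a.Res l u f) x) (a.dl (a.Res l u f) x) ≤
      (D * L) ^ 2
  /-- `(l - Δ_u) R f = f` weakly -/
  res_eq : ∀ l, 0 < l → ∀ u ∈ Icc 0 a.U, ∀ f : a.M → ℝ, Measurable f → ∀ L, (∀ x, |f x| ≤ L) →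
    ∀ φ ∈ a.cs, ∫ x, a.pr u x (a.dl (a.Res l u f) x) (a.dl φ x) ∂a.μ +
      l * ∫ x, a.Res l u f x * φ x ∂a.μ = ∫ x, f x * φ x ∂a.μ
  res_lip : ∀ l, 0 < l → ∀ u ∈ Icc 0 a.U, ∀ f : a.M → ℝ, Continuous f → ∀ L D, 0 ≤ D →
    (∀ x, |f x| ≤ L) → (∀ x y, |f x - f y| ≤ D * a.dist u x y) →
      ∀ x, a.pr u x (a.dl (a.Res l u f) x) (a.dl (a.Res l u f) x) ≤ (D / l) ^ 2
  res_lim : ∀ u ∈ Icc 0 a.U, ∀ f : a.M → ℝ, Continuous f → ∀ L D,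
    (∀ x, |f x| ≤ L) → (∀ x y, |f x - f y| ≤ D * a.dist u x y) →
      ∀ x, Tendsto (fun l => l * a.Res l u f x) atTop (𝓝 (f x))
  /-- integration by parts for `G = R f`, `H = R h` (functions in `W^{2,p}_loc`), with
  `ΔG = l G - f`, `ΔH = l H - h`, `div W = 0` and the Lie derivative `S` of the metric -/
  stress : ∀ l, 0 < l → ∀ u ∈ Icc 0 a.U, ∀ f h : a.M → ℝ, Measurable f → Measurable h → ∀ L,
    (∀ x, |f x| ≤ L) → (∀ x, |h x| ≤ L) → ∀ φ ∈ a.cs,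
      ∫ x, φ x * ((l * a.Res l u f x - f x) * (a.dl (a.Res l u h) x ⬝ᵥ a.W u x) +
        (a.dl (a.Res l u f) x ⬝ᵥ a.W u x) * (l * a.Res l u h x - h x)) ∂a.μ +
      ∫ x, φ x * (a.co u x (a.dl (a.Res l u f) x) ⬝ᵥ
        (a.S u x *ᵥ a.co u x (a.dl (a.Res l u h) x))) ∂a.μ =
      ∫ x, (-(a.pr u x (a.dl φ x) (a.dl (a.Res l u f) x) *
          (a.dl (a.Res l u h) x ⬝ᵥ a.W u x)) -
        a.pr u x (a.dl φ x) (a.dl (a.Res l u h) x) * (a.dl (a.Res l u f) x ⬝ᵥ a.W u x) +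
        (a.dl φ x ⬝ᵥ a.W u x) *
          a.pr u x (a.dl (a.Res l u f) x) (a.dl (a.Res l u h) x)) ∂a.μ

end Arc

end Pool.Agent.SYR
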