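import Pool.Agent.SYR.ArcSlice

/-!
# SYR/ArcRel : consequences of R1 for the arc

`rel u s = (slice u).g (s - u)` for `u < s` (`rel u u = 1`); for `s < u` use the slice at `s` and
`symp_trace` (`rel u s` is the metric of the inverse frame change). `(slice u).w (s - u) = hat_u (ω_s)`,
`hat_u ω_u = I`, `hat_u B_u = K`. Theorems used: `Slice.trace_g`, `Slice.g_sub`, `Slice.R1g`, `Slice.R1`,
`Slice.w_sub`.
-/

set_option autoImplicit false
set_option linter.unusedSectionVars false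

open Matrix MeasureTheory Filter Topology Set

namespace Pool.Agent.SYR.Arc

variable {ι : Type} [Fintype ι] [DecidableEq ι] {a : Arc ι} {C h0 : ℝ}

private theorem rel_eq_g (u s : ℝ) (x : a.M) : a.rel u s x = (a.slice u).g (s - u) x := by
  show gm (a.P s x * (a.P u x)⁻¹) = gm (a.P (u + (s - u)) x * (a.P u x)⁻¹)
  rw [add_sub_cancel]

private theorem rel_self' (hG : a.Geom C h0) {u : ℝ} (hu : u ∈ Icc 0 a.U) (x : a.M) :
    a.rel u u x = 1 := by
  show (a.P u x * (a.P u x)⁻¹)ᵀ * (a.P u x * (a.P u x)⁻¹) = 1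
  rw [Matrix.mul_nonsing_inv _ (hG.inv u hu x), Matrix.transpose_one, Matrix.mul_one]

private theorem hmem {u s : ℝ} (hu : u ∈ Icc 0 a.U) (hs : s ∈ Icc 0 a.U) (hus : u < s)
    (hus' : s - u ≤ h0) : u ∈ Ico 0 a.U ∧ s - u ∈ Ioc 0 (min h0 (a.U - u)) :=
  ⟨⟨hu.1, hus.trans_le hs.2⟩, sub_pos.2 hus, le_min hus' (sub_le_sub_right hs.2 u)⟩

private theorem rel_trace_aux (hG : a.Geom C h0) {u s : ℝ} (hu : u ∈ Icc 0 a.U)
    (hs : s ∈ Icc 0 a.U) (hus : u < s) (hus' : s - u ≤ h0) :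
    Integrable (fun x => (a.rel u s x).trace) a.μ ∧
      ∫ x, (a.rel u s x).trace ∂a.μ ≤ 2 * Fintype.card ι * a.V := by
  obtain ⟨h1, h2⟩ := hmem hu hs hus hus'
  have h3 := Slice.trace_g (slice_facts hG h1) h2
  simp only [rel_eq_g]
  exact h3

private theorem rel_trace_symm (hG : a.Geom C h0) {u s : ℝ} (hu : u ∈ Icc 0 a.U)
    (hs : s ∈ Icc 0 a.U) (x : a.M) : (a.rel u s x).trace = (a.rel s u x).trace := by
  have h1 : (a.P u x * (a.P s x)⁻¹)ᵀ * a.J * (a.P u x * (a.P s x)⁻¹) = a.J :=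
    symp_mul (hG.symp u hu x) (symp_inv_symp hG.quat (hG.symp s hs x))
  have h2 := symp_trace hG.quat h1
  rw [Matrix.mul_inv_rev, Matrix.nonsing_inv_nonsing_inv _ (hG.inv s hs x)] at h2
  exact h2

theorem rel_trace (hG : a.Geom C h0) {u s : ℝ} (hu : u ∈ Icc 0 a.U) (hs : s ∈ Icc 0 a.U)
    (hus : |s - u| ≤ h0) :
    Integrable (fun x => (a.rel u s x).trace) a.μ ∧
      ∫ x, (a.rel u s x).trace ∂a.μ ≤ 2 * Fintype.card ι * a.V := by
  have := hG.fin
  rcases lt_trichotomy u s with h | h | h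
  · exact rel_trace_aux hG hu hs h (by rwa [abs_of_pos (sub_pos.2 h)] at hus)
  · subst h
    simp only [rel_self' hG hu, Matrix.trace_one]
    refine ⟨integrable_const _, ?_⟩
    rw [integral_const, smul_eq_mul]
    have h1 : 0 ≤ a.V := measureReal_nonneg
    have h2 : (0 : ℝ) ≤ Fintype.card ι := Nat.cast_nonneg _
    show a.V * _ ≤ _
    nlinarith [mul_nonneg h1 h2]
  · simp only [rel_trace_symm hG hu hs]
    refine rel_trace_aux hG hs hu h ?_
    rwa [abs_sub_comm, abs_of_pos (sub_pos.2 h)] at hus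

private theorem nrm_zero' : nrm (0 : Matrix ι ι ℝ) = 0 := by
  have := nrm_smul (A := (0 : Matrix ι ι ℝ)) 0
  rwa [zero_smul, abs_zero, zero_mul] at this

theorem rel_sub (hG : a.Geom C h0) {u s : ℝ} (hu : u ∈ Icc 0 a.U) (hs : s ∈ Icc 0 a.U)
    (hus : u ≤ s) (hus' : s - u ≤ h0) :
    Integrable (fun x => nrm (a.rel u s x - 1)) a.μ ∧
      ∫ x, nrm (a.rel u s x - 1) ∂a.μ ≤
        (6 + 2 * Fintype.card ι) * (8 * C) * a.V * (s - u) := by
  rcases hus.lt_or_eq with h | h
  · obtain ⟨h1, h2⟩ := hmem hu hs h hus'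
    have h3 := Slice.g_sub (slice_facts hG h1) h2
    simp only [rel_eq_g]
    exact h3
  · subst h
    simp only [rel_self' hG hu, sub_self, nrm_zero', integral_zero, mul_zero, le_refl, and_true]
    exact integrable_zero _ _ _

private theorem tend_sub (u : ℝ) : Tendsto (fun s : ℝ => s - u) (𝓝[>] u) (𝓝[>] 0) := by
  refine tendsto_nhdsWithin_iff.2 ⟨?_, ?_⟩
  · have : Tendsto (fun s : ℝ => s - u) (𝓝 u) (𝓝 (u - u)) :=
      (continuous_id.sub continuous_const).tendsto u
    rw [sub_self] at this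
    exact this.mono_left nhdsWithin_le_nhds
  · filter_upwards [self_mem_nhdsWithin] with s hs
    exact Set.mem_Ioi.2 (sub_pos.2 (Set.mem_Ioi.1 hs))

/-- R1 for the metric: here `-S = A I + J - K Θ` in the adapted frame -/
theorem rel_lim (hG : a.Geom C h0) {u : ℝ} (hu : u ∈ Ico 0 a.U) :
    Tendsto (fun s => ∫ x, nrm ((1 / (s - u)) • (a.rel u s x - 1) + a.S u x) ∂a.μ)
      (𝓝[>] u) (𝓝 0) := by
  have h1 := (Slice.R1g (slice_facts hG hu)).comp (tend_sub u)
  refine h1.congr fun s => ?_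
  show ∫ x, nrm ((1 / (s - u)) • ((a.slice u).g (s - u) x - 1) -
    (a.hat u x (a.A u x) * a.I + a.J - a.K * a.hat u x (a.Θ u x))) ∂a.μ = _
  refine integral_congr_ae (ae_of_all _ fun x => ?_)
  show _ = nrm ((1 / (s - u)) • (a.rel u s x - 1) + a.S u x)
  rw [rel_eq_g, S, ← sub_eq_add_neg]

private theorem hat_add (u : ℝ) (x : a.M) (A B : Matrix ι ι ℝ) :
    a.hat u x (A + B) = a.hat u x A + a.hat u x B := by
  unfold hat
  rw [Matrix.mul_add, Matrix.add_mul]

private theorem hat_sub (u : ℝ) (x : a.M) (A B : Matrix ι ι ℝ) :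
    a.hat u x (A - B) = a.hat u x A - a.hat u x B := by
  unfold hat
  rw [Matrix.mul_sub, Matrix.sub_mul]

private theorem hat_smul (u : ℝ) (x : a.M) (c : ℝ) (A : Matrix ι ι ℝ) :
    a.hat u x (c • A) = c • a.hat u x A := by
  unfold hat
  rw [Matrix.mul_smul, Matrix.smul_mul]

private theorem hat_conj (u s : ℝ) (x : a.M) (A : Matrix ι ι ℝ) :
    a.hat u x ((a.P s x)ᵀ * A * a.P s x) =
      (a.P s x * (a.P u x)⁻¹)ᵀ * A * (a.P s x * (a.P u x)⁻¹) := by
  unfold hat
  rw [Matrix.transpose_mul]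
  simp only [Matrix.mul_assoc]

private theorem hat_conj_self (hG : a.Geom C h0) {u : ℝ} (hu : u ∈ Icc 0 a.U) (x : a.M)
    (A : Matrix ι ι ℝ) : a.hat u x ((a.P u x)ᵀ * A * a.P u x) = A := by
  rw [hat_conj, Matrix.mul_nonsing_inv _ (hG.inv u hu x), Matrix.transpose_one, Matrix.one_mul,
    Matrix.mul_one]

private theorem hat_ω (u s : ℝ) (x : a.M) : a.hat u x (a.ω s x) = (a.slice u).w (s - u) x := by
  show a.hat u x ((a.P s x)ᵀ * a.I * a.P s x) =
    (a.P (u + (s - u)) x * (a.P u x)⁻¹)ᵀ * a.I * (a.P (u + (s - u)) x * (a.P u x)⁻¹)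
  rw [add_sub_cancel, hat_conj]

private theorem hat_ω_self (hG : a.Geom C h0) {u : ℝ} (hu : u ∈ Icc 0 a.U) (x : a.M) :
    a.hat u x (a.ω u x) = a.I := hat_conj_self hG hu x a.I

private theorem hat_B_self (hG : a.Geom C h0) {u : ℝ} (hu : u ∈ Icc 0 a.U) (x : a.M) :
    a.hat u x (a.B u x) = a.K := hat_conj_self hG hu x a.K

/-- R1 for the form, in the adapted frame of `g_u` -/
theorem ω_lim (hG : a.Geom C h0) {u : ℝ} (hu : u ∈ Ico 0 a.U) :
    Tendsto (fun s => ∫ x, nrm (a.hat u x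
      ((1 / (s - u)) • (a.ω s x - a.ω u x) + a.A u x + a.B u x)) ∂a.μ) (𝓝[>] u) (𝓝 0) := by
  have h1 := (Slice.R1 (slice_facts hG hu)).comp (tend_sub u)
  refine h1.congr fun s => ?_
  show ∫ x, nrm ((1 / (s - u)) • ((a.slice u).w (s - u) x - a.I) + a.hat u x (a.A u x) + a.K)
    ∂a.μ = _
  refine integral_congr_ae (ae_of_all _ fun x => ?_)
  have hu' : u ∈ Icc 0 a.U := Ico_subset_Icc_self hu
  show _ = nrm (a.hat u x ((1 / (s - u)) • (a.ω s x - a.ω u x) + a.A u x + a.B u x))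
  rw [hat_add, hat_add, hat_smul, hat_sub, hat_ω u s x, hat_ω_self hG hu', hat_B_self hG hu']

theorem ω_int (hG : a.Geom C h0) {u s : ℝ} (hu : u ∈ Icc 0 a.U) (hs : s ∈ Icc 0 a.U)
    (hus : u ≤ s) (hus' : s - u ≤ h0) :
    Integrable (fun x => nrm (a.hat u x (a.ω s x - a.ω u x))) a.μ ∧
      ∫ x, nrm (a.hat u x (a.ω s x - a.ω u x)) ∂a.μ ≤
        (6 + 8 * Fintype.card ι) * (8 * C) * a.V * (s - u) := by
  rcases hus.lt_or_eq with h | h
  · obtain ⟨h1, h2⟩ := hmem hu hs h hus'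
    have h3 := Slice.w_sub (slice_facts hG h1) h2
    have h4 : ∀ x, a.hat u x (a.ω s x - a.ω u x) = (a.slice u).w (s - u) x - a.I := fun x => by
      rw [hat_sub, hat_ω u s x, hat_ω_self hG hu]
    simp only [h4]
    exact h3
  · subst h
    have h4 : (fun x => nrm (a.hat u x (a.ω u x - a.ω u x))) = fun _ => (0 : ℝ) :=
      funext fun x => by rw [hat_sub, sub_self, nrm_zero']
    rw [h4, sub_self, mul_zero, integral_zero]
    exact ⟨integrable_zero _ _ _, le_rfl⟩

private theorem P_meas' (hG : a.Geom C h0) (u : ℝ) (i j : ι) :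
    Measurable (fun x : a.M => a.P u x i j) :=
  (hG.P_meas i j).comp (measurable_const.prodMk measurable_id)

private def EM (F : a.M → Matrix ι ι ℝ) : Prop := ∀ i j, Measurable fun x => F x i j

private theorem em_mul {F G : a.M → Matrix ι ι ℝ} (hF : EM F) (hG : EM G) :
    EM fun x => F x * G x := fun i j => by
  simp only [Matrix.mul_apply]
  exact Finset.measurable_sum _ fun k _ => (hF i k).mul (hG k j)

private theorem em_const (A : Matrix ι ι ℝ) : EM (a := a) fun _ => A := fun _ _ => measurable_const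

private theorem em_add {F G : a.M → Matrix ι ι ℝ} (hF : EM F) (hG : EM G) :
    EM fun x => F x + G x := fun i j => (hF i j).add (hG i j)

private theorem em_sub {F G : a.M → Matrix ι ι ℝ} (hF : EM F) (hG : EM G) :
    EM fun x => F x - G x := fun i j => (hF i j).sub (hG i j)

private theorem em_neg {F : a.M → Matrix ι ι ℝ} (hF : EM F) :
    EM fun x => -F x := fun i j => (hF i j).neg

private theorem em_transpose {F : a.M → Matrix ι ι ℝ} (hF : EM F) :
    EM fun x => (F x)ᵀ := fun i j => hF j i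

private theorem em_inv (hG : a.Geom C h0) {u : ℝ} (hu : u ∈ Icc 0 a.U) :
    EM fun x : a.M => (a.P u x)⁻¹ := by
  have h1 : ∀ x, (a.P u x)⁻¹ = -(a.J * (a.P u x)ᵀ * a.J) := fun x =>
    symp_inv hG.quat (hG.symp u hu x)
  have h2 : EM fun x : a.M => -(a.J * (a.P u x)ᵀ * a.J) :=
    em_neg (em_mul (em_mul (em_const a.J) (em_transpose (P_meas' hG u))) (em_const a.J))
  intro i j
  simp only [h1]
  exact h2 i j

private theorem em_hat (hG : a.Geom C h0) {u : ℝ} (hu : u ∈ Icc 0 a.U)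
    {F : a.M → Matrix ι ι ℝ} (hF : EM F) : EM fun x => a.hat u x (F x) :=
  em_mul (em_mul (em_transpose (em_inv hG hu)) hF) (em_inv hG hu)

private theorem em_nrm {F : a.M → Matrix ι ι ℝ} (hF : EM F) : Measurable fun x => nrm (F x) := by
  unfold nrm nsq ip
  exact (Finset.measurable_sum _ fun i _ => Finset.measurable_sum _ fun j _ =>
    (hF i j).mul (hF i j)).sqrt

theorem S_int (hG : a.Geom C h0) {u : ℝ} (hu : u ∈ Icc 0 a.U) :
    Integrable (fun x => nrm (a.S u x)) a.μ := by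
  have := hG.fin
  have hA : EM fun x => a.A u x := fun i j =>
    (hG.A_meas i j).comp (measurable_const.prodMk measurable_id)
  have hΘ : EM fun x => a.Θ u x := fun i j =>
    (hG.Θ_meas i j).comp (measurable_const.prodMk measurable_id)
  have hS : EM fun x => a.S u x := by
    unfold S
    exact em_neg (em_sub (em_add (em_mul (em_hat hG hu hA) (em_const a.I)) (em_const a.J))
      (em_mul (em_const a.K) (em_hat hG hu hΘ)))
  have h1 : Integrable (fun x => (1 + nsq (a.hat u x (a.A u x))) + (nrm a.J + C)) a.μ :=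
    ((integrable_const 1).add (hG.A_sq u hu)).add (integrable_const _)
  refine h1.mono' (em_nrm hS).aestronglyMeasurable (ae_of_all _ fun x => ?_)
  rw [Real.norm_of_nonneg nrm_nonneg]
  unfold S
  rw [nrm_neg]
  have e1 := nrm_sub_le (A := a.hat u x (a.A u x) * a.I + a.J) (B := a.K * a.hat u x (a.Θ u x))
  have e2 := nrm_add_le (A := a.hat u x (a.A u x) * a.I) (B := a.J)
  rw [hG.quat.nrm_K_left] at e1
  rw [hG.quat.nrm_I_right] at e2
  have e3 := hG.Θ_bdd u hu u hu x
  have e4 : nrm (a.hat u x (a.A u x)) ≤ 1 + nsq (a.hat u x (a.A u x)) := by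
    rw [← nrm_sq]
    nlinarith [sq_nonneg (nrm (a.hat u x (a.A u x)) - 1), nrm_nonneg (A := a.hat u x (a.A u x))]
  linarith

end Pool.Agent.SYR.Arc
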