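import Pool.Agent.SYR.R1

/-!
# SYR/R1g : the same for the metric

`Tri.gm_sub` with `t = h`. The middle term `|τ/h| |w - I| ≤ 2 C |w - I|` and
`∫ |w - I| = O(h)` because `(w - I)/h + A + K → 0` in `L¹` and `A ∈ L²`, `K` constant; the last is
`≤ C h`.
-/

set_option autoImplicit false

open Matrix MeasureTheory Filter Topology Set

namespace Pool.Agent.SYR.Slice

variable {ι : Type} [Fintype ι] [DecidableEq ι] {S : Slice ι} {C h0 : ℝ}

/-- a matrix of measurable functions -/
private def MM {X : Type} [MeasurableSpace X] (F : X → Matrix ι ι ℝ) : Prop :=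
  ∀ i j, Measurable (fun x => F x i j)

private theorem MM.mul {X : Type} [MeasurableSpace X] {F G : X → Matrix ι ι ℝ}
    (hF : MM F) (hG : MM G) : MM (fun x => F x * G x) := by
  intro i j
  simp only [Matrix.mul_apply]
  exact Finset.measurable_sum _ fun k _ => (hF i k).mul (hG k j)

private theorem MM.add {X : Type} [MeasurableSpace X] {F G : X → Matrix ι ι ℝ}
    (hF : MM F) (hG : MM G) : MM (fun x => F x + G x) := by
  intro i j
  simp only [Matrix.add_apply]
  exact (hF i j).add (hG i j)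

private theorem MM.sub {X : Type} [MeasurableSpace X] {F G : X → Matrix ι ι ℝ}
    (hF : MM F) (hG : MM G) : MM (fun x => F x - G x) := by
  intro i j
  simp only [Matrix.sub_apply]
  exact (hF i j).sub (hG i j)

private theorem MM.smul {X : Type} [MeasurableSpace X] {F : X → Matrix ι ι ℝ} (c : ℝ)
    (hF : MM F) : MM (fun x => c • F x) := by
  intro i j
  simp only [Matrix.smul_apply, smul_eq_mul]
  exact (hF i j).const_mul c

private theorem MM.const {X : Type} [MeasurableSpace X] (A : Matrix ι ι ℝ) :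
    MM (fun _ : X => A) := by
  intro i j
  exact measurable_const

private theorem MM.transpose {X : Type} [MeasurableSpace X] {F : X → Matrix ι ι ℝ}
    (hF : MM F) : MM (fun x => (F x)ᵀ) := by
  intro i j
  simp only [Matrix.transpose_apply]
  exact hF j i

omit [DecidableEq ι] in
private theorem MM.nrm {X : Type} [MeasurableSpace X] {F : X → Matrix ι ι ℝ}
    (hF : MM F) : Measurable (fun x => SYR.nrm (F x)) := by
  unfold SYR.nrm SYR.nsq SYR.ip
  refine Measurable.sqrt ?_
  exact Finset.measurable_sum _ fun i _ => Finset.measurable_sum _ fun j _ =>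
    (hF i j).mul (hF i j)

private theorem g_meas (hF : S.Facts C h0) (h : ℝ) : MM (S.g h) := by
  have hP : MM (S.P h) := hF.P_meas h
  exact hP.transpose.mul hP

private theorem w_meas (hF : S.Facts C h0) (h : ℝ) : MM (S.w h) := by
  have hP : MM (S.P h) := hF.P_meas h
  exact (hP.transpose.mul (MM.const S.I)).mul hP

/-- `ω - I = (g - 1) I + ω J τ I` -/
private theorem w_sub_eq (hF : S.Facts C h0) {h : ℝ} (hh : h ∈ Ioc 0 h0) (x : S.M) :
    S.w h x - S.I = (S.g h x - 1) * S.I + S.w h x * (S.J * S.τ h x) * S.I := by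
  have e : S.g h x = -(S.w h x * (S.I + S.J * S.τ h x)) := Tri.gm_eq hF.quat (hF.tri h hh x)
  rw [e, Matrix.mul_add, Matrix.sub_mul, Matrix.neg_mul, Matrix.add_mul, Matrix.mul_assoc _ S.I S.I,
    hF.quat.II, Matrix.one_mul, Matrix.mul_neg, Matrix.mul_one]
  abel

private theorem w_sub_le (hF : S.Facts C h0) {h : ℝ} (hh : h ∈ Ioc 0 h0) (x : S.M) :
    nrm (S.w h x - S.I) ≤ nrm (S.g h x - 1) + 2 * C * h * (S.g h x).trace := by
  have h1 : nrm (S.w h x - S.I) ≤ nrm (S.g h x - 1) + nrm (S.w h x) * nrm (S.τ h x) := by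
    rw [w_sub_eq hF hh x]
    refine nrm_add_le.trans ?_
    rw [hF.quat.nrm_I_right, hF.quat.nrm_I_right]
    gcongr
    refine nrm_mul_le.trans ?_
    rw [hF.quat.nrm_J_left]
  have h2 : nrm (S.w h x) ≤ (S.g h x).trace := Quat.nrm_om_le hF.quat
  have h3 : nrm (S.τ h x) ≤ 2 * C * h := (nrm_τ_le hF hh x).2
  have h4 : nrm (S.w h x) * nrm (S.τ h x) ≤ (S.g h x).trace * (2 * C * h) := by
    have h5 : (0 : ℝ) ≤ nrm (S.w h x) := nrm_nonneg
    have h6 : (0 : ℝ) ≤ nrm (S.τ h x) := nrm_nonneg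
    exact mul_le_mul h2 h3 h6 (h5.trans h2)
  linarith

/-- `L¹`-Lipschitz in time, with a constant which does not depend on the slice -/
theorem w_sub (hF : S.Facts C h0) {h : ℝ} (hh : h ∈ Ioc 0 h0) :
    Integrable (fun x => nrm (S.w h x - S.I)) S.μ ∧
      ∫ x, nrm (S.w h x - S.I) ∂S.μ ≤ (6 + 8 * Fintype.card ι) * C * S.V * h := by
  have hm : Measurable (fun x => nrm (S.w h x - S.I)) :=
    MM.nrm ((w_meas hF h).sub (MM.const S.I))
  obtain ⟨hg, hg'⟩ := g_sub hF hh
  obtain ⟨ht, ht'⟩ := trace_g hF hh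
  have hi : Integrable (fun x => nrm (S.g h x - 1) + 2 * C * h * (S.g h x).trace) S.μ :=
    hg.add (ht.const_mul _)
  have hw : Integrable (fun x => nrm (S.w h x - S.I)) S.μ := by
    refine hi.mono' hm.aestronglyMeasurable (ae_of_all _ fun x => ?_)
    rw [Real.norm_of_nonneg nrm_nonneg]
    exact w_sub_le hF hh x
  refine ⟨hw, ?_⟩
  have hV : 0 ≤ S.V := measureReal_nonneg
  have hC := hF.C_nonneg
  have hh0 : 0 < h := hh.1
  calc ∫ x, nrm (S.w h x - S.I) ∂S.μ
      ≤ ∫ x, (nrm (S.g h x - 1) + 2 * C * h * (S.g h x).trace) ∂S.μ :=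
        integral_mono hw hi fun x => w_sub_le hF hh x
    _ = ∫ x, nrm (S.g h x - 1) ∂S.μ + 2 * C * h * ∫ x, (S.g h x).trace ∂S.μ := by
        rw [integral_add hg (ht.const_mul _), integral_const_mul]
    _ ≤ (6 + 2 * Fintype.card ι) * C * S.V * h + 2 * C * h * (2 * Fintype.card ι * S.V) := by
        gcongr
    _ ≤ (6 + 8 * Fintype.card ι) * C * S.V * h := by
        have : 0 ≤ (Fintype.card ι : ℝ) * (C * S.V * h) := by positivity
        nlinarith

private theorem R1g_le (hF : S.Facts C h0) {h : ℝ} (hh : h ∈ Ioc 0 h0) (x : S.M) :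
    nrm ((1 / h) • (S.g h x - 1) - (S.A x * S.I + S.J - S.K * S.Θ x)) ≤
      nrm ((1 / h) • (S.w h x - S.I) + S.A x + S.K) + 2 * C * nrm (S.w h x - S.I) + C * h := by
  have h1 := Tri.gm_sub hF.quat (hF.tri h hh x) (S.A x) (S.Θ x) h hh.1
  have h2 := (nrm_τ_le hF hh x).1
  have h3 := hF.τ_lin h hh x
  have h4 : (0 : ℝ) ≤ nrm (S.w h x - S.I) := nrm_nonneg
  have h5 : nrm ((1 / h) • S.τ h x) * nrm (S.w h x - S.I) ≤ 2 * C * nrm (S.w h x - S.I) :=
    mul_le_mul_of_nonneg_right h2 h4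
  have h6 : nrm ((1 / h) • (S.g h x - 1) - (S.A x * S.I + S.J - S.K * S.Θ x)) ≤
      nrm ((1 / h) • (S.w h x - S.I) + S.A x + S.K) +
        nrm ((1 / h) • S.τ h x) * nrm (S.w h x - S.I) +
        nrm ((1 / h) • S.τ h x - S.Θ x) := h1
  linarith

private theorem maj_int (hF : S.Facts C h0) {h : ℝ} (hh : h ∈ Ioc 0 h0) :
    Integrable (fun x => nrm ((1 / h) • (S.w h x - S.I) + S.A x + S.K) +
      2 * C * nrm (S.w h x - S.I) + C * h) S.μ := by
  have := hF.fin
  exact ((R1_int hF hh).add ((w_sub hF hh).1.const_mul _)).add (integrable_const _)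

theorem R1g_int (hF : S.Facts C h0) {h : ℝ} (hh : h ∈ Ioc 0 h0) :
    Integrable (fun x => nrm ((1 / h) • (S.g h x - 1) -
      (S.A x * S.I + S.J - S.K * S.Θ x))) S.μ := by
  have hA : MM S.A := hF.A_meas
  have hΘ : MM S.Θ := hF.Θ_meas
  have hm : Measurable (fun x => nrm ((1 / h) • (S.g h x - 1) -
      (S.A x * S.I + S.J - S.K * S.Θ x))) :=
    MM.nrm ((((g_meas hF h).sub (MM.const 1)).smul (1 / h)).sub
      (((hA.mul (MM.const S.I)).add (MM.const S.J)).sub ((MM.const S.K).mul hΘ)))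
  refine (maj_int hF hh).mono' hm.aestronglyMeasurable (ae_of_all _ fun x => ?_)
  rw [Real.norm_of_nonneg nrm_nonneg]
  exact R1g_le hF hh x

theorem R1g (hF : S.Facts C h0) :
    Tendsto (fun h => ∫ x, nrm ((1 / h) • (S.g h x - 1) -
      (S.A x * S.I + S.J - S.K * S.Θ x)) ∂S.μ) (𝓝[>] 0) (𝓝 0) := by
  have := hF.fin
  have hV : 0 ≤ S.V := measureReal_nonneg
  have hC := hF.C_nonneg
  have hlim : Tendsto (fun h : ℝ => ∫ x, nrm ((1 / h) • (S.w h x - S.I) + S.A x + S.K) ∂S.μ +
      2 * C * ((6 + 8 * Fintype.card ι) * C * S.V * h) + C * h * S.V) (𝓝[>] 0) (𝓝 0) := by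
    have e1 : Tendsto (fun h : ℝ => 2 * C * ((6 + 8 * Fintype.card ι) * C * S.V * h))
        (𝓝[>] 0) (𝓝 0) := by
      have : Tendsto (fun h : ℝ => 2 * C * ((6 + 8 * Fintype.card ι) * C * S.V * h))
          (𝓝[>] 0) (𝓝 (2 * C * ((6 + 8 * Fintype.card ι) * C * S.V * 0))) :=
        ((continuous_const.mul (continuous_const.mul continuous_id)).tendsto 0).mono_left
          nhdsWithin_le_nhds
      simpa using this
    have e2 : Tendsto (fun h : ℝ => C * h * S.V) (𝓝[>] 0) (𝓝 0) := by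
      have : Tendsto (fun h : ℝ => C * h * S.V) (𝓝[>] 0) (𝓝 (C * 0 * S.V)) :=
        (((continuous_const.mul continuous_id).mul continuous_const).tendsto 0).mono_left
          nhdsWithin_le_nhds
      simpa using this
    simpa using ((R1 hF).add e1).add e2
  refine squeeze_zero' (Eventually.of_forall fun h => integral_nonneg fun x => nrm_nonneg) ?_ hlim
  filter_upwards [Ioc_mem_nhdsGT hF.h0_pos] with h hh
  have hw := w_sub hF hh
  calc ∫ x, nrm ((1 / h) • (S.g h x - 1) - (S.A x * S.I + S.J - S.K * S.Θ x)) ∂S.μ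
      ≤ ∫ x, (nrm ((1 / h) • (S.w h x - S.I) + S.A x + S.K) +
          2 * C * nrm (S.w h x - S.I) + C * h) ∂S.μ :=
        integral_mono (R1g_int hF hh) (maj_int hF hh) fun x => R1g_le hF hh x
    _ = ∫ x, nrm ((1 / h) • (S.w h x - S.I) + S.A x + S.K) ∂S.μ +
          2 * C * ∫ x, nrm (S.w h x - S.I) ∂S.μ + C * h * S.V := by
        have i1 := R1_int hF hh
        have i2 : Integrable (fun x => 2 * C * nrm (S.w h x - S.I)) S.μ := hw.1.const_mul _
        have i3 : Integrable (fun x => nrm ((1 / h) • (S.w h x - S.I) + S.A x + S.K) +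
            2 * C * nrm (S.w h x - S.I)) S.μ := i1.add i2
        rw [integral_add i3 (integrable_const _), integral_add i1 i2, integral_const_mul,
          integral_const, smul_eq_mul, mul_comm (S.μ.real univ)]
        rfl
    _ ≤ _ := by
        have hh0 : 0 < h := hh.1
        gcongr
        exact hw.2

end Pool.Agent.SYR.Slice
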