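import Pool.Agent.SYR.Nrm

/-!
# SYR/Types : the Lie derivative of the triple, `A = pᵀ I + I p`

`pᵀ = J p J`, so `A = -(J p K) + I p`, `T = I - (J p I + K p)`; everything follows by the quaternion
relations.
-/

set_option autoImplicit false
set_option linter.unusedSimpArgs false

open Matrix

namespace Pool.Agent.SYR

variable {ι : Type} [Fintype ι] [DecidableEq ι] {I J K : Matrix ι ι ℝ}

/-- `A, 0, I - T` are the derivatives of the forms `I, J, K` along a vector field with covariant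
derivative `p` -/
def Lie (I J K A T : Matrix ι ι ℝ) : Prop :=
  ∃ p : Matrix ι ι ℝ, A = pᵀ * I + I * p ∧ pᵀ * J + J * p = 0 ∧ pᵀ * K + K * p = I - T

/-- the quaternion relations applied to a product -/
private theorem rels (hq : Quat I J K) (X : Matrix ι ι ℝ) :
    I * (I * X) = -X ∧ J * (J * X) = -X ∧ K * (K * X) = -X ∧ I * (J * X) = K * X ∧
    J * (I * X) = -(K * X) ∧ J * (K * X) = I * X ∧ K * (J * X) = -(I * X) ∧
    K * (I * X) = J * X ∧ I * (K * X) = -(J * X) := by
  obtain ⟨_, _, _, II, JJ, KK, IJ, JI, JK, KJ, KI, IK⟩ := hq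
  refine ⟨?_, ?_, ?_, ?_, ?_, ?_, ?_, ?_, ?_⟩ <;> rw [← mul_assoc]
  · rw [II, neg_mul, one_mul]
  · rw [JJ, neg_mul, one_mul]
  · rw [KK, neg_mul, one_mul]
  · rw [IJ]
  · rw [JI, neg_mul]
  · rw [JK]
  · rw [KJ, neg_mul]
  · rw [KI]
  · rw [IK, neg_mul]

private theorem form {A T : Matrix ι ι ℝ} (hq : Quat I J K) (h : Lie I J K A T) :
    ∃ p : Matrix ι ι ℝ, pᵀ = J * (p * J) ∧ A = -(J * (p * K)) + I * p ∧
      T = I - (J * (p * I) + K * p) := by
  obtain ⟨p, hA, hJ, hK⟩ := h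
  have hp : pᵀ = J * (p * J) := by
    have h1 : pᵀ * J = -(J * p) := eq_neg_of_add_eq_zero_left hJ
    have h2 : pᵀ * J * J = -(J * p) * J := by rw [h1]
    rw [mul_assoc, hq.JJ, mul_neg, mul_one, neg_mul, neg_inj, mul_assoc] at h2
    exact h2
  refine ⟨p, hp, ?_, ?_⟩
  · rw [hA, hp]
    simp only [mul_assoc, hq.JI, mul_neg]
  · have h1 : T = I - (pᵀ * K + K * p) := by rw [hK]; abel
    rw [h1, hp]
    simp only [mul_assoc, hq.JK]

variable {A T : Matrix ι ι ℝ} (hq : Quat I J K)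

include hq

theorem Lie.skew (h : Lie I J K A T) : Aᵀ = -A := by
  obtain ⟨p, hA, hJ, hK⟩ := h
  rw [hA]
  simp only [transpose_add, transpose_mul, transpose_transpose, hq.It]
  simp only [neg_mul, mul_neg]
  abel

theorem Lie.T_skew (h : Lie I J K A T) : Tᵀ = -T := by
  obtain ⟨p, hA, hJ, hK⟩ := h
  have h1 : T = I - (pᵀ * K + K * p) := by rw [hK]; abel
  rw [h1]
  simp only [transpose_add, transpose_sub, transpose_mul, transpose_transpose, hq.It, hq.Kt]
  simp only [neg_mul, mul_neg]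
  abel

theorem Lie.T_comm (h : Lie I J K A T) : T * I = I * T := by
  obtain ⟨p, hp, hA, hT⟩ := form hq h
  have r := rels hq
  rw [hT]
  simp only [mul_add, add_mul, mul_sub, sub_mul, mul_neg, neg_mul, mul_assoc, mul_one, one_mul,
    hq.II, hq.JJ, hq.KK, hq.IJ, hq.JI, hq.JK, hq.KJ, hq.KI, hq.IK,
    fun X => (r X).1, fun X => (r X).2.1, fun X => (r X).2.2.1, fun X => (r X).2.2.2.1,
    fun X => (r X).2.2.2.2.1, fun X => (r X).2.2.2.2.2.1, fun X => (r X).2.2.2.2.2.2.1,
    fun X => (r X).2.2.2.2.2.2.2.1, fun X => (r X).2.2.2.2.2.2.2.2, neg_neg]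
  abel

theorem Lie.ip_I (h : Lie I J K A T) : ip I A = 0 := by
  obtain ⟨p, hp, hA, hT⟩ := form hq h
  have h1 : p.trace = 0 := by
    have h2 : p.trace = -p.trace := by
      calc p.trace = (pᵀ).trace := (trace_transpose p).symm
        _ = (J * (p * J)).trace := by rw [hp]
        _ = (p * J * J).trace := trace_mul_comm _ _
        _ = -p.trace := by rw [mul_assoc, hq.JJ, mul_neg, mul_one, trace_neg]
    linarith
  have h3 : I * A = -(K * (p * K)) - p := by
    rw [hA, mul_add, mul_neg, (rels hq (p * K)).2.2.2.1, (rels hq p).1, sub_eq_add_neg]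
  have h4 : (K * (p * K)).trace = 0 := by
    rw [trace_mul_comm, mul_assoc, hq.KK, mul_neg, mul_one, trace_neg, h1, neg_zero]
  rw [ip_eq_trace, hq.It, neg_mul, trace_neg, h3, trace_sub, trace_neg, h4, h1]
  simp

theorem Lie.two (h : Lie I J K A T) : two I A = -(K + J * lam J T) := by
  obtain ⟨p, hp, hA, hT⟩ := form hq h
  have r := rels hq
  rw [SYR.two, lam, hT, hA]
  simp only [mul_add, add_mul, mul_sub, sub_mul, mul_neg, neg_mul, mul_assoc, mul_one, one_mul,
    hq.II, hq.JJ, hq.KK, hq.IJ, hq.JI, hq.JK, hq.KJ, hq.KI, hq.IK,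
    fun X => (r X).1, fun X => (r X).2.1, fun X => (r X).2.2.1, fun X => (r X).2.2.2.1,
    fun X => (r X).2.2.2.2.1, fun X => (r X).2.2.2.2.2.1, fun X => (r X).2.2.2.2.2.2.1,
    fun X => (r X).2.2.2.2.2.2.2.1, fun X => (r X).2.2.2.2.2.2.2.2, neg_neg, mul_smul_comm]
  module

/-- `ip I (lam J T) = ip I T` -/
private theorem ip_I_lam : ip I (lam J T) = ip I T := by
  have h1 : ip I (J * T * J) = ip I T := by
    calc ip I (J * T * J) = ip (J * K) (J * (T * J)) := by rw [hq.JK, mul_assoc]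
      _ = ip K (T * J) := hq.ip_J_left
      _ = ip (I * J) (T * J) := by rw [hq.IJ]
      _ = ip I T := ip_orth_right (by rw [hq.Jt, mul_neg, hq.JJ, neg_neg])
  rw [lam, ip_smul_right, ip_add_right, h1]
  ring

private theorem ip_K_lam : ip K (J * lam J T) = -ip I T := by
  calc ip K (J * lam J T) = ip (J * (-I)) (J * lam J T) := by rw [mul_neg, hq.JI, neg_neg]
    _ = ip (-I) (lam J T) := hq.ip_J_left
    _ = -ip I T := by rw [ip_neg_left, ip_I_lam hq]

private theorem nsq_J (B : Matrix ι ι ℝ) : nsq (J * B) = nsq B := hq.ip_J_left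

theorem Lie.nsq_two (h : Lie I J K A T) :
    nsq (SYR.two I A) = Fintype.card ι - 2 * ip I T + nsq (lam J T) := by
  rw [h.two hq, nsq, ip_neg_left, ip_neg_right, neg_neg]
  have h1 := nsq_add (A := K) (B := J * lam J T)
  rw [nsq, ip_K_lam hq, nsq_J hq, hq.nsq_K] at h1
  rw [h1]
  ring

theorem Lie.cross (h : Lie I J K A T) :
    ip (J * lam J T) (SYR.two I A) = -(nsq (lam J T) - ip I T) := by
  rw [h.two hq, ip_neg_right, ip_add_right, ip_comm, ip_K_lam hq]
  have h1 := nsq_J hq (lam J T)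
  rw [nsq] at h1
  rw [h1]
  ring

/-- `A I + J - K T` is minus the Lie derivative of the metric, hence symmetric -/
theorem Lie.metric (h : Lie I J K A T) : (A * I + J - K * T)ᵀ = A * I + J - K * T := by
  have hs := h.skew hq
  have ht := h.T_skew hq
  obtain ⟨p, hp, hA, hT⟩ := form hq h
  have r := rels hq
  rw [transpose_sub, transpose_add, transpose_mul, transpose_mul, hs, ht, hq.It, hq.Jt, hq.Kt, hA,
    hT]
  simp only [mul_add, add_mul, mul_sub, sub_mul, mul_neg, neg_mul, mul_assoc, mul_one, one_mul,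
    hq.II, hq.JJ, hq.KK, hq.IJ, hq.JI, hq.JK, hq.KJ, hq.KI, hq.IK,
    fun X => (r X).1, fun X => (r X).2.1, fun X => (r X).2.2.1, fun X => (r X).2.2.2.1,
    fun X => (r X).2.2.2.2.1, fun X => (r X).2.2.2.2.2.1, fun X => (r X).2.2.2.2.2.2.1,
    fun X => (r X).2.2.2.2.2.2.2.1, fun X => (r X).2.2.2.2.2.2.2.2, neg_neg]
  abel

/-- the limit of `-log det H / h²` -/
theorem quad_eq (hT : Tᵀ = -T) (hc : T * I = I * T) :
    1 / 4 * (((K * T) * (K * T)).trace + nsq T) - 1 / 2 * ((J * T) * (J * T)).trace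
      = 1 / 2 * nsq (lam J T) := by
  have h1 : ((K * T) * (K * T)).trace = ((J * T) * (J * T)).trace := by
    have e1 : (K * T) * (K * T) = -(I * ((J * T) * (J * T) * I)) := by
      have e2 : K * T * (K * T) = I * J * T * (-(J * I) * T) := by
        rw [hq.IJ, hq.JI, neg_neg]
      rw [e2]
      simp only [mul_assoc, neg_mul, mul_neg, hc]
    rw [e1, trace_neg, trace_mul_comm, mul_assoc, hq.II, mul_neg, mul_one, trace_neg, neg_neg]
  have h2 : ip T (J * T * J) = -((J * T) * (J * T)).trace := by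
    rw [ip_eq_trace, hT, neg_mul, trace_neg, trace_mul_comm, mul_assoc, mul_assoc]
  have h3 : nsq (J * T * J) = nsq T := by
    rw [mul_assoc, nsq_J hq]
    exact ip_orth_right (by rw [hq.Jt, mul_neg, hq.JJ, neg_neg])
  rw [h1, lam, nsq_smul, nsq_add, h2, h3]
  ring

omit hq in
theorem Q_eq (h0 : ip I A = 0) (B : Matrix ι ι ℝ) :
    Q I B A = -(1 / 2) * ip (her I B) (her I A) + 1 / 2 * ip (SYR.two I B) (SYR.two I A) := by
  rw [Q, h0]
  ring

end Pool.Agent.SYR
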