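import Pool.Agent.SYR.Bnd
import Pool.Agent.SYR.Types

/-!
# SYR/Symp : the metric of a triple is symplectic

For `Pᵀ J P = J`: `P⁻¹ = -(J Pᵀ J)`, `(gm P)⁻¹ = -(J gm P J)`,
`nsq (P⁻¹ - Pᵀ) = tr (g + g⁻¹ - 2) ≤ nsq (g - 1)`, because
`nsq (g - 1) - tr (g + g⁻¹ - 2) = (1/2) nsq (g + g⁻¹ - 2)`.
-/

set_option autoImplicit false
set_option linter.unusedSectionVars false
set_option linter.unusedVariables false

open Matrix

namespace Pool.Agent.SYR

variable {ι : Type} [Fintype ι] [DecidableEq ι] {I J K P : Matrix ι ι ℝ}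

private theorem left_inv (hq : Quat I J K) (h : Pᵀ * J * P = J) : -(J * Pᵀ * J) * P = 1 := by
  have e : -(J * Pᵀ * J) * P = -(J * (Pᵀ * J * P)) := by noncomm_ring
  rw [e, h, hq.JJ, neg_neg]

private theorem right_inv (hq : Quat I J K) (h : Pᵀ * J * P = J) : P * -(J * Pᵀ * J) = 1 :=
  mul_eq_one_comm.1 (left_inv hq h)

private theorem PJPt (hq : Quat I J K) (h : Pᵀ * J * P = J) : P * J * Pᵀ = J := by
  have e := right_inv hq h
  have e2 : P * J * Pᵀ = (P * -(J * Pᵀ * J)) * J := by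
    have : (P * -(J * Pᵀ * J)) * J = -(P * J * Pᵀ * (J * J)) := by noncomm_ring
    rw [this, hq.JJ, mul_neg, mul_one, neg_neg]
  rw [e2, e, one_mul]

theorem symp_isUnit (hq : Quat I J K) (h : Pᵀ * J * P = J) : IsUnit P.det :=
  Matrix.isUnit_det_of_left_inverse (left_inv hq h)

theorem symp_inv (hq : Quat I J K) (h : Pᵀ * J * P = J) : P⁻¹ = -(J * Pᵀ * J) :=
  Matrix.inv_eq_left_inv (left_inv hq h)

theorem symp_gm_inv (hq : Quat I J K) (h : Pᵀ * J * P = J) : (gm P)⁻¹ = -(J * gm P * J) := by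
  apply Matrix.inv_eq_left_inv
  unfold gm
  have e : -(J * (Pᵀ * P) * J) * (Pᵀ * P) = -(J * (Pᵀ * (P * J * Pᵀ) * P)) := by noncomm_ring
  rw [e, PJPt hq h, h, hq.JJ, neg_neg]

theorem symp_inv_symp (hq : Quat I J K) (h : Pᵀ * J * P = J) : (P⁻¹)ᵀ * J * P⁻¹ = J := by
  have hu := symp_isUnit hq h
  have h1 : P * P⁻¹ = 1 := Matrix.mul_nonsing_inv P hu
  have h2 : (P⁻¹)ᵀ * Pᵀ = 1 := by rw [← transpose_mul, h1, transpose_one]
  calc (P⁻¹)ᵀ * J * P⁻¹ = (P⁻¹)ᵀ * (Pᵀ * J * P) * P⁻¹ := by rw [h]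
    _ = ((P⁻¹)ᵀ * Pᵀ) * J * (P * P⁻¹) := by noncomm_ring
    _ = J := by rw [h1, h2, one_mul, mul_one]

theorem symp_mul {R : Matrix ι ι ℝ} (h : Pᵀ * J * P = J) (h' : Rᵀ * J * R = J) :
    (P * R)ᵀ * J * (P * R) = J := by
  rw [transpose_mul]
  have e : Rᵀ * Pᵀ * J * (P * R) = Rᵀ * (Pᵀ * J * P) * R := by noncomm_ring
  rw [e, h, h']

private theorem inv_transpose (hq : Quat I J K) (h : Pᵀ * J * P = J) : (P⁻¹)ᵀ = -(J * P * J) := by
  rw [symp_inv hq h, transpose_neg, transpose_mul, transpose_mul, transpose_transpose, hq.Jt]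
  noncomm_ring

theorem symp_trace (hq : Quat I J K) (h : Pᵀ * J * P = J) :
    (gm P⁻¹).trace = (gm P).trace := by
  unfold gm
  have e : (P⁻¹)ᵀ * P⁻¹ = J * (P * (J * J) * Pᵀ * J) := by
    rw [inv_transpose hq h, symp_inv hq h]; noncomm_ring
  rw [e, trace_mul_comm, hq.JJ]
  have e2 : P * (-1) * Pᵀ * J * J = -(P * Pᵀ * (J * J)) := by noncomm_ring
  rw [e2, hq.JJ, mul_neg, mul_one, neg_neg, trace_mul_comm]

theorem symp_nsq (hq : Quat I J K) (h : Pᵀ * J * P = J) : nsq (P⁻¹ - Pᵀ) ≤ nsq (gm P - 1) := by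
  have hu := symp_isUnit hq h
  have h1 : P * P⁻¹ = 1 := Matrix.mul_nonsing_inv P hu
  have h2 : (P⁻¹)ᵀ * Pᵀ = 1 := by rw [← transpose_mul, h1, transpose_one]
  have hgt : (gm P)ᵀ = gm P := by unfold gm; rw [transpose_mul, transpose_transpose]
  have htr := symp_trace hq h
  -- left side
  have L : nsq (P⁻¹ - Pᵀ) = 2 * (gm P).trace - 2 * (Fintype.card ι : ℝ) := by
    unfold nsq
    rw [ip_eq_trace, transpose_sub, transpose_transpose]
    have e : ((P⁻¹)ᵀ - P) * (P⁻¹ - Pᵀ) =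
        (P⁻¹)ᵀ * P⁻¹ - (P⁻¹)ᵀ * Pᵀ - P * P⁻¹ + P * Pᵀ := by noncomm_ring
    rw [e, h1, h2, trace_add, trace_sub, trace_sub, trace_one]
    have e2 : ((P⁻¹)ᵀ * P⁻¹).trace = (gm P).trace := htr
    have e3 : (P * Pᵀ).trace = (gm P).trace := by unfold gm; rw [trace_mul_comm]
    rw [e2, e3]; ring
  -- right side
  have R : nsq (gm P - 1) = (gm P * gm P).trace - 2 * (gm P).trace + (Fintype.card ι : ℝ) := by
    unfold nsq
    rw [ip_eq_trace, transpose_sub, transpose_one, hgt]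
    have e : (gm P - 1) * (gm P - 1) = gm P * gm P - gm P - gm P + 1 := by noncomm_ring
    rw [e, trace_add, trace_sub, trace_sub, trace_one]; ring
  -- positivity
  have hg1 : gm P * -(J * gm P * J) = 1 := by
    rw [← symp_gm_inv hq h]
    apply Matrix.mul_nonsing_inv
    unfold gm
    rw [det_mul, det_transpose]
    exact hu.mul hu
  have hg2 : -(J * gm P * J) * gm P = 1 := mul_eq_one_comm.1 hg1
  have N : 0 ≤ nsq (gm P + -(J * gm P * J) - 2 • (1 : Matrix ι ι ℝ)) := nsq_nonneg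
  have hgit : (-(J * gm P * J))ᵀ = -(J * gm P * J) := by
    rw [transpose_neg, transpose_mul, transpose_mul, hgt, hq.Jt]; noncomm_ring
  have E : nsq (gm P + -(J * gm P * J) - 2 • (1 : Matrix ι ι ℝ)) =
      2 * (gm P * gm P).trace - 8 * (gm P).trace + 6 * (Fintype.card ι : ℝ) := by
    unfold nsq
    rw [ip_eq_trace, transpose_sub, transpose_add, hgt, hgit, transpose_smul, transpose_one]
    obtain ⟨G, hG⟩ : ∃ G, G = -(J * gm P * J) := ⟨_, rfl⟩
    have t1 : G.trace = (gm P).trace := by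
      rw [hG, trace_neg, trace_mul_comm, ← mul_assoc, hq.JJ, neg_mul, one_mul, trace_neg, neg_neg]
    have t2 : (G * G).trace = (gm P * gm P).trace := by
      have : G * G = J * (gm P * (J * J) * gm P * J) := by rw [hG]; noncomm_ring
      rw [this, trace_mul_comm, hq.JJ]
      have e2 : gm P * (-1) * gm P * J * J = -(gm P * gm P * (J * J)) := by noncomm_ring
      rw [e2, hq.JJ, mul_neg, mul_one, neg_neg]
    rw [← hG] at hg1 hg2 ⊢
    have e : (gm P + G - 2 • (1 : Matrix ι ι ℝ)) * (gm P + G - 2 • (1 : Matrix ι ι ℝ)) =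
        gm P * gm P + G * G + gm P * G + G * gm P - 4 • gm P - 4 • G + 4 • (1 : Matrix ι ι ℝ) := by
      noncomm_ring
    rw [e, hg1, hg2]
    simp only [trace_add, trace_sub, trace_smul, trace_one, t1, t2]
    simp only [nsmul_eq_mul]
    push_cast
    ring
  rw [E] at N
  rw [L, R]
  linarith

theorem abs_dot_le (v w : ι → ℝ) : |v ⬝ᵥ w| ≤ Real.sqrt (vsq v) * Real.sqrt (vsq w) := by
  rw [← Real.sqrt_mul (by unfold vsq; exact Finset.sum_nonneg fun i _ => sq_nonneg _)]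
  apply Real.abs_le_sqrt
  unfold vsq dotProduct
  exact Finset.sum_mul_sq_le_sq_mul_sq _ _ _

private theorem vsq_nonneg (v : ι → ℝ) : 0 ≤ vsq v := by
  unfold vsq; exact Finset.sum_nonneg fun i _ => sq_nonneg _

private theorem vsq_mul (A : Matrix ι ι ℝ) (w : ι → ℝ) : vsq (A *ᵥ w) ≤ nsq A * vsq w := by
  unfold vsq nsq ip
  rw [Finset.sum_mul]
  refine Finset.sum_le_sum fun i _ => ?_
  have h2 : (A *ᵥ w) i = ∑ j, A i j * w j := rfl
  rw [h2]
  refine (Finset.sum_mul_sq_le_sq_mul_sq _ _ _).trans (le_of_eq ?_)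
  simp only [sq]

theorem abs_form_le (A : Matrix ι ι ℝ) (v w : ι → ℝ) :
    |v ⬝ᵥ (A *ᵥ w)| ≤ nrm A * (Real.sqrt (vsq v) * Real.sqrt (vsq w)) := by
  refine (abs_dot_le _ _).trans ?_
  have h1 : Real.sqrt (vsq (A *ᵥ w)) ≤ nrm A * Real.sqrt (vsq w) := by
    unfold nrm
    rw [← Real.sqrt_mul nsq_nonneg]
    exact Real.sqrt_le_sqrt (vsq_mul A w)
  calc Real.sqrt (vsq v) * Real.sqrt (vsq (A *ᵥ w))
      ≤ Real.sqrt (vsq v) * (nrm A * Real.sqrt (vsq w)) :=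
        mul_le_mul_of_nonneg_left h1 (Real.sqrt_nonneg _)
    _ = _ := by ring

/-- covectors `v, w` in a frame which is orthonormal for the metric `1` -/
theorem symp_form_le (hq : Quat I J K) (h : Pᵀ * J * P = J) (v w : ι → ℝ) :
    |v ⬝ᵥ (((gm P)⁻¹ - 1) *ᵥ w)| ≤ nrm (gm P - 1) * (Real.sqrt (vsq v) * Real.sqrt (vsq w)) := by
  have e : (gm P)⁻¹ - 1 = -(J * ((gm P - 1) * J)) := by
    rw [symp_gm_inv hq h]
    have : -(J * ((gm P - 1) * J)) = -(J * gm P * J) + J * J := by noncomm_ring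
    rw [this, hq.JJ]; abel
  have e2 : nrm ((gm P)⁻¹ - 1) = nrm (gm P - 1) := by
    rw [e, nrm_neg, hq.nrm_J_left, hq.nrm_J_right]
  rw [← e2]
  exact abs_form_le _ _ _

private theorem gm_inv_eq (h : IsUnit P.det) : (gm P)⁻¹ = P⁻¹ * (P⁻¹)ᵀ := by
  unfold gm
  rw [Matrix.mul_inv_rev, Matrix.transpose_nonsing_inv]

/-- the same with the norm of `w` for the metric `gm P` -/
theorem symp_form_le' (hq : Quat I J K) (h : Pᵀ * J * P = J) (v w : ι → ℝ) :
    |v ⬝ᵥ (((gm P)⁻¹ - 1) *ᵥ w)| ≤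
      nrm (gm P - 1) * (Real.sqrt (vsq v) * Real.sqrt (vsq ((P⁻¹)ᵀ *ᵥ w))) := by
  have hu := symp_isUnit hq h
  have h1 : P⁻¹ * P = 1 := Matrix.nonsing_inv_mul P hu
  have h2 : Pᵀ * (P⁻¹)ᵀ = 1 := by rw [← transpose_mul, h1, transpose_one]
  have e : (gm P)⁻¹ - 1 = (P⁻¹ - Pᵀ) * (P⁻¹)ᵀ := by
    rw [gm_inv_eq hu, Matrix.sub_mul, h2]
  rw [e, ← Matrix.mulVec_mulVec]
  refine (abs_form_le _ _ _).trans ?_
  refine mul_le_mul_of_nonneg_right ?_ (mul_nonneg (Real.sqrt_nonneg _) (Real.sqrt_nonneg _))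
  unfold nrm
  exact Real.sqrt_le_sqrt (symp_nsq hq h)

/-- `|v|² for gm P ≤ tr (gm P) |v|²` -/
theorem symp_vsq_le (hq : Quat I J K) (h : Pᵀ * J * P = J) (v : ι → ℝ) :
    vsq ((P⁻¹)ᵀ *ᵥ v) ≤ (gm P).trace * vsq v := by
  have h1 := vsq_mulVec_le (P := P⁻¹) v
  rw [symp_trace hq h, mul_comm] at h1
  exact h1

theorem dot_gm_inv (h : IsUnit P.det) (v w : ι → ℝ) :
    ((P⁻¹)ᵀ *ᵥ v) ⬝ᵥ ((P⁻¹)ᵀ *ᵥ w) = v ⬝ᵥ ((gm P)⁻¹ *ᵥ w) := by
  rw [gm_inv_eq h, ← Matrix.mulVec_mulVec, Matrix.dotProduct_mulVec v P⁻¹, Matrix.mulVec_transpose]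

/-- the Lie derivative `S` of the metric satisfies `J S J = S` -/
theorem Lie.JSJ {A T : Matrix ι ι ℝ} (hq : Quat I J K) (h : Lie I J K A T) :
    J * (A * I + J - K * T) * J = A * I + J - K * T := by
  obtain ⟨p, hA, hJ, hK⟩ := h
  have hp : pᵀ = J * p * J := by
    have h1 : pᵀ * J = -(J * p) := eq_neg_of_add_eq_zero_left hJ
    have h2 : pᵀ * (J * J) = -(J * p) * J := by rw [← mul_assoc, h1]
    rw [hq.JJ, mul_neg, mul_one, neg_mul, neg_inj] at h2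
    exact h2
  have hT : T = I - (pᵀ * K + K * p) := by rw [hK]; abel
  have hS : A * I + J - K * T = -(J * p * J) - p := by
    have e : A * I + J - K * T = pᵀ * (I * I) + I * p * I + J - K * I + K * pᵀ * K + (K * K) * p := by
      rw [hA, hT]; noncomm_ring
    have e2 : K * pᵀ * K = (K * J) * p * (J * K) := by rw [hp]; noncomm_ring
    rw [e, e2, hq.II, hq.KI, hq.KK, hq.KJ, hq.JK, hp]
    noncomm_ring
  rw [hS]
  have e3 : J * (-(J * p * J) - p) * J = -((J * J) * p * (J * J)) - J * p * J := by noncomm_ring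
  rw [e3, hq.JJ]
  noncomm_ring

/-- the metric of a triple from its three forms -/
theorem gm_of_forms (hq : Quat I J K) (h : Pᵀ * J * P = J) :
    gm P = -(om I P * J * (Pᵀ * K * P)) := by
  unfold gm om
  have e : Pᵀ * I * P * J * (Pᵀ * K * P) = Pᵀ * (I * (P * J * Pᵀ) * K) * P := by noncomm_ring
  rw [e, PJPt hq h, hq.IJ, hq.KK]
  noncomm_ring

/-- the rotated triple has the same metric -/
theorem gm_rot {R D : Matrix ι ι ℝ} (hq : Quat I J K) (hP : Pᵀ * J * P = J)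
    (hR : Rᵀ * J * R = J) (c s : ℝ) (hcs : c ^ 2 + s ^ 2 = 1)
    (h1 : Dᵀ * om I R * D = c • om I P - s • (Pᵀ * K * P)) (h2 : Dᵀ * J * D = J)
    (h3 : Dᵀ * (Rᵀ * K * R) * D = c • (Pᵀ * K * P) + s • om I P) :
    Dᵀ * gm R * D = gm P := by
  have hD := PJPt hq h2
  have hPJ := PJPt hq hP
  have e0 : Dᵀ * gm R * D = -((Dᵀ * om I R * D) * J * (Dᵀ * (Rᵀ * K * R) * D)) := by
    rw [gm_of_forms hq hR]
    have e : (Dᵀ * om I R * D) * J * (Dᵀ * (Rᵀ * K * R) * D) =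
        Dᵀ * (om I R * (D * J * Dᵀ) * (Rᵀ * K * R)) * D := by noncomm_ring
    rw [e, hD]; noncomm_ring
  have a1 : om I P * J * (Pᵀ * K * P) = -gm P := by rw [gm_of_forms hq hP, neg_neg]
  have a2 : (Pᵀ * K * P) * J * om I P = gm P := by
    unfold om gm
    have e : Pᵀ * K * P * J * (Pᵀ * I * P) = Pᵀ * (K * ((P * J * Pᵀ) * I)) * P := by noncomm_ring
    rw [e, hPJ, hq.JI, mul_neg, hq.KK, neg_neg, mul_one]
  have a3 : om I P * J * om I P = J := by
    unfold om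
    have e : Pᵀ * I * P * J * (Pᵀ * I * P) = Pᵀ * (I * (P * J * Pᵀ) * I) * P := by noncomm_ring
    rw [e, hPJ, hq.IJ, hq.KI, hP]
  have a4 : (Pᵀ * K * P) * J * (Pᵀ * K * P) = J := by
    have e : Pᵀ * K * P * J * (Pᵀ * K * P) = Pᵀ * (K * (P * J * Pᵀ) * K) * P := by noncomm_ring
    rw [e, hPJ, hq.KJ, neg_mul, hq.IK, neg_neg, hP]
  rw [e0, h1, h3]
  have e5 : (c • om I P - s • (Pᵀ * K * P)) * J * (c • (Pᵀ * K * P) + s • om I P) =
      (c * c) • (om I P * J * (Pᵀ * K * P)) + (c * s) • (om I P * J * om I P)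
        - (s * c) • ((Pᵀ * K * P) * J * (Pᵀ * K * P)) - (s * s) • ((Pᵀ * K * P) * J * om I P) := by
    simp only [Matrix.sub_mul, Matrix.mul_add, Matrix.smul_mul, Matrix.mul_smul]
    module
  rw [e5, a1, a2, a3, a4]
  have : (c * c) • -gm P + (c * s) • J - (s * c) • J - (s * s) • gm P =
      -((c ^ 2 + s ^ 2) • gm P) := by module
  rw [this, hcs, one_smul, neg_neg]

end Pool.Agent.SYR
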