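import Pool.Agent.SYR.Arc
import Pool.Agent.SYR.R1g
import Pool.Agent.SYR.Symp

/-!
# SYR/ArcSlice : the slice of an arc at `u`, and theorem R1 in the arc

`P_h = P_{u+h} P_u⁻¹`, `τ_h = hat_u (B_{u+h} - B_u)`, `Sm P_h τ_h = hat_{u+h} (B_{u+h} - B_u)`.
`B_{u+h} - B_u = ∫ Θ` entrywise: bounds by the mean value inequality applied to
`s ↦ hat_u (B_s)` (a linear map of the entries): `Θ_bdd`, `Θ_lip`. `stokes1`: field `stokes` with
`φ = χ_j²`, `α = ω_u`, `β = η_{u+h}`; `Q I I β' = (N/4 - 1/2) ip I β'`, `N ≥ 4`, and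
`2 √N / (N/4 - 1/2) ≤ 8`.
-/

set_option autoImplicit false

open Matrix MeasureTheory Filter Topology Set

namespace Pool.Agent.SYR.Arc

variable {ι : Type} [Fintype ι] [DecidableEq ι] {a : Arc ι} {C h0 : ℝ}

/-- the slice at `u` -/
noncomputable def slice (a : Arc ι) (u : ℝ) : Slice ι where
  M := a.M
  μ := a.μ
  I := a.I
  J := a.J
  K := a.K
  P h x := a.P (u + h) x * (a.P u x)⁻¹
  τ h x := a.hat u x (a.B (u + h) x - a.B u x)
  Θ x := a.hat u x (a.Θ u x)
  θ h x := a.hat u x (a.Θ (u + h) x)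
  η h x := a.co u x (a.η (u + h) x)
  ζ x := a.co u x (a.ω u x *ᵥ a.W u x)
  A x := a.hat u x (a.A u x)
  χ j x := a.χ j x
  c j x := Real.sqrt (a.pr u x (a.dl (a.χ j) x) (a.dl (a.χ j) x))

/-! ### measurability -/

private def MM {X : Type} [MeasurableSpace X] (F : X → Matrix ι ι ℝ) : Prop :=
  ∀ i j, Measurable (fun x => F x i j)

private def MV {X : Type} [MeasurableSpace X] (v : X → ι → ℝ) : Prop :=
  ∀ i, Measurable (fun x => v x i)

private theorem MM.mul {X : Type} [MeasurableSpace X] {F G : X → Matrix ι ι ℝ}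
    (hF : MM F) (hG : MM G) : MM (fun x => F x * G x) := by
  intro i j
  simp only [Matrix.mul_apply]
  exact Finset.measurable_sum _ fun k _ => (hF i k).mul (hG k j)

private theorem MM.sub {X : Type} [MeasurableSpace X] {F G : X → Matrix ι ι ℝ}
    (hF : MM F) (hG : MM G) : MM (fun x => F x - G x) := by
  intro i j
  simp only [Matrix.sub_apply]
  exact (hF i j).sub (hG i j)

private theorem MM.const {X : Type} [MeasurableSpace X] (A : Matrix ι ι ℝ) :
    MM (fun _ : X => A) := by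
  intro i j
  exact measurable_const

private theorem MM.transpose {X : Type} [MeasurableSpace X] {F : X → Matrix ι ι ℝ}
    (hF : MM F) : MM (fun x => (F x)ᵀ) := by
  intro i j
  simp only [Matrix.transpose_apply]
  exact hF j i

private theorem MM.det {X : Type} [MeasurableSpace X] {F : X → Matrix ι ι ℝ}
    (hF : MM F) : Measurable (fun x => (F x).det) := by
  simp only [Matrix.det_apply]
  refine Finset.measurable_sum _ fun σ _ => ?_
  refine Measurable.const_smul ?_ _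
  exact Finset.measurable_prod _ fun i _ => hF _ _

private theorem MM.inv {X : Type} [MeasurableSpace X] {F : X → Matrix ι ι ℝ}
    (hF : MM F) : MM (fun x => (F x)⁻¹) := by
  intro i j
  simp only [Matrix.inv_def, Matrix.smul_apply, Ring.inverse_eq_inv', smul_eq_mul,
    Matrix.adjugate_apply]
  refine (hF.det.inv).mul ?_
  apply MM.det
  intro k l
  by_cases hk : k = j
  · subst hk
    simp only [Matrix.updateRow_self]
    exact measurable_const
  · simp only [Matrix.updateRow_ne hk]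
    exact hF k l

private theorem MM.mulVec {X : Type} [MeasurableSpace X] {F : X → Matrix ι ι ℝ} {v : X → ι → ℝ}
    (hF : MM F) (hv : MV v) : MV (fun x => F x *ᵥ v x) := by
  intro i
  simp only [Matrix.mulVec, dotProduct]
  exact Finset.measurable_sum _ fun k _ => (hF i k).mul (hv k)

private theorem MV.dot {X : Type} [MeasurableSpace X] {v w : X → ι → ℝ}
    (hv : MV v) (hw : MV w) : Measurable (fun x => v x ⬝ᵥ w x) := by
  simp only [dotProduct]
  exact Finset.measurable_sum _ fun k _ => (hv k).mul (hw k)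

private theorem P_mm (hG : a.Geom C h0) (s : ℝ) : MM (a.P s) := fun i j =>
  (hG.P_meas i j).comp (measurable_const.prodMk measurable_id)

private theorem Θ_mm (hG : a.Geom C h0) (s : ℝ) : MM (a.Θ s) := fun i j =>
  (hG.Θ_meas i j).comp (measurable_const.prodMk measurable_id)

private theorem A_mm (hG : a.Geom C h0) (s : ℝ) : MM (a.A s) := fun i j =>
  (hG.A_meas i j).comp (measurable_const.prodMk measurable_id)

private theorem η_mv (hG : a.Geom C h0) (s : ℝ) : MV (a.η s) := fun i =>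
  (hG.η_meas i).comp (measurable_const.prodMk measurable_id)

private theorem W_mv (hG : a.Geom C h0) (s : ℝ) : MV (a.W s) := fun i =>
  (hG.W_meas i).comp (measurable_const.prodMk measurable_id)

private theorem B_mm (hG : a.Geom C h0) (s : ℝ) : MM (a.B s) :=
  ((P_mm hG s).transpose.mul (MM.const a.K)).mul (P_mm hG s)

private theorem ω_mm (hG : a.Geom C h0) (s : ℝ) : MM (a.ω s) :=
  ((P_mm hG s).transpose.mul (MM.const a.I)).mul (P_mm hG s)

private theorem hat_mm (hG : a.Geom C h0) (u : ℝ) {F : a.M → Matrix ι ι ℝ} (hF : MM F) :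
    MM (fun x => a.hat u x (F x)) :=
  ((P_mm hG u).inv.transpose.mul hF).mul (P_mm hG u).inv

private theorem co_mv (hG : a.Geom C h0) (u : ℝ) {v : a.M → ι → ℝ} (hv : MV v) :
    MV (fun x => a.co u x (v x)) :=
  (P_mm hG u).inv.transpose.mulVec hv

/-! ### algebra -/

private theorem vsq_eq_dot (v : ι → ℝ) : vsq v = v ⬝ᵥ v := by
  unfold vsq dotProduct
  exact Finset.sum_congr rfl fun i _ => sq (v i)

private theorem vsq_orth {R : Matrix ι ι ℝ} (hR : Rᵀ * R = 1) (v : ι → ℝ) :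
    vsq (R *ᵥ v) = vsq v := by
  rw [vsq_eq_dot, vsq_eq_dot, Matrix.dotProduct_mulVec, Matrix.vecMul_mulVec, hR,
    Matrix.vecMul_one]

private theorem trace_her (I J K B : Matrix ι ι ℝ) (hq : Quat I J K) :
    ip 1 (her I B) = ip I B := by
  unfold her
  rw [ip_eq_trace, ip_eq_trace, hq.It, Matrix.transpose_one, Matrix.one_mul, Matrix.neg_mul,
    Matrix.trace_neg, Matrix.trace_smul, Matrix.trace_add, Matrix.trace_mul_comm B I, smul_eq_mul]
  ring

private theorem Q_II {I J K : Matrix ι ι ℝ} (hq : Quat I J K) (B : Matrix ι ι ℝ) :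
    Q I I B = ((Fintype.card ι : ℝ) / 4 - 1 / 2) * ip I B := by
  unfold Q
  rw [hq.her_I, hq.two_I, trace_her I J K B hq]
  have h1 : ip I I = Fintype.card ι := hq.nsq_I
  have h2 : ip (0 : Matrix ι ι ℝ) (two I B) = 0 := by
    unfold ip
    simp
  rw [h1, h2]
  ring

/-- mean value inequality -/
private theorem mean {T : Set ℝ} {F F' : ℝ → Matrix ι ι ℝ} {s t c : ℝ} (R : Matrix ι ι ℝ)
    (hst : s ≤ t) (hT : Icc s t ⊆ T) (hc : 0 ≤ c)
    (hF : ∀ r ∈ Icc s t, ∀ i j, HasDerivWithinAt (fun r => F r i j) (F' r i j) T r)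
    (hb : ∀ r ∈ Icc s t, nrm (Rᵀ * F' r * R) ≤ c) :
    nrm (Rᵀ * (F t - F s) * R) ≤ c * (t - s) := by
  obtain ⟨E, hE⟩ : ∃ E : Matrix ι ι ℝ, E = Rᵀ * (F t - F s) * R := ⟨_, rfl⟩
  rw [← hE]
  have key : ∀ X : Matrix ι ι ℝ, ip E (Rᵀ * X * R) = ∑ i, ∑ j, (R * E * Rᵀ) i j * X i j := by
    intro X
    have h1 : ip E (Rᵀ * X * R) = ip (R * E * Rᵀ) X := by
      rw [ip_eq_trace, ip_eq_trace, Matrix.transpose_mul, Matrix.transpose_mul,
        Matrix.transpose_transpose]
      have e1 : Eᵀ * (Rᵀ * X * R) = (Eᵀ * (Rᵀ * X)) * R := by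
        rw [← Matrix.mul_assoc]
      have e2 : R * (Eᵀ * Rᵀ) * X = R * (Eᵀ * (Rᵀ * X)) := by
        simp only [Matrix.mul_assoc]
      rw [e1, e2, Matrix.trace_mul_comm]
    rw [h1]
    rfl
  set f : ℝ → ℝ := fun r => ip E (Rᵀ * (F r) * R) with hf
  have hfd : ∀ r ∈ Icc s t, HasDerivWithinAt f (ip E (Rᵀ * F' r * R)) (Icc s t) r := by
    intro r hr
    have h2 : f = fun r => ∑ i, ∑ j, (R * E * Rᵀ) i j * F r i j := by
      funext r
      exact key (F r)
    rw [h2, key (F' r)]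
    refine HasDerivWithinAt.fun_sum fun i _ => ?_
    refine HasDerivWithinAt.fun_sum fun j _ => ?_
    exact ((hF r hr i j).mono hT).const_mul _
  have hfb : ∀ r ∈ Icc s t, ‖ip E (Rᵀ * F' r * R)‖ ≤ nrm E * c := by
    intro r hr
    rw [Real.norm_eq_abs]
    exact abs_ip_le.trans (mul_le_mul_of_nonneg_left (hb r hr) nrm_nonneg)
  have hmv := (convex_Icc s t).norm_image_sub_le_of_norm_hasDerivWithin_le hfd hfb
    (left_mem_Icc.2 hst) (right_mem_Icc.2 hst)
  have h3 : f t - f s = nrm E * nrm E := by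
    have h4 : ip E E = nrm E * nrm E := by
      rw [← sq, nrm_sq]
      rfl
    rw [← h4]
    have h5 : f t - f s = ip E (Rᵀ * F t * R) - ip E (Rᵀ * F s * R) := rfl
    rw [h5]
    have h6 : E = Rᵀ * F t * R + -(Rᵀ * F s * R) := by
      rw [hE, Matrix.mul_sub, Matrix.sub_mul, sub_eq_add_neg]
    calc ip E (Rᵀ * F t * R) - ip E (Rᵀ * F s * R)
        = ip E (Rᵀ * F t * R + -(Rᵀ * F s * R)) := by
          rw [ip_add_right, ip_neg_right]
          ring
      _ = ip E E := by rw [← h6]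
  rw [h3, Real.norm_eq_abs, abs_of_nonneg (mul_nonneg nrm_nonneg nrm_nonneg), Real.norm_eq_abs,
    abs_of_nonneg (sub_nonneg.2 hst)] at hmv
  rcases (nrm_nonneg (A := E)).eq_or_lt with h0 | h0
  · rw [← h0]
    exact mul_nonneg hc (sub_nonneg.2 hst)
  · have : nrm E * nrm E ≤ nrm E * (c * (t - s)) := by linarith
    exact le_of_mul_le_mul_left this h0

private theorem mem_of {U u h : ℝ} (hu : u ∈ Ico 0 U) (hh : h ∈ Ioc 0 (min h0 (U - u))) :
    u + h ∈ Icc 0 U := by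
  have h1 := hh.2.trans (min_le_right _ _)
  exact ⟨by linarith [hu.1, hh.1], by linarith⟩

theorem slice_facts (hG : a.Geom C h0) {u : ℝ} (hu : u ∈ Ico 0 a.U) :
    (a.slice u).Facts (8 * C) (min h0 (a.U - u)) := by
  have huI : u ∈ Icc 0 a.U := ⟨hu.1, hu.2.le⟩
  have hC := hG.C_nonneg
  have hq := hG.quat
  have hC8 : C ≤ 8 * C := by linarith
  have mi : ∀ s ∈ Icc 0 a.U, ∀ x, a.P s x * (a.P s x)⁻¹ = 1 := fun s hs x =>
    Matrix.mul_nonsing_inv _ (hG.inv s hs x)
  have im : ∀ s ∈ Icc 0 a.U, ∀ x, (a.P s x)⁻¹ * a.P s x = 1 := fun s hs x =>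
    Matrix.nonsing_inv_mul _ (hG.inv s hs x)
  have mit : ∀ s ∈ Icc 0 a.U, ∀ x, ((a.P s x)⁻¹)ᵀ * (a.P s x)ᵀ = 1 := by
    intro s hs x
    rw [← Matrix.transpose_mul, mi s hs x, Matrix.transpose_one]
  -- the forms of the slice
  have hatB : ∀ x, a.hat u x (a.B u x) = a.K := by
    intro x
    unfold hat B
    calc ((a.P u x)⁻¹)ᵀ * ((a.P u x)ᵀ * a.K * a.P u x) * (a.P u x)⁻¹
        = (((a.P u x)⁻¹)ᵀ * (a.P u x)ᵀ) * a.K * (a.P u x * (a.P u x)⁻¹) := by
          simp only [Matrix.mul_assoc]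
      _ = a.K := by rw [mit u huI x, mi u huI x, Matrix.one_mul, Matrix.mul_one]
  have hatω : ∀ x, a.hat u x (a.ω u x) = a.I := by
    intro x
    unfold hat ω om
    calc ((a.P u x)⁻¹)ᵀ * ((a.P u x)ᵀ * a.I * a.P u x) * (a.P u x)⁻¹
        = (((a.P u x)⁻¹)ᵀ * (a.P u x)ᵀ) * a.I * (a.P u x * (a.P u x)⁻¹) := by
          simp only [Matrix.mul_assoc]
      _ = a.I := by rw [mit u huI x, mi u huI x, Matrix.one_mul, Matrix.mul_one]
  have hat_sub : ∀ x X Y, a.hat u x (X - Y) = a.hat u x X - a.hat u x Y := by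
    intro x X Y
    unfold hat
    rw [Matrix.mul_sub, Matrix.sub_mul]
  have conj_hat : ∀ h x (Z : Matrix ι ι ℝ),
      (a.P (u + h) x * (a.P u x)⁻¹)ᵀ * Z * (a.P (u + h) x * (a.P u x)⁻¹) =
        a.hat u x ((a.P (u + h) x)ᵀ * Z * a.P (u + h) x) := by
    intro h x Z
    unfold hat
    rw [Matrix.transpose_mul]
    simp only [Matrix.mul_assoc]
  have hw : ∀ h x, (a.slice u).w h x = a.hat u x (a.ω (u + h) x) := fun h x => conj_hat h x a.I
  have invP : ∀ h, u + h ∈ Icc 0 a.U → ∀ x,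
      (a.P (u + h) x * (a.P u x)⁻¹)⁻¹ = a.P u x * (a.P (u + h) x)⁻¹ := by
    intro h hh x
    rw [Matrix.mul_inv_rev, Matrix.nonsing_inv_nonsing_inv _ (hG.inv u huI x)]
  have pr_self : ∀ s x v, a.pr s x v v = vsq (a.co s x v) := fun s x v => (vsq_eq_dot _).symm
  have pr_nonneg : ∀ s x v, 0 ≤ a.pr s x v v := by
    intro s x v
    rw [pr_self]
    exact Finset.sum_nonneg fun i _ => sq_nonneg _
  have P8 : C ^ 2 ≤ (8 * C) ^ 2 := by nlinarith
  refine
    { fin := hG.fin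
      h0_pos := lt_min hG.h0_pos (sub_pos.2 hu.2)
      h0_le := (min_le_left _ _).trans hG.h0_le
      C_nonneg := by linarith
      small := ?_
      quat := hq
      P_meas := ?_
      τ_meas := ?_
      Θ_meas := ?_
      θ_meas := ?_
      η_meas := ?_
      ζ_meas := ?_
      A_meas := ?_
      tri := ?_
      lie := fun x => hG.lie u huI x
      Θ_bdd := fun x => (hG.Θ_bdd u huI u huI x).trans hC8
      τ_lin := ?_
      S_bdd := ?_
      θ_bdd := fun h hh x => (hG.Θ_bdd u huI (u + h) (mem_of hu hh) x).trans hC8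
      η_bdd := ?_
      ζ_bdd := ?_
      A_sq := hG.A_sq u huI
      χ_meas := ?_
      χ_nonneg := hG.χ_nonneg
      χ_le_one := hG.χ_le_one
      χ_lim := hG.χ_lim
      c_meas := ?_
      c_nonneg := fun j x => Real.sqrt_nonneg _
      c_bdd := ?_
      c_sq := ?_
      supp_A := ?_
      supp_P := ?_
      stokes1 := ?_
      stokes2 := ?_
      stokes3 := ?_
      coh := ?_
      cohΘ := ?_
      cont := ?_ }
  · have h1 : 8 * C * min h0 (a.U - u) ≤ 8 * C * h0 :=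
      mul_le_mul_of_nonneg_left (min_le_left _ _) (by linarith)
    exact h1.trans hG.small
  · intro h
    exact (P_mm hG (u + h)).mul (P_mm hG u).inv
  · intro h
    exact hat_mm hG u ((B_mm hG (u + h)).sub (B_mm hG u))
  · exact hat_mm hG u (Θ_mm hG u)
  · intro h
    exact hat_mm hG u (Θ_mm hG (u + h))
  · intro h
    exact co_mv hG u (η_mv hG (u + h))
  · exact co_mv hG u ((ω_mm hG u).mulVec (W_mv hG u))
  · exact hat_mm hG u (A_mm hG u)
  · intro h hh x
    have hs := mem_of hu hh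
    refine ⟨?_, ?_, ?_⟩
    · change IsUnit (a.P (u + h) x * (a.P u x)⁻¹).det
      rw [Matrix.det_mul]
      refine (hG.inv _ hs x).mul ?_
      exact Matrix.isUnit_nonsing_inv_det _ (hG.inv u huI x)
    · change (a.P (u + h) x * (a.P u x)⁻¹)ᵀ * a.J * (a.P (u + h) x * (a.P u x)⁻¹) = a.J
      rw [conj_hat, hG.symp _ hs x]
      unfold hat
      have e : a.J = (a.P u x)ᵀ * a.J * a.P u x := (hG.symp u huI x).symm
      conv_lhs => rw [e]
      calc ((a.P u x)⁻¹)ᵀ * ((a.P u x)ᵀ * a.J * a.P u x) * (a.P u x)⁻¹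
          = (((a.P u x)⁻¹)ᵀ * (a.P u x)ᵀ) * a.J * (a.P u x * (a.P u x)⁻¹) := by
            simp only [Matrix.mul_assoc]
        _ = a.J := by rw [mit u huI x, mi u huI x, Matrix.one_mul, Matrix.mul_one]
    · change (a.P (u + h) x * (a.P u x)⁻¹)ᵀ * a.K * (a.P (u + h) x * (a.P u x)⁻¹) =
        a.K + a.hat u x (a.B (u + h) x - a.B u x)
      rw [conj_hat, hat_sub, hatB]
      unfold B
      abel
  · intro h hh x
    have hs := mem_of hu hh
    have h1 := mean (a.P u x)⁻¹ (F := fun s => a.B s x - (s - u) • a.Θ u x)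
      (F' := fun s => a.Θ s x - a.Θ u x) (T := Icc 0 a.U) (s := u) (t := u + h) (c := C * h)
      (by linarith [hh.1]) (Icc_subset_Icc hu.1 hs.2) (mul_nonneg hC hh.1.le)
      (by
        intro r hr i j
        have hrI : r ∈ Icc 0 a.U := ⟨hu.1.trans hr.1, hr.2.trans hs.2⟩
        have d1 := hG.B_deriv r hrI x i j
        have d2 : HasDerivWithinAt (fun s : ℝ => (s - u) * a.Θ u x i j) (1 * a.Θ u x i j)
            (Icc 0 a.U) r := ((hasDerivWithinAt_id r _).sub_const u).mul_const _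
        have d3 := d1.sub d2
        simp only [Matrix.sub_apply, Matrix.smul_apply, smul_eq_mul]
        rw [one_mul] at d3
        exact d3)
      (by
        intro r hr
        have hrI : r ∈ Icc 0 a.U := ⟨hu.1.trans hr.1, hr.2.trans hs.2⟩
        refine (hG.Θ_lip u huI r hrI x).trans ?_
        refine mul_le_mul_of_nonneg_left ?_ hC
        rw [abs_of_nonneg (by linarith [hr.1])]
        linarith [hr.2])
    have h2 : (1 / h) • (a.slice u).τ h x - (a.slice u).Θ x =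
        (1 / h) • (((a.P u x)⁻¹)ᵀ * ((a.B (u + h) x - (u + h - u) • a.Θ u x) -
          (a.B u x - (u - u) • a.Θ u x)) * (a.P u x)⁻¹) := by
      change (1 / h) • (((a.P u x)⁻¹)ᵀ * (a.B (u + h) x - a.B u x) * (a.P u x)⁻¹) -
        ((a.P u x)⁻¹)ᵀ * a.Θ u x * (a.P u x)⁻¹ = _
      have h3 : (a.B (u + h) x - (u + h - u) • a.Θ u x) - (a.B u x - (u - u) • a.Θ u x) =
          (a.B (u + h) x - a.B u x) - h • a.Θ u x := by
        rw [sub_self, zero_smul, sub_zero, add_sub_cancel_left]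
        abel
      have h3' : ((a.P u x)⁻¹)ᵀ * ((a.B (u + h) x - a.B u x) - h • a.Θ u x) * (a.P u x)⁻¹ =
          ((a.P u x)⁻¹)ᵀ * (a.B (u + h) x - a.B u x) * (a.P u x)⁻¹ -
            h • (((a.P u x)⁻¹)ᵀ * a.Θ u x * (a.P u x)⁻¹) := by
        rw [Matrix.mul_sub ((a.P u x)⁻¹)ᵀ (a.B (u + h) x - a.B u x) (h • a.Θ u x),
          Matrix.sub_mul, Matrix.mul_smul, Matrix.smul_mul]
      rw [h3, h3', smul_sub, smul_smul, one_div_mul_cancel hh.1.ne', one_smul]
    rw [h2, nrm_smul, abs_of_pos (by have := hh.1; positivity)]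
    have h4 : C * h * (u + h - u) = C * h * h := by ring
    rw [h4] at h1
    calc 1 / h * nrm _ ≤ 1 / h * (C * h * h) :=
          mul_le_mul_of_nonneg_left h1 (by have := hh.1; positivity)
      _ = C * h := by
          have := hh.1.ne'
          field_simp
      _ ≤ 8 * C * h := mul_le_mul_of_nonneg_right hC8 hh.1.le
  · intro h hh x
    have hs := mem_of hu hh
    have h1 := mean (a.P (u + h) x)⁻¹ (F := fun s => a.B s x)
      (F' := fun s => a.Θ s x) (T := Icc 0 a.U) (s := u) (t := u + h) (c := C)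
      (by linarith [hh.1]) (Icc_subset_Icc hu.1 hs.2) hC
      (by
        intro r hr i j
        exact hG.B_deriv r ⟨hu.1.trans hr.1, hr.2.trans hs.2⟩ x i j)
      (by
        intro r hr
        exact hG.Θ_bdd (u + h) hs r ⟨hu.1.trans hr.1, hr.2.trans hs.2⟩ x)
    have h2 : Sm ((a.slice u).P h x) ((a.slice u).τ h x) =
        ((a.P (u + h) x)⁻¹)ᵀ * (a.B (u + h) x - a.B u x) * (a.P (u + h) x)⁻¹ := by
      change ((a.P (u + h) x * (a.P u x)⁻¹)⁻¹)ᵀ *
        (((a.P u x)⁻¹)ᵀ * (a.B (u + h) x - a.B u x) * (a.P u x)⁻¹) *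
          (a.P (u + h) x * (a.P u x)⁻¹)⁻¹ = _
      rw [invP h hs x, Matrix.transpose_mul]
      calc ((a.P (u + h) x)⁻¹)ᵀ * (a.P u x)ᵀ *
            (((a.P u x)⁻¹)ᵀ * (a.B (u + h) x - a.B u x) * (a.P u x)⁻¹) *
            (a.P u x * (a.P (u + h) x)⁻¹)
          = ((a.P (u + h) x)⁻¹)ᵀ * ((a.P u x)ᵀ * ((a.P u x)⁻¹)ᵀ) *
            (a.B (u + h) x - a.B u x) * (((a.P u x)⁻¹ * a.P u x) * (a.P (u + h) x)⁻¹) := by
            simp only [Matrix.mul_assoc]
        _ = _ := by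
            rw [← Matrix.transpose_mul, im u huI x, Matrix.transpose_one, Matrix.mul_one,
              Matrix.one_mul]
    rw [h2]
    refine h1.trans ?_
    have h4 : C * (u + h - u) = C * h := by ring
    rw [h4]
    exact mul_le_mul_of_nonneg_right hC8 hh.1.le
  · intro h hh x
    have hs := mem_of hu hh
    have h2 : (((a.slice u).P h x)⁻¹)ᵀ *ᵥ (a.slice u).η h x = a.co (u + h) x (a.η (u + h) x) := by
      change ((a.P (u + h) x * (a.P u x)⁻¹)⁻¹)ᵀ *ᵥ (((a.P u x)⁻¹)ᵀ *ᵥ a.η (u + h) x) =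
        ((a.P (u + h) x)⁻¹)ᵀ *ᵥ a.η (u + h) x
      rw [invP h hs x, Matrix.transpose_mul, Matrix.mulVec_mulVec, Matrix.mul_assoc,
        ← Matrix.transpose_mul (a.P u x)⁻¹ (a.P u x), im u huI x, Matrix.transpose_one,
        Matrix.mul_one]
    rw [h2, ← pr_self]
    exact (hG.η_bdd _ hs x).trans P8
  · intro x
    have h2 : (a.slice u).ζ x = a.I *ᵥ (a.P u x *ᵥ a.W u x) := by
      change ((a.P u x)⁻¹)ᵀ *ᵥ (((a.P u x)ᵀ * a.I * a.P u x) *ᵥ a.W u x) = _
      rw [Matrix.mulVec_mulVec, Matrix.mulVec_mulVec, ← Matrix.mul_assoc,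
        ← Matrix.mul_assoc, mit u huI x, Matrix.one_mul]
    rw [h2, vsq_orth (by rw [hq.It, Matrix.neg_mul, hq.II, neg_neg])]
    exact (hG.W_bdd u huI x).trans P8
  · intro j
    exact (hG.sm_cont _ (hG.cs_sm (hG.χ_cs j))).measurable
  · intro j
    exact (hG.pr_cont u huI _ (hG.cs_sm (hG.χ_cs j))).measurable.sqrt
  · intro j
    obtain ⟨L, hL⟩ := hG.c_bdd _ (hG.χ_cs j)
    exact ⟨Real.sqrt L, fun x => Real.sqrt_le_sqrt (hL u huI x)⟩
  · obtain ⟨ε, hε, h⟩ := hG.c_sq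
    refine squeeze_zero (fun j => integral_nonneg fun x => sq_nonneg _) (fun j => ?_) hε
    refine le_trans (le_of_eq ?_) (h j u huI)
    refine integral_congr_ae (ae_of_all _ fun x => ?_)
    exact Real.sq_sqrt (pr_nonneg u x _)
  · intro j
    obtain ⟨L, hL⟩ := hG.supp _ (hG.χ_cs j)
    refine ⟨L * L * L, fun x hx => ?_⟩
    obtain ⟨-, h2, h3⟩ := hL u huI x hx
    have hL0 : 0 ≤ L := nrm_nonneg.trans h2
    calc nrm (((a.P u x)⁻¹)ᵀ * a.A u x * (a.P u x)⁻¹)
        ≤ nrm (((a.P u x)⁻¹)ᵀ * a.A u x) * nrm (a.P u x)⁻¹ := nrm_mul_le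
      _ ≤ (nrm (a.P u x)⁻¹ * nrm (a.A u x)) * nrm (a.P u x)⁻¹ := by
          refine mul_le_mul_of_nonneg_right ?_ nrm_nonneg
          refine nrm_mul_le.trans ?_
          rw [nrm_transpose]
      _ ≤ (L * L) * L := by
          refine mul_le_mul (mul_le_mul h2 h3 nrm_nonneg hL0) h2 nrm_nonneg (mul_nonneg hL0 hL0)
  · intro j h hh
    obtain ⟨L, hL⟩ := hG.supp _ (hG.χ_cs j)
    refine ⟨L * L, fun x hx => ?_⟩
    obtain ⟨-, h2, -⟩ := hL u huI x hx
    obtain ⟨h1, -, -⟩ := hL (u + h) (mem_of hu hh) x hx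
    have hL0 : 0 ≤ L := nrm_nonneg.trans h2
    exact nrm_mul_le.trans (mul_le_mul h1 h2 nrm_nonneg hL0)
  · intro j h hh
    have hs := mem_of hu hh
    obtain ⟨hcs, hdl⟩ := hG.cs_sq _ (hG.χ_cs j)
    have hst := hG.stokes u huI _ hcs _ (hG.ω_cl u huI) _ _ (hG.η_ex (u + h) hs)
    have hN : (4 : ℝ) ≤ Fintype.card ι := by exact_mod_cast hG.card
    have e1 : ∫ x, a.χ j x ^ 2 * Q a.I (a.hat u x (a.ω u x))
        (a.hat u x (a.ω (u + h) x - a.Θ (u + h) x)) ∂a.μ =
        ((Fintype.card ι : ℝ) / 4 - 1 / 2) *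
          ∫ x, (a.slice u).χ j x ^ 2 * ip (a.slice u).I
            ((a.slice u).w h x - (a.slice u).θ h x) ∂(a.slice u).μ := by
      rw [← integral_const_mul]
      refine integral_congr_ae (ae_of_all _ fun x => ?_)
      change a.χ j x ^ 2 * Q a.I (a.hat u x (a.ω u x))
        (a.hat u x (a.ω (u + h) x - a.Θ (u + h) x)) =
        ((Fintype.card ι : ℝ) / 4 - 1 / 2) * (a.χ j x ^ 2 * ip a.I
            ((a.slice u).w h x - a.hat u x (a.Θ (u + h) x)))
      rw [hatω, Q_II hq, hat_sub, hw]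
      ring
    have e2 : ∫ x, Real.sqrt (a.pr u x (a.dl (fun x => a.χ j x ^ 2) x)
        (a.dl (fun x => a.χ j x ^ 2) x)) *
        Real.sqrt (a.pr u x (a.η (u + h) x) (a.η (u + h) x)) * nrm (a.hat u x (a.ω u x)) ∂a.μ =
        (2 * Real.sqrt (Fintype.card ι)) * ∫ x, (a.slice u).χ j x * (a.slice u).c j x *
          Real.sqrt (vsq ((a.slice u).η h x)) ∂(a.slice u).μ := by
      rw [← integral_const_mul]
      refine integral_congr_ae (ae_of_all _ fun x => ?_)
      change Real.sqrt (a.pr u x (a.dl (fun x => a.χ j x ^ 2) x)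
        (a.dl (fun x => a.χ j x ^ 2) x)) *
        Real.sqrt (a.pr u x (a.η (u + h) x) (a.η (u + h) x)) * nrm (a.hat u x (a.ω u x)) =
        (2 * Real.sqrt (Fintype.card ι)) * (a.χ j x *
          Real.sqrt (a.pr u x (a.dl (a.χ j) x) (a.dl (a.χ j) x)) *
            Real.sqrt (vsq (a.co u x (a.η (u + h) x))))
      have e3 : a.pr u x ((2 * a.χ j x) • a.dl (a.χ j) x) ((2 * a.χ j x) • a.dl (a.χ j) x) =
          (2 * a.χ j x) ^ 2 * a.pr u x (a.dl (a.χ j) x) (a.dl (a.χ j) x) := by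
        unfold pr co
        rw [Matrix.mulVec_smul, dotProduct_smul, smul_dotProduct, smul_eq_mul, smul_eq_mul]
        ring
      have e4 : nrm a.I = Real.sqrt (Fintype.card ι) := by
        unfold nrm
        rw [hq.nsq_I]
      rw [hdl x, e3, hatω, e4, Real.sqrt_mul (sq_nonneg _), Real.sqrt_sq
        (mul_nonneg (by norm_num) (hG.χ_nonneg j x)), pr_self u x (a.η (u + h) x)]
      ring
    have hst' := hst
    rw [e1, e2, abs_mul, abs_of_pos (by linarith : (0 : ℝ) < (Fintype.card ι : ℝ) / 4 - 1 / 2)]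
      at hst'
    have hI0 : 0 ≤ ∫ x, (a.slice u).χ j x * (a.slice u).c j x *
          Real.sqrt (vsq ((a.slice u).η h x)) ∂(a.slice u).μ := by
      refine integral_nonneg fun x => ?_
      exact mul_nonneg (mul_nonneg (hG.χ_nonneg j x) (Real.sqrt_nonneg _)) (Real.sqrt_nonneg _)
    set X := |∫ x, (a.slice u).χ j x ^ 2 * ip (a.slice u).I
            ((a.slice u).w h x - (a.slice u).θ h x) ∂(a.slice u).μ| with hX
    set Y := ∫ x, (a.slice u).χ j x * (a.slice u).c j x *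
          Real.sqrt (vsq ((a.slice u).η h x)) ∂(a.slice u).μ with hY
    have hsq : Real.sqrt (Fintype.card ι) ≤ (Fintype.card ι : ℝ) - 2 := by
      rw [Real.sqrt_le_left (by linarith)]
      nlinarith
    have hpos : (0 : ℝ) < (Fintype.card ι : ℝ) / 4 - 1 / 2 := by linarith
    have h5 : ((Fintype.card ι : ℝ) / 4 - 1 / 2) * X ≤
        ((Fintype.card ι : ℝ) / 4 - 1 / 2) * (8 * C * Y) := by
      refine hst'.trans ?_
      have h6 : C * (2 * Real.sqrt (Fintype.card ι) * Y) ≤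
          C * (2 * ((Fintype.card ι : ℝ) - 2) * Y) := by
        gcongr
      refine h6.trans (le_of_eq ?_)
      ring
    exact le_of_mul_le_mul_left h5 hpos
  · intro j
    have hst := hG.stokes u huI _ (hG.χ_cs j) _ (hG.A_cl u huI) _ _ (hG.A_ex u huI)
    have hI0 : 0 ≤ ∫ x, Real.sqrt (a.pr u x (a.dl (a.χ j) x) (a.dl (a.χ j) x)) *
        Real.sqrt (a.pr u x (a.ω u x *ᵥ a.W u x) (a.ω u x *ᵥ a.W u x)) *
        nrm (a.hat u x (a.A u x)) ∂a.μ := by
      refine integral_nonneg fun x => ?_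
      exact mul_nonneg (mul_nonneg (Real.sqrt_nonneg _) (Real.sqrt_nonneg _)) nrm_nonneg
    have hst2 := hst.trans (mul_le_mul_of_nonneg_right hC8 hI0)
    simp only [pr_self u _ (a.ω u _ *ᵥ a.W u _)] at hst2
    exact hst2
  · intro j h hh
    have hs := mem_of hu hh
    have hst := hG.stokes u huI _ (hG.χ_cs j) _
      (hG.cl_sub _ (hG.ω_cl (u + h) hs) _ (hG.ω_cl u huI)) _ _ (hG.A_ex u huI)
    have hI0 : 0 ≤ ∫ x, Real.sqrt (a.pr u x (a.dl (a.χ j) x) (a.dl (a.χ j) x)) *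
        Real.sqrt (a.pr u x (a.ω u x *ᵥ a.W u x) (a.ω u x *ᵥ a.W u x)) *
        nrm (a.hat u x (a.ω (u + h) x - a.ω u x)) ∂a.μ := by
      refine integral_nonneg fun x => ?_
      exact mul_nonneg (mul_nonneg (Real.sqrt_nonneg _) (Real.sqrt_nonneg _)) nrm_nonneg
    have hst2 := hst.trans (mul_le_mul_of_nonneg_right hC8 hI0)
    simp only [pr_self u _ (a.ω u _ *ᵥ a.W u _), hat_sub, hatω, ← hw] at hst2
    exact hst2
  · intro h hh
    have h1 := hG.coh u huI (u + h) (mem_of hu hh)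
    rw [add_sub_cancel_left] at h1
    exact h1
  · have h1 := hG.coh u huI u huI
    rw [sub_self, Real.cos_zero, mul_one] at h1
    exact h1
  · intro x
    have hg1 : ∀ h, (a.slice u).g h x = ((a.P u x)⁻¹)ᵀ * a.g (u + h) x * (a.P u x)⁻¹ := by
      intro h
      change (a.P (u + h) x * (a.P u x)⁻¹)ᵀ * (a.P (u + h) x * (a.P u x)⁻¹) =
        ((a.P u x)⁻¹)ᵀ * ((a.P (u + h) x)ᵀ * a.P (u + h) x) * (a.P u x)⁻¹
      rw [Matrix.transpose_mul]
      simp only [Matrix.mul_assoc]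
    have hg2 : ((a.P u x)⁻¹)ᵀ * a.g u x * (a.P u x)⁻¹ = 1 := by
      change ((a.P u x)⁻¹)ᵀ * ((a.P u x)ᵀ * a.P u x) * (a.P u x)⁻¹ = 1
      calc ((a.P u x)⁻¹)ᵀ * ((a.P u x)ᵀ * a.P u x) * (a.P u x)⁻¹
          = (((a.P u x)⁻¹)ᵀ * (a.P u x)ᵀ) * (a.P u x * (a.P u x)⁻¹) := by
            simp only [Matrix.mul_assoc]
        _ = 1 := by rw [mit u huI x, mi u huI x, Matrix.one_mul]
    have hsh : Tendsto (fun h : ℝ => u + h) (𝓝[>] 0) (𝓝[Icc 0 a.U] u) := by
      refine tendsto_nhdsWithin_iff.2 ⟨?_, ?_⟩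
      · have h1 : Tendsto (fun h : ℝ => u + h) (𝓝 0) (𝓝 (u + 0)) :=
          (continuous_const.add continuous_id).tendsto 0
        rw [add_zero] at h1
        exact h1.mono_left nhdsWithin_le_nhds
      · filter_upwards [Ioc_mem_nhdsGT (sub_pos.2 hu.2)] with h hh
        exact ⟨by linarith [hu.1, hh.1], by linarith [hh.2]⟩
    have hg3 : Tendsto (fun h => a.g (u + h) x) (𝓝[>] 0) (𝓝 (a.g u x)) := by
      refine tendsto_pi_nhds.2 fun i => tendsto_pi_nhds.2 fun j => ?_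
      exact (hG.cont x i j u huI).tendsto.comp hsh
    have hcm : Continuous (fun X : Matrix ι ι ℝ => ((a.P u x)⁻¹)ᵀ * X * (a.P u x)⁻¹) :=
      (continuous_const.matrix_mul continuous_id).matrix_mul continuous_const
    have hg4 := (hcm.tendsto (a.g u x)).comp hg3
    rw [hg2] at hg4
    refine hg4.congr fun h => ?_
    exact (hg1 h).symm

/-- `g_s` in the adapted frame of `g_u` -/
noncomputable def rel (a : Arc ι) (u s : ℝ) (x : a.M) : Matrix ι ι ℝ :=
  gm (a.P s x * (a.P u x)⁻¹)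

end Pool.Agent.SYR.Arc
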