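import Pool.Agent.SYR.Nrm

/-!
# SYR/Eig : eigenvalue inequalities

Diagonalise a symmetric matrix (`Matrix.IsHermitian.spectral_theorem`, `Matrix.IsHermitian.det_eq_prod_eigenvalues`,
`Matrix.IsHermitian.trace_eq_sum_eigenvalues`). With eigenvalues `1 + x_i` of `H`:
`Phi H = ∑ (x_i - log (1 + x_i))` and `x - log (1 + x) ≥ x² / (2 (1 + |x|))` for `x > -1`.
-/

set_option autoImplicit false

open Matrix

namespace Pool.Agent.SYR

variable {ι : Type} [Fintype ι] [DecidableEq ι]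

theorem eig_diag (Y : Matrix ι ι ℝ) (hY : Yᵀ = Y) : ∃ (U : Matrix ι ι ℝ) (x : ι → ℝ),
    Uᵀ * U = 1 ∧ U * Uᵀ = 1 ∧ Y = U * diagonal x * Uᵀ := by
  have hH : Y.IsHermitian := by
    rw [Matrix.IsHermitian, conjTranspose_eq_transpose_of_trivial]
    exact hY
  refine ⟨(hH.eigenvectorUnitary : Matrix ι ι ℝ), hH.eigenvalues, ?_, ?_, ?_⟩
  · have h := Unitary.coe_star_mul_self hH.eigenvectorUnitary
    rwa [star_eq_conjTranspose, conjTranspose_eq_transpose_of_trivial] at h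
  · have h := Unitary.coe_mul_star_self hH.eigenvectorUnitary
    rwa [Unitary.coe_star, star_eq_conjTranspose, conjTranspose_eq_transpose_of_trivial] at h
  · have h := hH.spectral_theorem
    rw [Unitary.conjStarAlgAut_apply, star_eq_conjTranspose,
      conjTranspose_eq_transpose_of_trivial] at h
    exact h

/-- eigenvalues of a symmetric matrix, as used in this file and later -/
theorem exists_eig (Y : Matrix ι ι ℝ) (hY : Yᵀ = Y) : ∃ x : ι → ℝ,
    Y.trace = ∑ i, x i ∧ (Y * Y).trace = ∑ i, x i ^ 2 ∧ nsq Y = ∑ i, x i ^ 2 ∧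
      (1 + Y).det = ∏ i, (1 + x i) ∧ ((∀ i, -1 < x i) → (1 + Y).PosDef) ∧
      ((1 + Y).PosDef → ∀ i, -1 < x i) ∧
      (∀ v : ι → ℝ, ∀ c : ℝ, (∀ i, |x i| ≤ c) → |v ⬝ᵥ (Y *ᵥ v)| ≤ c * vsq v) := by
  obtain ⟨U, x, hU, hU', hD⟩ := eig_diag Y hY
  have hYY : Y * Y = U * (diagonal x * diagonal x) * Uᵀ := by
    rw [hD]
    calc U * diagonal x * Uᵀ * (U * diagonal x * Uᵀ)
        = U * diagonal x * (Uᵀ * U) * diagonal x * Uᵀ := by simp only [Matrix.mul_assoc]
      _ = _ := by rw [hU, Matrix.mul_one]; simp only [Matrix.mul_assoc]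
  have htr : ∀ M : Matrix ι ι ℝ, (U * M * Uᵀ).trace = M.trace := by
    intro M
    rw [Matrix.trace_mul_comm, ← Matrix.mul_assoc, hU, Matrix.one_mul]
  have h1Y : 1 + Y = U * diagonal (fun i => 1 + x i) * Uᵀ := by
    have h2 : diagonal (fun i => 1 + x i) = (1 : Matrix ι ι ℝ) + diagonal x := by
      rw [← Matrix.diagonal_one, Matrix.diagonal_add]
    rw [h2, Matrix.mul_add, Matrix.add_mul, Matrix.mul_one, hU', hD]
  have htrYY : (Y * Y).trace = ∑ i, x i ^ 2 := by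
    rw [hYY, htr, Matrix.diagonal_mul_diagonal, Matrix.trace_diagonal]
    exact Finset.sum_congr rfl fun i _ => by ring
  have hUu : IsUnit U := by
    rw [Matrix.isUnit_iff_isUnit_det]
    exact (Matrix.isUnit_det_of_left_inverse hU)
  have hPD : (1 + Y).PosDef ↔ ∀ i, 0 < 1 + x i := by
    have h3 := hUu.posDef_star_right_conjugate_iff (x := diagonal (fun i => 1 + x i))
    rw [star_eq_conjTranspose, conjTranspose_eq_transpose_of_trivial, ← h1Y] at h3
    rw [h3, Matrix.posDef_diagonal_iff]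
  refine ⟨x, ?_, htrYY, ?_, ?_, ?_, ?_, ?_⟩
  · rw [hD, htr, Matrix.trace_diagonal]
  · rw [← htrYY]
    unfold nsq ip
    rw [Matrix.trace]
    refine Finset.sum_congr rfl fun i _ => ?_
    rw [Matrix.diag_apply, Matrix.mul_apply]
    refine Finset.sum_congr rfl fun j _ => ?_
    have h4 : Y j i = Y i j := by
      have := congrFun (congrFun hY i) j
      rwa [Matrix.transpose_apply] at this
    rw [h4]
  · rw [h1Y, Matrix.det_mul, Matrix.det_mul, Matrix.det_diagonal]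
    have h5 : U.det * Uᵀ.det = 1 := by rw [← Matrix.det_mul, hU', Matrix.det_one]
    calc U.det * (∏ i, (1 + x i)) * Uᵀ.det = (U.det * Uᵀ.det) * ∏ i, (1 + x i) := by ring
      _ = _ := by rw [h5, one_mul]
  · intro h
    exact hPD.mpr fun i => by linarith [h i]
  · intro h i
    linarith [hPD.mp h i]
  · intro v c hc
    obtain ⟨w, hw⟩ : ∃ w, w = Uᵀ *ᵥ v := ⟨_, rfl⟩
    have h6 : v ⬝ᵥ (Y *ᵥ v) = ∑ i, x i * w i ^ 2 := by
      have h7 : Y *ᵥ v = U *ᵥ (diagonal x *ᵥ w) := by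
        rw [hw, Matrix.mulVec_mulVec, Matrix.mulVec_mulVec, ← hD]
      rw [h7, Matrix.dotProduct_mulVec, ← Matrix.mulVec_transpose, ← hw]
      simp only [dotProduct, Matrix.mulVec_diagonal]
      exact Finset.sum_congr rfl fun i _ => by ring
    have h8 : vsq v = ∑ i, w i ^ 2 := by
      have h9 : v ⬝ᵥ v = w ⬝ᵥ w := by
        have h10 : w ⬝ᵥ w = v ⬝ᵥ (U *ᵥ w) := by
          rw [Matrix.dotProduct_mulVec, ← Matrix.mulVec_transpose, ← hw]
        rw [h10, hw, Matrix.mulVec_mulVec, hU', Matrix.one_mulVec]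
      unfold vsq
      calc ∑ i, v i ^ 2 = v ⬝ᵥ v := by
            simp only [dotProduct]; exact Finset.sum_congr rfl fun i _ => by ring
        _ = w ⬝ᵥ w := h9
        _ = _ := by simp only [dotProduct]; exact Finset.sum_congr rfl fun i _ => by ring
    rw [h6, h8, Finset.mul_sum]
    refine (Finset.abs_sum_le_sum_abs _ _).trans (Finset.sum_le_sum fun i _ => ?_)
    rw [abs_mul, abs_of_nonneg (sq_nonneg (w i))]
    exact mul_le_mul_of_nonneg_right (hc i) (sq_nonneg _)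

private theorem eig_log_bound (x : ℝ) (hx : |x| ≤ 1 / 2) :
    |Real.log (1 + x) - x + x ^ 2 / 2| ≤ |x| ^ 3 := by
  have h1 : |(-x)| < 1 := by rw [abs_neg]; linarith
  have h := Real.abs_log_sub_add_sum_range_le h1 4
  rw [abs_neg] at h
  have h2 : ∑ i ∈ Finset.range 4, (-x) ^ (i + 1) / ((i : ℝ) + 1)
      = -x + x ^ 2 / 2 - x ^ 3 / 3 + x ^ 4 / 4 := by
    simp only [Finset.sum_range_succ, Finset.sum_range_zero]
    push_cast
    ring
  rw [h2] at h
  have h3 : (1 : ℝ) - -x = 1 + x := by ring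
  rw [h3] at h
  have ha : 0 ≤ |x| := abs_nonneg x
  have h4 : |x| ^ (4 + 1) / (1 - |x|) ≤ |x| ^ 3 / 2 := by
    rw [div_le_div_iff₀ (by linarith) (by norm_num)]
    have h5 : |x| ^ (4 + 1) = |x| ^ 3 * |x| ^ 2 := by ring
    rw [h5]
    have h6 : |x| ^ 2 * 2 ≤ 1 * (1 - |x|) := by nlinarith
    have h7 : 0 ≤ |x| ^ 3 := by positivity
    calc |x| ^ 3 * |x| ^ 2 * 2 = |x| ^ 3 * (|x| ^ 2 * 2) := by ring
      _ ≤ |x| ^ 3 * (1 * (1 - |x|)) := mul_le_mul_of_nonneg_left h6 h7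
      _ = _ := by ring
  have h8 : |x ^ 3 / 3 - x ^ 4 / 4| ≤ |x| ^ 3 * (11 / 24) := by
    have e1 : x ^ 3 / 3 - x ^ 4 / 4 = x ^ 3 * (1 / 3 - x / 4) := by ring
    rw [e1, abs_mul, abs_pow]
    apply mul_le_mul_of_nonneg_left _ (by positivity)
    rw [abs_le] at hx ⊢
    constructor <;> linarith [hx.1, hx.2]
  have h9 : Real.log (1 + x) - x + x ^ 2 / 2
      = (-x + x ^ 2 / 2 - x ^ 3 / 3 + x ^ 4 / 4 + Real.log (1 + x)) + (x ^ 3 / 3 - x ^ 4 / 4) := by
    ring
  rw [h9]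
  refine (abs_add_le _ _).trans ?_
  have h10 : 0 ≤ |x| ^ 3 := by positivity
  linarith [h.trans h4]

private theorem eig_abs_le_nrm {Y : Matrix ι ι ℝ} {x : ι → ℝ} (hn : nsq Y = ∑ i, x i ^ 2) (i : ι) :
    |x i| ≤ nrm Y := by
  have h1 : x i ^ 2 ≤ nsq Y := by
    rw [hn]
    exact Finset.single_le_sum (f := fun j => x j ^ 2) (fun j _ => sq_nonneg _) (Finset.mem_univ i)
  unfold nrm
  exact Real.abs_le_sqrt h1

private theorem eig_nrm_sq (Y : Matrix ι ι ℝ) : nrm Y ^ 2 = nsq Y := by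
  unfold nrm
  apply Real.sq_sqrt
  unfold nsq ip
  exact Finset.sum_nonneg fun i _ => Finset.sum_nonneg fun j _ => mul_self_nonneg _

theorem log_det_one_add (Y : Matrix ι ι ℝ) (hY : Yᵀ = Y) (hn : nrm Y ≤ 1 / 2) :
    |Real.log (1 + Y).det - Y.trace + (Y * Y).trace / 2| ≤ nrm Y ^ 3 := by
  obtain ⟨x, h1, h2, h3, h4, -, -, -⟩ := exists_eig Y hY
  have hx : ∀ i, |x i| ≤ nrm Y := eig_abs_le_nrm h3
  have hx2 : ∀ i, |x i| ≤ 1 / 2 := fun i => (hx i).trans hn
  have hpos : ∀ i, 1 + x i ≠ 0 := by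
    intro i
    have h := (abs_le.mp (hx2 i)).1
    have h' : (0 : ℝ) < 1 + x i := by linarith
    exact h'.ne'
  rw [h4, Real.log_prod (fun i _ => hpos i), h1, h2, Finset.sum_div, ← Finset.sum_sub_distrib,
    ← Finset.sum_add_distrib]
  refine (Finset.abs_sum_le_sum_abs _ _).trans ?_
  calc ∑ i, |Real.log (1 + x i) - x i + x i ^ 2 / 2| ≤ ∑ i, nrm Y * x i ^ 2 := by
        refine Finset.sum_le_sum fun i _ => (eig_log_bound (x i) (hx2 i)).trans ?_
        have e : |x i| ^ 3 = |x i| * x i ^ 2 := by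
          rw [← sq_abs (x i)]; ring
        rw [e]
        exact mul_le_mul_of_nonneg_right (hx i) (sq_nonneg _)
    _ = nrm Y ^ 3 := by
        rw [← Finset.mul_sum, ← h3, ← eig_nrm_sq]; ring

theorem posDef_one_add (Y : Matrix ι ι ℝ) (hY : Yᵀ = Y) (hn : nrm Y ≤ 1 / 2) :
    (1 + Y).PosDef := by
  obtain ⟨x, -, -, h3, -, h5, -, -⟩ := exists_eig Y hY
  apply h5
  intro i
  have := (abs_le.mp ((eig_abs_le_nrm h3 i).trans hn)).1
  linarith

private theorem eig_scalar (x : ℝ) (hx : -1 < x) : x ^ 2 / (2 * (1 + |x|)) ≤ x - Real.log (1 + x) := by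
  rcases le_or_gt 0 x with h | h
  · rw [abs_of_nonneg h]
    have hu : 0 < 1 + x := by linarith
    have h1 : Real.log (1 + x) ≤ Real.sinh (Real.log (1 + x)) :=
      Real.self_le_sinh_iff.mpr (Real.log_nonneg (by linarith))
    rw [Real.sinh_log hu] at h1
    have h2 : x ^ 2 / (2 * (1 + x)) = x - ((1 + x) - (1 + x)⁻¹) / 2 := by
      field_simp
      ring
    rw [h2]
    linarith
  · obtain ⟨y, hy⟩ : ∃ y, y = -x := ⟨_, rfl⟩
    have hxy : x = -y := by rw [hy]; ring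
    have hy0 : 0 < y := by linarith
    have hy1 : y < 1 := by linarith
    rw [abs_of_neg h, ← hy, hxy]
    have h1y : 0 < 1 - y := by linarith
    have h1 := Real.le_log_one_add_of_nonneg (x := y / (1 - y)) (by positivity)
    have h2 : 1 + y / (1 - y) = (1 - y)⁻¹ := by
      field_simp
      ring
    have h3 : 2 * (y / (1 - y)) / (y / (1 - y) + 2) = 2 * y / (2 - y) := by
      have : (2 : ℝ) - y ≠ 0 := by linarith
      field_simp
      ring
    rw [h2, h3, Real.log_inv] at h1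
    have h4 : (1 : ℝ) + -y = 1 - y := by ring
    rw [h4]
    have h5 : 2 * y / (2 - y) = y + y ^ 2 / (2 - y) := by
      have : (2 : ℝ) - y ≠ 0 := by linarith
      field_simp
      ring
    rw [h5] at h1
    have h6 : (-y) ^ 2 / (2 * (1 + y)) ≤ y ^ 2 / (2 - y) := by
      rw [neg_sq]
      apply div_le_div_of_nonneg_left (sq_nonneg y) (by linarith) (by linarith)
    linarith

private theorem eig_Phi (H : Matrix ι ι ℝ) (hH : H.PosDef) : ∃ x : ι → ℝ,
    nsq (H - 1) = ∑ i, x i ^ 2 ∧ (∀ i, -1 < x i) ∧ Phi H = ∑ i, (x i - Real.log (1 + x i)) := by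
  have hHt : Hᵀ = H := by
    have := hH.isHermitian
    rwa [Matrix.IsHermitian, conjTranspose_eq_transpose_of_trivial] at this
  have hY : (H - 1)ᵀ = H - 1 := by
    rw [Matrix.transpose_sub, hHt, Matrix.transpose_one]
  obtain ⟨x, h1, -, h3, h4, -, h6, -⟩ := exists_eig (H - 1) hY
  have e : 1 + (H - 1) = H := by abel
  rw [e] at h4 h6
  have hx := h6 hH
  refine ⟨x, h3, hx, ?_⟩
  unfold Phi
  have h7 : H.trace = ∑ i, x i + Fintype.card ι := by
    have h8 : H.trace = (H - 1).trace + (1 : Matrix ι ι ℝ).trace := by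
      rw [← Matrix.trace_add]; congr 1; abel
    rw [h8, h1, Matrix.trace_one]
  rw [h7, h4, Real.log_prod (fun i _ => (by linarith [hx i] : (0 : ℝ) < 1 + x i).ne'),
    Finset.sum_sub_distrib]
  ring

theorem Phi_lower (H : Matrix ι ι ℝ) (hH : H.PosDef) :
    nsq (H - 1) / (2 * (1 + nrm (H - 1))) ≤ Phi H := by
  obtain ⟨x, h1, h2, h3⟩ := eig_Phi H hH
  rw [h3]
  have hn : ∀ i, |x i| ≤ nrm (H - 1) := eig_abs_le_nrm h1
  rw [h1, Finset.sum_div]
  refine Finset.sum_le_sum fun i _ => le_trans ?_ (eig_scalar (x i) (h2 i))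
  have h0 : 0 ≤ |x i| := abs_nonneg _
  exact div_le_div_of_nonneg_left (sq_nonneg _) (by linarith) (by linarith [hn i])

theorem Phi_nonneg (H : Matrix ι ι ℝ) (hH : H.PosDef) : 0 ≤ Phi H := by
  obtain ⟨x, -, h2, h3⟩ := eig_Phi H hH
  rw [h3]
  refine Finset.sum_nonneg fun i _ => le_trans ?_ (eig_scalar (x i) (h2 i))
  positivity

/-- `|H - 1| ≤ 2 Phi + sqrt (2 Phi)` -/
theorem nrm_sub_one_le (H : Matrix ι ι ℝ) (hH : H.PosDef) :
    nrm (H - 1) ≤ 2 * Phi H + Real.sqrt (2 * Phi H) := by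
  have h1 := Phi_lower H hH
  have h2 := Phi_nonneg H hH
  obtain ⟨n, hn⟩ : ∃ n, n = nrm (H - 1) := ⟨_, rfl⟩
  have hn0 : 0 ≤ n := by rw [hn]; exact Real.sqrt_nonneg _
  rw [← eig_nrm_sq, ← hn] at h1
  rw [← hn]
  have h3 : n ^ 2 ≤ 2 * Phi H * (1 + n) := by
    rw [div_le_iff₀ (by positivity)] at h1
    linarith
  obtain ⟨s, hs⟩ : ∃ s, s = Real.sqrt (2 * Phi H) := ⟨_, rfl⟩
  have hs0 : 0 ≤ s := by rw [hs]; exact Real.sqrt_nonneg _
  have hs2 : s ^ 2 = 2 * Phi H := by rw [hs]; exact Real.sq_sqrt (by positivity)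
  rw [← hs]
  by_contra hcon
  rw [not_le] at hcon
  nlinarith

end Pool.Agent.SYR
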