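import Pool.Agent.SYR.Alg1
import Pool.Agent.SYR.Eig

/-!
# SYR/Bnd : bounds for a triple with `|S| ≤ 1/2`
-/

set_option autoImplicit false

open Matrix

namespace Pool.Agent.SYR

variable {ι : Type} [Fintype ι] [DecidableEq ι] {I J K P τ : Matrix ι ι ℝ}

theorem Quat.nrm_Ym_le (hq : Quat I J K) : nrm (Ym I J P τ) ≤ nrm (Sm P τ) := by
  unfold Ym
  rw [nrm_smul, abs_of_pos (by norm_num : (0 : ℝ) < 1 / 2)]
  have h1 := nrm_add_le (A := I * (J * Sm P τ)) (B := (I * (J * Sm P τ))ᵀ)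
  rw [nrm_transpose, hq.nrm_I_left, hq.nrm_J_left] at h1
  linarith

private theorem Bnd_trace_nonneg : 0 ≤ (gm P).trace := by
  rw [trace_gm]; exact nsq_nonneg

private theorem Bnd_her_sub (hq : Quat I J K) (h : Tri J K P τ) :
    her I (om I P) - gm P = Pᵀ * Ym I J P τ * P := by
  rw [h.her_om hq, gm, Matrix.mul_add, Matrix.add_mul, Matrix.mul_one, add_sub_cancel_left]

/-- `H = her I (om I P)` is positive definite -/
theorem Tri.posDef (hq : Quat I J K) (h : Tri J K P τ) (hS : nrm (Sm P τ) ≤ 1 / 2) :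
    (her I (om I P)).PosDef := by
  rw [h.her_om hq]
  have hY : (1 + Ym I J P τ).PosDef := by
    refine posDef_one_add _ ?_ (hq.nrm_Ym_le.trans hS)
    exact Tri.Ym_symm
  have hP : IsUnit P := (Matrix.isUnit_iff_isUnit_det P).2 h.inv
  have h2 := hY.conjTranspose_mul_mul_same (B := P) ?_
  · rwa [Matrix.conjTranspose_eq_transpose_of_trivial] at h2
  · exact Matrix.mulVec_injective_of_isUnit hP

private theorem Bnd_abs_trace (hq : Quat I J K) (h : Tri J K P τ) (hS : nrm (Sm P τ) ≤ 1 / 2) :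
    |(her I (om I P)).trace - (gm P).trace| ≤ 1 / 2 * (gm P).trace := by
  have h0 := Bnd_her_sub hq h
  have h1 : (her I (om I P)).trace - (gm P).trace = (Ym I J P τ * (P * Pᵀ)).trace := by
    rw [← Matrix.trace_sub, h0, Matrix.mul_assoc, Matrix.trace_mul_comm, Matrix.mul_assoc]
  rw [h1]
  have h2 := abs_trace_mul_le (A := Ym I J P τ) (B := P * Pᵀ)
  have h3 : nrm (P * Pᵀ) ≤ (gm P).trace := by
    have := nrm_mul_le (A := P) (B := Pᵀ)
    rw [nrm_transpose] at this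
    rw [trace_gm, ← nrm_sq]
    nlinarith [this]
  have h4 : nrm (Ym I J P τ) ≤ 1 / 2 := hq.nrm_Ym_le.trans hS
  have h5 : 0 ≤ nrm (P * Pᵀ) := nrm_nonneg
  have h6 : 0 ≤ nrm (Ym I J P τ) := nrm_nonneg
  calc _ ≤ _ := h2
    _ ≤ 1 / 2 * (gm P).trace := mul_le_mul h4 h3 h5 (by norm_num)

theorem Tri.trace_le (hq : Quat I J K) (h : Tri J K P τ) (hS : nrm (Sm P τ) ≤ 1 / 2) :
    (gm P).trace ≤ 2 * (her I (om I P)).trace := by
  have h1 := (abs_le.1 (Bnd_abs_trace hq h hS)).1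
  linarith

theorem Tri.le_trace (hq : Quat I J K) (h : Tri J K P τ) (hS : nrm (Sm P τ) ≤ 1 / 2) :
    (her I (om I P)).trace ≤ 2 * (gm P).trace := by
  have h1 := (abs_le.1 (Bnd_abs_trace hq h hS)).2
  have h2 : 0 ≤ (gm P).trace := Bnd_trace_nonneg
  linarith

/-- `|H - g| ≤ |S| tr g` -/
theorem Tri.her_sub_gm (hq : Quat I J K) (h : Tri J K P τ) :
    nrm (her I (om I P) - gm P) ≤ nrm (Sm P τ) * (gm P).trace := by
  rw [Bnd_her_sub hq h]
  refine nrm_conj_le.trans ?_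
  exact mul_le_mul_of_nonneg_right hq.nrm_Ym_le Bnd_trace_nonneg

private theorem Bnd_exp (hq : Quat I J K) (h : Tri J K P τ) (hS : nrm (Sm P τ) ≤ 1 / 2) :
    |Real.log (her I (om I P)).det - (Ym I J P τ).trace
      + (Ym I J P τ * Ym I J P τ).trace / 2| ≤ nrm (Ym I J P τ) ^ 3 := by
  rw [h.det_her hq]
  exact log_det_one_add _ Tri.Ym_symm (hq.nrm_Ym_le.trans hS)

/-- `-log det H ≤ |τ|² / 2 + |S|²` -/
theorem Tri.log_det_abs (hq : Quat I J K) (h : Tri J K P τ) (hS : nrm (Sm P τ) ≤ 1 / 2) :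
    |Real.log (her I (om I P)).det| ≤ 1 / 2 * nrm τ ^ 2 + nrm (Sm P τ) ^ 2 := by
  have h1 := Bnd_exp hq h hS
  have h2 : |(Ym I J P τ).trace| ≤ 1 / 2 * nrm τ ^ 2 := by
    rw [h.trace_Ym hq, abs_mul, abs_of_pos (by norm_num : (0 : ℝ) < 1 / 2)]
    have := abs_trace_mul_le (A := J * τ) (B := J * τ)
    rw [hq.nrm_J_left] at this
    nlinarith [this]
  have h3 := abs_trace_mul_le (A := Ym I J P τ) (B := Ym I J P τ)
  have h4 : nrm (Ym I J P τ) ≤ nrm (Sm P τ) := hq.nrm_Ym_le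
  have h5 : 0 ≤ nrm (Ym I J P τ) := nrm_nonneg
  have h6 : nrm (Ym I J P τ) * nrm (Ym I J P τ) ≤ nrm (Sm P τ) ^ 2 := by nlinarith
  have h7 : nrm (Ym I J P τ) ^ 3 ≤ 1 / 2 * nrm (Sm P τ) ^ 2 := by
    have h8 : nrm (Ym I J P τ) ≤ 1 / 2 := h4.trans hS
    calc nrm (Ym I J P τ) ^ 3 = nrm (Ym I J P τ) * (nrm (Ym I J P τ) * nrm (Ym I J P τ)) := by ring
      _ ≤ 1 / 2 * nrm (Sm P τ) ^ 2 := mul_le_mul h8 h6 (by positivity) (by norm_num)
  rw [abs_le] at h1 h2 h3 ⊢
  constructor <;> linarith [h1.1, h1.2, h2.1, h2.2, h3.1, h3.2]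

/-- second order expansion of `log det H` -/
theorem Tri.log_det_exp (hq : Quat I J K) (h : Tri J K P τ) (hS : nrm (Sm P τ) ≤ 1 / 2) :
    |Real.log (her I (om I P)).det - (1 / 2 * ((J * τ) * (J * τ)).trace
      - 1 / 4 * ((((I + J * τ) * (J * τ)) * ((I + J * τ) * (J * τ))).trace + nsq (Sm P τ)))|
      ≤ nrm (Sm P τ) ^ 3 := by
  have h1 := Bnd_exp hq h hS
  have h2 := h.trace_Ym hq
  have h3 := h.trace_Ym_sq hq
  have h4 : nrm (Ym I J P τ) ^ 3 ≤ nrm (Sm P τ) ^ 3 :=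
    pow_le_pow_left₀ nrm_nonneg hq.nrm_Ym_le 3
  rw [h2, h3] at h1
  refine le_trans (le_of_eq ?_) (h1.trans h4)
  congr 1
  ring

/-- bound of the `(2,0)`-part -/
theorem Tri.nrm_two_om (hq : Quat I J K) (h : Tri J K P τ) :
    nrm (two I (om I P)) ≤ (nrm τ + nrm τ ^ 2) * (gm P).trace := by
  rw [h.two_om hq, nrm_smul, abs_of_pos (by norm_num : (0 : ℝ) < 1 / 2)]
  have e1 : gm P * J * τ = gm P * (J * τ) := Matrix.mul_assoc _ _ _
  have e2 : τ * J * gm P = (τ * J) * gm P := rfl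
  have e3 : τ * J * om I P * J * τ = (τ * J) * (om I P * (J * τ)) := by
    simp only [Matrix.mul_assoc]
  have b1 : nrm (gm P * J * τ) ≤ (gm P).trace * nrm τ := by
    rw [e1]
    refine nrm_mul_le.trans ?_
    rw [hq.nrm_J_left]
    exact mul_le_mul_of_nonneg_right nrm_gm_le nrm_nonneg
  have b2 : nrm (τ * J * gm P) ≤ nrm τ * (gm P).trace := by
    refine nrm_mul_le.trans ?_
    rw [hq.nrm_J_right]
    exact mul_le_mul_of_nonneg_left nrm_gm_le nrm_nonneg
  have b3 : nrm (τ * J * om I P * J * τ) ≤ nrm τ * ((gm P).trace * nrm τ) := by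
    rw [e3]
    refine nrm_mul_le.trans ?_
    rw [hq.nrm_J_right]
    refine mul_le_mul_of_nonneg_left ?_ nrm_nonneg
    refine nrm_mul_le.trans ?_
    rw [hq.nrm_J_left]
    exact mul_le_mul_of_nonneg_right hq.nrm_om_le nrm_nonneg
  have b4 := nrm_sub_le (A := gm P * J * τ - τ * J * gm P) (B := τ * J * om I P * J * τ)
  have b5 := nrm_sub_le (A := gm P * J * τ) (B := τ * J * gm P)
  have b6 : 0 ≤ (gm P).trace := Bnd_trace_nonneg
  have b7 : 0 ≤ nrm τ := nrm_nonneg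
  nlinarith [mul_nonneg (mul_nonneg b7 b7) b6]

/-- the `(2,0)`-part compared with its limit: here `τ = t • T + O(t²)` -/
theorem Tri.two_om_sub (hq : Quat I J K) (h : Tri J K P τ) (T : Matrix ι ι ℝ) (t : ℝ)
    (ht : 0 < t) :
    nrm ((1 / t) • two I (om I P) - J * lam J T) ≤
      nrm ((1 / t) • τ) * nrm (gm P - 1) + nrm ((1 / t) • τ - T) +
        t * nrm ((1 / t) • τ) ^ 2 * (gm P).trace := by
  set σ : Matrix ι ι ℝ := (1 / t) • τ with hσ
  have hτ : τ = t • σ := by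
    rw [hσ, smul_smul, mul_one_div_cancel ht.ne', one_smul]
  have e0 : (1 / t) • two I (om I P) - J * lam J T =
      (1 / 2 : ℝ) • (((gm P - 1) * (J * σ) - (σ * J) * (gm P - 1)) +
        (J * (σ - T) - (σ - T) * J) - t • ((σ * J) * (om I P * (J * σ)))) := by
    rw [h.two_om hq]
    have e1 : J * lam J T = (1 / 2 : ℝ) • (J * T - T * J) := by
      unfold lam
      rw [Matrix.mul_smul, Matrix.mul_add]
      have : J * (J * T * J) = -(T * J) := by
        rw [Matrix.mul_assoc J T J, ← Matrix.mul_assoc J J, hq.JJ, Matrix.neg_mul,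
          Matrix.one_mul]
      rw [this, sub_eq_add_neg]
    rw [e1]
    have e2 : (gm P * J * τ - τ * J * gm P - τ * J * om I P * J * τ) =
        t • (gm P * (J * σ) - (σ * J) * gm P - t • ((σ * J) * (om I P * (J * σ)))) := by
      rw [hτ]
      simp only [Matrix.mul_smul, Matrix.smul_mul, smul_sub, Matrix.mul_assoc]
    rw [e2, smul_smul, smul_smul]
    have e3 : 1 / t * (1 / 2) * t = (1 / 2 : ℝ) := by field_simp
    rw [e3, ← smul_sub]
    congr 1
    simp only [Matrix.sub_mul, Matrix.mul_sub, Matrix.one_mul, Matrix.mul_one]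
    abel
  rw [e0, nrm_smul, abs_of_pos (by norm_num : (0 : ℝ) < 1 / 2)]
  have b1 : nrm ((gm P - 1) * (J * σ)) ≤ nrm (gm P - 1) * nrm σ := by
    refine nrm_mul_le.trans ?_
    rw [hq.nrm_J_left]
  have b2 : nrm ((σ * J) * (gm P - 1)) ≤ nrm σ * nrm (gm P - 1) := by
    refine nrm_mul_le.trans ?_
    rw [hq.nrm_J_right]
  have b3 : nrm (J * (σ - T)) = nrm (σ - T) := hq.nrm_J_left
  have b4 : nrm ((σ - T) * J) = nrm (σ - T) := hq.nrm_J_right
  have b5 : nrm (t • ((σ * J) * (om I P * (J * σ)))) ≤ t * (nrm σ * ((gm P).trace * nrm σ)) := by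
    rw [nrm_smul, abs_of_pos ht]
    refine mul_le_mul_of_nonneg_left ?_ ht.le
    refine nrm_mul_le.trans ?_
    rw [hq.nrm_J_right]
    refine mul_le_mul_of_nonneg_left ?_ nrm_nonneg
    refine nrm_mul_le.trans ?_
    rw [hq.nrm_J_left]
    exact mul_le_mul_of_nonneg_right hq.nrm_om_le nrm_nonneg
  have c1 := nrm_sub_le (A := ((gm P - 1) * (J * σ) - (σ * J) * (gm P - 1)) +
        (J * (σ - T) - (σ - T) * J)) (B := t • ((σ * J) * (om I P * (J * σ))))
  have c2 := nrm_add_le (A := ((gm P - 1) * (J * σ) - (σ * J) * (gm P - 1)))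
        (B := (J * (σ - T) - (σ - T) * J))
  have c3 := nrm_sub_le (A := (gm P - 1) * (J * σ)) (B := (σ * J) * (gm P - 1))
  have c4 := nrm_sub_le (A := J * (σ - T)) (B := (σ - T) * J)
  have b6 : 0 ≤ (gm P).trace := Bnd_trace_nonneg
  have b7 : 0 ≤ nrm σ := nrm_nonneg
  have b8 : 0 ≤ t * (nrm σ * ((gm P).trace * nrm σ)) := by positivity
  have b9 : t * nrm σ ^ 2 * (gm P).trace = t * (nrm σ * ((gm P).trace * nrm σ)) := by ring
  rw [b9]
  linarith

/-- the metric compared with the form -/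
theorem Tri.gm_sub (hq : Quat I J K) (h : Tri J K P τ) (A T : Matrix ι ι ℝ) (t : ℝ)
    (ht : 0 < t) :
    nrm ((1 / t) • (gm P - 1) - (A * I + J - K * T)) ≤
      nrm ((1 / t) • (om I P - I) + A + K) + nrm ((1 / t) • τ) * nrm (om I P - I) +
        nrm ((1 / t) • τ - T) := by
  set σ : Matrix ι ι ℝ := (1 / t) • τ with hσ
  have hτ : τ = t • σ := by
    rw [hσ, smul_smul, mul_one_div_cancel ht.ne', one_smul]
  have e0 : (1 / t) • (gm P - 1) - (A * I + J - K * T) =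
      -(((1 / t) • (om I P - I) + A + K) * I) - (om I P - I) * (J * σ) - K * (σ - T) := by
    have e1 : gm P - 1 = -((om I P - I) * I) - t • ((om I P - I) * (J * σ)) - t • (K * σ) := by
      rw [h.gm_eq hq, hτ]
      have hk : I * (J * (t • σ)) = t • (K * σ) := by
        rw [Matrix.mul_smul, Matrix.mul_smul, ← Matrix.mul_assoc, hq.IJ]
      rw [Matrix.mul_add, Matrix.sub_mul, Matrix.sub_mul, hq.II, ← hk]
      simp only [Matrix.mul_smul, smul_sub]
      abel
    rw [e1]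
    simp only [smul_sub, smul_neg, smul_smul]
    have e2 : 1 / t * t = (1 : ℝ) := one_div_mul_cancel ht.ne'
    rw [e2, one_smul, one_smul]
    simp only [Matrix.add_mul, Matrix.sub_mul, Matrix.smul_mul, smul_sub, hq.KI, hq.II,
      Matrix.mul_sub]
    abel
  rw [e0]
  have b1 : nrm (-(((1 / t) • (om I P - I) + A + K) * I)) =
      nrm ((1 / t) • (om I P - I) + A + K) := by
    rw [nrm_neg, hq.nrm_I_right]
  have b2 : nrm ((om I P - I) * (J * σ)) ≤ nrm (om I P - I) * nrm σ := by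
    refine nrm_mul_le.trans ?_
    rw [hq.nrm_J_left]
  have b3 : nrm (K * (σ - T)) = nrm (σ - T) := hq.nrm_K_left
  have c1 := nrm_sub_le (A := -(((1 / t) • (om I P - I) + A + K) * I) - (om I P - I) * (J * σ))
    (B := K * (σ - T))
  have c2 := nrm_sub_le (A := -(((1 / t) • (om I P - I) + A + K) * I))
    (B := (om I P - I) * (J * σ))
  linarith

end Pool.Agent.SYR
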