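import Pool.Agent.SYR.Energy

/-!
# SYR/Cross : the `(2,0)`-part, and the two uses of Stokes' theorem

`b_int`: `stokes2`, `|ζ| ≤ C`, Cauchy-Schwarz and dominated convergence give `∫ Q (A, A) = 0`; by `Q_eq`,
`Lie.nsq_two`, `cohΘ` this is the claim. `two_lim`: `Tri.two_om_sub`, `g_sub`, `trace_g`, `τ_lin`.
`cross`: `H - 1 = her (w - I)`, `two (w - I) = two w`, `Q_eq`, `stokes3`,
`∫ c_j |w - I| / h ≤ ∫ c_j (|B| + |two w| / h)`, `B = (H - 1)/h`. Here
`|B| = (|B| / sqrt (1 + h|B|)) * sqrt (1 + h|B|)`, `∫ |B|² / (1 + h |B|) ≤ 2 ∫ Phi / h² ≤ 6 C² V`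
(`Phi_lower`), `∫ c_j² (1 + h |B|) ≤ ∫ c_j² + h (sup c_j²) 6 C V`; and `|two w|/h ≤ |J lam J Θ| + ...`
by `two_lim`, `|J lam J Θ| ≤ C`, `∫ c_j ≤ (V ∫ c_j²)^(1/2)`.
-/

set_option autoImplicit false

open Matrix MeasureTheory Filter Topology Set

namespace Pool.Agent.SYR.Slice

variable {ι : Type} [Fintype ι] [DecidableEq ι] {S : Slice ι} {C h0 : ℝ}

/-! ### measurability of matrices -/

/-- a matrix of measurable functions -/
private def MC {X : Type} [MeasurableSpace X] (F : X → Matrix ι ι ℝ) : Prop :=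
  ∀ i j, Measurable (fun x => F x i j)

omit [DecidableEq ι] in
private theorem MC.mul {X : Type} [MeasurableSpace X] {F G : X → Matrix ι ι ℝ}
    (hF : MC F) (hG : MC G) : MC (fun x => F x * G x) := by
  intro i j
  simp only [Matrix.mul_apply]
  exact Finset.measurable_sum _ fun k _ => (hF i k).mul (hG k j)

omit [Fintype ι] [DecidableEq ι] in
private theorem MC.add {X : Type} [MeasurableSpace X] {F G : X → Matrix ι ι ℝ}
    (hF : MC F) (hG : MC G) : MC (fun x => F x + G x) := by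
  intro i j
  simp only [Matrix.add_apply]
  exact (hF i j).add (hG i j)

omit [Fintype ι] [DecidableEq ι] in
private theorem MC.sub {X : Type} [MeasurableSpace X] {F G : X → Matrix ι ι ℝ}
    (hF : MC F) (hG : MC G) : MC (fun x => F x - G x) := by
  intro i j
  simp only [Matrix.sub_apply]
  exact (hF i j).sub (hG i j)

omit [Fintype ι] [DecidableEq ι] in
private theorem MC.smul {X : Type} [MeasurableSpace X] {F : X → Matrix ι ι ℝ} (c : ℝ)
    (hF : MC F) : MC (fun x => c • F x) := by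
  intro i j
  simp only [Matrix.smul_apply, smul_eq_mul]
  exact (hF i j).const_mul c

omit [Fintype ι] [DecidableEq ι] in
private theorem MC.const {X : Type} [MeasurableSpace X] (A : Matrix ι ι ℝ) :
    MC (fun _ : X => A) := by
  intro i j
  exact measurable_const

omit [Fintype ι] [DecidableEq ι] in
private theorem MC.transpose {X : Type} [MeasurableSpace X] {F : X → Matrix ι ι ℝ}
    (hF : MC F) : MC (fun x => (F x)ᵀ) := by
  intro i j
  simp only [Matrix.transpose_apply]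
  exact hF j i

omit [DecidableEq ι] in
private theorem MC.ip {X : Type} [MeasurableSpace X] {F G : X → Matrix ι ι ℝ}
    (hF : MC F) (hG : MC G) : Measurable (fun x => SYR.ip (F x) (G x)) := by
  unfold SYR.ip
  exact Finset.measurable_sum _ fun i _ => Finset.measurable_sum _ fun j _ =>
    (hF i j).mul (hG i j)

omit [DecidableEq ι] in
private theorem MC.nsq {X : Type} [MeasurableSpace X] {F : X → Matrix ι ι ℝ}
    (hF : MC F) : Measurable (fun x => SYR.nsq (F x)) := hF.ip hF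

omit [DecidableEq ι] in
private theorem MC.nrm {X : Type} [MeasurableSpace X] {F : X → Matrix ι ι ℝ}
    (hF : MC F) : Measurable (fun x => SYR.nrm (F x)) := hF.nsq.sqrt

omit [DecidableEq ι] in
private theorem MC.her {X : Type} [MeasurableSpace X] {F : X → Matrix ι ι ℝ} (I : Matrix ι ι ℝ)
    (hF : MC F) : MC (fun x => her I (F x)) := by
  unfold SYR.her
  exact ((hF.mul (MC.const I)).add ((MC.const I).mul hF)).smul _

omit [DecidableEq ι] in
private theorem MC.two {X : Type} [MeasurableSpace X] {F : X → Matrix ι ι ℝ} (I : Matrix ι ι ℝ)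
    (hF : MC F) : MC (fun x => SYR.two I (F x)) := by
  unfold SYR.two
  exact (hF.add (((MC.const I).mul hF).mul (MC.const I))).smul _

omit [DecidableEq ι] in
private theorem MC.lam {X : Type} [MeasurableSpace X] {F : X → Matrix ι ι ℝ} (J : Matrix ι ι ℝ)
    (hF : MC F) : MC (fun x => SYR.lam J (F x)) := by
  unfold SYR.lam
  exact (hF.add (((MC.const J).mul hF).mul (MC.const J))).smul _

private theorem w_measC (hF : S.Facts C h0) (h : ℝ) : MC (S.w h) := by
  have hP : MC (S.P h) := hF.P_meas h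
  exact (hP.transpose.mul (MC.const S.I)).mul hP

private theorem H_measC (hF : S.Facts C h0) (h : ℝ) : MC (S.H h) := MC.her S.I (w_measC hF h)

private theorem A_measC (hF : S.Facts C h0) : MC S.A := hF.A_meas

private theorem Θ_measC (hF : S.Facts C h0) : MC S.Θ := hF.Θ_meas

/-! ### Cauchy-Schwarz -/

private theorem int_mul {X : Type} [MeasurableSpace X] {μ : Measure X} {f g : X → ℝ}
    (hf : Measurable f) (hg : Measurable g) (hf2 : Integrable (fun x => f x ^ 2) μ)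
    (hg2 : Integrable (fun x => g x ^ 2) μ) : Integrable (fun x => f x * g x) μ := by
  refine (hf2.add hg2).mono' (hf.mul hg).aestronglyMeasurable (ae_of_all _ fun x => ?_)
  rw [Real.norm_eq_abs, abs_le]
  simp only [Pi.add_apply]
  constructor <;> nlinarith [sq_nonneg (f x + g x), sq_nonneg (f x - g x), sq_nonneg (f x),
    sq_nonneg (g x)]

private theorem int_cs {X : Type} [MeasurableSpace X] {μ : Measure X} {f g : X → ℝ}
    (hf : Measurable f) (hg : Measurable g) (hf2 : Integrable (fun x => f x ^ 2) μ)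
    (hg2 : Integrable (fun x => g x ^ 2) μ) :
    ∫ x, f x * g x ∂μ ≤ √(∫ x, f x ^ 2 ∂μ) * √(∫ x, g x ^ 2 ∂μ) := by
  have hfg := int_mul hf hg hf2 hg2
  have key : ∀ a : ℝ, 0 ≤ (∫ x, g x ^ 2 ∂μ) * (a * a) + (-(2 * ∫ x, f x * g x ∂μ)) * a
      + ∫ x, f x ^ 2 ∂μ := by
    intro a
    have h1 : 0 ≤ ∫ x, (f x ^ 2 - 2 * a * (f x * g x) + a * a * g x ^ 2) ∂μ := by
      refine integral_nonneg fun x => ?_
      have : f x ^ 2 - 2 * a * (f x * g x) + a * a * g x ^ 2 = (f x - a * g x) ^ 2 := by ring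
      simp only [Pi.zero_apply]
      rw [this]; positivity
    have h3 : Integrable (fun x => 2 * a * (f x * g x)) μ := hfg.const_mul _
    have h4 : Integrable (fun x => f x ^ 2 - 2 * a * (f x * g x)) μ := hf2.sub h3
    have h5 : Integrable (fun x => a * a * g x ^ 2) μ := hg2.const_mul _
    rw [integral_add h4 h5, integral_sub hf2 h3, integral_const_mul, integral_const_mul] at h1
    linarith
  have h2 := discrim_le_zero key
  unfold discrim at h2
  have hf0 : 0 ≤ ∫ x, f x ^ 2 ∂μ := integral_nonneg fun x => sq_nonneg _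
  rw [← Real.sqrt_mul hf0]
  refine Real.le_sqrt_of_sq_le ?_
  nlinarith [h2]

/-! ### the integrals -/

theorem lam_int (hF : S.Facts C h0) : Integrable (fun x => nsq (lam S.J (S.Θ x))) S.μ := by
  have := hF.fin
  refine (integrable_const (C ^ 2)).mono' ((Θ_measC hF).lam S.J).nsq.aestronglyMeasurable
    (ae_of_all _ fun x => ?_)
  rw [Real.norm_of_nonneg nsq_nonneg, ← nrm_sq]
  exact pow_le_pow_left₀ nrm_nonneg (hF.quat.nrm_lam_le.trans (hF.Θ_bdd x)) 2

private theorem c_int_sq (hF : S.Facts C h0) (j : ℕ) :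
    Integrable (fun x => S.c j x ^ 2) S.μ := by
  have := hF.fin
  obtain ⟨B, hB⟩ := hF.c_bdd j
  refine (integrable_const (B ^ 2)).mono' ((hF.c_meas j).pow_const 2).aestronglyMeasurable
    (ae_of_all _ fun x => ?_)
  rw [Real.norm_of_nonneg (sq_nonneg _)]
  exact pow_le_pow_left₀ (hF.c_nonneg j x) (hB x) 2

private theorem nrmA_sq (hF : S.Facts C h0) : Integrable (fun x => nrm (S.A x) ^ 2) S.μ := by
  refine hF.A_sq.congr (ae_of_all _ fun x => ?_)
  exact nrm_sq.symm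

private theorem vsq_sqrt_le (hF : S.Facts C h0) (x : S.M) : √(vsq (S.ζ x)) ≤ C := by
  rw [Real.sqrt_le_left hF.C_nonneg]
  exact hF.ζ_bdd x

private theorem ζ_measC (hF : S.Facts C h0) : Measurable (fun x => √(vsq (S.ζ x))) := by
  unfold vsq
  exact (Finset.measurable_sum _ fun i _ => (hF.ζ_meas i).pow_const 2).sqrt

private theorem QA_eq (hF : S.Facts C h0) (x : S.M) : Q S.I (S.A x) (S.A x) =
    -(1 / 2) * nsq (her S.I (S.A x)) + 1 / 2 * nsq (two S.I (S.A x)) :=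
  Q_eq ((hF.lie x).ip_I hF.quat) (S.A x)

private theorem Q_intC (hF : S.Facts C h0) :
    Integrable (fun x => Q S.I (S.A x) (S.A x)) S.μ := by
  have e : (fun x => Q S.I (S.A x) (S.A x)) = fun x =>
      -(1 / 2) * nsq (her S.I (S.A x)) + 1 / 2 * nsq (two S.I (S.A x)) :=
    funext fun x => QA_eq hF x
  have hm : Measurable (fun x => Q S.I (S.A x) (S.A x)) := by
    rw [e]
    exact (((A_measC hF).her S.I).nsq.const_mul _).add (((A_measC hF).two S.I).nsq.const_mul _)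
  refine (hF.A_sq.const_mul (1 + (Fintype.card ι : ℝ))).mono' hm.aestronglyMeasurable
    (ae_of_all _ fun x => ?_)
  rw [Real.norm_eq_abs]
  refine (abs_Q_le hF.quat).trans (le_of_eq ?_)
  rw [← nrm_sq]
  ring

private theorem Q_zero (hF : S.Facts C h0) : ∫ x, Q S.I (S.A x) (S.A x) ∂S.μ = 0 := by
  have := hF.fin
  have hC := hF.C_nonneg
  have hQ := Q_intC hF
  -- the limit
  have t1 : Tendsto (fun j => ∫ x, S.χ j x * Q S.I (S.A x) (S.A x) ∂S.μ) atTop
      (𝓝 (∫ x, Q S.I (S.A x) (S.A x) ∂S.μ)) := by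
    refine tendsto_integral_of_dominated_convergence (fun x => |Q S.I (S.A x) (S.A x)|)
      (fun j => ((hF.χ_meas j).aestronglyMeasurable).mul hQ.aestronglyMeasurable) hQ.abs
      (fun j => ae_of_all _ fun x => ?_) (ae_of_all _ fun x => ?_)
    · rw [norm_mul, Real.norm_of_nonneg (hF.χ_nonneg j x), Real.norm_eq_abs]
      exact mul_le_of_le_one_left (abs_nonneg _) (hF.χ_le_one j x)
    · have := (hF.χ_lim x).mul_const (Q S.I (S.A x) (S.A x))
      simpa using this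
  -- the bound
  have hb : ∀ j, |∫ x, S.χ j x * Q S.I (S.A x) (S.A x) ∂S.μ| ≤
      C * (C * (√(∫ x, S.c j x ^ 2 ∂S.μ) * √(∫ x, nrm (S.A x) ^ 2 ∂S.μ))) := by
    intro j
    refine (hF.stokes2 j).trans (mul_le_mul_of_nonneg_left ?_ hC)
    have hi := int_mul (hF.c_meas j) (A_measC hF).nrm (c_int_sq hF j) (nrmA_sq hF)
    calc ∫ x, S.c j x * √(vsq (S.ζ x)) * nrm (S.A x) ∂S.μ
        ≤ ∫ x, C * (S.c j x * nrm (S.A x)) ∂S.μ := by
          refine integral_mono ?_ (hi.const_mul C) fun x => ?_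
          · refine (hi.const_mul C).mono' (((hF.c_meas j).mul (ζ_measC hF)).mul
              (A_measC hF).nrm).aestronglyMeasurable (ae_of_all _ fun x => ?_)
            rw [Real.norm_of_nonneg (mul_nonneg (mul_nonneg (hF.c_nonneg j x)
              (Real.sqrt_nonneg _)) nrm_nonneg)]
            have h1 := vsq_sqrt_le hF x
            have h2 : 0 ≤ S.c j x * nrm (S.A x) := mul_nonneg (hF.c_nonneg j x) nrm_nonneg
            nlinarith
          · have h1 := vsq_sqrt_le hF x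
            have h2 : 0 ≤ S.c j x * nrm (S.A x) := mul_nonneg (hF.c_nonneg j x) nrm_nonneg
            show S.c j x * √(vsq (S.ζ x)) * nrm (S.A x) ≤ C * (S.c j x * nrm (S.A x))
            nlinarith
      _ = C * ∫ x, S.c j x * nrm (S.A x) ∂S.μ := integral_const_mul _ _
      _ ≤ C * (√(∫ x, S.c j x ^ 2 ∂S.μ) * √(∫ x, nrm (S.A x) ^ 2 ∂S.μ)) :=
          mul_le_mul_of_nonneg_left
            (int_cs (hF.c_meas j) (A_measC hF).nrm (c_int_sq hF j) (nrmA_sq hF)) hC
  have t2 : Tendsto (fun j => C * (C * (√(∫ x, S.c j x ^ 2 ∂S.μ) *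
      √(∫ x, nrm (S.A x) ^ 2 ∂S.μ)))) atTop (𝓝 0) := by
    have h1 : Tendsto (fun j => √(∫ x, S.c j x ^ 2 ∂S.μ)) atTop (𝓝 (√0)) :=
      (Real.continuous_sqrt.tendsto 0).comp hF.c_sq
    rw [Real.sqrt_zero] at h1
    have h2 := ((h1.mul_const (√(∫ x, nrm (S.A x) ^ 2 ∂S.μ))).const_mul C).const_mul C
    simpa using h2
  have t3 : Tendsto (fun j => ∫ x, S.χ j x * Q S.I (S.A x) (S.A x) ∂S.μ) atTop (𝓝 0) := by
    refine squeeze_zero_norm (fun j => ?_) t2
    rw [Real.norm_eq_abs]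
    exact hb j
  exact tendsto_nhds_unique t1 t3

private theorem ipΘ_int (hF : S.Facts C h0) : Integrable (fun x => ip S.I (S.Θ x)) S.μ := by
  have := hF.fin
  refine (integrable_const (nrm S.I * C)).mono'
    ((MC.const S.I).ip (Θ_measC hF)).aestronglyMeasurable (ae_of_all _ fun x => ?_)
  rw [Real.norm_eq_abs]
  exact abs_ip_le.trans (mul_le_mul_of_nonneg_left (hF.Θ_bdd x) nrm_nonneg)

theorem b_int (hF : S.Facts C h0) :
    Integrable (fun x => nsq (her S.I (S.A x))) S.μ ∧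
      ∫ x, nsq (her S.I (S.A x)) ∂S.μ =
        ∫ x, nsq (lam S.J (S.Θ x)) ∂S.μ - Fintype.card ι * S.V := by
  have := hF.fin
  have hi : Integrable (fun x => nsq (her S.I (S.A x))) S.μ := by
    refine hF.A_sq.mono' ((A_measC hF).her S.I).nsq.aestronglyMeasurable (ae_of_all _ fun x => ?_)
    rw [Real.norm_of_nonneg nsq_nonneg, ← nrm_sq, ← nrm_sq]
    exact pow_le_pow_left₀ nrm_nonneg hF.quat.nrm_her_le 2
  refine ⟨hi, ?_⟩
  have e : ∀ x, nsq (her S.I (S.A x)) = Fintype.card ι - 2 * ip S.I (S.Θ x)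
      + nsq (lam S.J (S.Θ x)) - 2 * Q S.I (S.A x) (S.A x) := by
    intro x
    rw [QA_eq hF, (hF.lie x).nsq_two hF.quat]
    ring
  have i1 : Integrable (fun _ : S.M => (Fintype.card ι : ℝ)) S.μ := integrable_const _
  have i2 : Integrable (fun x => 2 * ip S.I (S.Θ x)) S.μ := (ipΘ_int hF).const_mul _
  have i3 := lam_int hF
  have i4 : Integrable (fun x => 2 * Q S.I (S.A x) (S.A x)) S.μ := (Q_intC hF).const_mul _
  have i5 : Integrable (fun x => (Fintype.card ι : ℝ) - 2 * ip S.I (S.Θ x)) S.μ := i1.sub i2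
  have i6 : Integrable (fun x => (Fintype.card ι : ℝ) - 2 * ip S.I (S.Θ x)
      + nsq (lam S.J (S.Θ x))) S.μ := i5.add i3
  rw [integral_congr_ae (ae_of_all _ e), integral_sub i6 i4, integral_add i5 i3,
    integral_sub i1 i2, integral_const_mul, integral_const_mul, hF.cohΘ, Q_zero hF,
    integral_const, smul_eq_mul]
  unfold Slice.V
  ring

private theorem two_le (hF : S.Facts C h0) {h : ℝ} (hh : h ∈ Ioc 0 h0) (x : S.M) :
    nrm ((1 / h) • two S.I (S.w h x) - S.J * lam S.J (S.Θ x)) ≤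
      2 * C * nrm (S.g h x - 1) + C * h + h * (2 * C) ^ 2 * (S.g h x).trace := by
  have hC := hF.C_nonneg
  have hh0 : 0 < h := hh.1
  have h1 := Tri.two_om_sub hF.quat (hF.tri h hh x) (S.Θ x) h hh0
  have h2 := (nrm_τ_le hF hh x).1
  have h3 := hF.τ_lin h hh x
  have h4 : 0 ≤ (gm (S.P h x)).trace := by rw [trace_gm]; exact nsq_nonneg
  have h5 : nrm ((1 / h) • S.τ h x) * nrm (gm (S.P h x) - 1) ≤ 2 * C * nrm (gm (S.P h x) - 1) :=
    mul_le_mul_of_nonneg_right h2 nrm_nonneg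
  have h6 : h * nrm ((1 / h) • S.τ h x) ^ 2 * (gm (S.P h x)).trace ≤
      h * (2 * C) ^ 2 * (gm (S.P h x)).trace :=
    mul_le_mul_of_nonneg_right (mul_le_mul_of_nonneg_left
      (pow_le_pow_left₀ nrm_nonneg h2 2) hh0.le) h4
  refine h1.trans ?_
  show _ ≤ 2 * C * nrm (gm (S.P h x) - 1) + C * h + h * (2 * C) ^ 2 * (gm (S.P h x)).trace
  linarith

private theorem two_measC (hF : S.Facts C h0) (h : ℝ) :
    Measurable (fun x => nrm ((1 / h) • two S.I (S.w h x) - S.J * lam S.J (S.Θ x))) :=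
  ((((w_measC hF h).two S.I).smul _).sub ((MC.const S.J).mul ((Θ_measC hF).lam S.J))).nrm

private theorem bnd_int (hF : S.Facts C h0) {h : ℝ} (hh : h ∈ Ioc 0 h0) :
    Integrable (fun x => 2 * C * nrm (S.g h x - 1) + C * h + h * (2 * C) ^ 2 * (S.g h x).trace)
      S.μ ∧
    ∫ x, (2 * C * nrm (S.g h x - 1) + C * h + h * (2 * C) ^ 2 * (S.g h x).trace) ∂S.μ ≤
      (2 * C * ((6 + 2 * Fintype.card ι) * C * S.V) + C * S.V +
        (2 * C) ^ 2 * (2 * Fintype.card ι * S.V)) * h := by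
  have := hF.fin
  have hC := hF.C_nonneg
  have hh0 : 0 < h := hh.1
  obtain ⟨i1, e1⟩ := g_sub hF hh
  obtain ⟨i2, e2⟩ := trace_g hF hh
  have i3 : Integrable (fun x => 2 * C * nrm (S.g h x - 1)) S.μ := i1.const_mul _
  have i4 : Integrable (fun _ : S.M => C * h) S.μ := integrable_const _
  have i5 : Integrable (fun x => h * (2 * C) ^ 2 * (S.g h x).trace) S.μ := i2.const_mul _
  have i6 : Integrable (fun x => 2 * C * nrm (S.g h x - 1) + C * h) S.μ := i3.add i4
  refine ⟨i6.add i5, ?_⟩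
  have q1 : ∫ x, 2 * C * nrm (S.g h x - 1) ∂S.μ = 2 * C * ∫ x, nrm (S.g h x - 1) ∂S.μ :=
    integral_const_mul _ _
  have q2 : ∫ x, h * (2 * C) ^ 2 * (S.g h x).trace ∂S.μ =
      h * (2 * C) ^ 2 * ∫ x, (S.g h x).trace ∂S.μ := integral_const_mul _ _
  have q3 : ∫ _x : S.M, C * h ∂S.μ = S.V * (C * h) := by
    rw [integral_const, smul_eq_mul]
    rfl
  rw [integral_add i6 i5, integral_add i3 i4, q1, q2, q3]
  have h1 : 2 * C * ∫ x, nrm (S.g h x - 1) ∂S.μ ≤
      2 * C * ((6 + 2 * Fintype.card ι) * C * S.V * h) := by gcongr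
  have h2 : h * (2 * C) ^ 2 * ∫ x, (S.g h x).trace ∂S.μ ≤
      h * (2 * C) ^ 2 * (2 * Fintype.card ι * S.V) := by gcongr
  linarith

theorem two_int (hF : S.Facts C h0) {h : ℝ} (hh : h ∈ Ioc 0 h0) :
    Integrable (fun x => nrm ((1 / h) • two S.I (S.w h x) - S.J * lam S.J (S.Θ x))) S.μ := by
  refine (bnd_int hF hh).1.mono' (two_measC hF h).aestronglyMeasurable (ae_of_all _ fun x => ?_)
  rw [Real.norm_of_nonneg nrm_nonneg]
  exact two_le hF hh x

theorem two_lim (hF : S.Facts C h0) :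
    Tendsto (fun h => ∫ x, nrm ((1 / h) • two S.I (S.w h x) - S.J * lam S.J (S.Θ x)) ∂S.μ)
      (𝓝[>] 0) (𝓝 0) := by
  have hl : Tendsto (fun h : ℝ => (2 * C * ((6 + 2 * Fintype.card ι) * C * S.V) + C * S.V +
        (2 * C) ^ 2 * (2 * Fintype.card ι * S.V)) * h) (𝓝[>] 0) (𝓝 0) := by
    have hid : Tendsto (fun h : ℝ => h) (𝓝[>] 0) (𝓝 0) := nhdsWithin_le_nhds
    simpa using hid.const_mul (2 * C * ((6 + 2 * (Fintype.card ι : ℝ)) * C * S.V) + C * S.V +
        (2 * C) ^ 2 * (2 * Fintype.card ι * S.V))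
  refine squeeze_zero' (Eventually.of_forall fun h => integral_nonneg fun x => nrm_nonneg) ?_ hl
  filter_upwards [Ioc_mem_nhdsGT hF.h0_pos] with h hh
  obtain ⟨i1, e1⟩ := bnd_int hF hh
  exact (integral_mono (two_int hF hh) i1 fun x => two_le hF hh x).trans e1

/-- the energy of `B = (H - 1)/h` with the weight `1/(1 + h |B|)` -/
theorem B_energy (hF : S.Facts C h0) {h : ℝ} (hh : h ∈ Ioc 0 h0) :
    Integrable (fun x => nsq ((1 / h) • (S.H h x - 1)) / (1 + nrm (S.H h x - 1))) S.μ ∧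
      ∫ x, nsq ((1 / h) • (S.H h x - 1)) / (1 + nrm (S.H h x - 1)) ∂S.μ ≤
        2 * ((∫ x, Phi (S.H h x) ∂S.μ) / h ^ 2) := by
  have hh0 : 0 < h := hh.1
  obtain ⟨i1, -⟩ := phi_int hF hh
  have hle : ∀ x, nsq ((1 / h) • (S.H h x - 1)) / (1 + nrm (S.H h x - 1)) ≤
      2 / h ^ 2 * Phi (S.H h x) := by
    intro x
    have h1 := Phi_lower _ (H_posDef hF hh x)
    have h2 : 0 ≤ nrm (S.H h x - 1) := nrm_nonneg
    have h3 : nsq ((1 / h) • (S.H h x - 1)) / (1 + nrm (S.H h x - 1)) =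
        2 / h ^ 2 * (nsq (S.H h x - 1) / (2 * (1 + nrm (S.H h x - 1)))) := by
      rw [nsq_smul]
      have h4 : 1 + nrm (S.H h x - 1) ≠ 0 := by positivity
      have h5 : h ≠ 0 := hh0.ne'
      field_simp
    rw [h3]
    exact mul_le_mul_of_nonneg_left h1 (by positivity)
  have i2 : Integrable (fun x => 2 / h ^ 2 * Phi (S.H h x)) S.μ := i1.const_mul _
  have hm : MC (fun x => S.H h x - 1) := (H_measC hF h).sub (MC.const 1)
  have i3 : Integrable (fun x => nsq ((1 / h) • (S.H h x - 1)) / (1 + nrm (S.H h x - 1))) S.μ := by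
    refine i2.mono' (((hm.smul _).nsq.div (hm.nrm.const_add 1)).aestronglyMeasurable)
      (ae_of_all _ fun x => ?_)
    have h2 : 0 ≤ nrm (S.H h x - 1) := nrm_nonneg
    rw [Real.norm_of_nonneg (div_nonneg nsq_nonneg (by linarith))]
    exact hle x
  refine ⟨i3, (integral_mono i3 i2 hle).trans (le_of_eq ?_)⟩
  rw [integral_const_mul]
  ring

/-- `∫ c |B|` -/
private theorem cB_le (hF : S.Facts C h0) {h : ℝ} (hh : h ∈ Ioc 0 h0) (j : ℕ) {M : ℝ}
    (hM : ∀ x, S.c j x ≤ M) :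
    Integrable (fun x => S.c j x * nrm ((1 / h) • (S.H h x - 1))) S.μ ∧
    ∫ x, S.c j x * nrm ((1 / h) • (S.H h x - 1)) ∂S.μ ≤
      √(6 * C ^ 2 * S.V) * (√(∫ x, S.c j x ^ 2 ∂S.μ) + √(M ^ 2 * (6 * C * S.V) * h)) := by
  have := hF.fin
  have hC := hF.C_nonneg
  have hV : 0 ≤ S.V := measureReal_nonneg
  have hh0 : 0 < h := hh.1
  obtain ⟨i1, e1⟩ := B_energy hF hh
  obtain ⟨i2, e2⟩ := H_sub hF hh
  obtain ⟨-, e3⟩ := phi_int hF hh
  have hm : MC (fun x => S.H h x - 1) := (H_measC hF h).sub (MC.const 1)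
  have hN : ∀ x, 0 ≤ nrm (S.H h x - 1) := fun x => nrm_nonneg
  -- the two factors
  let f : S.M → ℝ := fun x => nrm ((1 / h) • (S.H h x - 1)) / √(1 + nrm (S.H h x - 1))
  let k : S.M → ℝ := fun x => S.c j x * √(1 + nrm (S.H h x - 1))
  have hf : Measurable f := (hm.smul _).nrm.div (hm.nrm.const_add 1).sqrt
  have hk : Measurable k := (hF.c_meas j).mul (hm.nrm.const_add 1).sqrt
  have hf2 : ∀ x, f x ^ 2 = nsq ((1 / h) • (S.H h x - 1)) / (1 + nrm (S.H h x - 1)) := by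
    intro x
    show (nrm ((1 / h) • (S.H h x - 1)) / √(1 + nrm (S.H h x - 1))) ^ 2 = _
    rw [div_pow, nrm_sq, Real.sq_sqrt (by linarith [hN x])]
  have hk2 : ∀ x, k x ^ 2 = S.c j x ^ 2 + S.c j x ^ 2 * nrm (S.H h x - 1) := by
    intro x
    show (S.c j x * √(1 + nrm (S.H h x - 1))) ^ 2 = _
    rw [mul_pow, Real.sq_sqrt (by linarith [hN x])]
    ring
  have hfk : ∀ x, f x * k x = S.c j x * nrm ((1 / h) • (S.H h x - 1)) := by
    intro x
    show nrm ((1 / h) • (S.H h x - 1)) / √(1 + nrm (S.H h x - 1)) *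
      (S.c j x * √(1 + nrm (S.H h x - 1))) = _
    have h1 : √(1 + nrm (S.H h x - 1)) ≠ 0 := by
      have := hN x
      positivity
    field_simp
  have if2 : Integrable (fun x => f x ^ 2) S.μ := by
    refine i1.congr (ae_of_all _ fun x => ?_)
    exact (hf2 x).symm
  have hcM : ∀ x, S.c j x ^ 2 ≤ M ^ 2 := fun x => pow_le_pow_left₀ (hF.c_nonneg j x) (hM x) 2
  have i3 : Integrable (fun x => M ^ 2 * nrm (S.H h x - 1)) S.μ := i2.const_mul _
  have i4 : Integrable (fun x => S.c j x ^ 2 * nrm (S.H h x - 1)) S.μ := by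
    refine i3.mono' (((hF.c_meas j).pow_const 2).mul hm.nrm).aestronglyMeasurable
      (ae_of_all _ fun x => ?_)
    rw [Real.norm_of_nonneg (mul_nonneg (sq_nonneg _) (hN x))]
    exact mul_le_mul_of_nonneg_right (hcM x) (hN x)
  have i5 : Integrable (fun x => S.c j x ^ 2 + S.c j x ^ 2 * nrm (S.H h x - 1)) S.μ :=
    (c_int_sq hF j).add i4
  have ik2 : Integrable (fun x => k x ^ 2) S.μ := by
    refine i5.congr (ae_of_all _ fun x => ?_)
    exact (hk2 x).symm
  have hint := int_mul hf hk if2 ik2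
  have hcs := int_cs hf hk if2 ik2
  simp only [hfk] at hint hcs
  refine ⟨hint, hcs.trans ?_⟩
  have b1 : ∫ x, f x ^ 2 ∂S.μ ≤ 6 * C ^ 2 * S.V := by
    rw [integral_congr_ae (ae_of_all _ hf2)]
    refine e1.trans ?_
    have h1 : (∫ x, Phi (S.H h x) ∂S.μ) / h ^ 2 ≤ 3 * C ^ 2 * S.V := by
      rw [div_le_iff₀ (by positivity)]
      exact e3
    linarith
  have b2 : ∫ x, k x ^ 2 ∂S.μ ≤ ∫ x, S.c j x ^ 2 ∂S.μ + M ^ 2 * (6 * C * S.V) * h := by
    rw [integral_congr_ae (ae_of_all _ hk2), integral_add (c_int_sq hF j) i4]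
    have h1 : ∫ x, S.c j x ^ 2 * nrm (S.H h x - 1) ∂S.μ ≤
        ∫ x, M ^ 2 * nrm (S.H h x - 1) ∂S.μ :=
      integral_mono i4 i3 fun x => mul_le_mul_of_nonneg_right (hcM x) (hN x)
    rw [integral_const_mul] at h1
    have h2 : M ^ 2 * ∫ x, nrm (S.H h x - 1) ∂S.μ ≤ M ^ 2 * (6 * C * S.V * h) :=
      mul_le_mul_of_nonneg_left e2 (sq_nonneg _)
    linarith
  have b3 : √(∫ x, k x ^ 2 ∂S.μ) ≤ √(∫ x, S.c j x ^ 2 ∂S.μ) + √(M ^ 2 * (6 * C * S.V) * h) := by
    refine (Real.sqrt_le_sqrt b2).trans ?_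
    have h1 : 0 ≤ ∫ x, S.c j x ^ 2 ∂S.μ := integral_nonneg fun x => sq_nonneg _
    have h2 : 0 ≤ M ^ 2 * (6 * C * S.V) * h := by positivity
    rw [Real.sqrt_le_left (by positivity)]
    have h3 := Real.sq_sqrt h1
    have h4 := Real.sq_sqrt h2
    have h5 : 0 ≤ √(∫ x, S.c j x ^ 2 ∂S.μ) * √(M ^ 2 * (6 * C * S.V) * h) := by positivity
    nlinarith
  exact mul_le_mul (Real.sqrt_le_sqrt b1) b3 (Real.sqrt_nonneg _) (Real.sqrt_nonneg _)

/-- the form `w - I` -/
private theorem wI_le (hF : S.Facts C h0) {h : ℝ} (hh : h ∈ Ioc 0 h0) (x : S.M) :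
    1 / h * nrm (S.w h x - S.I) ≤ nrm ((1 / h) • (S.H h x - 1)) +
      nrm ((1 / h) • two S.I (S.w h x) - S.J * lam S.J (S.Θ x)) + C := by
  have hq := hF.quat
  have hh0 : 0 < h := hh.1
  have hsk : (S.w h x - S.I)ᵀ = -(S.w h x - S.I) := by
    have h1 : (S.w h x)ᵀ = -S.w h x := om_skew hq.It
    rw [transpose_sub, h1, hq.It]
    abel
  have h1 := hq.nsq_eq hsk
  have e1 : her S.I (S.w h x - S.I) = S.H h x - 1 := by
    rw [her_sub, hq.her_I]
    rfl
  have e2 : two S.I (S.w h x - S.I) = two S.I (S.w h x) := by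
    rw [two_sub, hq.two_I, sub_zero]
  rw [e1, e2] at h1
  have h2 : nrm (S.w h x - S.I) ≤ nrm (S.H h x - 1) + nrm (two S.I (S.w h x)) := by
    have h3 : nrm (S.w h x - S.I) ^ 2 ≤ (nrm (S.H h x - 1) + nrm (two S.I (S.w h x))) ^ 2 := by
      rw [nrm_sq, h1, ← nrm_sq, ← nrm_sq]
      have h4 : 0 ≤ nrm (S.H h x - 1) * nrm (two S.I (S.w h x)) :=
        mul_nonneg nrm_nonneg nrm_nonneg
      nlinarith
    exact (pow_le_pow_iff_left₀ nrm_nonneg (add_nonneg nrm_nonneg nrm_nonneg) two_ne_zero).1 h3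
  have h5 : nrm ((1 / h) • two S.I (S.w h x)) ≤
      nrm ((1 / h) • two S.I (S.w h x) - S.J * lam S.J (S.Θ x)) + C := by
    have e3 : (1 / h) • two S.I (S.w h x) =
        ((1 / h) • two S.I (S.w h x) - S.J * lam S.J (S.Θ x)) + S.J * lam S.J (S.Θ x) := by abel
    calc nrm ((1 / h) • two S.I (S.w h x)) = nrm (((1 / h) • two S.I (S.w h x) -
          S.J * lam S.J (S.Θ x)) + S.J * lam S.J (S.Θ x)) := by rw [← e3]
      _ ≤ nrm ((1 / h) • two S.I (S.w h x) - S.J * lam S.J (S.Θ x)) +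
          nrm (S.J * lam S.J (S.Θ x)) := nrm_add_le
      _ ≤ _ := by
        have h6 : nrm (S.J * lam S.J (S.Θ x)) ≤ C := by
          rw [hq.nrm_J_left]
          exact hq.nrm_lam_le.trans (hF.Θ_bdd x)
        linarith
  have h7 : nrm ((1 / h) • (S.H h x - 1)) = 1 / h * nrm (S.H h x - 1) := by
    rw [nrm_smul, abs_of_pos (by positivity)]
  have h8 : nrm ((1 / h) • two S.I (S.w h x)) = 1 / h * nrm (two S.I (S.w h x)) := by
    rw [nrm_smul, abs_of_pos (by positivity)]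
  have h9 : 1 / h * nrm (S.w h x - S.I) ≤
      1 / h * (nrm (S.H h x - 1) + nrm (two S.I (S.w h x))) :=
    mul_le_mul_of_nonneg_left h2 (by positivity)
  rw [h7]
  rw [h8] at h5
  linarith

private theorem c_le (hF : S.Facts C h0) (j : ℕ) :
    Integrable (S.c j) S.μ ∧
      ∫ x, S.c j x ∂S.μ ≤ √(∫ x, S.c j x ^ 2 ∂S.μ) * √S.V := by
  have := hF.fin
  have i1 : Integrable (fun _ : S.M => (1 : ℝ) ^ 2) S.μ := integrable_const _
  have h1 := int_mul (hF.c_meas j) (measurable_const (a := (1 : ℝ))) (c_int_sq hF j) i1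
  have h2 := int_cs (hF.c_meas j) (measurable_const (a := (1 : ℝ))) (c_int_sq hF j) i1
  simp only [mul_one, one_pow, integral_const, smul_eq_mul] at h1 h2
  exact ⟨h1, h2⟩

/-- the two terms for one `h` -/
private theorem cross_h (hF : S.Facts C h0) {h : ℝ} (hh : h ∈ Ioc 0 h0) (j : ℕ) {M B : ℝ}
    (hM : ∀ x, S.c j x ≤ M) (hM0 : 0 ≤ M) (hB0 : 0 ≤ B)
    (hB : ∀ x, S.χ j x ≠ 0 → nrm (S.A x) ≤ B) :
    |∫ x, S.χ j x * ip ((1 / h) • (S.H h x - 1)) (her S.I (S.A x)) ∂S.μ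
      - ∫ x, S.χ j x * ip (S.J * lam S.J (S.Θ x)) (two S.I (S.A x)) ∂S.μ| ≤
      2 * C ^ 2 * (√(6 * C ^ 2 * S.V) * (√(∫ x, S.c j x ^ 2 ∂S.μ) +
          √(M ^ 2 * (6 * C * S.V) * h)) +
        M * (∫ x, nrm ((1 / h) • two S.I (S.w h x) - S.J * lam S.J (S.Θ x)) ∂S.μ) +
        C * (√(∫ x, S.c j x ^ 2 ∂S.μ) * √S.V)) +
      B * ∫ x, nrm ((1 / h) • two S.I (S.w h x) - S.J * lam S.J (S.Θ x)) ∂S.μ := by
  have := hF.fin
  have hC := hF.C_nonneg
  have hq := hF.quat
  have hh0 : 0 < h := hh.1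
  have hne : h ≠ 0 := hh0.ne'
  have hχm := hF.χ_meas j
  have hA := A_measC hF
  have hw := w_measC hF h
  have hmH : MC (fun x => (1 / h) • (S.H h x - 1)) := ((H_measC hF h).sub (MC.const 1)).smul _
  have hmL : MC (fun x => S.J * lam S.J (S.Θ x)) := (MC.const S.J).mul ((Θ_measC hF).lam S.J)
  have iδ := two_int hF hh
  obtain ⟨i2, -⟩ := H_sub hF hh
  -- on the support of `χ` the form `A` is bounded
  have hχA : ∀ (x : S.M) (X : Matrix ι ι ℝ), |S.χ j x * ip X (her S.I (S.A x))| ≤ B * nrm X ∧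
      |S.χ j x * ip X (two S.I (S.A x))| ≤ B * nrm X := by
    intro x X
    by_cases h0 : S.χ j x = 0
    · rw [h0, zero_mul, zero_mul, abs_zero]
      have : 0 ≤ B * nrm X := mul_nonneg hB0 nrm_nonneg
      exact ⟨this, this⟩
    · have hb := hB x h0
      have hX : 0 ≤ nrm X := nrm_nonneg
      constructor
      · rw [abs_mul, abs_of_nonneg (hF.χ_nonneg j x)]
        have h1 : |ip X (her S.I (S.A x))| ≤ nrm X * B :=
          abs_ip_le.trans (mul_le_mul_of_nonneg_left (hq.nrm_her_le.trans hb) hX)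
        have h2 := mul_le_of_le_one_left (abs_nonneg (ip X (her S.I (S.A x)))) (hF.χ_le_one j x)
        linarith
      · rw [abs_mul, abs_of_nonneg (hF.χ_nonneg j x)]
        have h1 : |ip X (two S.I (S.A x))| ≤ nrm X * B :=
          abs_ip_le.trans (mul_le_mul_of_nonneg_left (hq.nrm_two_le.trans hb) hX)
        have h2 := mul_le_of_le_one_left (abs_nonneg (ip X (two S.I (S.A x)))) (hF.χ_le_one j x)
        linarith
  -- the first integral
  have iB : Integrable (fun x => nrm ((1 / h) • (S.H h x - 1))) S.μ := by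
    have : (fun x => nrm ((1 / h) • (S.H h x - 1))) = fun x => |1 / h| * nrm (S.H h x - 1) :=
      funext fun x => nrm_smul _
    rw [this]
    exact i2.const_mul _
  have j1 : Integrable (fun x => S.χ j x * ip ((1 / h) • (S.H h x - 1)) (her S.I (S.A x)))
      S.μ := by
    refine (iB.const_mul B).mono' (hχm.mul (hmH.ip (hA.her S.I))).aestronglyMeasurable
      (ae_of_all _ fun x => ?_)
    exact (hχA x _).1
  have iL : Integrable (fun x => nrm (S.J * lam S.J (S.Θ x))) S.μ := by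
    refine (integrable_const C).mono' hmL.nrm.aestronglyMeasurable (ae_of_all _ fun x => ?_)
    rw [Real.norm_of_nonneg nrm_nonneg, hq.nrm_J_left]
    exact hq.nrm_lam_le.trans (hF.Θ_bdd x)
  have j2 : Integrable (fun x => S.χ j x * ip (S.J * lam S.J (S.Θ x)) (two S.I (S.A x)))
      S.μ := by
    refine (iL.const_mul B).mono' (hχm.mul (hmL.ip (hA.two S.I))).aestronglyMeasurable
      (ae_of_all _ fun x => ?_)
    exact (hχA x _).2
  have j3 : Integrable (fun x => S.χ j x * ip ((1 / h) • two S.I (S.w h x) -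
      S.J * lam S.J (S.Θ x)) (two S.I (S.A x))) S.μ := by
    refine (iδ.const_mul B).mono' (hχm.mul ((((hw.two S.I).smul _).sub hmL).ip
      (hA.two S.I))).aestronglyMeasurable (ae_of_all _ fun x => ?_)
    exact (hχA x _).2
  -- the identity
  have e1 : ∀ x, S.χ j x * ip ((1 / h) • (S.H h x - 1)) (her S.I (S.A x)) -
      S.χ j x * ip (S.J * lam S.J (S.Θ x)) (two S.I (S.A x)) =
      S.χ j x * ip ((1 / h) • two S.I (S.w h x) - S.J * lam S.J (S.Θ x)) (two S.I (S.A x)) -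
        2 / h * (S.χ j x * Q S.I (S.w h x - S.I) (S.A x)) := by
    intro x
    have e2 : her S.I (S.w h x - S.I) = S.H h x - 1 := by
      rw [her_sub, hq.her_I]
      rfl
    have e3 : two S.I (S.w h x - S.I) = two S.I (S.w h x) := by
      rw [two_sub, hq.two_I, sub_zero]
    rw [Q_eq ((hF.lie x).ip_I hq), e2, e3, sub_eq_add_neg ((1 / h) • two S.I (S.w h x)),
      ip_add_left, ip_neg_left, ip_smul_left, ip_smul_left]
    field_simp
    ring
  have j4 : Integrable (fun x => 2 / h * (S.χ j x * Q S.I (S.w h x - S.I) (S.A x))) S.μ := by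
    have h1 := j3.sub (j1.sub j2)
    refine h1.congr (ae_of_all _ fun x => ?_)
    have := e1 x
    simp only [Pi.sub_apply]
    linarith
  rw [← integral_sub j1 j2, integral_congr_ae (ae_of_all _ e1), integral_sub j3 j4,
    integral_const_mul]
  -- the error from the `(2,0)`-part
  have b1 : |∫ x, S.χ j x * ip ((1 / h) • two S.I (S.w h x) - S.J * lam S.J (S.Θ x))
      (two S.I (S.A x)) ∂S.μ| ≤
      B * ∫ x, nrm ((1 / h) • two S.I (S.w h x) - S.J * lam S.J (S.Θ x)) ∂S.μ := by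
    rw [← integral_const_mul, ← Real.norm_eq_abs]
    refine norm_integral_le_of_norm_le (iδ.const_mul B) (ae_of_all _ fun x => ?_)
    exact (hχA x _).2
  -- the error from Stokes
  obtain ⟨iC, bC⟩ := cB_le hF hh j hM
  obtain ⟨ic, bc⟩ := c_le hF j
  have iδc : Integrable (fun x => S.c j x * nrm ((1 / h) • two S.I (S.w h x) -
      S.J * lam S.J (S.Θ x))) S.μ := by
    refine (iδ.const_mul M).mono' ((hF.c_meas j).mul (two_measC hF h)).aestronglyMeasurable
      (ae_of_all _ fun x => ?_)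
    rw [Real.norm_of_nonneg (mul_nonneg (hF.c_nonneg j x) nrm_nonneg)]
    exact mul_le_mul_of_nonneg_right (hM x) nrm_nonneg
  have bδc : ∫ x, S.c j x * nrm ((1 / h) • two S.I (S.w h x) - S.J * lam S.J (S.Θ x)) ∂S.μ ≤
      M * ∫ x, nrm ((1 / h) • two S.I (S.w h x) - S.J * lam S.J (S.Θ x)) ∂S.μ := by
    rw [← integral_const_mul]
    exact integral_mono iδc (iδ.const_mul M) fun x =>
      mul_le_mul_of_nonneg_right (hM x) nrm_nonneg
  have icC : Integrable (fun x => C * S.c j x) S.μ := ic.const_mul C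
  have iS1 : Integrable (fun x => S.c j x * nrm ((1 / h) • (S.H h x - 1)) +
      S.c j x * nrm ((1 / h) • two S.I (S.w h x) - S.J * lam S.J (S.Θ x))) S.μ := iC.add iδc
  have iS : Integrable (fun x => S.c j x * nrm ((1 / h) • (S.H h x - 1)) +
      S.c j x * nrm ((1 / h) • two S.I (S.w h x) - S.J * lam S.J (S.Θ x)) +
      C * S.c j x) S.μ := iS1.add icC
  have b2 : 1 / h * ∫ x, S.c j x * √(vsq (S.ζ x)) * nrm (S.w h x - S.I) ∂S.μ ≤
      C * (√(6 * C ^ 2 * S.V) * (√(∫ x, S.c j x ^ 2 ∂S.μ) + √(M ^ 2 * (6 * C * S.V) * h)) +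
        M * (∫ x, nrm ((1 / h) • two S.I (S.w h x) - S.J * lam S.J (S.Θ x)) ∂S.μ) +
        C * (√(∫ x, S.c j x ^ 2 ∂S.μ) * √S.V)) := by
    have hle : ∀ x, 1 / h * (S.c j x * √(vsq (S.ζ x)) * nrm (S.w h x - S.I)) ≤
        C * (S.c j x * nrm ((1 / h) • (S.H h x - 1)) +
        S.c j x * nrm ((1 / h) • two S.I (S.w h x) - S.J * lam S.J (S.Θ x)) +
        C * S.c j x) := by
      intro x
      have h1 := wI_le hF hh x
      have h2 := vsq_sqrt_le hF x
      have h3 : 0 ≤ S.c j x := hF.c_nonneg j x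
      have h4 : 0 ≤ 1 / h * nrm (S.w h x - S.I) := mul_nonneg (by positivity) nrm_nonneg
      calc 1 / h * (S.c j x * √(vsq (S.ζ x)) * nrm (S.w h x - S.I))
          = √(vsq (S.ζ x)) * (S.c j x * (1 / h * nrm (S.w h x - S.I))) := by ring
        _ ≤ C * (S.c j x * (1 / h * nrm (S.w h x - S.I))) :=
            mul_le_mul_of_nonneg_right h2 (mul_nonneg h3 h4)
        _ ≤ C * (S.c j x * (nrm ((1 / h) • (S.H h x - 1)) +
            nrm ((1 / h) • two S.I (S.w h x) - S.J * lam S.J (S.Θ x)) + C)) :=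
            mul_le_mul_of_nonneg_left (mul_le_mul_of_nonneg_left h1 h3) hC
        _ = _ := by ring
    have hpos : ∀ x, 0 ≤ 1 / h * (S.c j x * √(vsq (S.ζ x)) * nrm (S.w h x - S.I)) := fun x =>
      mul_nonneg (by positivity) (mul_nonneg (mul_nonneg (hF.c_nonneg j x)
        (Real.sqrt_nonneg _)) nrm_nonneg)
    rw [← integral_const_mul]
    have i9 : Integrable (fun x => 1 / h * (S.c j x * √(vsq (S.ζ x)) * nrm (S.w h x - S.I)))
        S.μ := by
      refine (iS.const_mul C).mono' ((((hF.c_meas j).mul (ζ_measC hF)).mul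
        (hw.sub (MC.const S.I)).nrm).const_mul _).aestronglyMeasurable (ae_of_all _ fun x => ?_)
      rw [Real.norm_of_nonneg (hpos x)]
      exact hle x
    refine (integral_mono i9 (iS.const_mul C) hle).trans ?_
    rw [integral_const_mul, integral_add iS1 icC, integral_add iC iδc, integral_const_mul]
    have h6 : C * ∫ x, S.c j x ∂S.μ ≤ C * (√(∫ x, S.c j x ^ 2 ∂S.μ) * √S.V) :=
      mul_le_mul_of_nonneg_left bc hC
    exact mul_le_mul_of_nonneg_left (by linarith) hC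
  have b3 := hF.stokes3 j h hh
  have b4 : |2 / h * ∫ x, S.χ j x * Q S.I (S.w h x - S.I) (S.A x) ∂S.μ| ≤
      2 * C ^ 2 * (√(6 * C ^ 2 * S.V) * (√(∫ x, S.c j x ^ 2 ∂S.μ) +
          √(M ^ 2 * (6 * C * S.V) * h)) +
        M * (∫ x, nrm ((1 / h) • two S.I (S.w h x) - S.J * lam S.J (S.Θ x)) ∂S.μ) +
        C * (√(∫ x, S.c j x ^ 2 ∂S.μ) * √S.V)) := by
    rw [abs_mul, abs_of_pos (by positivity : (0 : ℝ) < 2 / h)]
    have h1 : 2 / h * |∫ x, S.χ j x * Q S.I (S.w h x - S.I) (S.A x) ∂S.μ| ≤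
        2 / h * (C * ∫ x, S.c j x * √(vsq (S.ζ x)) * nrm (S.w h x - S.I) ∂S.μ) :=
      mul_le_mul_of_nonneg_left b3 (by positivity)
    have h2 : 2 / h * (C * ∫ x, S.c j x * √(vsq (S.ζ x)) * nrm (S.w h x - S.I) ∂S.μ) =
        2 * C * (1 / h * ∫ x, S.c j x * √(vsq (S.ζ x)) * nrm (S.w h x - S.I) ∂S.μ) := by
      field_simp
    have h3 := mul_le_mul_of_nonneg_left b2 (by positivity : (0 : ℝ) ≤ 2 * C)
    refine h1.trans (h2.le.trans (h3.trans (le_of_eq ?_)))
    ring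
  have b5 := abs_sub (∫ x, S.χ j x * ip ((1 / h) • two S.I (S.w h x) - S.J * lam S.J (S.Θ x))
      (two S.I (S.A x)) ∂S.μ) (2 / h * ∫ x, S.χ j x * Q S.I (S.w h x - S.I) (S.A x) ∂S.μ)
  linarith

theorem cross (hF : S.Facts C h0) : ∃ D : ℝ, 0 ≤ D ∧ ∀ j, ∀ ε > 0, ∀ᶠ h in 𝓝[>] (0 : ℝ),
    |∫ x, S.χ j x * ip ((1 / h) • (S.H h x - 1)) (her S.I (S.A x)) ∂S.μ
      - ∫ x, S.χ j x * ip (S.J * lam S.J (S.Θ x)) (two S.I (S.A x)) ∂S.μ| ≤
      D * Real.sqrt (∫ x, S.c j x ^ 2 ∂S.μ) + ε := by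
  have hC := hF.C_nonneg
  have hV : 0 ≤ S.V := measureReal_nonneg
  refine ⟨2 * C ^ 2 * (√(6 * C ^ 2 * S.V) + C * √S.V), by positivity, fun j ε hε => ?_⟩
  obtain ⟨M', hM'⟩ := hF.c_bdd j
  obtain ⟨B', hB'⟩ := hF.supp_A j
  set M := max M' 0 with hMd
  set B := max B' 0 with hBd
  have hM : ∀ x, S.c j x ≤ M := fun x => (hM' x).trans (le_max_left _ _)
  have hB : ∀ x, S.χ j x ≠ 0 → nrm (S.A x) ≤ B := fun x hx => (hB' x hx).trans (le_max_left _ _)
  have hM0 : 0 ≤ M := le_max_right _ _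
  have hB0 : 0 ≤ B := le_max_right _ _
  have hid : Tendsto (fun h : ℝ => h) (𝓝[>] 0) (𝓝 0) := nhdsWithin_le_nhds
  have t0 := two_lim hF
  have t1 : Tendsto (fun h : ℝ => √(M ^ 2 * (6 * C * S.V) * h)) (𝓝[>] 0) (𝓝 0) := by
    have h1 : Tendsto (fun h : ℝ => M ^ 2 * (6 * C * S.V) * h) (𝓝[>] 0) (𝓝 0) := by
      simpa using hid.const_mul (M ^ 2 * (6 * C * S.V))
    have h2 := (Real.continuous_sqrt.tendsto 0).comp h1
    rw [Real.sqrt_zero] at h2
    exact h2
  have t2 : Tendsto (fun h : ℝ => 2 * C ^ 2 * (√(6 * C ^ 2 * S.V) * √(M ^ 2 * (6 * C * S.V) * h) +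
      M * (∫ x, nrm ((1 / h) • two S.I (S.w h x) - S.J * lam S.J (S.Θ x)) ∂S.μ)) +
      B * ∫ x, nrm ((1 / h) • two S.I (S.w h x) - S.J * lam S.J (S.Θ x)) ∂S.μ)
      (𝓝[>] 0) (𝓝 0) := by
    have h1 := (((t1.const_mul (√(6 * C ^ 2 * S.V))).add (t0.const_mul M)).const_mul
      (2 * C ^ 2)).add (t0.const_mul B)
    simpa using h1
  filter_upwards [Ioc_mem_nhdsGT hF.h0_pos, t2.eventually_lt_const hε] with h hh hlt
  refine (cross_h hF hh j hM hM0 hB0 hB).trans ?_
  nlinarith [hlt]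

end Pool.Agent.SYR.Slice
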