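import Mathlib

/-!
# SYR/Defs : pointwise algebra of hyperkähler triples

Matrices are bilinear forms `α` on the tangent space in a frame `(e_i)` which is orthonormal and
adapted to a hyperkähler structure `(I, J, K)`; the matrix of `α` is `(α(e_j, e_i))_ij`.
-/

set_option autoImplicit false

open Matrix

namespace Pool.Agent.SYR

variable {ι : Type} [Fintype ι] [DecidableEq ι]

/-- Frobenius product. -/
def ip (A B : Matrix ι ι ℝ) : ℝ := ∑ i, ∑ j, A i j * B i j

/-- square of the Frobenius norm -/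
def nsq (A : Matrix ι ι ℝ) : ℝ := ip A A

/-- Frobenius norm -/
noncomputable def nrm (A : Matrix ι ι ℝ) : ℝ := Real.sqrt (nsq A)

/-- square of the norm of a vector -/
def vsq (v : ι → ℝ) : ℝ := ∑ i, v i ^ 2

/-- `I, J, K` are the three complex structures of a hyperkähler vector space, in an orthonormal
basis. -/
structure Quat (I J K : Matrix ι ι ℝ) : Prop where
  It : Iᵀ = -I
  Jt : Jᵀ = -J
  Kt : Kᵀ = -K
  II : I * I = -1
  JJ : J * J = -1
  KK : K * K = -1
  IJ : I * J = K
  JI : J * I = -K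
  JK : J * K = I
  KJ : K * J = -I
  KI : K * I = J
  IK : I * K = -J

/-- the hermitian form of the `(1,1)`-part of the `2`-form `A` -/
noncomputable def her (I A : Matrix ι ι ℝ) : Matrix ι ι ℝ := (-(1 / 2) : ℝ) • (A * I + I * A)

/-- the `(2,0) + (0,2)`-part of the `2`-form `A` -/
noncomputable def two (I A : Matrix ι ι ℝ) : Matrix ι ι ℝ := (1 / 2 : ℝ) • (A + I * A * I)

/-- the part of a `(1,1)`-form which anticommutes with `J` -/
noncomputable def lam (J A : Matrix ι ι ℝ) : Matrix ι ι ℝ := (1 / 2 : ℝ) • (A + J * A * J)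

/-- `A ∧ B ∧ ω^(n-2) / (n-2)!` divided by the volume form `ω^n / n!` (`2n` the real dimension) -/
noncomputable def Q (I A B : Matrix ι ι ℝ) : ℝ :=
  1 / 4 * (ip I A * ip I B) - 1 / 2 * ip (her I A) (her I B) + 1 / 2 * ip (two I A) (two I B)

/-- `tr H - N - log det H` -/
noncomputable def Phi (H : Matrix ι ι ℝ) : ℝ := H.trace - Fintype.card ι - Real.log H.det

/-- `(Pᵀ I P, J, K + τ)` is a hyperkähler triple, with frame `P`. -/
structure Tri (J K P τ : Matrix ι ι ℝ) : Prop where
  inv : IsUnit P.det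
  symp : Pᵀ * J * P = J
  tau : Pᵀ * K * P = K + τ

/-- the metric of the triple with frame `P` -/
def gm (P : Matrix ι ι ℝ) : Matrix ι ι ℝ := Pᵀ * P

/-- the first form of the triple with frame `P` -/
def om (I P : Matrix ι ι ℝ) : Matrix ι ι ℝ := Pᵀ * I * P

/-- the form `τ` in the frame `P` -/
noncomputable def Sm (P τ : Matrix ι ι ℝ) : Matrix ι ι ℝ := (P⁻¹)ᵀ * τ * P⁻¹

/-- the symmetric part of `I J S` -/
noncomputable def Ym (I J P τ : Matrix ι ι ℝ) : Matrix ι ι ℝ :=
  (1 / 2 : ℝ) • (I * (J * Sm P τ) + (I * (J * Sm P τ))ᵀ)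

end Pool.Agent.SYR
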