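import Pool.Agent.SYR.Trace

/-!
# SYR/Energy : the deficit `∫ Phi (H_h)`

`Phi H = tr H - N - log det H`, `∫ tr H_h = N cos h V`, and `log det H_h` is given up to `O(h³)` by
`Tri.log_det_exp`; `|τ| ≤ 2 C h`, `|S| ≤ C h ≤ 1/2`. For the limit use dominated convergence along
`𝓝[>] 0`: `nsq (Sm) / h² = tr (g⁻¹ (τ/h)ᵀ g⁻¹ (τ/h)) → nsq Θ` since `g → 1` (`Tri.nsq_Sm`, `cont`), and
`quad_eq`.
-/

set_option autoImplicit false
set_option linter.unusedSectionVars false

open Matrix MeasureTheory Filter Topology Set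

namespace Pool.Agent.SYR.Slice

variable {ι : Type} [Fintype ι] [DecidableEq ι] {S : Slice ι} {C h0 : ℝ}

/-! ### measurability of matrices -/

/-- a matrix of measurable functions -/
private def ME {X : Type} [MeasurableSpace X] (F : X → Matrix ι ι ℝ) : Prop :=
  ∀ i j, Measurable (fun x => F x i j)

private theorem ME.mul {X : Type} [MeasurableSpace X] {F G : X → Matrix ι ι ℝ}
    (hF : ME F) (hG : ME G) : ME (fun x => F x * G x) := by
  intro i j
  simp only [Matrix.mul_apply]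
  exact Finset.measurable_sum _ fun k _ => (hF i k).mul (hG k j)

private theorem ME.add {X : Type} [MeasurableSpace X] {F G : X → Matrix ι ι ℝ}
    (hF : ME F) (hG : ME G) : ME (fun x => F x + G x) := by
  intro i j
  simp only [Matrix.add_apply]
  exact (hF i j).add (hG i j)

private theorem ME.sub {X : Type} [MeasurableSpace X] {F G : X → Matrix ι ι ℝ}
    (hF : ME F) (hG : ME G) : ME (fun x => F x - G x) := by
  intro i j
  simp only [Matrix.sub_apply]
  exact (hF i j).sub (hG i j)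

private theorem ME.smul {X : Type} [MeasurableSpace X] {F : X → Matrix ι ι ℝ} (c : ℝ)
    (hF : ME F) : ME (fun x => c • F x) := by
  intro i j
  simp only [Matrix.smul_apply, smul_eq_mul]
  exact (hF i j).const_mul c

private theorem ME.const {X : Type} [MeasurableSpace X] (A : Matrix ι ι ℝ) :
    ME (fun _ : X => A) := by
  intro i j
  exact measurable_const

private theorem ME.transpose {X : Type} [MeasurableSpace X] {F : X → Matrix ι ι ℝ}
    (hF : ME F) : ME (fun x => (F x)ᵀ) := by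
  intro i j
  simp only [Matrix.transpose_apply]
  exact hF j i

private theorem ME.nrm {X : Type} [MeasurableSpace X] {F : X → Matrix ι ι ℝ}
    (hF : ME F) : Measurable (fun x => SYR.nrm (F x)) := by
  unfold SYR.nrm SYR.nsq SYR.ip
  refine Measurable.sqrt ?_
  exact Finset.measurable_sum _ fun i _ => Finset.measurable_sum _ fun j _ =>
    (hF i j).mul (hF i j)

private theorem ME.det {X : Type} [MeasurableSpace X] {F : X → Matrix ι ι ℝ}
    (hF : ME F) : Measurable (fun x => (F x).det) := by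
  simp only [Matrix.det_apply']
  exact Finset.measurable_sum _ fun σ _ =>
    (Finset.measurable_prod _ fun k _ => hF (σ k) k).const_mul _

private theorem ME.her {X : Type} [MeasurableSpace X] {F : X → Matrix ι ι ℝ} (I : Matrix ι ι ℝ)
    (hF : ME F) : ME (fun x => her I (F x)) := by
  unfold SYR.her
  exact ((hF.mul (ME.const I)).add ((ME.const I).mul hF)).smul _

private theorem g_measE (hF : S.Facts C h0) (h : ℝ) : ME (S.g h) := by
  have hP : ME (S.P h) := hF.P_meas h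
  exact hP.transpose.mul hP

private theorem H_measE (hF : S.Facts C h0) (h : ℝ) : ME (S.H h) := by
  have hP : ME (S.P h) := hF.P_meas h
  exact ME.her S.I ((hP.transpose.mul (ME.const S.I)).mul hP)

/-! ### Cauchy-Schwarz -/

private theorem int_sqrt_sq {X : Type} [MeasurableSpace X] {μ : Measure X} [IsFiniteMeasure μ]
    {f : X → ℝ} (h0 : ∀ x, 0 ≤ f x) (hf : Integrable f μ)
    (hs : Integrable (fun x => √(f x)) μ) :
    (∫ x, √(f x) ∂μ) ^ 2 ≤ μ.real univ * ∫ x, f x ∂μ := by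
  have key : ∀ a : ℝ, 0 ≤ μ.real univ * (a * a) + (-(2 * ∫ x, √(f x) ∂μ)) * a + ∫ x, f x ∂μ := by
    intro a
    have h1 : 0 ≤ ∫ x, (f x - 2 * a * √(f x) + a * a) ∂μ := by
      refine integral_nonneg fun x => ?_
      have h2 := Real.sq_sqrt (h0 x)
      have : f x - 2 * a * √(f x) + a * a = (√(f x) - a) ^ 2 := by
        linear_combination -h2
      rw [this]; positivity
    have h3 : Integrable (fun x => 2 * a * √(f x)) μ := hs.const_mul _
    have h4 : Integrable (fun x => f x - 2 * a * √(f x)) μ := hf.sub h3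
    rw [integral_add h4 (integrable_const _), integral_sub hf h3, integral_const_mul,
      integral_const, smul_eq_mul] at h1
    linarith
  have := discrim_le_zero key
  unfold discrim at this
  nlinarith [this]

theorem nrm_τ_le (hF : S.Facts C h0) {h : ℝ} (hh : h ∈ Ioc 0 h0) (x : S.M) :
    nrm ((1 / h) • S.τ h x) ≤ 2 * C ∧ nrm (S.τ h x) ≤ 2 * C * h := by
  have hC := hF.C_nonneg
  have hh0 : 0 < h := hh.1
  have hh1 : h ≤ 1 := hh.2.trans hF.h0_le
  have h1 : nrm ((1 / h) • S.τ h x) ≤ 2 * C := by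
    have e : (1 / h) • S.τ h x = ((1 / h) • S.τ h x - S.Θ x) + S.Θ x := by abel
    rw [e]
    refine nrm_add_le.trans ?_
    have h2 := hF.τ_lin h hh x
    have h3 := hF.Θ_bdd x
    have h4 : C * h ≤ C := by nlinarith
    linarith
  refine ⟨h1, ?_⟩
  rw [nrm_smul, abs_of_pos (by positivity)] at h1
  rw [one_div, inv_mul_le_iff₀ hh0] at h1
  linarith

private theorem S_le (hF : S.Facts C h0) {h : ℝ} (hh : h ∈ Ioc 0 h0) (x : S.M) :
    nrm (Sm (S.P h x) (S.τ h x)) ≤ 1 / 2 := by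
  have h1 := hF.S_bdd h hh x
  have h2 := hF.small
  have h3 : C * h ≤ C * h0 := mul_le_mul_of_nonneg_left hh.2 hF.C_nonneg
  linarith

theorem H_posDef (hF : S.Facts C h0) {h : ℝ} (hh : h ∈ Ioc 0 h0) (x : S.M) :
    (S.H h x).PosDef :=
  Tri.posDef hF.quat (hF.tri h hh x) (S_le hF hh x)

private theorem logdet_abs (hF : S.Facts C h0) {h : ℝ} (hh : h ∈ Ioc 0 h0) (x : S.M) :
    |Real.log (S.H h x).det| ≤ 3 * C ^ 2 * h ^ 2 := by
  have h1 : |Real.log (S.H h x).det| ≤ 1 / 2 * nrm (S.τ h x) ^ 2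
      + nrm (Sm (S.P h x) (S.τ h x)) ^ 2 :=
    Tri.log_det_abs hF.quat (hF.tri h hh x) (S_le hF hh x)
  have h2 := (nrm_τ_le hF hh x).2
  have h3 := hF.S_bdd h hh x
  have h4 : nrm (S.τ h x) ^ 2 ≤ (2 * C * h) ^ 2 := pow_le_pow_left₀ nrm_nonneg h2 2
  have h5 : nrm (Sm (S.P h x) (S.τ h x)) ^ 2 ≤ (C * h) ^ 2 := pow_le_pow_left₀ nrm_nonneg h3 2
  nlinarith

private theorem logdet_int (hF : S.Facts C h0) {h : ℝ} (hh : h ∈ Ioc 0 h0) :
    Integrable (fun x => Real.log (S.H h x).det) S.μ := by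
  have := hF.fin
  refine (integrable_const (3 * C ^ 2 * h ^ 2)).mono'
    ((ME.det (H_measE hF h)).log.aestronglyMeasurable) (ae_of_all _ fun x => ?_)
  rw [Real.norm_eq_abs]
  exact logdet_abs hF hh x

private theorem phi_eq (hF : S.Facts C h0) {h : ℝ} (hh : h ∈ Ioc 0 h0) :
    Integrable (fun x => Phi (S.H h x)) S.μ ∧
      ∫ x, Phi (S.H h x) ∂S.μ = Fintype.card ι * (Real.cos h - 1) * S.V
        + ∫ x, -Real.log (S.H h x).det ∂S.μ := by
  have := hF.fin
  obtain ⟨i1, e1⟩ := trace_int hF hh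
  have i2 : Integrable (fun _ : S.M => (Fintype.card ι : ℝ)) S.μ := integrable_const _
  have i3 := logdet_int hF hh
  have i4 : Integrable (fun x => (S.H h x).trace - Fintype.card ι) S.μ := i1.sub i2
  refine ⟨i4.sub i3, ?_⟩
  unfold Phi
  rw [integral_sub i4 i3, integral_sub i1 i2, e1, integral_neg, integral_const, smul_eq_mul]
  unfold Slice.V
  ring

theorem phi_int (hF : S.Facts C h0) {h : ℝ} (hh : h ∈ Ioc 0 h0) :
    Integrable (fun x => Phi (S.H h x)) S.μ ∧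
      ∫ x, Phi (S.H h x) ∂S.μ ≤ 3 * C ^ 2 * S.V * h ^ 2 := by
  have := hF.fin
  obtain ⟨i1, e1⟩ := phi_eq hF hh
  refine ⟨i1, ?_⟩
  have hV : 0 ≤ S.V := measureReal_nonneg
  have h1 : ∫ x, -Real.log (S.H h x).det ∂S.μ ≤ ∫ _x : S.M, 3 * C ^ 2 * h ^ 2 ∂S.μ := by
    refine integral_mono (logdet_int hF hh).neg (integrable_const _) fun x => ?_
    exact (neg_le_abs _).trans (logdet_abs hF hh x)
  rw [integral_const, smul_eq_mul] at h1
  have h2 : (Fintype.card ι : ℝ) * (Real.cos h - 1) * S.V ≤ 0 := by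
    have h3 : Real.cos h - 1 ≤ 0 := by linarith [Real.cos_le_one h]
    have h4 : (0 : ℝ) ≤ Fintype.card ι * S.V := by positivity
    nlinarith
  have h5 : S.μ.real univ * (3 * C ^ 2 * h ^ 2) = 3 * C ^ 2 * S.V * h ^ 2 := by
    unfold Slice.V; ring
  linarith

theorem H_sub (hF : S.Facts C h0) {h : ℝ} (hh : h ∈ Ioc 0 h0) :
    Integrable (fun x => nrm (S.H h x - 1)) S.μ ∧
      ∫ x, nrm (S.H h x - 1) ∂S.μ ≤ 6 * C * S.V * h := by
  have := hF.fin
  have hV : 0 ≤ S.V := measureReal_nonneg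
  have hC := hF.C_nonneg
  have hh0 : 0 < h := hh.1
  obtain ⟨i1, e1⟩ := phi_int hF hh
  have hm : Measurable (fun x => nrm (S.H h x - 1)) := ((H_measE hF h).sub (ME.const 1)).nrm
  have i2 : Integrable (fun x => 2 * Phi (S.H h x)) S.μ := i1.const_mul _
  have p0 : ∀ x, 0 ≤ 2 * Phi (S.H h x) := fun x => by
    have := Phi_nonneg _ (H_posDef hF hh x); linarith
  have i3 : Integrable (fun x => √(2 * Phi (S.H h x))) S.μ := by
    refine (i2.add (integrable_const (1 : ℝ))).mono' ?_ (ae_of_all _ fun x => ?_)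
    · exact (Real.continuous_sqrt.comp_aestronglyMeasurable i2.aestronglyMeasurable)
    · rw [Real.norm_of_nonneg (Real.sqrt_nonneg _)]
      have h1 := Real.sq_sqrt (p0 x)
      have h2 := Real.sqrt_nonneg (2 * Phi (S.H h x))
      simp only [Pi.add_apply]
      nlinarith [sq_nonneg (√(2 * Phi (S.H h x)) - 1)]
  have i4 : Integrable (fun x => 2 * Phi (S.H h x) + √(2 * Phi (S.H h x))) S.μ := i2.add i3
  have hle : ∀ x, nrm (S.H h x - 1) ≤ 2 * Phi (S.H h x) + √(2 * Phi (S.H h x)) :=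
    fun x => nrm_sub_one_le _ (H_posDef hF hh x)
  have i5 : Integrable (fun x => nrm (S.H h x - 1)) S.μ := by
    refine i4.mono' hm.aestronglyMeasurable (ae_of_all _ fun x => ?_)
    rw [Real.norm_of_nonneg nrm_nonneg]
    exact hle x
  refine ⟨i5, ?_⟩
  have h1 := integral_mono i5 i4 hle
  rw [integral_add i2 i3, integral_const_mul] at h1
  have h2 := int_sqrt_sq p0 i2 i3
  rw [integral_const_mul] at h2
  have h2' : (∫ x, √(2 * Phi (S.H h x)) ∂S.μ) ^ 2 ≤ S.V * (2 * ∫ x, Phi (S.H h x) ∂S.μ) := h2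
  have h3 : (∫ x, √(2 * Phi (S.H h x)) ∂S.μ) ≤ 3 * C * S.V * h := by
    refine le_of_sq_le_sq ?_ (by positivity)
    calc (∫ x, √(2 * Phi (S.H h x)) ∂S.μ) ^ 2 ≤ S.V * (2 * ∫ x, Phi (S.H h x) ∂S.μ) := h2'
      _ ≤ S.V * (2 * (3 * C ^ 2 * S.V * h ^ 2)) := by gcongr
      _ ≤ (3 * C * S.V * h) ^ 2 := by
        have : 0 ≤ (C * S.V * h) ^ 2 := by positivity
        nlinarith
  have h4 : C * h ≤ 1 / 2 :=
    (mul_le_mul_of_nonneg_left hh.2 hC).trans hF.small
  have h5 : 2 * (3 * C ^ 2 * S.V * h ^ 2) ≤ 3 * C * S.V * h := by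
    have : 0 ≤ 6 * (C * S.V * h) := by positivity
    nlinarith
  linarith
where
  le_of_sq_le_sq {a b : ℝ} (h : a ^ 2 ≤ b ^ 2) (hb : 0 ≤ b) : a ≤ b := by
    nlinarith [abs_le_of_sq_le_sq h hb, le_abs_self a]

theorem g_sub (hF : S.Facts C h0) {h : ℝ} (hh : h ∈ Ioc 0 h0) :
    Integrable (fun x => nrm (S.g h x - 1)) S.μ ∧
      ∫ x, nrm (S.g h x - 1) ∂S.μ ≤ (6 + 2 * Fintype.card ι) * C * S.V * h := by
  have := hF.fin
  have hV : 0 ≤ S.V := measureReal_nonneg
  have hC := hF.C_nonneg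
  have hh0 : 0 < h := hh.1
  obtain ⟨i1, e1⟩ := H_sub hF hh
  obtain ⟨i2, e2⟩ := trace_g hF hh
  have hm : Measurable (fun x => nrm (S.g h x - 1)) := ((g_measE hF h).sub (ME.const 1)).nrm
  have i3 : Integrable (fun x => C * h * (S.g h x).trace) S.μ := i2.const_mul _
  have i4 : Integrable (fun x => nrm (S.H h x - 1) + C * h * (S.g h x).trace) S.μ := i1.add i3
  have hle : ∀ x, nrm (S.g h x - 1) ≤ nrm (S.H h x - 1) + C * h * (S.g h x).trace := by
    intro x
    have e : S.g h x - 1 = (S.H h x - 1) - (S.H h x - S.g h x) := by abel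
    rw [e]
    refine nrm_sub_le.trans ?_
    have h1 : nrm (S.H h x - S.g h x) ≤ nrm (Sm (S.P h x) (S.τ h x)) * (gm (S.P h x)).trace :=
      Tri.her_sub_gm hF.quat (hF.tri h hh x)
    have h2 := hF.S_bdd h hh x
    have h3 : 0 ≤ (gm (S.P h x)).trace := by rw [trace_gm]; exact nsq_nonneg
    have h4 := mul_le_mul_of_nonneg_right h2 h3
    have h5 : (S.g h x).trace = (gm (S.P h x)).trace := rfl
    rw [h5]
    linarith
  have i5 : Integrable (fun x => nrm (S.g h x - 1)) S.μ := by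
    refine i4.mono' hm.aestronglyMeasurable (ae_of_all _ fun x => ?_)
    rw [Real.norm_of_nonneg nrm_nonneg]
    exact hle x
  refine ⟨i5, ?_⟩
  have h1 := integral_mono i5 i4 hle
  rw [integral_add i1 i3, integral_const_mul] at h1
  have h2 : C * h * ∫ x, (S.g h x).trace ∂S.μ ≤ C * h * (2 * Fintype.card ι * S.V) := by gcongr
  have h3 : (6 + 2 * (Fintype.card ι : ℝ)) * C * S.V * h
      = 6 * C * S.V * h + C * h * (2 * Fintype.card ι * S.V) := by ring
  rw [h3]; linarith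

/-! ### the limit -/

private theorem tau_lim (hF : S.Facts C h0) (x : S.M) :
    Tendsto (fun h => (1 / h) • S.τ h x) (𝓝[>] 0) (𝓝 (S.Θ x)) := by
  refine tendsto_pi_nhds.2 fun i => tendsto_pi_nhds.2 fun j => ?_
  rw [tendsto_iff_dist_tendsto_zero]
  have hl : Tendsto (fun h : ℝ => C * h) (𝓝[>] 0) (𝓝 0) := by
    have : Tendsto (fun h : ℝ => C * h) (𝓝[>] 0) (𝓝 (C * 0)) :=
      ((continuous_const.mul continuous_id).tendsto 0).mono_left nhdsWithin_le_nhds
    simpa using this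
  refine squeeze_zero' (Eventually.of_forall fun h => dist_nonneg) ?_ hl
  filter_upwards [Ioc_mem_nhdsGT hF.h0_pos] with h hh
  rw [Real.dist_eq]
  have := abs_apply_le (A := (1 / h) • S.τ h x - S.Θ x) i j
  rw [Matrix.sub_apply] at this
  exact this.trans (hF.τ_lin h hh x)

private theorem ginv_lim (hF : S.Facts C h0) (x : S.M) :
    Tendsto (fun h => (S.g h x)⁻¹) (𝓝[>] 0) (𝓝 1) := by
  have h1 : Tendsto (fun h => (S.g h x).adjugate) (𝓝[>] 0) (𝓝 (1 : Matrix ι ι ℝ).adjugate) := by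
    have hc : Continuous (fun A : Matrix ι ι ℝ => A.adjugate) :=
      Continuous.matrix_adjugate continuous_id
    exact (hc.tendsto 1).comp (hF.cont x)
  rw [Matrix.adjugate_one] at h1
  refine h1.congr' ?_
  filter_upwards [Ioc_mem_nhdsGT hF.h0_pos] with h hh
  have hd : (S.g h x).det = 1 := Tri.det_gm hF.quat (hF.tri h hh x)
  rw [Matrix.inv_def, hd, Ring.inverse_one, one_smul]

private theorem point_lim (hF : S.Facts C h0) (x : S.M) :
    Tendsto (fun h => -Real.log (S.H h x).det / h ^ 2) (𝓝[>] 0)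
      (𝓝 (1 / 2 * nsq (lam S.J (S.Θ x)))) := by
  have hq := hF.quat
  have t1 := tau_lim hF x
  have t2 := ginv_lim hF x
  have hid : Tendsto (fun h : ℝ => h) (𝓝[>] 0) (𝓝 0) := nhdsWithin_le_nhds
  -- the three terms
  have a0 : Tendsto (fun h => S.J * ((1 / h) • S.τ h x)) (𝓝[>] 0) (𝓝 (S.J * S.Θ x)) :=
    tendsto_const_nhds.mul t1
  have a1 : Tendsto (fun h => ((S.J * ((1 / h) • S.τ h x)) * (S.J * ((1 / h) • S.τ h x))).trace)
      (𝓝[>] 0) (𝓝 (((S.J * S.Θ x) * (S.J * S.Θ x)).trace)) :=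
    ((continuous_id.matrix_trace).tendsto _).comp (a0.mul a0)
  have a2' : Tendsto (fun h : ℝ => S.I + h • (S.J * ((1 / h) • S.τ h x))) (𝓝[>] 0) (𝓝 S.I) := by
    have : Tendsto (fun h : ℝ => S.I + h • (S.J * ((1 / h) • S.τ h x))) (𝓝[>] 0)
        (𝓝 (S.I + (0 : ℝ) • (S.J * S.Θ x))) := tendsto_const_nhds.add (hid.smul a0)
    simpa using this
  have a2 : Tendsto (fun h => (((S.I + h • (S.J * ((1 / h) • S.τ h x))) *
      (S.J * ((1 / h) • S.τ h x))) * ((S.I + h • (S.J * ((1 / h) • S.τ h x))) *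
      (S.J * ((1 / h) • S.τ h x)))).trace) (𝓝[>] 0)
      (𝓝 (((S.I * (S.J * S.Θ x)) * (S.I * (S.J * S.Θ x))).trace)) :=
    ((continuous_id.matrix_trace).tendsto _).comp ((a2'.mul a0).mul (a2'.mul a0))
  have tT : Tendsto (fun h => ((1 / h) • S.τ h x)ᵀ) (𝓝[>] 0) (𝓝 (S.Θ x)ᵀ) :=
    ((continuous_id.matrix_transpose).tendsto _).comp t1
  have a3 : Tendsto (fun h => ((S.g h x)⁻¹ * ((1 / h) • S.τ h x)ᵀ * (S.g h x)⁻¹ *
      ((1 / h) • S.τ h x)).trace) (𝓝[>] 0) (𝓝 ((1 * (S.Θ x)ᵀ * 1 * S.Θ x).trace)) :=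
    ((continuous_id.matrix_trace).tendsto _).comp (((t2.mul tT).mul t2).mul t1)
  have lim1 : Tendsto (fun h => 1 / 4 * ((((S.I + h • (S.J * ((1 / h) • S.τ h x))) *
      (S.J * ((1 / h) • S.τ h x))) * ((S.I + h • (S.J * ((1 / h) • S.τ h x))) *
      (S.J * ((1 / h) • S.τ h x)))).trace + ((S.g h x)⁻¹ * ((1 / h) • S.τ h x)ᵀ * (S.g h x)⁻¹ *
      ((1 / h) • S.τ h x)).trace) - 1 / 2 * ((S.J * ((1 / h) • S.τ h x)) *
        (S.J * ((1 / h) • S.τ h x))).trace) (𝓝[>] 0)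
      (𝓝 (1 / 2 * nsq (lam S.J (S.Θ x)))) := by
    have e := quad_eq hq (Lie.T_skew hq (hF.lie x)) (Lie.T_comm hq (hF.lie x))
    rw [← e]
    have e2 : S.I * (S.J * S.Θ x) = S.K * S.Θ x := by rw [← Matrix.mul_assoc, hq.IJ]
    have e3 : (1 * (S.Θ x)ᵀ * 1 * S.Θ x).trace = nsq (S.Θ x) := by
      rw [Matrix.one_mul, Matrix.mul_one, nsq, ip_eq_trace]
    rw [← e2, ← e3]
    exact ((a2.add a3).const_mul _).sub (a1.const_mul _)
  -- the error
  have lim2 : Tendsto (fun h : ℝ => C ^ 3 * h) (𝓝[>] 0) (𝓝 0) := by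
    have : Tendsto (fun h : ℝ => C ^ 3 * h) (𝓝[>] 0) (𝓝 (C ^ 3 * 0)) := hid.const_mul _
    simpa using this
  have key : Tendsto (fun h => -Real.log (S.H h x).det / h ^ 2 -
      (1 / 4 * ((((S.I + h • (S.J * ((1 / h) • S.τ h x))) *
      (S.J * ((1 / h) • S.τ h x))) * ((S.I + h • (S.J * ((1 / h) • S.τ h x))) *
      (S.J * ((1 / h) • S.τ h x)))).trace + ((S.g h x)⁻¹ * ((1 / h) • S.τ h x)ᵀ * (S.g h x)⁻¹ *
      ((1 / h) • S.τ h x)).trace) - 1 / 2 * ((S.J * ((1 / h) • S.τ h x)) *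
        (S.J * ((1 / h) • S.τ h x))).trace)) (𝓝[>] 0) (𝓝 0) := by
    refine squeeze_zero_norm' ?_ lim2
    filter_upwards [Ioc_mem_nhdsGT hF.h0_pos] with h hh
    have hh0 : 0 < h := hh.1
    have hne : h ≠ 0 := hh0.ne'
    have b1 : |Real.log (S.H h x).det - (1 / 2 * ((S.J * S.τ h x) * (S.J * S.τ h x)).trace
      - 1 / 4 * ((((S.I + S.J * S.τ h x) * (S.J * S.τ h x)) * ((S.I + S.J * S.τ h x) *
        (S.J * S.τ h x))).trace + nsq (Sm (S.P h x) (S.τ h x))))|
      ≤ nrm (Sm (S.P h x) (S.τ h x)) ^ 3 :=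
      Tri.log_det_exp hq (hF.tri h hh x) (S_le hF hh x)
    have b2 : nrm (Sm (S.P h x) (S.τ h x)) ^ 3 ≤ (C * h) ^ 3 :=
      pow_le_pow_left₀ nrm_nonneg (hF.S_bdd h hh x) 3
    have c0 : h • (S.J * ((1 / h) • S.τ h x)) = S.J * S.τ h x := by
      rw [Matrix.mul_smul, smul_smul, mul_one_div_cancel hne, one_smul]
    have c1 : S.J * ((1 / h) • S.τ h x) = (1 / h) • (S.J * S.τ h x) := Matrix.mul_smul _ _ _
    have c2 : ((S.g h x)⁻¹ * ((1 / h) • S.τ h x)ᵀ * (S.g h x)⁻¹ *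
      ((1 / h) • S.τ h x)).trace = (1 / h ^ 2) * nsq (Sm (S.P h x) (S.τ h x)) := by
      rw [Tri.nsq_Sm hq (hF.tri h hh x)]
      simp only [transpose_smul, Matrix.mul_smul, Matrix.smul_mul, smul_smul, trace_smul,
        smul_eq_mul]
      have : 1 / h * (1 / h) = 1 / h ^ 2 := by field_simp
      rw [this]; rfl
    have c3 : ((S.J * ((1 / h) • S.τ h x)) * (S.J * ((1 / h) • S.τ h x))).trace
        = (1 / h ^ 2) * ((S.J * S.τ h x) * (S.J * S.τ h x)).trace := by
      rw [c1, Matrix.smul_mul, Matrix.mul_smul, smul_smul, trace_smul, smul_eq_mul]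
      have : 1 / h * (1 / h) = 1 / h ^ 2 := by field_simp
      rw [this]
    have c4 : (((S.I + h • (S.J * ((1 / h) • S.τ h x))) *
      (S.J * ((1 / h) • S.τ h x))) * ((S.I + h • (S.J * ((1 / h) • S.τ h x))) *
      (S.J * ((1 / h) • S.τ h x)))).trace = (1 / h ^ 2) * (((S.I + S.J * S.τ h x) *
        (S.J * S.τ h x)) * ((S.I + S.J * S.τ h x) * (S.J * S.τ h x))).trace := by
      rw [c0, c1, Matrix.mul_smul, Matrix.smul_mul, Matrix.mul_smul, smul_smul, trace_smul,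
        smul_eq_mul]
      have : 1 / h * (1 / h) = 1 / h ^ 2 := by field_simp
      rw [this]
    rw [c2, c3, c4]
    generalize ((S.J * S.τ h x) * (S.J * S.τ h x)).trace = u at *
    generalize (((S.I + S.J * S.τ h x) * (S.J * S.τ h x)) * ((S.I + S.J * S.τ h x) *
      (S.J * S.τ h x))).trace = v at *
    generalize nsq (Sm (S.P h x) (S.τ h x)) = s at *
    generalize Real.log (S.H h x).det = L at *
    have d1 : -L / h ^ 2 - (1 / 4 * (1 / h ^ 2 * v + 1 / h ^ 2 * s) - 1 / 2 * (1 / h ^ 2 * u))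
        = -(L - (1 / 2 * u - 1 / 4 * (v + s))) / h ^ 2 := by
      field_simp
      ring
    rw [d1, Real.norm_eq_abs, abs_div, abs_neg, abs_of_pos (by positivity : (0:ℝ) < h ^ 2),
      div_le_iff₀ (by positivity)]
    calc |L - (1 / 2 * u - 1 / 4 * (v + s))| ≤ (C * h) ^ 3 := b1.trans b2
      _ = C ^ 3 * h * h ^ 2 := by ring
  have := key.add lim1
  simpa using this

theorem logdet_lim (hF : S.Facts C h0) :
    Tendsto (fun h => (∫ x, -Real.log (S.H h x).det ∂S.μ) / h ^ 2) (𝓝[>] 0)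
      (𝓝 (1 / 2 * ∫ x, nsq (lam S.J (S.Θ x)) ∂S.μ)) := by
  have := hF.fin
  rw [← integral_const_mul]
  have e : ∀ h : ℝ, (∫ x, -Real.log (S.H h x).det ∂S.μ) / h ^ 2
      = ∫ x, -Real.log (S.H h x).det / h ^ 2 ∂S.μ := fun h => by rw [integral_div]
  simp only [e]
  refine tendsto_integral_filter_of_dominated_convergence (fun _ => 3 * C ^ 2) ?_ ?_
    (integrable_const _) (ae_of_all _ fun x => point_lim hF x)
  · filter_upwards [Ioc_mem_nhdsGT hF.h0_pos] with h hh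
    exact ((logdet_int hF hh).neg.div_const _).aestronglyMeasurable
  · filter_upwards [Ioc_mem_nhdsGT hF.h0_pos] with h hh
    refine ae_of_all _ fun x => ?_
    have hh0 : 0 < h := hh.1
    rw [Real.norm_eq_abs, abs_div, abs_neg, abs_of_pos (by positivity : (0:ℝ) < h ^ 2),
      div_le_iff₀ (by positivity)]
    exact logdet_abs hF hh x

theorem phi_lim (hF : S.Facts C h0) :
    Tendsto (fun h => (∫ x, Phi (S.H h x) ∂S.μ) / h ^ 2) (𝓝[>] 0)
      (𝓝 (1 / 2 * (∫ x, nsq (lam S.J (S.Θ x)) ∂S.μ - Fintype.card ι * S.V))) := by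
  have hcos : Tendsto (fun h : ℝ => (Real.cos h - 1) / h ^ 2) (𝓝[>] 0) (𝓝 (-(1 / 2))) := by
    have hid : Tendsto (fun h : ℝ => h ^ 2 * (5 / 96)) (𝓝[>] 0) (𝓝 0) := by
      have : Tendsto (fun h : ℝ => h ^ 2 * (5 / 96)) (𝓝[>] 0) (𝓝 (0 ^ 2 * (5 / 96))) :=
        (((continuous_id.pow 2).mul continuous_const).tendsto 0).mono_left nhdsWithin_le_nhds
      simpa using this
    have key : Tendsto (fun h : ℝ => (Real.cos h - 1) / h ^ 2 - (-(1 / 2))) (𝓝[>] 0) (𝓝 0) := by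
      refine squeeze_zero_norm' ?_ hid
      filter_upwards [Ioc_mem_nhdsGT (zero_lt_one' ℝ)] with h hh
      have hh0 : 0 < h := hh.1
      have b := Real.cos_bound (x := h) (by rw [abs_of_pos hh0]; exact hh.2)
      rw [abs_of_pos hh0] at b
      have d1 : (Real.cos h - 1) / h ^ 2 - (-(1 / 2)) = (Real.cos h - (1 - h ^ 2 / 2)) / h ^ 2 := by
        field_simp
        ring
      rw [d1, Real.norm_eq_abs, abs_div, abs_of_pos (by positivity : (0:ℝ) < h ^ 2),
        div_le_iff₀ (by positivity)]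
      calc |Real.cos h - (1 - h ^ 2 / 2)| ≤ h ^ 4 * (5 / 96) := b
        _ = h ^ 2 * (5 / 96) * h ^ 2 := by ring
    have := key.add_const (-(1 / 2) : ℝ)
    simpa using this
  have h1 := ((hcos.const_mul (Fintype.card ι * S.V)).add (logdet_lim hF))
  have e : (1 / 2 * (∫ x, nsq (lam S.J (S.Θ x)) ∂S.μ - Fintype.card ι * S.V))
      = Fintype.card ι * S.V * -(1 / 2) + 1 / 2 * ∫ x, nsq (lam S.J (S.Θ x)) ∂S.μ := by ring
  rw [e]
  refine h1.congr' ?_
  filter_upwards [Ioc_mem_nhdsGT hF.h0_pos] with h hh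
  have hh0 : 0 < h := hh.1
  rw [(phi_eq hF hh).2]
  field_simp

end Pool.Agent.SYR.Slice
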