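import Pool.Agent.SYR.ArcRel

/-!
# SYR/R2 : the integrated form of the rotation, `ω_u = ω_0 - ∫ (A_s + Im σ_s) ds` almost everywhere

Fix `j`, entries `k l` and a measurable set `E ⊆ {χ_j ≠ 0}`. There `P_u, P_u⁻¹, A_u` are bounded
uniformly in `u` (`supp`), so `q u = ∫_E ω_u k l` has right derivative `-∫_E (A_u + B_u) k l` by
`ω_lim` (`ω = Pᵀ (hat ω) P`), and is Lipschitz (`ω_int`; for the left continuity use `u ≤ s` with the
frame of `g_u`, constants uniform). `intervalIntegral.integral_eq_sub_of_hasDeriv_right`, Fubini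
(`A_meas`, `P_meas`), `E` arbitrary: the identity holds almost everywhere on `{χ_j ≠ 0}`; union over
`j` (`χ_lim`).
-/

set_option autoImplicit false
set_option linter.unusedSectionVars false
set_option linter.style.haveILetI false

open Matrix MeasureTheory Filter Topology Set

namespace Pool.Agent.SYR.Arc

variable {ι : Type} [Fintype ι] [DecidableEq ι] {a : Arc ι} {C h0 : ℝ}

private def MM27 {X : Type} [MeasurableSpace X] (F : X → Matrix ι ι ℝ) : Prop :=
  ∀ i j, Measurable fun x => F x i j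

private theorem MM27.mul {X : Type} [MeasurableSpace X] {F G : X → Matrix ι ι ℝ}
    (hF : MM27 F) (hG : MM27 G) : MM27 fun x => F x * G x := by
  intro i j
  simp only [Matrix.mul_apply]
  exact Finset.measurable_sum _ fun k _ => (hF i k).mul (hG k j)

private theorem MM27.add {X : Type} [MeasurableSpace X] {F G : X → Matrix ι ι ℝ}
    (hF : MM27 F) (hG : MM27 G) : MM27 fun x => F x + G x := by
  intro i j
  simp only [Matrix.add_apply]
  exact (hF i j).add (hG i j)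

private theorem MM27.sub {X : Type} [MeasurableSpace X] {F G : X → Matrix ι ι ℝ}
    (hF : MM27 F) (hG : MM27 G) : MM27 fun x => F x - G x := by
  intro i j
  simp only [Matrix.sub_apply]
  exact (hF i j).sub (hG i j)

private theorem MM27.smul {X : Type} [MeasurableSpace X] {F : X → Matrix ι ι ℝ} (c : ℝ)
    (hF : MM27 F) : MM27 fun x => c • F x := by
  intro i j
  simp only [Matrix.smul_apply, smul_eq_mul]
  exact (hF i j).const_mul c

private theorem MM27.neg {X : Type} [MeasurableSpace X] {F : X → Matrix ι ι ℝ}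
    (hF : MM27 F) : MM27 fun x => -F x := by
  intro i j
  simp only [Matrix.neg_apply]
  exact (hF i j).neg

private theorem MM27.tr {X : Type} [MeasurableSpace X] {F : X → Matrix ι ι ℝ}
    (hF : MM27 F) : MM27 fun x => (F x)ᵀ := by
  intro i j
  simp only [Matrix.transpose_apply]
  exact hF j i

private theorem MM27.const {X : Type} [MeasurableSpace X] (A : Matrix ι ι ℝ) :
    MM27 fun _ : X => A := fun _ _ => measurable_const

private theorem MM27.nrm {X : Type} [MeasurableSpace X] {F : X → Matrix ι ι ℝ}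
    (hF : MM27 F) : Measurable fun x => nrm (F x) := by
  unfold SYR.nrm nsq ip
  exact (Finset.measurable_sum _ fun i _ => Finset.measurable_sum _ fun j _ =>
    (hF i j).mul (hF i j)).sqrt

private theorem inv_eq27 (hG : a.Geom C h0) {u : ℝ} (hu : u ∈ Icc 0 a.U) (x : a.M) :
    (a.P u x)⁻¹ = -(a.J * (a.P u x)ᵀ * a.J) := by
  apply Matrix.inv_eq_left_inv
  have : -(a.J * (a.P u x)ᵀ * a.J) * a.P u x = -(a.J * ((a.P u x)ᵀ * a.J * a.P u x)) := by
    noncomm_ring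
  rw [this, hG.symp u hu x, hG.quat.JJ, neg_neg]

private theorem mi27 (hG : a.Geom C h0) {u : ℝ} (hu : u ∈ Icc 0 a.U) (x : a.M) :
    a.P u x * (a.P u x)⁻¹ = 1 := Matrix.mul_nonsing_inv _ (hG.inv u hu x)

private theorem im27 (hG : a.Geom C h0) {u : ℝ} (hu : u ∈ Icc 0 a.U) (x : a.M) :
    (a.P u x)⁻¹ * a.P u x = 1 := Matrix.nonsing_inv_mul _ (hG.inv u hu x)

private theorem hat_back27 (hG : a.Geom C h0) {u : ℝ} (hu : u ∈ Icc 0 a.U) (x : a.M)
    (X : Matrix ι ι ℝ) : (a.P u x)ᵀ * a.hat u x X * a.P u x = X := by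
  unfold hat
  have h : (a.P u x)ᵀ * (((a.P u x)⁻¹)ᵀ * X * (a.P u x)⁻¹) * a.P u x =
      ((a.P u x)ᵀ * ((a.P u x)⁻¹)ᵀ) * X * ((a.P u x)⁻¹ * a.P u x) := by noncomm_ring
  rw [h, ← transpose_mul, im27 hG hu x, transpose_one, one_mul, mul_one]

private theorem hat_B27 (hG : a.Geom C h0) {u : ℝ} (hu : u ∈ Icc 0 a.U) (x : a.M) :
    a.hat u x (a.B u x) = a.K := by
  unfold hat B
  have h : ((a.P u x)⁻¹)ᵀ * ((a.P u x)ᵀ * a.K * a.P u x) * (a.P u x)⁻¹ =
      (((a.P u x)⁻¹)ᵀ * (a.P u x)ᵀ) * a.K * (a.P u x * (a.P u x)⁻¹) := by noncomm_ring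
  rw [h, ← transpose_mul, mi27 hG hu x, transpose_one, one_mul, mul_one]

private theorem hat_add27 (u : ℝ) (x : a.M) (X Y : Matrix ι ι ℝ) :
    a.hat u x (X + Y) = a.hat u x X + a.hat u x Y := by
  unfold hat
  noncomm_ring

private theorem hat_smul27 (u : ℝ) (x : a.M) (c : ℝ) (X : Matrix ι ι ℝ) :
    a.hat u x (c • X) = c • a.hat u x X := by
  unfold hat
  rw [Matrix.mul_smul, Matrix.smul_mul]

private theorem P_mm27 (hG : a.Geom C h0) (u : ℝ) : MM27 fun x => a.P u x :=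
  fun i j => (hG.P_meas i j).comp measurable_prodMk_left

private theorem A_mm27 (hG : a.Geom C h0) (u : ℝ) : MM27 fun x => a.A u x :=
  fun i j => (hG.A_meas i j).comp measurable_prodMk_left

private theorem ω_mm27 (hG : a.Geom C h0) (u : ℝ) : MM27 fun x => a.ω u x :=
  ((P_mm27 hG u).tr.mul (MM27.const a.I)).mul (P_mm27 hG u)

private theorem B_mm27 (hG : a.Geom C h0) (u : ℝ) : MM27 fun x => a.B u x :=
  ((P_mm27 hG u).tr.mul (MM27.const a.K)).mul (P_mm27 hG u)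

private theorem inv_mm27 (hG : a.Geom C h0) {u : ℝ} (hu : u ∈ Icc 0 a.U) :
    MM27 fun x => (a.P u x)⁻¹ := by
  have h : (fun x => (a.P u x)⁻¹) = fun x => -(a.J * (a.P u x)ᵀ * a.J) :=
    funext fun x => inv_eq27 hG hu x
  rw [h]
  exact (((MM27.const a.J).mul (P_mm27 hG u).tr).mul (MM27.const a.J)).neg

private theorem hat_mm27 (hG : a.Geom C h0) {u : ℝ} (hu : u ∈ Icc 0 a.U)
    {X : a.M → Matrix ι ι ℝ} (hX : MM27 X) : MM27 fun x => a.hat u x (X x) :=
  ((inv_mm27 hG hu).tr.mul hX).mul (inv_mm27 hG hu)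

/-- the integrand is jointly measurable -/
private theorem G_meas27 (hG : a.Geom C h0) (i j : ι) :
    Measurable (fun z : ℝ × a.M => a.A z.1 z.2 i j + a.B z.1 z.2 i j) := by
  have hP : MM27 fun z : ℝ × a.M => a.P z.1 z.2 := hG.P_meas
  have hB : MM27 fun z : ℝ × a.M => a.B z.1 z.2 :=
    (hP.tr.mul (MM27.const a.K)).mul hP
  exact (hG.A_meas i j).add (hB i j)

/-- bounds on a set -/
private structure Bd27 (a : Arc ι) (E : Set a.M) (L : ℝ) : Prop where
  nn : 0 ≤ L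
  P : ∀ u ∈ Icc 0 a.U, ∀ x ∈ E, nrm (a.P u x) ≤ L
  A : ∀ u ∈ Icc 0 a.U, ∀ x ∈ E, nrm (a.A u x) ≤ L

private theorem Bd27.conj {E : Set a.M} {L : ℝ} (hL : Bd27 a E L) {u : ℝ} (hu : u ∈ Icc 0 a.U)
    {x : a.M} (hx : x ∈ E) (X : Matrix ι ι ℝ) :
    nrm ((a.P u x)ᵀ * X * a.P u x) ≤ L * L * nrm X := by
  have h1 : nrm ((a.P u x)ᵀ * X * a.P u x) ≤ nrm (a.P u x) * nrm X * nrm (a.P u x) := by
    refine nrm_mul_le.trans ?_
    refine mul_le_mul_of_nonneg_right ?_ nrm_nonneg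
    refine nrm_mul_le.trans ?_
    rw [nrm_transpose]
  have h2 := hL.P u hu x hx
  have h3 : (0 : ℝ) ≤ nrm X := nrm_nonneg
  have h4 : (0 : ℝ) ≤ nrm (a.P u x) := nrm_nonneg
  have h5 : nrm (a.P u x) * nrm (a.P u x) ≤ L * L := mul_le_mul h2 h2 h4 hL.nn
  nlinarith [mul_le_mul_of_nonneg_right h5 h3]

private theorem Bd27.ω {E : Set a.M} {L : ℝ} (hL : Bd27 a E L) {u : ℝ} (hu : u ∈ Icc 0 a.U)
    {x : a.M} (hx : x ∈ E) (i j : ι) : |a.ω u x i j| ≤ L * L * nrm a.I :=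
  (abs_apply_le i j).trans (hL.conj hu hx a.I)

private theorem Bd27.G {E : Set a.M} {L : ℝ} (hL : Bd27 a E L) {u : ℝ} (hu : u ∈ Icc 0 a.U)
    {x : a.M} (hx : x ∈ E) (i j : ι) :
    |a.A u x i j + a.B u x i j| ≤ L + L * L * nrm a.K := by
  refine (abs_add_le _ _).trans (add_le_add ?_ ?_)
  · exact (abs_apply_le i j).trans (hL.A u hu x hx)
  · exact (abs_apply_le i j).trans (hL.conj hu hx a.K)

private theorem Bd27.entry (hG : a.Geom C h0) {E : Set a.M} {L : ℝ} (hL : Bd27 a E L) {u : ℝ}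
    (hu : u ∈ Icc 0 a.U) {x : a.M} (hx : x ∈ E) (X : Matrix ι ι ℝ) (i j : ι) :
    |X i j| ≤ L * L * nrm (a.hat u x X) := by
  have h := hL.conj hu hx (a.hat u x X)
  rw [hat_back27 hG hu x X] at h
  exact (abs_apply_le i j).trans h

private theorem intOn27 (hG : a.Geom C h0) {E : Set a.M} (hE : MeasurableSet E)
    {f : a.M → ℝ} (hf : Measurable f) {D : ℝ} (hD : ∀ x ∈ E, |f x| ≤ D) :
    IntegrableOn f E a.μ := by
  haveI := hG.fin
  refine Integrable.mono' (g := fun _ => D) (integrable_const D) hf.aestronglyMeasurable ?_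
  exact ae_restrict_of_forall_mem hE hD

private theorem ω_intOn27 (hG : a.Geom C h0) {E : Set a.M} (hE : MeasurableSet E) {L : ℝ}
    (hL : Bd27 a E L) {u : ℝ} (hu : u ∈ Icc 0 a.U) (i j : ι) :
    IntegrableOn (fun x => a.ω u x i j) E a.μ :=
  intOn27 hG hE (ω_mm27 hG u i j) fun _ hx => hL.ω hu hx i j

private theorem G_intOn27 (hG : a.Geom C h0) {E : Set a.M} (hE : MeasurableSet E) {L : ℝ}
    (hL : Bd27 a E L) {u : ℝ} (hu : u ∈ Icc 0 a.U) (i j : ι) :
    IntegrableOn (fun x => a.A u x i j + a.B u x i j) E a.μ :=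
  intOn27 hG hE (((A_mm27 hG u) i j).add ((B_mm27 hG u) i j)) fun _ hx => hL.G hu hx i j

/-- Lipschitz -/
private theorem q_lip27 (hG : a.Geom C h0) {E : Set a.M} (hE : MeasurableSet E) {L : ℝ}
    (hL : Bd27 a E L) (i j : ι) {u s : ℝ} (hu : u ∈ Icc 0 a.U) (hs : s ∈ Icc 0 a.U)
    (hus : u ≤ s) (hus' : s - u ≤ h0) :
    |∫ x in E, a.ω s x i j ∂a.μ - ∫ x in E, a.ω u x i j ∂a.μ| ≤
      L * L * ((6 + 8 * Fintype.card ι) * (8 * C) * a.V) * (s - u) := by
  obtain ⟨h1, h2⟩ := ω_int hG hu hs hus hus'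
  rw [← integral_sub (ω_intOn27 hG hE hL hs i j) (ω_intOn27 hG hE hL hu i j)]
  have h3 : ‖∫ x in E, (a.ω s x i j - a.ω u x i j) ∂a.μ‖ ≤
      ∫ x in E, L * L * nrm (a.hat u x (a.ω s x - a.ω u x)) ∂a.μ := by
    refine norm_integral_le_of_norm_le ((h1.const_mul (L * L)).integrableOn) ?_
    refine ae_restrict_of_forall_mem hE fun x hx => ?_
    have := hL.entry hG hu hx (a.ω s x - a.ω u x) i j
    rwa [Matrix.sub_apply] at this
  rw [Real.norm_eq_abs] at h3
  refine h3.trans ?_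
  have h4 : ∫ x in E, L * L * nrm (a.hat u x (a.ω s x - a.ω u x)) ∂a.μ ≤
      ∫ x, L * L * nrm (a.hat u x (a.ω s x - a.ω u x)) ∂a.μ := by
    refine setIntegral_le_integral (h1.const_mul (L * L)) ?_
    exact Filter.Eventually.of_forall fun x =>
      mul_nonneg (mul_nonneg hL.nn hL.nn) nrm_nonneg
  refine h4.trans ?_
  rw [integral_const_mul]
  have h5 : 0 ≤ L * L := mul_nonneg hL.nn hL.nn
  calc L * L * ∫ x, nrm (a.hat u x (a.ω s x - a.ω u x)) ∂a.μ
      ≤ L * L * ((6 + 8 * Fintype.card ι) * (8 * C) * a.V * (s - u)) :=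
        mul_le_mul_of_nonneg_left h2 h5
    _ = _ := by ring

private theorem q_cont27 (hG : a.Geom C h0) {E : Set a.M} (hE : MeasurableSet E) {L : ℝ}
    (hL : Bd27 a E L) (i j : ι) :
    ContinuousOn (fun s => ∫ x in E, a.ω s x i j ∂a.μ) (Icc 0 a.U) := by
  obtain ⟨D, hD⟩ : ∃ D, D = L * L * ((6 + 8 * Fintype.card ι) * (8 * C) * a.V) := ⟨_, rfl⟩
  have hD0 : 0 ≤ D := by
    rw [hD]
    have h1 : 0 ≤ a.V := measureReal_nonneg
    have h2 := hG.C_nonneg
    have h3 := hL.nn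
    positivity
  have hlip : ∀ u ∈ Icc 0 a.U, ∀ s ∈ Icc 0 a.U, |s - u| ≤ h0 →
      |∫ x in E, a.ω s x i j ∂a.μ - ∫ x in E, a.ω u x i j ∂a.μ| ≤ D * |s - u| := by
    intro u hu s hs hus
    rcases le_total u s with h | h
    · rw [abs_of_nonneg (sub_nonneg.2 h)] at hus ⊢
      rw [hD]
      exact q_lip27 hG hE hL i j hu hs h hus
    · rw [abs_sub_comm s u] at hus ⊢
      rw [abs_of_nonneg (sub_nonneg.2 h)] at hus ⊢
      rw [abs_sub_comm, hD]
      exact q_lip27 hG hE hL i j hs hu h hus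
  rw [Metric.continuousOn_iff]
  intro u hu ε hε
  refine ⟨min h0 (ε / (D + 1)), lt_min hG.h0_pos (by positivity), fun s hs hsu => ?_⟩
  rw [Real.dist_eq] at hsu ⊢
  have h1 := hlip u hu s hs (hsu.le.trans (min_le_left _ _))
  have h2 : |s - u| < ε / (D + 1) := lt_of_lt_of_le hsu (min_le_right _ _)
  rw [lt_div_iff₀ (by positivity)] at h2
  have h3 := abs_nonneg (s - u)
  nlinarith

/-- integrability of the error -/
private theorem X_int27 (hG : a.Geom C h0) {u s : ℝ} (hu : u ∈ Icc 0 a.U) (hs : s ∈ Icc 0 a.U)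
    (hus : u ≤ s) (hus' : s - u ≤ h0) :
    Integrable (fun x => nrm (a.hat u x
      ((1 / (s - u)) • (a.ω s x - a.ω u x) + a.A u x + a.B u x))) a.μ := by
  haveI := hG.fin
  obtain ⟨h1, -⟩ := ω_int hG hu hs hus hus'
  have h2 : Integrable (fun x => |1 / (s - u)| * nrm (a.hat u x (a.ω s x - a.ω u x)) +
      (1 + nsq (a.hat u x (a.A u x))) + nrm a.K) a.μ :=
    ((h1.const_mul _).add ((integrable_const 1).add (hG.A_sq u hu))).add (integrable_const _)
  refine h2.mono' ?_ (Filter.Eventually.of_forall fun x => ?_)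
  · exact (hat_mm27 hG hu (((((ω_mm27 hG s).sub (ω_mm27 hG u)).smul _).add
      (A_mm27 hG u)).add (B_mm27 hG u))).nrm.aestronglyMeasurable
  · rw [Real.norm_eq_abs, abs_of_nonneg nrm_nonneg, hat_add27, hat_add27, hat_smul27,
      hat_B27 hG hu x]
    refine nrm_add_le.trans (add_le_add ?_ le_rfl)
    refine nrm_add_le.trans (add_le_add (nrm_smul _).le ?_)
    have h3 : nrm (a.hat u x (a.A u x)) ^ 2 = nsq (a.hat u x (a.A u x)) := nrm_sq
    nlinarith [sq_nonneg (nrm (a.hat u x (a.A u x)) - 1)]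

/-- the right derivative -/
private theorem q_deriv27 (hG : a.Geom C h0) {E : Set a.M} (hE : MeasurableSet E) {L : ℝ}
    (hL : Bd27 a E L) (i j : ι) {u : ℝ} (hu : u ∈ Ico 0 a.U) :
    HasDerivWithinAt (fun s => ∫ x in E, a.ω s x i j ∂a.μ)
      (-∫ x in E, (a.A u x i j + a.B u x i j) ∂a.μ) (Ioi u) u := by
  have hu' : u ∈ Icc 0 a.U := ⟨hu.1, hu.2.le⟩
  rw [hasDerivWithinAt_iff_tendsto_slope' (by simp)]
  rw [tendsto_iff_norm_sub_tendsto_zero]
  have hlim := (ω_lim hG hu).const_mul (L * L)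
  rw [mul_zero] at hlim
  refine squeeze_zero' (Filter.Eventually.of_forall fun s => norm_nonneg _) ?_ hlim
  have hev : ∀ᶠ s in 𝓝[>] u, s ∈ Ioo u (min (u + h0) a.U) := by
    apply Ioo_mem_nhdsGT
    exact lt_min (by linarith [hG.h0_pos]) hu.2
  filter_upwards [hev] with s hs
  have hs1 : s ∈ Icc 0 a.U := ⟨hu.1.trans hs.1.le, (hs.2.trans_le (min_le_right _ _)).le⟩
  have hs2 : s - u ≤ h0 := by
    have := hs.2.trans_le (min_le_left _ _)
    linarith
  have hX := X_int27 hG hu' hs1 hs.1.le hs2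
  have h1 : slope (fun s => ∫ x in E, a.ω s x i j ∂a.μ) u s -
      -∫ x in E, (a.A u x i j + a.B u x i j) ∂a.μ =
      ∫ x in E, ((1 / (s - u)) • (a.ω s x - a.ω u x) + a.A u x + a.B u x) i j ∂a.μ := by
    rw [slope_def_field, sub_neg_eq_add,
      ← integral_sub (ω_intOn27 hG hE hL hs1 i j) (ω_intOn27 hG hE hL hu' i j), div_eq_inv_mul,
      ← integral_const_mul, ← integral_add _ (G_intOn27 hG hE hL hu' i j)]
    · refine integral_congr_ae (Filter.Eventually.of_forall fun x => ?_)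
      simp only [Matrix.add_apply, Matrix.smul_apply, Matrix.sub_apply, smul_eq_mul, one_div]
      ring
    · exact ((ω_intOn27 hG hE hL hs1 i j).sub (ω_intOn27 hG hE hL hu' i j)).const_mul _
  rw [h1]
  have h3 : ‖∫ x in E, ((1 / (s - u)) • (a.ω s x - a.ω u x) + a.A u x + a.B u x) i j ∂a.μ‖ ≤
      ∫ x in E, L * L * nrm (a.hat u x
        ((1 / (s - u)) • (a.ω s x - a.ω u x) + a.A u x + a.B u x)) ∂a.μ := by
    refine norm_integral_le_of_norm_le ((hX.const_mul (L * L)).integrableOn) ?_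
    exact ae_restrict_of_forall_mem hE fun x hx => hL.entry hG hu' hx _ i j
  refine h3.trans ?_
  rw [← integral_const_mul]
  refine setIntegral_le_integral (hX.const_mul (L * L)) ?_
  exact Filter.Eventually.of_forall fun x => mul_nonneg (mul_nonneg hL.nn hL.nn) nrm_nonneg

private theorem prod_int27 (hG : a.Geom C h0) {E : Set a.M} (hE : MeasurableSet E) {L : ℝ}
    (hL : Bd27 a E L) (i j : ι) {u : ℝ} (hu : u ∈ Icc 0 a.U) :
    Integrable (fun z : ℝ × a.M => a.A z.1 z.2 i j + a.B z.1 z.2 i j)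
      ((volume.restrict (Ioc 0 u)).prod (a.μ.restrict E)) := by
  haveI := hG.fin
  refine Integrable.mono' (g := fun _ => L + L * L * nrm a.K) (integrable_const _)
    (G_meas27 hG i j).aestronglyMeasurable ?_
  rw [Measure.prod_restrict]
  refine ae_restrict_of_forall_mem (measurableSet_Ioc.prod hE) fun z hz => ?_
  exact hL.G ⟨hz.1.1.le, hz.1.2.trans hu.2⟩ hz.2 i j

private theorem main27 (hG : a.Geom C h0) {E : Set a.M} (hE : MeasurableSet E) {L : ℝ}
    (hL : Bd27 a E L) (i j : ι) {u : ℝ} (hu : u ∈ Icc 0 a.U) :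
    ∫ x in E, (a.ω u x i j - a.ω 0 x i j +
      ∫ s in (0 : ℝ)..u, (a.A s x i j + a.B s x i j)) ∂a.μ = 0 := by
  haveI := hG.fin
  have h00 : (0 : ℝ) ∈ Icc 0 a.U := ⟨le_rfl, hG.U_pos.le⟩
  have hprod := prod_int27 hG hE hL i j hu
  -- the right derivative integrates
  have hint1 : Integrable (fun s => ∫ x in E, (a.A s x i j + a.B s x i j) ∂a.μ)
      (volume.restrict (Ioc 0 u)) := hprod.integral_prod_left
  have hint2 : Integrable (fun x => ∫ s in Ioc 0 u, (a.A s x i j + a.B s x i j))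
      (a.μ.restrict E) := hprod.integral_prod_right
  have hftc : ∫ s in (0 : ℝ)..u, -(∫ x in E, (a.A s x i j + a.B s x i j) ∂a.μ) =
      ∫ x in E, a.ω u x i j ∂a.μ - ∫ x in E, a.ω 0 x i j ∂a.μ := by
    refine intervalIntegral.integral_eq_sub_of_hasDeriv_right
      (f := fun s => ∫ x in E, a.ω s x i j ∂a.μ) ?_ ?_ ?_
    · rw [uIcc_of_le hu.1]
      exact (q_cont27 hG hE hL i j).mono (Icc_subset_Icc_right hu.2)
    · intro s hs
      rw [min_eq_left hu.1, max_eq_right hu.1] at hs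
      exact q_deriv27 hG hE hL i j ⟨hs.1.le, hs.2.trans_le hu.2⟩
    · rw [intervalIntegrable_iff_integrableOn_Ioc_of_le hu.1]
      exact hint1.neg
  have hfub : ∫ s in Ioc 0 u, ∫ x in E, (a.A s x i j + a.B s x i j) ∂a.μ =
      ∫ x in E, (∫ s in Ioc 0 u, (a.A s x i j + a.B s x i j)) ∂a.μ :=
    integral_integral_swap (f := fun s x => a.A s x i j + a.B s x i j) hprod
  rw [intervalIntegral.integral_neg, intervalIntegral.integral_of_le hu.1, hfub] at hftc
  simp only [intervalIntegral.integral_of_le hu.1]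
  have hs1 : IntegrableOn (fun x => a.ω u x i j - a.ω 0 x i j) E a.μ :=
    (ω_intOn27 hG hE hL hu i j).sub (ω_intOn27 hG hE hL h00 i j)
  rw [integral_add hs1 hint2,
    integral_sub (ω_intOn27 hG hE hL hu i j) (ω_intOn27 hG hE hL h00 i j), ← hftc]
  ring

private theorem F_meas27 (hG : a.Geom C h0) (i j : ι) {u : ℝ} (hu : 0 ≤ u) :
    Measurable (fun x => a.ω u x i j - a.ω 0 x i j +
      ∫ s in (0 : ℝ)..u, (a.A s x i j + a.B s x i j)) := by
  haveI := hG.fin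
  refine ((ω_mm27 hG u i j).sub (ω_mm27 hG 0 i j)).add ?_
  simp only [intervalIntegral.integral_of_le hu]
  have h := (G_meas27 hG i j).stronglyMeasurable
  exact (StronglyMeasurable.integral_prod_left (μ := volume.restrict (Ioc 0 u))
    (f := fun s x => a.A s x i j + a.B s x i j) h).measurable

theorem R2 (hG : a.Geom C h0) : ∀ u ∈ Icc 0 a.U, ∀ᵐ x ∂a.μ, ∀ i j,
    a.ω u x i j = a.ω 0 x i j - ∫ s in (0 : ℝ)..u, (a.A s x i j + a.B s x i j) := by
  haveI := hG.fin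
  intro u hu
  have h00 : (0 : ℝ) ∈ Icc 0 a.U := ⟨le_rfl, hG.U_pos.le⟩
  rw [ae_all_iff]
  intro i
  rw [ae_all_iff]
  intro j
  have key : ∀ m, ∀ᵐ x ∂a.μ, a.χ m x ≠ 0 → a.ω u x i j - a.ω 0 x i j +
      ∫ s in (0 : ℝ)..u, (a.A s x i j + a.B s x i j) = 0 := by
    intro m
    obtain ⟨L, hL⟩ := hG.supp _ (hG.χ_cs m)
    have hbd : ∀ E : Set a.M, E ⊆ {x | a.χ m x ≠ 0} → Bd27 a E (max L 0) := fun E hE =>
      { nn := le_max_right _ _
        P := fun v hv x hx => ((hL v hv x (hE hx)).1).trans (le_max_left _ _)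
        A := fun v hv x hx => ((hL v hv x (hE hx)).2.2).trans (le_max_left _ _) }
    have hcont : Continuous (a.χ m) := hG.sm_cont _ (hG.cs_sm (hG.χ_cs m))
    have hS : MeasurableSet {x | a.χ m x ≠ 0} :=
      (isOpen_ne_fun hcont continuous_const).measurableSet
    have hFm := F_meas27 hG i j hu.1
    set F : a.M → ℝ := fun x => a.ω u x i j - a.ω 0 x i j +
      ∫ s in (0 : ℝ)..u, (a.A s x i j + a.B s x i j) with hF
    have hFint : Integrable (indicator {x | a.χ m x ≠ 0} F) a.μ := by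
      rw [integrable_indicator_iff hS]
      have hb := hbd _ subset_rfl
      have h1 : IntegrableOn (fun x => a.ω u x i j - a.ω 0 x i j) {x | a.χ m x ≠ 0} a.μ :=
        (ω_intOn27 hG hS hb hu i j).sub (ω_intOn27 hG hS hb h00 i j)
      have h2 : Integrable (fun x => ∫ s in Ioc 0 u, (a.A s x i j + a.B s x i j))
        (a.μ.restrict {x | a.χ m x ≠ 0}) := (prod_int27 hG hS hb i j hu).integral_prod_right
      have h3 := Integrable.add h1 h2
      refine h3.congr (Filter.Eventually.of_forall fun x => ?_)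
      simp only [hF, intervalIntegral.integral_of_le hu.1, Pi.add_apply]
    have hzero := Integrable.ae_eq_zero_of_forall_setIntegral_eq_zero hFint (by
      intro s hs _
      rw [setIntegral_indicator hS]
      exact main27 hG (hs.inter hS) (hbd _ inter_subset_right) i j hu)
    filter_upwards [hzero] with x hx hx'
    rw [indicator_of_mem (by exact hx')] at hx
    exact hx
  have hall := ae_all_iff.2 key
  filter_upwards [hall] with x hx
  obtain ⟨m, hm⟩ : ∃ m, a.χ m x ≠ 0 :=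
    ((hG.χ_lim x).eventually_ne one_ne_zero).exists
  have := hx m hm
  linarith

private theorem PJP27 {P J : Matrix ι ι ℝ} (hJ : J * J = -1) (h : Pᵀ * J * P = J) :
    P * J * Pᵀ = J := by
  have h1 : -(J * Pᵀ * J) * P = 1 := by
    have : -(J * Pᵀ * J) * P = -(J * (Pᵀ * J * P)) := by noncomm_ring
    rw [this, h, hJ, neg_neg]
  have h2 : P * -(J * Pᵀ * J) = 1 := mul_eq_one_comm.1 h1
  have h3 : P * -(J * Pᵀ * J) * J = P * J * Pᵀ := by
    have : P * -(J * Pᵀ * J) * J = -(P * J * Pᵀ * (J * J)) := by noncomm_ring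
    rw [this, hJ, mul_neg, mul_one, neg_neg]
  rw [← h3, h2, one_mul]

private theorem rot27 {w B J g : Matrix ι ι ℝ} {c s : ℝ} (hcs : c ^ 2 + s ^ 2 = 1)
    (h1 : w * J * B = -g) (h2 : w * J * w = J) (h3 : B * J * B = J) (h4 : B * J * w = g) :
    -((c • w - s • B) * J * (c • B + s • w)) = g := by
  have h : (c • w - s • B) * J * (c • B + s • w) =
      (c * c) • (w * J * B) + (c * s) • (w * J * w) - (s * c) • (B * J * B) -
        (s * s) • (B * J * w) := by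
    simp only [Matrix.sub_mul, Matrix.mul_add, Matrix.smul_mul, Matrix.mul_smul]
    module
  rw [h, h1, h2, h3, h4]
  have h5 : -((c * c) • -g + (c * s) • J - (s * c) • J - (s * s) • g) =
      (c ^ 2 + s ^ 2) • g := by module
  rw [h5, hcs, one_smul]

private theorem pr_eq27 (u : ℝ) (x : a.M) (v w : ι → ℝ) :
    a.pr u x v w = v ⬝ᵥ (((a.P u x)⁻¹ * ((a.P u x)⁻¹)ᵀ) *ᵥ w) := by
  unfold pr co
  rw [← Matrix.mulVec_mulVec,
    Matrix.dotProduct_mulVec v (a.P u x)⁻¹ (((a.P u x)⁻¹)ᵀ *ᵥ w), ← Matrix.mulVec_transpose]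

/-- the flow rotates the triple and preserves the metric -/
theorem flow_metric (hG : a.Geom C h0) (hF : a.Flow) {u : ℝ} (hu : u ∈ Icc 0 a.U) {y : a.M}
    (hy : y ∈ a.Dom 0 u) :
    (a.DF u y)ᵀ * a.g u (a.Fl 0 u y) * a.DF u y = a.g 0 y ∧
      ∀ v w : ι → ℝ, a.pr 0 y ((a.DF u y)ᵀ *ᵥ v) ((a.DF u y)ᵀ *ᵥ w) =
        a.pr u (a.Fl 0 u y) v w := by
  have h00 : (0 : ℝ) ∈ Icc 0 a.U := ⟨le_rfl, hG.U_pos.le⟩
  obtain ⟨h1, h2, h3⟩ := hF.rot (R2 hG) u hu y hy
  have hq := hG.quat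
  -- the metric in terms of the triple
  have key : ∀ v ∈ Icc 0 a.U, ∀ x, a.ω v x * a.J * a.B v x = -a.g v x ∧
      a.ω v x * a.J * a.ω v x = a.J ∧ a.B v x * a.J * a.B v x = a.J ∧
      a.B v x * a.J * a.ω v x = a.g v x := by
    intro v hv x
    have hs := hG.symp v hv x
    have hP := PJP27 hq.JJ hs
    unfold Arc.ω Arc.B Arc.g om gm
    generalize a.P v x = P at hs hP ⊢
    have e : ∀ X Y : Matrix ι ι ℝ, Pᵀ * X * P * a.J * (Pᵀ * Y * P) = Pᵀ * (X * a.J * Y) * P := by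
      intro X Y
      have : Pᵀ * X * P * a.J * (Pᵀ * Y * P) = Pᵀ * (X * (P * a.J * Pᵀ) * Y) * P := by
        noncomm_ring
      rw [this, hP]
    refine ⟨?_, ?_, ?_, ?_⟩
    · rw [e, hq.IJ, hq.KK, mul_neg, mul_one, neg_mul]
    · rw [e, hq.IJ, hq.KI, hs]
    · rw [e, hq.KJ, neg_mul, hq.IK, neg_neg, hs]
    · rw [e, hq.KJ, neg_mul, hq.II, neg_neg, mul_one]
  have hm : (a.DF u y)ᵀ * a.g u (a.Fl 0 u y) * a.DF u y = a.g 0 y := by
    have hD := PJP27 hq.JJ h2
    have e1 := (key u hu (a.Fl 0 u y)).1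
    have e2 : a.g u (a.Fl 0 u y) = -(a.ω u (a.Fl 0 u y) * a.J * a.B u (a.Fl 0 u y)) := by
      rw [e1, neg_neg]
    obtain ⟨k1, k2, k3, k4⟩ := key 0 h00 y
    have e3 := rot27 (Real.cos_sq_add_sin_sq u) k1 k2 k3 k4
    rw [← h1, ← h3] at e3
    rw [e2, ← e3]
    generalize a.ω u (a.Fl 0 u y) = X
    generalize a.B u (a.Fl 0 u y) = Y
    generalize a.DF u y = D at hD ⊢
    have e4 : Dᵀ * -(X * a.J * Y) * D = -(Dᵀ * (X * a.J * Y) * D) := by noncomm_ring
    have e5 : Dᵀ * X * D * a.J * (Dᵀ * Y * D) = Dᵀ * (X * (D * a.J * Dᵀ) * Y) * D := by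
      noncomm_ring
    rw [e4, e5, hD]
  refine ⟨hm, fun v w => ?_⟩
  rw [pr_eq27, pr_eq27]
  have g1 : a.g u (a.Fl 0 u y) * ((a.P u (a.Fl 0 u y))⁻¹ * ((a.P u (a.Fl 0 u y))⁻¹)ᵀ) = 1 := by
    unfold Arc.g gm
    have e := mi27 hG hu (a.Fl 0 u y)
    generalize a.P u (a.Fl 0 u y) = P at e ⊢
    have e1 : Pᵀ * P * (P⁻¹ * (P⁻¹)ᵀ) = Pᵀ * (P * P⁻¹) * (P⁻¹)ᵀ := by noncomm_ring
    rw [e1, e, mul_one, ← transpose_mul, mul_eq_one_comm.1 e, transpose_one]
  have g0 : ((a.P 0 y)⁻¹ * ((a.P 0 y)⁻¹)ᵀ) * a.g 0 y = 1 := by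
    unfold Arc.g gm
    have e := mi27 hG h00 y
    generalize a.P 0 y = P at e ⊢
    have e1 : P⁻¹ * (P⁻¹)ᵀ * (Pᵀ * P) = P⁻¹ * ((P⁻¹)ᵀ * Pᵀ) * P := by noncomm_ring
    rw [e1, ← transpose_mul, e, transpose_one, mul_one, mul_eq_one_comm.1 e]
  rw [← hm] at g0
  generalize (a.P 0 y)⁻¹ * ((a.P 0 y)⁻¹)ᵀ = G0 at g0 ⊢
  generalize (a.P u (a.Fl 0 u y))⁻¹ * ((a.P u (a.Fl 0 u y))⁻¹)ᵀ = Gu at g1 ⊢
  generalize a.g u (a.Fl 0 u y) = gu at g0 g1
  generalize a.DF u y = D at g0 ⊢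
  have e2 : (G0 * Dᵀ * gu) * D = 1 := by
    rw [← g0]
    noncomm_ring
  have e3 : D * (G0 * Dᵀ * gu) = 1 := mul_eq_one_comm.1 e2
  have e4 : D * G0 * Dᵀ = Gu := by
    calc D * G0 * Dᵀ = D * G0 * Dᵀ * (gu * Gu) := by rw [g1, mul_one]
      _ = (D * (G0 * Dᵀ * gu)) * Gu := by noncomm_ring
      _ = Gu := by rw [e3, one_mul]
  rw [← e4, Matrix.mulVec_transpose D v, ← Matrix.dotProduct_mulVec, Matrix.mulVec_mulVec,
    Matrix.mulVec_mulVec, Matrix.mul_assoc]

end Pool.Agent.SYR.Arc
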