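import Pool.Agent.SYR.ResD
import Pool.Agent.SYR.R2

/-!
# SYR/Iso : the flow is an isometry for the length distances

Backward: `φ` continuous, bounded, `D`-Lipschitz for `dist 0`. `ψ = Res l 0 φ`,
`φ' = Res l u (push φ u)`, `ψ = φ' ∘ Fl 0 u` on `Dom 0 u` (`res_push`), so `|dφ'|_u ≤ D / l` on the image of
`Dom 0 u`, that is on `Dom u 0` (`chain`, `flow_metric`, `inv`), which is dense (`dom_dense`), hence
everywhere (`pr_cont`), `lip`, `res_lim`. Forward: `φ` continuous, bounded, `D`-Lipschitz for `dist u`,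
`f = φ ∘ Fl 0 u` on `Dom 0 u` and `0` elsewhere, `push f u = φ` almost everywhere, `res_congr`. Then take
`φ = min (dist u · z) R`.
-/

set_option autoImplicit false

open Matrix MeasureTheory Filter Topology Set

namespace Pool.Agent.SYR.Arc

variable {ι : Type} [Fintype ι] [DecidableEq ι] {a : Arc ι} {C h0 : ℝ}

/-- equality of the gradients along the flow -/
private theorem grad17 (hG : a.Geom C h0) (hF : a.Flow) {u : ℝ} (hu : u ∈ Icc 0 a.U)
    {F ψ : a.M → ℝ} (hFs : F ∈ a.sm) (hψs : ψ ∈ a.sm)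
    (h : ∀ y ∈ a.Dom 0 u, ψ y = F (a.Fl 0 u y)) {y : a.M} (hy : y ∈ a.Dom 0 u) :
    a.pr 0 y (a.dl ψ y) (a.dl ψ y) =
      a.pr u (a.Fl 0 u y) (a.dl F (a.Fl 0 u y)) (a.dl F (a.Fl 0 u y)) := by
  rw [hF.chain u hu F hFs ψ hψs h y hy]
  exact (flow_metric hG hF hu hy).2 _ _

/-- a bound on a dense set holds everywhere -/
private theorem dense17 (hG : a.Geom C h0) {u : ℝ} (hu : u ∈ Icc 0 a.U) {F : a.M → ℝ}
    (hFs : F ∈ a.sm) {S : Set a.M} (hS : Dense S) {E : ℝ}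
    (h : ∀ x ∈ S, a.pr u x (a.dl F x) (a.dl F x) ≤ E) :
    ∀ x, a.pr u x (a.dl F x) (a.dl F x) ≤ E := by
  have hc := hG.pr_cont u hu F hFs
  have hcl : IsClosed {x | a.pr u x (a.dl F x) (a.dl F x) ≤ E} :=
    isClosed_le hc continuous_const
  have hsub : S ⊆ {x | a.pr u x (a.dl F x) (a.dl F x) ≤ E} := h
  have h2 := hcl.closure_subset_iff.2 hsub
  rw [hS.closure_eq] at h2
  exact fun x => h2 (mem_univ x)

theorem lip_back (hG : a.Geom C h0) (hF : a.Flow) (hR : a.Rcd) {u : ℝ} (hu : u ∈ Icc 0 a.U)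
    {φ : a.M → ℝ} (hφ : Continuous φ) {L D : ℝ} (hD0 : 0 ≤ D) (hL : ∀ x, |φ x| ≤ L)
    (hD : ∀ x y, |φ x - φ y| ≤ D * a.dist 0 x y) :
    ∀ x ∈ a.Dom u 0, ∀ y ∈ a.Dom u 0, |φ (a.Fl u 0 x) - φ (a.Fl u 0 y)| ≤ D * a.dist u x y := by
  intro x hx y hy
  have h00 : (0 : ℝ) ∈ Icc 0 a.U := ⟨le_rfl, hG.U_pos.le⟩
  have key : ∀ l : ℝ, 0 < l →
      |l * a.Res l 0 φ (a.Fl u 0 x) - l * a.Res l 0 φ (a.Fl u 0 y)| ≤ D * a.dist u x y := by
    intro l hl
    have hL0' : 0 ≤ |L| := abs_nonneg L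
    have hL' : ∀ x, |φ x| ≤ |L| := fun x => (hL x).trans (le_abs_self L)
    have hm := hφ.measurable
    have hfm := push_meas hF hm hu
    have hfb := fun x => push_le hL' hL0' u x
    obtain ⟨hFs, -⟩ := hR.res_sm l hl u hu _ hfm |L| hfb
    obtain ⟨hψs, -⟩ := hR.res_sm l hl 0 h00 _ hm |L| hL'
    have hrp : ∀ y ∈ a.Dom 0 u, a.Res l 0 φ y = a.Res l u (a.push φ u) (a.Fl 0 u y) :=
      fun y hy => (res_push hG hF hR hl hm hL' hu y hy).symm
    have hgr := hR.res_lip l hl 0 h00 φ hφ L D hD0 hL hD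
    have hon : ∀ z ∈ a.Dom u 0, a.pr u z (a.dl (a.Res l u (a.push φ u)) z)
        (a.dl (a.Res l u (a.push φ u)) z) ≤ (D / l) ^ 2 := by
      intro z hz
      obtain ⟨h1, h2⟩ := hF.inv u hu 0 h00 z hz
      have h3 := grad17 hG hF hu hFs hψs hrp h1
      rw [h2] at h3
      rw [← h3]
      exact hgr _
    have hall := dense17 hG hu hFs (dom_dense hG hF hu h00) hon
    have hDl : 0 ≤ D / l := div_nonneg hD0 hl.le
    have hlip := hR.lip u hu _ hFs (D / l) hDl hall x y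
    obtain ⟨hx1, hx2⟩ := hF.inv u hu 0 h00 x hx
    obtain ⟨hy1, hy2⟩ := hF.inv u hu 0 h00 y hy
    have ex := hrp _ hx1
    have ey := hrp _ hy1
    rw [hx2] at ex
    rw [hy2] at ey
    rw [ex, ey, ← mul_sub, abs_mul, abs_of_pos hl]
    calc l * |a.Res l u (a.push φ u) x - a.Res l u (a.push φ u) y|
        ≤ l * (D / l * a.dist u x y) := mul_le_mul_of_nonneg_left hlip hl.le
      _ = D * a.dist u x y := by field_simp
  have hx' := hR.res_lim 0 h00 φ hφ L D hL hD (a.Fl u 0 x)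
  have hy' := hR.res_lim 0 h00 φ hφ L D hL hD (a.Fl u 0 y)
  have hlim := (hx'.sub hy').abs
  refine le_of_tendsto hlim ?_
  filter_upwards [eventually_gt_atTop (0 : ℝ)] with l hl
  exact key l hl

theorem lip_forw (hG : a.Geom C h0) (hF : a.Flow) (hR : a.Rcd) {u : ℝ} (hu : u ∈ Icc 0 a.U)
    {φ : a.M → ℝ} (hφ : Continuous φ) {L D : ℝ} (hD0 : 0 ≤ D) (hL : ∀ x, |φ x| ≤ L)
    (hD : ∀ x y, |φ x - φ y| ≤ D * a.dist u x y) :
    ∀ x ∈ a.Dom 0 u, ∀ y ∈ a.Dom 0 u, |φ (a.Fl 0 u x) - φ (a.Fl 0 u y)| ≤ D * a.dist 0 x y := by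
  classical
  intro x hx y hy
  have h00 : (0 : ℝ) ∈ Icc 0 a.U := ⟨le_rfl, hG.U_pos.le⟩
  have hL0' : 0 ≤ |L| := abs_nonneg L
  have hL' : ∀ x, |φ x| ≤ |L| := fun x => (hL x).trans (le_abs_self L)
  set f : a.M → ℝ := fun x => if x ∈ a.Dom 0 u then φ (a.Fl 0 u x) else 0 with hf
  have hFm : Measurable (a.Fl 0 u) :=
    (hF.meas 0 h00).1.comp (measurable_const.prodMk measurable_id)
  have hfm : Measurable f :=
    Measurable.ite (hF.isOpen 0 h00 u hu).measurableSet (hφ.measurable.comp hFm) measurable_const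
  have hfb : ∀ x, |f x| ≤ |L| := by
    intro x
    rw [hf]
    dsimp only
    split_ifs with h
    · exact hL' _
    · rw [abs_zero]; exact hL0'
  have hpm := push_meas hF hfm hu
  have hpush : a.push f u =ᵐ[a.μ] φ := by
    have h4 : ∀ᵐ z ∂a.μ, z ∈ a.Dom u 0 := by
      rw [ae_iff]; exact dom_null hG hF hu h00
    filter_upwards [h4] with z hz
    obtain ⟨h1, h2⟩ := hF.inv u hu 0 h00 z hz
    unfold push
    rw [if_pos hz, hf]
    dsimp only
    rw [if_pos h1, h2]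
  have key : ∀ l : ℝ, 0 < l →
      |l * a.Res l u φ (a.Fl 0 u x) - l * a.Res l u φ (a.Fl 0 u y)| ≤ D * a.dist 0 x y := by
    intro l hl
    obtain ⟨hFs, -⟩ := hR.res_sm l hl u hu _ hφ.measurable |L| hL'
    obtain ⟨hψs, -⟩ := hR.res_sm l hl 0 h00 _ hfm |L| hfb
    have hcg : a.Res l u (a.push f u) = a.Res l u φ := hR.res_congr l hl u hu _ _ hpush
    have hrp : ∀ y ∈ a.Dom 0 u, a.Res l 0 f y = a.Res l u φ (a.Fl 0 u y) := by
      intro y hy
      rw [← res_push hG hF hR hl hfm hfb hu y hy, hcg]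
    have hgr := hR.res_lip l hl u hu φ hφ L D hD0 hL hD
    have hon : ∀ z ∈ a.Dom 0 u, a.pr 0 z (a.dl (a.Res l 0 f) z)
        (a.dl (a.Res l 0 f) z) ≤ (D / l) ^ 2 := by
      intro z hz
      rw [grad17 hG hF hu hFs hψs hrp hz]
      exact hgr _
    have hall := dense17 hG h00 hψs (dom_dense hG hF h00 hu) hon
    have hDl : 0 ≤ D / l := div_nonneg hD0 hl.le
    have hlip := hR.lip 0 h00 _ hψs (D / l) hDl hall x y
    rw [← hrp x hx, ← hrp y hy, ← mul_sub, abs_mul, abs_of_pos hl]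
    calc l * |a.Res l 0 f x - a.Res l 0 f y|
        ≤ l * (D / l * a.dist 0 x y) := mul_le_mul_of_nonneg_left hlip hl.le
      _ = D * a.dist 0 x y := by field_simp
  have hx' := hR.res_lim u hu φ hφ L D hL hD (a.Fl 0 u x)
  have hy' := hR.res_lim u hu φ hφ L D hL hD (a.Fl 0 u y)
  have hlim := (hx'.sub hy').abs
  refine le_of_tendsto hlim ?_
  filter_upwards [eventually_gt_atTop (0 : ℝ)] with l hl
  exact key l hl

/-- truncated distance functions -/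
private theorem trunc17 (hR : a.Rcd) {u : ℝ} (hu : u ∈ Icc 0 a.U) (x : a.M) {R : ℝ}
    (hR0 : 0 ≤ R) :
    Continuous (fun z => min (a.dist u x z) R) ∧ (∀ z, |min (a.dist u x z) R| ≤ R) ∧
      ∀ z w, |min (a.dist u x z) R - min (a.dist u x w) R| ≤ 1 * a.dist u z w := by
  refine ⟨(hR.dist_cont u hu x).min continuous_const, fun z => ?_, fun z w => ?_⟩
  · rw [abs_of_nonneg (le_min (hR.dist_nonneg u hu x z) hR0)]
    exact min_le_right _ _
  · refine (abs_min_sub_min_le_max _ _ _ _).trans ?_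
    rw [sub_self, abs_zero, one_mul]
    refine max_le ?_ (hR.dist_nonneg u hu z w)
    have h1 := hR.dist_tri u hu x z w
    have h2 := hR.dist_tri u hu x w z
    rw [hR.dist_comm u hu w z] at h2
    rw [abs_le]
    constructor <;> linarith

theorem isometry (hG : a.Geom C h0) (hF : a.Flow) (hR : a.Rcd) {u : ℝ} (hu : u ∈ Icc 0 a.U) :
    ∀ x ∈ a.Dom 0 u, ∀ y ∈ a.Dom 0 u,
      a.dist u (a.Fl 0 u x) (a.Fl 0 u y) = a.dist 0 x y := by
  intro x hx y hy
  have h00 : (0 : ℝ) ∈ Icc 0 a.U := ⟨le_rfl, hG.U_pos.le⟩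
  obtain ⟨hx1, hx2⟩ := hF.inv 0 h00 u hu x hx
  obtain ⟨hy1, hy2⟩ := hF.inv 0 h00 u hu y hy
  apply le_antisymm
  · set R := a.dist u (a.Fl 0 u x) (a.Fl 0 u y) with hRd
    have hR0 : 0 ≤ R := hR.dist_nonneg u hu _ _
    obtain ⟨t1, t2, t3⟩ := trunc17 hR hu (a.Fl 0 u x) hR0
    have h := lip_forw hG hF hR hu t1 zero_le_one t2 t3 x hx y hy
    rw [hR.dist_self u hu, min_eq_left hR0, ← hRd, min_self, zero_sub, abs_neg,
      abs_of_nonneg hR0, one_mul] at h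
    exact h
  · set R := a.dist 0 x y with hRd
    have hR0 : 0 ≤ R := hR.dist_nonneg 0 h00 _ _
    obtain ⟨t1, t2, t3⟩ := trunc17 hR h00 x hR0
    have h := lip_back hG hF hR hu t1 zero_le_one t2 t3 _ hx1 _ hy1
    rw [hx2, hy2, hR.dist_self 0 h00, min_eq_left hR0, ← hRd, min_self, zero_sub, abs_neg,
      abs_of_nonneg hR0, one_mul] at h
    exact h

end Pool.Agent.SYR.Arc
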