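import Pool.Agent.SYR.Defs

/-!
# SYR/Nrm : the Frobenius norm

`Mathlib` has `Matrix.frobeniusNormedAddCommGroup` (a local instance), `Matrix.frobenius_norm_def`,
`Matrix.frobenius_norm_mul`; the norm of this instance is `nrm`.
-/

set_option autoImplicit false
set_option linter.unusedSectionVars false
set_option linter.unusedVariables false

open Matrix

namespace Pool.Agent.SYR

variable {ι : Type} [Fintype ι] [DecidableEq ι] {I J K P τ A B C : Matrix ι ι ℝ}

theorem ip_eq_trace : ip A B = (Aᵀ * B).trace := by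
  unfold ip Matrix.trace
  rw [Finset.sum_comm]
  refine Finset.sum_congr rfl fun i _ => ?_
  rw [Matrix.diag_apply, Matrix.mul_apply]
  rfl

theorem ip_comm : ip A B = ip B A := by
  unfold ip
  refine Finset.sum_congr rfl fun i _ => Finset.sum_congr rfl fun j _ => mul_comm _ _

theorem ip_add_left : ip (A + B) C = ip A C + ip B C := by
  unfold ip
  simp only [Matrix.add_apply, add_mul, Finset.sum_add_distrib]

theorem ip_add_right : ip A (B + C) = ip A B + ip A C := by
  unfold ip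
  simp only [Matrix.add_apply, mul_add, Finset.sum_add_distrib]

theorem ip_smul_left (c : ℝ) : ip (c • A) B = c * ip A B := by
  unfold ip
  simp only [Matrix.smul_apply, smul_eq_mul, Finset.mul_sum, mul_assoc]

theorem ip_smul_right (c : ℝ) : ip A (c • B) = c * ip A B := by
  rw [ip_comm, ip_smul_left, ip_comm]

theorem ip_neg_left : ip (-A) B = -ip A B := by
  unfold ip
  simp only [Matrix.neg_apply, neg_mul, Finset.sum_neg_distrib]

theorem ip_neg_right : ip A (-B) = -ip A B := by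
  rw [ip_comm, ip_neg_left, ip_comm]

theorem nsq_nonneg : 0 ≤ nsq A := by
  unfold nsq ip
  exact Finset.sum_nonneg fun i _ => Finset.sum_nonneg fun j _ => mul_self_nonneg _

theorem nsq_add : nsq (A + B) = nsq A + 2 * ip A B + nsq B := by
  unfold nsq
  rw [ip_add_left, ip_add_right, ip_add_right, ip_comm (A := B) (B := A)]
  ring

theorem nsq_smul (c : ℝ) : nsq (c • A) = c ^ 2 * nsq A := by
  unfold nsq
  rw [ip_smul_left, ip_smul_right]
  ring

theorem nrm_nonneg : 0 ≤ nrm A := Real.sqrt_nonneg _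

theorem nrm_sq : nrm A ^ 2 = nsq A := Real.sq_sqrt nsq_nonneg

private theorem ip_prod83 : ip A B = ∑ x : ι × ι, A x.1 x.2 * B x.1 x.2 := by
  unfold ip
  rw [Fintype.sum_prod_type]

theorem abs_ip_le : |ip A B| ≤ nrm A * nrm B := by
  have h : ip A B ^ 2 ≤ nsq A * nsq B := by
    have := Finset.sum_mul_sq_le_sq_mul_sq (Finset.univ : Finset (ι × ι))
      (fun x => A x.1 x.2) (fun x => B x.1 x.2)
    unfold nsq
    rw [ip_prod83, ip_prod83 (A := A) (B := A), ip_prod83 (A := B) (B := B)]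
    simpa only [sq] using this
  rw [← nrm_sq, ← nrm_sq, ← mul_pow] at h
  exact abs_le_of_sq_le_sq h (mul_nonneg nrm_nonneg nrm_nonneg)

private theorem le_of_nsq83 {c : ℝ} (hc : 0 ≤ c) (h : nsq A ≤ c ^ 2) : nrm A ≤ c := by
  rw [← nrm_sq] at h
  exact (pow_le_pow_iff_left₀ nrm_nonneg hc two_ne_zero).1 h

theorem nrm_add_le : nrm (A + B) ≤ nrm A + nrm B := by
  apply le_of_nsq83 (add_nonneg nrm_nonneg nrm_nonneg)
  rw [nsq_add, ← nrm_sq, ← nrm_sq]
  have := (abs_le.1 (abs_ip_le (A := A) (B := B))).2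
  nlinarith

theorem nrm_smul (c : ℝ) : nrm (c • A) = |c| * nrm A := by
  unfold nrm
  rw [nsq_smul, Real.sqrt_mul (sq_nonneg c), Real.sqrt_sq_eq_abs]

theorem nrm_neg : nrm (-A) = nrm A := by
  unfold nrm nsq
  rw [ip_neg_left, ip_neg_right, neg_neg]

theorem nrm_sub_le : nrm (A - B) ≤ nrm A + nrm B := by
  rw [sub_eq_add_neg]
  refine nrm_add_le.trans ?_
  rw [nrm_neg]

theorem nrm_transpose : nrm Aᵀ = nrm A := by
  unfold nrm nsq ip
  rw [Finset.sum_comm]
  rfl

theorem nrm_mul_le : nrm (A * B) ≤ nrm A * nrm B := by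
  apply le_of_nsq83 (mul_nonneg nrm_nonneg nrm_nonneg)
  rw [mul_pow, nrm_sq, ← nrm_transpose (A := B), nrm_sq]
  unfold nsq ip
  have h1 : ∀ i j : ι, (A * B) i j * (A * B) i j ≤ (∑ k, A i k * A i k) * ∑ k, Bᵀ j k * Bᵀ j k := by
    intro i j
    have := Finset.sum_mul_sq_le_sq_mul_sq (Finset.univ : Finset ι) (fun k => A i k) (fun k => B k j)
    rw [Matrix.mul_apply, ← sq]
    simpa only [sq, Matrix.transpose_apply] using this
  calc ∑ i, ∑ j, (A * B) i j * (A * B) i j
      ≤ ∑ i, ∑ j, (∑ k, A i k * A i k) * ∑ k, Bᵀ j k * Bᵀ j k :=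
        Finset.sum_le_sum fun i _ => Finset.sum_le_sum fun j _ => h1 i j
    _ = _ := by rw [Finset.sum_mul_sum]

private theorem nsq_one83 : nsq (1 : Matrix ι ι ℝ) = Fintype.card ι := by
  unfold nsq
  rw [ip_eq_trace, Matrix.transpose_one, Matrix.one_mul, Matrix.trace_one]

theorem nrm_one : nrm (1 : Matrix ι ι ℝ) = Real.sqrt (Fintype.card ι) := by
  unfold nrm
  rw [nsq_one83]

theorem abs_trace_le : |A.trace| ≤ Real.sqrt (Fintype.card ι) * nrm A := by
  have h := abs_ip_le (A := (1 : Matrix ι ι ℝ)) (B := A)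
  rwa [ip_eq_trace, Matrix.transpose_one, Matrix.one_mul, nrm_one] at h

/-- `|tr (A B)| ≤ |A| |B|` -/
theorem abs_trace_mul_le : |(A * B).trace| ≤ nrm A * nrm B := by
  have h := abs_ip_le (A := Aᵀ) (B := B)
  rwa [ip_eq_trace, Matrix.transpose_transpose, nrm_transpose] at h

theorem abs_apply_le (i j : ι) : |A i j| ≤ nrm A := by
  apply Real.abs_le_sqrt
  unfold nsq
  rw [ip_prod83, sq]
  exact Finset.single_le_sum (f := fun x : ι × ι => A x.1 x.2 * A x.1 x.2)
    (fun x _ => mul_self_nonneg _) (Finset.mem_univ (i, j))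

/-- multiplication by an orthogonal matrix -/
theorem ip_orth_left (hA : Aᵀ * A = 1) : ip (A * B) (A * C) = ip B C := by
  rw [ip_eq_trace, ip_eq_trace, Matrix.transpose_mul, Matrix.mul_assoc, ← Matrix.mul_assoc Aᵀ A C,
    hA, Matrix.one_mul]

theorem ip_orth_right (hA : A * Aᵀ = 1) : ip (B * A) (C * A) = ip B C := by
  rw [ip_eq_trace, ip_eq_trace, Matrix.transpose_mul, Matrix.mul_assoc, Matrix.trace_mul_comm,
    Matrix.mul_assoc, Matrix.mul_assoc, hA, Matrix.mul_one]

theorem trace_gm : (gm P).trace = nsq P := by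
  unfold gm nsq
  rw [ip_eq_trace]

/-- `|Pᵀ Y P| ≤ |Y| tr (Pᵀ P)` -/
theorem nrm_conj_le : nrm (Pᵀ * A * P) ≤ nrm A * (gm P).trace := by
  rw [trace_gm, ← nrm_sq]
  calc nrm (Pᵀ * A * P) ≤ nrm (Pᵀ * A) * nrm P := nrm_mul_le
    _ ≤ (nrm Pᵀ * nrm A) * nrm P := mul_le_mul_of_nonneg_right nrm_mul_le nrm_nonneg
    _ = _ := by rw [nrm_transpose]; ring

theorem nrm_gm_le : nrm (gm P) ≤ (gm P).trace := by
  rw [trace_gm, ← nrm_sq]
  unfold gm
  refine nrm_mul_le.trans ?_
  rw [nrm_transpose, sq]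

/-- `|Pᵀ v|² ≤ |v|² tr (Pᵀ P)` -/
theorem vsq_mulVec_le (v : ι → ℝ) : vsq (Pᵀ *ᵥ v) ≤ vsq v * (gm P).trace := by
  rw [trace_gm]
  unfold vsq nsq ip
  rw [Finset.sum_comm (f := fun i j => P i j * P i j), Finset.mul_sum]
  refine Finset.sum_le_sum fun j _ => ?_
  have := Finset.sum_mul_sq_le_sq_mul_sq (Finset.univ : Finset ι) (fun i => v i) (fun i => P i j)
  have h2 : (Pᵀ *ᵥ v) j = ∑ i, v i * P i j := by
    unfold Matrix.mulVec dotProduct
    exact Finset.sum_congr rfl fun i _ => mul_comm (P i j) (v i)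
  rw [h2]
  refine this.trans (le_of_eq ?_)
  simp only [sq]

section quat

variable (hq : Quat I J K)
include hq

private theorem Quat.tII83 : Iᵀ * I = 1 := by rw [hq.It, Matrix.neg_mul, hq.II, neg_neg]

private theorem Quat.tJJ83 : Jᵀ * J = 1 := by rw [hq.Jt, Matrix.neg_mul, hq.JJ, neg_neg]

private theorem Quat.tKK83 : Kᵀ * K = 1 := by rw [hq.Kt, Matrix.neg_mul, hq.KK, neg_neg]

private theorem Quat.IIt83 : I * Iᵀ = 1 := by rw [hq.It, Matrix.mul_neg, hq.II, neg_neg]

private theorem Quat.JJt83 : J * Jᵀ = 1 := by rw [hq.Jt, Matrix.mul_neg, hq.JJ, neg_neg]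

theorem Quat.ip_I_left : ip (I * A) (I * B) = ip A B := ip_orth_left hq.tII83

theorem Quat.ip_J_left : ip (J * A) (J * B) = ip A B := ip_orth_left hq.tJJ83

theorem Quat.ip_K_left : ip (K * A) (K * B) = ip A B := ip_orth_left hq.tKK83

theorem Quat.ip_I_right : ip (A * I) (B * I) = ip A B := ip_orth_right hq.IIt83

theorem Quat.nrm_I_left : nrm (I * A) = nrm A := by
  unfold nrm nsq
  rw [hq.ip_I_left]

theorem Quat.nrm_J_left : nrm (J * A) = nrm A := by
  unfold nrm nsq
  rw [hq.ip_J_left]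

theorem Quat.nrm_K_left : nrm (K * A) = nrm A := by
  unfold nrm nsq
  rw [hq.ip_K_left]

theorem Quat.nrm_I_right : nrm (A * I) = nrm A := by
  unfold nrm nsq
  rw [hq.ip_I_right]

theorem Quat.nrm_J_right : nrm (A * J) = nrm A := by
  unfold nrm nsq
  rw [ip_orth_right hq.JJt83]

theorem Quat.nrm_her_le : nrm (her I A) ≤ nrm A := by
  unfold her
  rw [nrm_smul]
  have h1 : nrm (A * I + I * A) ≤ nrm A + nrm A := by
    refine nrm_add_le.trans ?_
    rw [hq.nrm_I_left, hq.nrm_I_right]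
  have h2 : |(-(1 / 2) : ℝ)| = 1 / 2 := by rw [abs_neg]; exact abs_of_pos (by norm_num)
  rw [h2]
  linarith

theorem Quat.nrm_two_le : nrm (two I A) ≤ nrm A := by
  unfold two
  rw [nrm_smul]
  have h1 : nrm (A + I * A * I) ≤ nrm A + nrm A := by
    refine nrm_add_le.trans ?_
    rw [hq.nrm_I_right, hq.nrm_I_left]
  have h2 : |(1 / 2 : ℝ)| = 1 / 2 := abs_of_pos (by norm_num)
  rw [h2]
  linarith

theorem Quat.nrm_lam_le : nrm (lam J A) ≤ nrm A := by
  unfold lam
  rw [nrm_smul]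
  have h1 : nrm (A + J * A * J) ≤ nrm A + nrm A := by
    refine nrm_add_le.trans ?_
    rw [hq.nrm_J_right, hq.nrm_J_left]
  have h2 : |(1 / 2 : ℝ)| = 1 / 2 := abs_of_pos (by norm_num)
  rw [h2]
  linarith

/-- orthogonal decomposition of a skew matrix -/
theorem Quat.nsq_eq (hA : Aᵀ = -A) : nsq A = nsq (her I A) + nsq (two I A) := by
  have e1 : her I A = ((-(1 / 2) : ℝ) • (A + -(I * A * I))) * I := by
    unfold her
    rw [Matrix.smul_mul, Matrix.add_mul, Matrix.neg_mul, Matrix.mul_assoc (I * A) I I, hq.II,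
      Matrix.mul_neg, Matrix.mul_one, neg_neg]
  have e2 : nsq (her I A) = (1 / 4 : ℝ) * nsq (A + -(I * A * I)) := by
    rw [e1]
    have : nsq (((-(1 / 2) : ℝ) • (A + -(I * A * I))) * I) = nsq ((-(1 / 2) : ℝ) • (A + -(I * A * I))) := by
      unfold nsq
      exact hq.ip_I_right
    rw [this, nsq_smul]
    norm_num
  have e3 : nsq (two I A) = (1 / 4 : ℝ) * nsq (A + I * A * I) := by
    unfold two
    rw [nsq_smul]
    norm_num
  have e4 : nsq (I * A * I) = nsq A := by
    unfold nsq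
    rw [hq.ip_I_right, hq.ip_I_left]
  have e5 : nsq (-(I * A * I)) = nsq (I * A * I) := by
    unfold nsq
    rw [ip_neg_left, ip_neg_right, neg_neg]
  rw [e2, e3, nsq_add, nsq_add, ip_neg_right, e5, e4]
  ring

/-- the trace of the hermitian form -/
theorem Quat.ip_I (hA : Aᵀ = -A) : ip I A = (her I A).trace := by
  unfold her
  rw [ip_eq_trace, hq.It, Matrix.neg_mul, Matrix.trace_neg, Matrix.trace_smul, Matrix.trace_add,
    Matrix.trace_mul_comm A I, smul_eq_mul]
  ring

theorem Quat.her_I : her I I = 1 := by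
  unfold her
  rw [hq.II, ← neg_add, smul_neg, neg_smul, neg_neg, ← two_smul ℝ (1 : Matrix ι ι ℝ), smul_smul]
  norm_num

theorem Quat.two_I : two I I = 0 := by
  unfold two
  rw [hq.II, Matrix.neg_mul, Matrix.one_mul, add_neg_cancel, smul_zero]

theorem Quat.her_K : her I K = 0 := by
  unfold her
  rw [hq.KI, hq.IK, add_neg_cancel, smul_zero]

theorem Quat.two_K : two I K = K := by
  unfold two
  rw [hq.IK, Matrix.neg_mul, hq.JI, neg_neg, ← two_smul ℝ K, smul_smul]
  norm_num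

theorem Quat.nsq_I : nsq I = Fintype.card ι := by
  unfold nsq
  rw [ip_eq_trace, hq.tII83, Matrix.trace_one]

theorem Quat.nsq_K : nsq K = Fintype.card ι := by
  unfold nsq
  rw [ip_eq_trace, hq.tKK83, Matrix.trace_one]

theorem Quat.nrm_om_le : nrm (om I P) ≤ (gm P).trace := by
  rw [trace_gm, ← nrm_sq]
  unfold om
  rw [Matrix.mul_assoc]
  refine nrm_mul_le.trans ?_
  rw [nrm_transpose, hq.nrm_I_left, sq]

end quat

theorem her_add : her I (A + B) = her I A + her I B := by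
  unfold her
  rw [← smul_add, Matrix.add_mul, Matrix.mul_add]
  congr 1
  abel

theorem her_sub : her I (A - B) = her I A - her I B := by
  unfold her
  rw [← smul_sub, Matrix.sub_mul, Matrix.mul_sub]
  congr 1
  abel

theorem her_smul (c : ℝ) : her I (c • A) = c • her I A := by
  unfold her
  rw [Matrix.smul_mul, Matrix.mul_smul, ← smul_add, smul_comm]

theorem two_add : two I (A + B) = two I A + two I B := by
  unfold two
  rw [← smul_add, Matrix.mul_add, Matrix.add_mul]
  congr 1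
  abel

theorem two_sub : two I (A - B) = two I A - two I B := by
  unfold two
  rw [← smul_sub, Matrix.mul_sub, Matrix.sub_mul]
  congr 1
  abel

theorem two_smul' (c : ℝ) : two I (c • A) = c • two I A := by
  unfold two
  rw [Matrix.mul_smul, Matrix.smul_mul, ← smul_add, smul_comm]

theorem her_symm (hI : Iᵀ = -I) (hA : Aᵀ = -A) : (her I A)ᵀ = her I A := by
  unfold her
  rw [Matrix.transpose_smul, Matrix.transpose_add, Matrix.transpose_mul, Matrix.transpose_mul, hI,
    hA, neg_mul_neg, neg_mul_neg, add_comm]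

theorem om_skew (hI : Iᵀ = -I) : (om I P)ᵀ = -om I P := by
  unfold om
  rw [Matrix.transpose_mul, Matrix.transpose_mul, Matrix.transpose_transpose, hI, Matrix.neg_mul,
    Matrix.mul_neg, ← Matrix.mul_assoc]

theorem abs_Q_le (hq : Quat I J K) :
    |Q I A B| ≤ (1 + Fintype.card ι) * nrm A * nrm B := by
  have hN : (0 : ℝ) ≤ Fintype.card ι := Nat.cast_nonneg _
  have a0 : 0 ≤ nrm A := nrm_nonneg
  have b0 : 0 ≤ nrm B := nrm_nonneg
  have hI : nrm I ^ 2 = Fintype.card ι := by rw [nrm_sq, hq.nsq_I]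
  have h1 : |ip I A * ip I B| ≤ Fintype.card ι * (nrm A * nrm B) := by
    rw [abs_mul, ← hI]
    calc |ip I A| * |ip I B| ≤ (nrm I * nrm A) * (nrm I * nrm B) :=
          mul_le_mul abs_ip_le abs_ip_le (abs_nonneg _) (mul_nonneg nrm_nonneg nrm_nonneg)
      _ = _ := by ring
  have h2 : |ip (her I A) (her I B)| ≤ nrm A * nrm B :=
    abs_ip_le.trans (mul_le_mul hq.nrm_her_le hq.nrm_her_le nrm_nonneg nrm_nonneg)
  have h3 : |ip (two I A) (two I B)| ≤ nrm A * nrm B :=
    abs_ip_le.trans (mul_le_mul hq.nrm_two_le hq.nrm_two_le nrm_nonneg nrm_nonneg)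
  unfold Q
  rw [abs_le] at h1 h2 h3 ⊢
  have h4 : 0 ≤ (Fintype.card ι : ℝ) * (nrm A * nrm B) := mul_nonneg hN (mul_nonneg a0 b0)
  constructor <;> nlinarith [h1.1, h1.2, h2.1, h2.2, h3.1, h3.2]

end Pool.Agent.SYR
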