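import Pool.Agent.SYR.Arc
import Pool.Agent.SYR.Symp

/-!
# SYR/Null : almost every trajectory exists for all times

For `x ∉ Dom s t` and each `j` there is `r ∈ uIcc s t` with `x ∈ Dom s r`, `χ_j (Fl s r x) = 0`
(`blow`), so `χ_j x = χ_j x - χ_j (Fl s r x) ≤ ∫ |dχ_j · W| along the trajectory up to r`
(`deriv`, `deriv_cont`, fundamental theorem), `|dl φ · W_q| ≤ C sqrt (pr q dφ dφ)` (`W_bdd`).
Integrate over `x` (Tonelli with `meas`, `pres`): `∫_{x ∉ Dom s t} χ_j ≤ C ∫_s^t ∫ sqrt (pr q dχ_j dχ_j)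
≤ C |t - s| (V ε_j)^(1/2) → 0`.
-/

set_option autoImplicit false

open Matrix MeasureTheory Filter Topology Set
open scoped ENNReal

namespace Pool.Agent.SYR.Arc

variable {ι : Type} [Fintype ι] [DecidableEq ι] {a : Arc ι} {C h0 : ℝ}

private theorem vsq_eq_dot (v : ι → ℝ) : vsq v = v ⬝ᵥ v := by
  simp [vsq, dotProduct, sq]

private theorem vsq_nn (v : ι → ℝ) : 0 ≤ vsq v := by
  unfold vsq; positivity

private theorem pr_nn (u : ℝ) (x : a.M) (v : ι → ℝ) : 0 ≤ a.pr u x v v := by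
  unfold pr
  rw [← vsq_eq_dot]
  exact vsq_nn _

theorem dl_W_le (hG : a.Geom C h0) {u : ℝ} (hu : u ∈ Icc 0 a.U) (x : a.M) (v : ι → ℝ) :
    |v ⬝ᵥ a.W u x| ≤ C * Real.sqrt (a.pr u x v v) := by
  have hinv := hG.inv u hu x
  have h1 : v ⬝ᵥ a.W u x = a.co u x v ⬝ᵥ (a.P u x *ᵥ a.W u x) := by
    unfold co
    rw [Matrix.dotProduct_mulVec, Matrix.mulVec_transpose, Matrix.vecMul_vecMul,
      Matrix.nonsing_inv_mul _ hinv, Matrix.vecMul_one]
  rw [h1]
  refine (abs_dot_le _ _).trans ?_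
  have h2 : Real.sqrt (vsq (a.P u x *ᵥ a.W u x)) ≤ C := by
    rw [Real.sqrt_le_left hG.C_nonneg]
    exact hG.W_bdd u hu x
  have h3 : vsq (a.co u x v) = a.pr u x v v := by
    unfold pr; exact vsq_eq_dot _
  rw [h3, mul_comm]
  exact mul_le_mul_of_nonneg_right h2 (Real.sqrt_nonneg _)

/-- the pointwise estimate along a trajectory which blows up -/
private theorem chi_le (hG : a.Geom C h0) (hF : a.Flow) {s t : ℝ} (hs : s ∈ Icc 0 a.U)
    (ht : t ∈ Icc 0 a.U) {x : a.M} (hx : x ∉ a.Dom s t) {φ : a.M → ℝ} (hφ : φ ∈ a.cs) :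
    ENNReal.ofReal (φ x) ≤ ∫⁻ r in uIoc s t,
      ({z : ℝ × a.M | z.1 ∈ Icc 0 a.U ∧ z.2 ∈ a.Dom s z.1}.indicator
        (fun z => ENNReal.ofReal
          |a.dl φ (a.Fl s z.1 z.2) ⬝ᵥ a.W z.1 (a.Fl s z.1 z.2)|)) (r, x) := by
  obtain ⟨r, hr, hxr, h0⟩ := hF.blow s hs t ht x hx φ hφ
  have hsub : uIcc s t ⊆ Icc 0 a.U := (convex_Icc (0 : ℝ) a.U).ordConnected.uIcc_subset hs ht
  have hrU : r ∈ Icc 0 a.U := hsub hr
  have hsm := hG.cs_sm hφ
  have hsub2 : uIcc s r ⊆ uIcc s t := uIcc_subset_uIcc_left hr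
  have hcont := hF.deriv_cont φ hsm s hs r hrU x hxr
  have hder := hF.deriv φ hsm s hs r hrU x hxr
  -- fundamental theorem of calculus
  have hftc : ∫ q in s..r, a.dl φ (a.Fl s q x) ⬝ᵥ a.W q (a.Fl s q x) =
      φ (a.Fl s r x) - φ (a.Fl s s x) := by
    apply intervalIntegral.integral_eq_sub_of_hasDeriv_right
      (f := fun q => φ (a.Fl s q x))
    · exact fun q hq => (hder q hq).continuousWithinAt
    · intro q hq
      have hq' : q ∈ uIcc s r := ⟨hq.1.le, hq.2.le⟩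
      have hn : uIcc s r ∈ 𝓝 q := by
        rw [uIcc]
        exact Icc_mem_nhds hq.1 hq.2
      exact ((hder q hq').hasDerivAt hn).hasDerivWithinAt
    · exact hcont.intervalIntegrable
  rw [h0, (hF.self s hs x).2, zero_sub] at hftc
  have h1 : φ x ≤ ∫ q in uIoc s r, |a.dl φ (a.Fl s q x) ⬝ᵥ a.W q (a.Fl s q x)| := by
    have h2 := intervalIntegral.abs_integral_le_integral_abs (μ := volume) (a := s) (b := r)
      (f := fun q => a.dl φ (a.Fl s q x) ⬝ᵥ a.W q (a.Fl s q x))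
    have h3 := intervalIntegral.norm_integral_le_integral_norm_uIoc (μ := volume) (a := s) (b := r)
      (f := fun q => a.dl φ (a.Fl s q x) ⬝ᵥ a.W q (a.Fl s q x))
    rw [hftc, norm_neg, Real.norm_eq_abs] at h3
    exact (le_abs_self _).trans h3
  have hint : IntegrableOn (fun q => |a.dl φ (a.Fl s q x) ⬝ᵥ a.W q (a.Fl s q x)|)
      (uIoc s r) volume := by
    have h4 : ContinuousOn (fun q => |a.dl φ (a.Fl s q x) ⬝ᵥ a.W q (a.Fl s q x)|) (uIcc s r) :=
      hcont.abs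
    exact (h4.integrableOn_compact isCompact_uIcc).mono_set uIoc_subset_uIcc
  calc ENNReal.ofReal (φ x)
      ≤ ENNReal.ofReal (∫ q in uIoc s r, |a.dl φ (a.Fl s q x) ⬝ᵥ a.W q (a.Fl s q x)|) :=
        ENNReal.ofReal_le_ofReal h1
    _ = ∫⁻ q in uIoc s r, ENNReal.ofReal |a.dl φ (a.Fl s q x) ⬝ᵥ a.W q (a.Fl s q x)| := by
        rw [ofReal_integral_eq_lintegral_ofReal hint (ae_of_all _ fun _ => abs_nonneg _)]
    _ = ∫⁻ q in uIoc s r,
        ({z : ℝ × a.M | z.1 ∈ Icc 0 a.U ∧ z.2 ∈ a.Dom s z.1}.indicator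
        (fun z => ENNReal.ofReal
          |a.dl φ (a.Fl s z.1 z.2) ⬝ᵥ a.W z.1 (a.Fl s z.1 z.2)|)) (q, x) := by
        refine setLIntegral_congr_fun measurableSet_uIoc ?_
        intro q hq
        have hq' : q ∈ uIcc s r := uIoc_subset_uIcc hq
        have hmem : (q, x) ∈ {z : ℝ × a.M | z.1 ∈ Icc 0 a.U ∧ z.2 ∈ a.Dom s z.1} :=
          ⟨hsub (hsub2 hq'), (hF.comp s hs r hrU q hq' x hxr).1⟩
        simp only [indicator_of_mem hmem]
    _ ≤ _ := lintegral_mono_set (by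
        intro q hq
        rcases mem_uIoc.1 hq with h | h
        · rcases mem_uIcc.1 hr with h' | h'
          · exact mem_uIoc.2 (Or.inl ⟨h.1, h.2.trans h'.2⟩)
          · exact absurd (h.1.trans_le h.2) (not_lt.2 h'.2)
        · rcases mem_uIcc.1 hr with h' | h'
          · exact absurd (h.1.trans_le h.2) (not_lt.2 h'.1)
          · exact mem_uIoc.2 (Or.inr ⟨h'.1.trans_lt h.1, h.2⟩))

/-- the integral of the bound for a cut-off function -/
private theorem lint_dl_W (hG : a.Geom C h0) {φ : a.M → ℝ} (hφ : φ ∈ a.cs) {e δ : ℝ} (hδ : 0 < δ)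
    {u : ℝ} (hu : u ∈ Icc 0 a.U) (he : ∫ x, a.pr u x (a.dl φ x) (a.dl φ x) ∂a.μ ≤ e) :
    ∫⁻ y, ENNReal.ofReal |a.dl φ y ⬝ᵥ a.W u y| ∂a.μ ≤
      ENNReal.ofReal (C * (δ * a.V + e / δ)) := by
  haveI := hG.fin
  obtain ⟨L, hL⟩ := hG.c_bdd φ hφ
  have hcon := hG.pr_cont u hu φ (hG.cs_sm hφ)
  have hint : Integrable (fun x => a.pr u x (a.dl φ x) (a.dl φ x)) a.μ := by
    refine Integrable.of_bound hcon.measurable.aestronglyMeasurable L (ae_of_all _ fun x => ?_)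
    rw [Real.norm_eq_abs, abs_of_nonneg (pr_nn u x _)]
    exact hL u hu x
  have hpt : ∀ y, |a.dl φ y ⬝ᵥ a.W u y| ≤ C * (δ + a.pr u y (a.dl φ y) (a.dl φ y) / δ) := by
    intro y
    refine (dl_W_le hG hu y _).trans (mul_le_mul_of_nonneg_left ?_ hG.C_nonneg)
    set p := a.pr u y (a.dl φ y) (a.dl φ y) with hp
    have hp0 : 0 ≤ p := pr_nn u y _
    have h1 : Real.sqrt p ≤ δ + p / δ := by
      rw [Real.sqrt_le_left (by positivity)]
      have h2 : p = δ * (p / δ) := by field_simp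
      nlinarith [div_nonneg hp0 hδ.le, sq_nonneg δ, sq_nonneg (p / δ)]
    exact h1
  have hint2 : Integrable (fun x => C * (δ + a.pr u x (a.dl φ x) (a.dl φ x) / δ)) a.μ :=
    ((integrable_const _).add (hint.div_const _)).const_mul _
  calc ∫⁻ y, ENNReal.ofReal |a.dl φ y ⬝ᵥ a.W u y| ∂a.μ
      ≤ ∫⁻ y, ENNReal.ofReal (C * (δ + a.pr u y (a.dl φ y) (a.dl φ y) / δ)) ∂a.μ :=
        lintegral_mono fun y => ENNReal.ofReal_le_ofReal (hpt y)
    _ = ENNReal.ofReal (∫ y, C * (δ + a.pr u y (a.dl φ y) (a.dl φ y) / δ) ∂a.μ) := by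
        rw [ofReal_integral_eq_lintegral_ofReal hint2]
        exact ae_of_all _ fun y => mul_nonneg hG.C_nonneg
          (add_nonneg hδ.le (div_nonneg (pr_nn u y _) hδ.le))
    _ ≤ _ := by
        refine ENNReal.ofReal_le_ofReal ?_
        rw [integral_const_mul, integral_add (integrable_const _) (hint.div_const _),
          integral_const, integral_div, smul_eq_mul]
        refine mul_le_mul_of_nonneg_left ?_ hG.C_nonneg
        have h5 : (∫ x, a.pr u x (a.dl φ x) (a.dl φ x) ∂a.μ) / δ ≤ e / δ :=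
          div_le_div_of_nonneg_right he hδ.le
        unfold V
        linarith [mul_comm (a.μ.real univ) δ]

private theorem meas_key (hG : a.Geom C h0) (hF : a.Flow) {s : ℝ} (hs : s ∈ Icc 0 a.U)
    {φ : a.M → ℝ} (hφ : φ ∈ a.cs) :
    Measurable ({z : ℝ × a.M | z.1 ∈ Icc 0 a.U ∧ z.2 ∈ a.Dom s z.1}.indicator
        (fun z => ENNReal.ofReal
          |a.dl φ (a.Fl s z.1 z.2) ⬝ᵥ a.W z.1 (a.Fl s z.1 z.2)|)) := by
  obtain ⟨hm1, hm2⟩ := hF.meas s hs
  refine Measurable.indicator ?_ hm2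
  have hd := hG.dl_meas φ (hG.cs_sm hφ)
  have h1 : Measurable (fun z : ℝ × a.M => a.dl φ z.2 ⬝ᵥ a.W z.1 z.2) := by
    unfold dotProduct
    exact Finset.measurable_sum _ fun i _ => ((hd i).comp measurable_snd).mul (hG.W_meas i)
  have h2 : Measurable (fun z : ℝ × a.M => (z.1, a.Fl s z.1 z.2)) := measurable_fst.prodMk hm1
  have h3 := h1.comp h2
  have h4 : Measurable (fun z : ℝ × a.M =>
      |a.dl φ (a.Fl s z.1 z.2) ⬝ᵥ a.W z.1 (a.Fl s z.1 z.2)|) :=
    measurable_norm.comp h3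
  exact ENNReal.measurable_ofReal.comp h4

private theorem key_bound (hG : a.Geom C h0) (hF : a.Flow) {s t : ℝ} (hs : s ∈ Icc 0 a.U)
    (ht : t ∈ Icc 0 a.U) {φ : a.M → ℝ} (hφ : φ ∈ a.cs) {e δ : ℝ} (hδ : 0 < δ)
    (he : ∀ u ∈ Icc 0 a.U, ∫ x, a.pr u x (a.dl φ x) (a.dl φ x) ∂a.μ ≤ e) :
    ∫⁻ x in (a.Dom s t)ᶜ, ENNReal.ofReal (φ x) ∂a.μ ≤
      ENNReal.ofReal (C * (δ * a.V + e / δ)) * volume (uIoc s t) := by
  haveI := hG.fin
  have hsub : uIcc s t ⊆ Icc 0 a.U := (convex_Icc (0 : ℝ) a.U).ordConnected.uIcc_subset hs ht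
  set F : ℝ × a.M → ℝ≥0∞ := {z : ℝ × a.M | z.1 ∈ Icc 0 a.U ∧ z.2 ∈ a.Dom s z.1}.indicator
        (fun z => ENNReal.ofReal
          |a.dl φ (a.Fl s z.1 z.2) ⬝ᵥ a.W z.1 (a.Fl s z.1 z.2)|) with hFdef
  have hFm : Measurable F := meas_key hG hF hs hφ
  have hd := hG.dl_meas φ (hG.cs_sm hφ)
  have hWm : ∀ u, Measurable (fun y => ENNReal.ofReal |a.dl φ y ⬝ᵥ a.W u y|) := by
    intro u
    have h1 : Measurable (fun z : a.M => a.dl φ z ⬝ᵥ a.W u z) := by
      unfold dotProduct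
      exact Finset.measurable_sum _ fun i _ => (hd i).mul
        ((hG.W_meas i).comp (measurable_const.prodMk measurable_id))
    exact ENNReal.measurable_ofReal.comp (measurable_norm.comp h1)
  calc ∫⁻ x in (a.Dom s t)ᶜ, ENNReal.ofReal (φ x) ∂a.μ
      ≤ ∫⁻ x in (a.Dom s t)ᶜ, (∫⁻ r in uIoc s t, F (r, x)) ∂a.μ := by
        refine setLIntegral_mono' (hF.isOpen s hs t ht).measurableSet.compl fun x hx => ?_
        exact chi_le hG hF hs ht hx hφ
    _ ≤ ∫⁻ x, (∫⁻ r in uIoc s t, F (r, x)) ∂a.μ := setLIntegral_le_lintegral _ _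
    _ = ∫⁻ r in uIoc s t, (∫⁻ x, F (r, x) ∂a.μ) := by
        rw [lintegral_lintegral_swap]
        exact (hFm.comp measurable_swap).aemeasurable
    _ ≤ ∫⁻ r in uIoc s t, ENNReal.ofReal (C * (δ * a.V + e / δ)) := by
        refine setLIntegral_mono' measurableSet_uIoc fun r hr => ?_
        have hrU : r ∈ Icc 0 a.U := hsub (uIoc_subset_uIcc hr)
        have h1 : ∀ x, F (r, x) = (a.Dom s r).indicator
            (fun x => ENNReal.ofReal |a.dl φ (a.Fl s r x) ⬝ᵥ a.W r (a.Fl s r x)|) x := by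
          intro x
          by_cases hx : x ∈ a.Dom s r
          · have hmem : (r, x) ∈ {z : ℝ × a.M | z.1 ∈ Icc 0 a.U ∧ z.2 ∈ a.Dom s z.1} :=
              ⟨hrU, hx⟩
            rw [hFdef, indicator_of_mem hmem, indicator_of_mem hx]
          · have hmem : (r, x) ∉ {z : ℝ × a.M | z.1 ∈ Icc 0 a.U ∧ z.2 ∈ a.Dom s z.1} :=
              fun h => hx h.2
            rw [hFdef, indicator_of_notMem hmem, indicator_of_notMem hx]
        calc ∫⁻ x, F (r, x) ∂a.μ
            = ∫⁻ x in a.Dom s r,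
                ENNReal.ofReal |a.dl φ (a.Fl s r x) ⬝ᵥ a.W r (a.Fl s r x)| ∂a.μ := by
              rw [lintegral_congr h1, lintegral_indicator (hF.isOpen s hs r hrU).measurableSet]
          _ = ∫⁻ y in a.Dom r s, ENNReal.ofReal |a.dl φ y ⬝ᵥ a.W r y| ∂a.μ :=
              hF.pres s hs r hrU _ (hWm r)
          _ ≤ ∫⁻ y, ENNReal.ofReal |a.dl φ y ⬝ᵥ a.W r y| ∂a.μ := setLIntegral_le_lintegral _ _
          _ ≤ _ := lint_dl_W hG hφ hδ hrU (he r hrU)
    _ = _ := by rw [setLIntegral_const]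

theorem dom_null (hG : a.Geom C h0) (hF : a.Flow) {s t : ℝ} (hs : s ∈ Icc 0 a.U)
    (ht : t ∈ Icc 0 a.U) : a.μ (a.Dom s t)ᶜ = 0 := by
  haveI := hG.fin
  obtain ⟨ε, hε, hle⟩ := hG.c_sq
  have hV : volume (uIoc s t) ≠ ∞ := by
    rw [Real.volume_uIoc]; exact ENNReal.ofReal_ne_top
  have hNm : MeasurableSet (a.Dom s t)ᶜ := (hF.isOpen s hs t ht).measurableSet.compl
  -- the left side tends to the measure of the complement
  have hlim : Tendsto (fun j => ∫⁻ x in (a.Dom s t)ᶜ, ENNReal.ofReal (a.χ j x) ∂a.μ) atTop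
      (𝓝 (a.μ (a.Dom s t)ᶜ)) := by
    have h1 : a.μ (a.Dom s t)ᶜ = ∫⁻ x in (a.Dom s t)ᶜ, 1 ∂a.μ := by simp
    rw [h1]
    refine tendsto_lintegral_of_dominated_convergence (fun _ => 1) ?_ ?_ ?_ ?_
    · intro j
      exact ENNReal.measurable_ofReal.comp
        (hG.sm_cont _ (hG.cs_sm (hG.χ_cs j))).measurable
    · intro j
      refine ae_of_all _ fun x => ?_
      exact (ENNReal.ofReal_le_ofReal (hG.χ_le_one j x)).trans (by simp)
    · simp
    · refine ae_of_all _ fun x => ?_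
      have h2 := ENNReal.tendsto_ofReal (hG.χ_lim x)
      simpa using h2
  have hδ : ∀ δ : ℝ, 0 < δ → a.μ (a.Dom s t)ᶜ ≤
      ENNReal.ofReal (C * (δ * a.V)) * volume (uIoc s t) := by
    intro δ hδ
    have h1 : Tendsto (fun j => ENNReal.ofReal (C * (δ * a.V + ε j / δ)) * volume (uIoc s t))
        atTop (𝓝 (ENNReal.ofReal (C * (δ * a.V + 0 / δ)) * volume (uIoc s t))) := by
      refine ENNReal.Tendsto.mul_const (ENNReal.tendsto_ofReal ?_) (Or.inr hV)
      exact (tendsto_const_nhds.add (hε.div_const δ)).const_mul C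
    rw [zero_div, add_zero] at h1
    exact le_of_tendsto_of_tendsto' hlim h1 fun j =>
      key_bound hG hF hs ht (hG.χ_cs j) hδ fun u hu => hle j u hu
  have h2 : Tendsto (fun δ : ℝ => ENNReal.ofReal (C * (δ * a.V)) * volume (uIoc s t))
      (𝓝[>] 0) (𝓝 (ENNReal.ofReal (C * (0 * a.V)) * volume (uIoc s t))) := by
    refine ENNReal.Tendsto.mul_const (ENNReal.tendsto_ofReal ?_) (Or.inr hV)
    refine Tendsto.mono_left ?_ nhdsWithin_le_nhds
    exact ((tendsto_id (α := ℝ) (x := 𝓝 0)).mul_const a.V).const_mul C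
  have h3 : a.μ (a.Dom s t)ᶜ ≤ ENNReal.ofReal (C * (0 * a.V)) * volume (uIoc s t) := by
    refine ge_of_tendsto h2 ?_
    filter_upwards [self_mem_nhdsWithin] with δ hδ'
    exact hδ δ hδ'
  simpa using h3

theorem dom_dense (hG : a.Geom C h0) (hF : a.Flow) {s t : ℝ} (hs : s ∈ Icc 0 a.U)
    (ht : t ∈ Icc 0 a.U) : Dense (a.Dom s t) := by
  haveI := hG.pos
  have h := dom_null hG hF hs ht
  have h1 : ∀ᵐ x ∂a.μ, x ∈ a.Dom s t := by
    rw [ae_iff]
    exact h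
  exact Measure.dense_of_ae h1

open Classical in
/-- `f ∘ Fl s 0` -/
noncomputable def push (a : Arc ι) (f : a.M → ℝ) (s : ℝ) (x : a.M) : ℝ :=
  if x ∈ a.Dom s 0 then f (a.Fl s 0 x) else 0

theorem push_meas (hF : a.Flow) {f : a.M → ℝ} (hf : Measurable f) {s : ℝ}
    (hs : s ∈ Icc 0 a.U) : Measurable (a.push f s) := by
  classical
  have h0 : (0 : ℝ) ∈ Icc 0 a.U := ⟨le_rfl, hs.1.trans hs.2⟩
  have h1 : Measurable (a.Fl s 0) :=
    (hF.meas s hs).1.comp (measurable_const.prodMk measurable_id)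
  unfold push
  exact Measurable.ite (hF.isOpen s hs 0 h0).measurableSet (hf.comp h1) measurable_const

theorem push_le {f : a.M → ℝ} {L : ℝ} (hL : ∀ x, |f x| ≤ L) (hL0 : 0 ≤ L) (s : ℝ) (x : a.M) :
    |a.push f s x| ≤ L := by
  classical
  unfold push
  split_ifs with h
  · exact hL _
  · simpa using hL0

theorem push_zero (hF : a.Flow) (hU : 0 ≤ a.U) {f : a.M → ℝ} : a.push f 0 = f := by
  classical
  funext x
  have h := hF.self 0 ⟨le_rfl, hU⟩ x
  unfold push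
  rw [if_pos h.1, h.2]

private theorem fl_pres (hG : a.Geom C h0) (hF : a.Flow) {s t : ℝ} (hs : s ∈ Icc 0 a.U)
    (ht : t ∈ Icc 0 a.U) : MeasurePreserving (a.Fl s t) a.μ a.μ := by
  have hm : Measurable (a.Fl s t) :=
    (hF.meas s hs).1.comp (measurable_const.prodMk measurable_id)
  refine ⟨hm, ?_⟩
  have h1 : ∀ {p q : ℝ}, p ∈ Icc 0 a.U → q ∈ Icc 0 a.U → a.μ.restrict (a.Dom p q) = a.μ := by
    intro p q hp hq
    rw [Measure.restrict_eq_self_of_ae_mem]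
    rw [ae_iff]
    exact dom_null hG hF hp hq
  ext A hA
  rw [Measure.map_apply hm hA]
  have h2 := hF.pres s hs t ht (A.indicator 1) (measurable_one.indicator hA)
  rw [h1 hs ht, h1 ht hs] at h2
  have h3 : ∀ x, A.indicator (1 : a.M → ℝ≥0∞) (a.Fl s t x) =
      (a.Fl s t ⁻¹' A).indicator 1 x := by
    intro x; rfl
  rw [lintegral_congr h3, lintegral_indicator_one (hm hA), lintegral_indicator_one hA] at h2
  exact h2

/-- change of variables -/
theorem push_pair (hG : a.Geom C h0) (hF : a.Flow) {f φ : a.M → ℝ} (hf : Measurable f)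
    {L : ℝ} (hL : ∀ x, |f x| ≤ L) (hφ : Measurable φ) (hφi : Integrable φ a.μ) {s : ℝ}
    (hs : s ∈ Icc 0 a.U) :
    Integrable (fun y => f y * φ (a.Fl 0 s y)) a.μ ∧
      ∫ x, a.push f s x * φ x ∂a.μ = ∫ y, f y * φ (a.Fl 0 s y) ∂a.μ := by
  classical
  have h0 : (0 : ℝ) ∈ Icc 0 a.U := ⟨le_rfl, hs.1.trans hs.2⟩
  have hp := fl_pres hG hF h0 hs
  constructor
  · have h1 : Integrable (fun y => φ (a.Fl 0 s y)) a.μ := hp.integrable_comp_of_integrable hφi
    exact h1.bdd_mul (c := L) hf.aestronglyMeasurable (ae_of_all _ fun x => by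
      rw [Real.norm_eq_abs]; exact hL x)
  · have h2 : ∫ x, a.push f s x * φ x ∂a.μ =
        ∫ y, a.push f s (a.Fl 0 s y) * φ (a.Fl 0 s y) ∂a.μ := by
      have h3 := integral_map (μ := a.μ) hp.measurable.aemeasurable
        (f := fun x => a.push f s x * φ x)
        (((push_meas hF hf hs).mul hφ).aestronglyMeasurable)
      rw [hp.map_eq] at h3
      exact h3
    rw [h2]
    refine integral_congr_ae ?_
    have h4 : ∀ᵐ y ∂a.μ, y ∈ a.Dom 0 s := by
      rw [ae_iff]; exact dom_null hG hF h0 hs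
    filter_upwards [h4] with y hy
    obtain ⟨h5, h6⟩ := hF.inv 0 h0 s hs y hy
    have h7 : a.push f s (a.Fl 0 s y) = f y := by
      unfold push
      rw [if_pos h5, h6]
    rw [h7]

end Pool.Agent.SYR.Arc
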