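import Pool.Agent.SYR.Cross

/-!
# SYR/R1 : infinitesimal rotation

`(ω_{u+h} - ω_u)/h + dζ + Im σ → 0` in `L¹(M)`. Proof: `B = (H-1)/h`, `b = her A`,
`w = 1/(1 + h|B|)`, `E = ∫ nsq b`. `∫ w |B + b|² = ∫ w |B|² + 2 ∫ w ip B b + ∫ w |b|²`; first
`≤ 2 ∫ Phi/h² → E` (`phi_lim`, `b_int`), third `≤ E`; second:
`∫ w ip B b = ∫ χ_j ip B b - ∫ (1-w) χ_j ip B b + ∫ w (1-χ_j) ip B b`,
`|(1-w) χ_j ip B b| ≤ B_j h |B|² w` (`supp_A`), `|∫ w (1-χ_j) ip B b| ≤ (∫ w|B|²)^(1/2) (∫ (1-χ_j)² nsq b)^(1/2)`,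
and `∫ χ_j ip B b` is close to `∫ χ_j ip (J lam Θ) (two A) → -E` (`cross`, `Lie.cross`, `cohΘ`). So
`∫ w |B + b|² → 0`, and `∫ |B + b| ≤ (∫ w |B+b|²)^(1/2) (∫ 1/w)^(1/2)`, `∫ 1/w = V + ∫ |H - 1|`.
The `(2,0)`-part is `two_lim`, because `two A + K = -J lam J Θ` (`Lie.two`).
-/

set_option autoImplicit false
set_option linter.unusedSectionVars false

open Matrix MeasureTheory Filter Topology Set

namespace Pool.Agent.SYR.Slice

variable {ι : Type} [Fintype ι] [DecidableEq ι] {S : Slice ι} {C h0 : ℝ}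

/-! ### measurability of matrix valued functions -/

private def EM {α : Type} [MeasurableSpace α] (F : α → Matrix ι ι ℝ) : Prop :=
  ∀ i j, Measurable fun x => F x i j

private theorem em_const {α : Type} [MeasurableSpace α] (A : Matrix ι ι ℝ) :
    EM (fun _ : α => A) := fun _ _ => measurable_const

private theorem em_mul {α : Type} [MeasurableSpace α] {F G : α → Matrix ι ι ℝ} (hF : EM F)
    (hG : EM G) : EM fun x => F x * G x := fun i j => by
  simp only [Matrix.mul_apply]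
  exact Finset.measurable_sum _ fun k _ => (hF i k).mul (hG k j)

private theorem em_add {α : Type} [MeasurableSpace α] {F G : α → Matrix ι ι ℝ} (hF : EM F)
    (hG : EM G) : EM fun x => F x + G x := fun i j => (hF i j).add (hG i j)

private theorem em_sub {α : Type} [MeasurableSpace α] {F G : α → Matrix ι ι ℝ} (hF : EM F)
    (hG : EM G) : EM fun x => F x - G x := fun i j => (hF i j).sub (hG i j)

private theorem em_smul {α : Type} [MeasurableSpace α] {F : α → Matrix ι ι ℝ} (c : ℝ)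
    (hF : EM F) : EM fun x => c • F x := fun i j => (hF i j).const_mul c

private theorem em_transpose {α : Type} [MeasurableSpace α] {F : α → Matrix ι ι ℝ}
    (hF : EM F) : EM fun x => (F x)ᵀ := fun i j => hF j i

private theorem em_her {α : Type} [MeasurableSpace α] {F : α → Matrix ι ι ℝ}
    (I : Matrix ι ι ℝ) (hF : EM F) : EM fun x => her I (F x) := by
  unfold her
  exact em_smul _ (em_add (em_mul hF (em_const I)) (em_mul (em_const I) hF))

private theorem em_two {α : Type} [MeasurableSpace α] {F : α → Matrix ι ι ℝ}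
    (I : Matrix ι ι ℝ) (hF : EM F) : EM fun x => two I (F x) := by
  unfold two
  exact em_smul _ (em_add hF (em_mul (em_mul (em_const I) hF) (em_const I)))

private theorem em_lam {α : Type} [MeasurableSpace α] {F : α → Matrix ι ι ℝ}
    (I : Matrix ι ι ℝ) (hF : EM F) : EM fun x => lam I (F x) := by
  unfold lam
  exact em_smul _ (em_add hF (em_mul (em_mul (em_const I) hF) (em_const I)))

private theorem meas_ip {α : Type} [MeasurableSpace α] {F G : α → Matrix ι ι ℝ} (hF : EM F)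
    (hG : EM G) : Measurable fun x => ip (F x) (G x) := by
  unfold ip
  exact Finset.measurable_sum _ fun i _ => Finset.measurable_sum _ fun j _ =>
    (hF i j).mul (hG i j)

private theorem meas_nsq {α : Type} [MeasurableSpace α] {F : α → Matrix ι ι ℝ} (hF : EM F) :
    Measurable fun x => nsq (F x) := meas_ip hF hF

private theorem meas_nrm {α : Type} [MeasurableSpace α] {F : α → Matrix ι ι ℝ} (hF : EM F) :
    Measurable fun x => nrm (F x) := (meas_nsq hF).sqrt

private theorem em_w (hF : S.Facts C h0) (h : ℝ) : EM (S.w h) := by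
  have h1 : EM (S.P h) := fun i j => hF.P_meas h i j
  exact em_mul (em_mul (em_transpose h1) (em_const S.I)) h1

private theorem em_H (hF : S.Facts C h0) (h : ℝ) : EM (S.H h) := em_her _ (em_w hF h)

private theorem em_B (hF : S.Facts C h0) (h : ℝ) :
    EM (fun x => (1 / h) • (S.H h x - 1)) := em_smul _ (em_sub (em_H hF h) (em_const 1))

private theorem em_b (hF : S.Facts C h0) : EM (fun x => her S.I (S.A x)) :=
  em_her _ fun i j => hF.A_meas i j

/-! ### pointwise -/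

private theorem X_le (hF : S.Facts C h0) (h : ℝ) (x : S.M) :
    nrm ((1 / h) • (S.w h x - S.I) + S.A x + S.K) ≤
      nrm ((1 / h) • (S.H h x - 1) + her S.I (S.A x)) +
        nrm ((1 / h) • two S.I (S.w h x) - S.J * lam S.J (S.Θ x)) := by
  have hq := hF.quat
  have hws : (S.w h x)ᵀ = -S.w h x := om_skew hq.It
  have hXs : ((1 / h) • (S.w h x - S.I) + S.A x + S.K)ᵀ =
      -((1 / h) • (S.w h x - S.I) + S.A x + S.K) := by
    rw [transpose_add, transpose_add, transpose_smul, transpose_sub, hws, hq.It,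
      Lie.skew hq (hF.lie x), hq.Kt, neg_add, neg_add, ← smul_neg, neg_sub, sub_neg_eq_add,
      neg_add_eq_sub]
  have h1 : her S.I ((1 / h) • (S.w h x - S.I) + S.A x + S.K) =
      (1 / h) • (S.H h x - 1) + her S.I (S.A x) := by
    rw [her_add, her_add, her_smul, her_sub, hq.her_I, hq.her_K, add_zero]; rfl
  have h2 : two S.I ((1 / h) • (S.w h x - S.I) + S.A x + S.K) =
      (1 / h) • two S.I (S.w h x) - S.J * lam S.J (S.Θ x) := by
    rw [two_add, two_add, two_smul', two_sub, hq.two_I, hq.two_K, Lie.two hq (hF.lie x), sub_zero]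
    abel
  have h3 := hq.nsq_eq hXs
  rw [h1, h2, ← nrm_sq, ← nrm_sq, ← nrm_sq] at h3
  have a1 := nrm_nonneg (A := (1 / h) • (S.w h x - S.I) + S.A x + S.K)
  have a2 := nrm_nonneg (A := (1 / h) • (S.H h x - 1) + her S.I (S.A x))
  have a3 := nrm_nonneg (A := (1 / h) • two S.I (S.w h x) - S.J * lam S.J (S.Θ x))
  by_contra hc
  rw [not_le] at hc
  nlinarith

private theorem Bb_int (hF : S.Facts C h0) {h : ℝ} (hh : h ∈ Ioc 0 h0) :
    Integrable (fun x => nrm ((1 / h) • (S.H h x - 1) + her S.I (S.A x))) S.μ := by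
  have := hF.fin
  have h1 := (H_sub hF hh).1
  have h2 := (b_int hF).1
  have h3 : Integrable (fun x => |1 / h| * nrm (S.H h x - 1) + (1 + nsq (her S.I (S.A x)))) S.μ :=
    (h1.const_mul _).add ((integrable_const 1).add h2)
  refine h3.mono' (meas_nrm (em_add (em_B hF h) (em_b hF))).aestronglyMeasurable ?_
  refine Eventually.of_forall fun x => ?_
  rw [Real.norm_of_nonneg nrm_nonneg]
  refine nrm_add_le.trans ?_
  rw [nrm_smul]
  have : nrm (her S.I (S.A x)) ≤ 1 + nsq (her S.I (S.A x)) := by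
    rw [← nrm_sq]; nlinarith [sq_nonneg (nrm (her S.I (S.A x)) - 1)]
  linarith

theorem R1_int (hF : S.Facts C h0) {h : ℝ} (hh : h ∈ Ioc 0 h0) :
    Integrable (fun x => nrm ((1 / h) • (S.w h x - S.I) + S.A x + S.K)) S.μ := by
  have hA : EM S.A := fun i j => hF.A_meas i j
  refine ((Bb_int hF hh).add (two_int hF hh)).mono'
    (meas_nrm (em_add (em_add (em_smul _ (em_sub (em_w hF h) (em_const S.I))) hA)
      (em_const S.K))).aestronglyMeasurable ?_
  refine Eventually.of_forall fun x => ?_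
  rw [Real.norm_of_nonneg nrm_nonneg]
  exact X_le hF h x

/-- the weighted square -/
private theorem pt_id (h : ℝ) (x : S.M) :
    nsq ((1 / h) • (S.H h x - 1) + her S.I (S.A x)) / (1 + nrm (S.H h x - 1)) =
      nsq ((1 / h) • (S.H h x - 1)) / (1 + nrm (S.H h x - 1)) +
        2 * (ip ((1 / h) • (S.H h x - 1)) (her S.I (S.A x)) / (1 + nrm (S.H h x - 1))) +
        nsq (her S.I (S.A x)) / (1 + nrm (S.H h x - 1)) := by
  rw [nsq_add]; ring

private theorem one_le (h : ℝ) (x : S.M) : 1 ≤ 1 + nrm (S.H h x - 1) := by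
  have := nrm_nonneg (A := S.H h x - 1)
  linarith

private theorem abs_ipd_le (h : ℝ) (x : S.M) {δ : ℝ} (hδ : 0 < δ) (t : ℝ) :
    |t * ip ((1 / h) • (S.H h x - 1)) (her S.I (S.A x)) / (1 + nrm (S.H h x - 1))| ≤
      1 / 2 * (δ * (nsq ((1 / h) • (S.H h x - 1)) / (1 + nrm (S.H h x - 1))) +
        δ⁻¹ * (t ^ 2 * nsq (her S.I (S.A x)))) := by
  have h1 := one_le h x
  have hm : 0 < 1 + nrm (S.H h x - 1) := by linarith
  have h2 := abs_ip_le (A := (1 / h) • (S.H h x - 1)) (B := her S.I (S.A x))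
  have hB := nrm_nonneg (A := (1 / h) • (S.H h x - 1))
  have hb := nrm_nonneg (A := her S.I (S.A x))
  rw [← nrm_sq, ← nrm_sq]
  set a := nrm ((1 / h) • (S.H h x - 1))
  set b := nrm (her S.I (S.A x))
  set m := 1 + nrm (S.H h x - 1)
  rw [abs_div, abs_mul, abs_of_pos hm]
  have h3 : |t| * |ip ((1 / h) • (S.H h x - 1)) (her S.I (S.A x))| / m ≤ |t| * (a * b) / m := by
    gcongr
  refine h3.trans ?_
  have h4 : |t| * (a * b) / m ≤ 1 / 2 * (δ * (a ^ 2 / m) + δ⁻¹ * (t ^ 2 * b ^ 2) / m) := by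
    have h5 : |t| * (a * b) ≤ 1 / 2 * (δ * a ^ 2 + δ⁻¹ * (t ^ 2 * b ^ 2)) := by
      have h6 : 0 ≤ δ * (a - δ⁻¹ * (|t| * b)) ^ 2 := by positivity
      have h7 : δ * (a - δ⁻¹ * (|t| * b)) ^ 2 =
          δ * a ^ 2 - 2 * (|t| * (a * b)) + δ⁻¹ * (|t| ^ 2 * b ^ 2) := by
        field_simp
        ring
      rw [h7, sq_abs] at h6
      linarith
    calc |t| * (a * b) / m ≤ (1 / 2 * (δ * a ^ 2 + δ⁻¹ * (t ^ 2 * b ^ 2))) / m := by gcongr
      _ = _ := by ring
  refine h4.trans ?_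
  have h8 : δ⁻¹ * (t ^ 2 * b ^ 2) / m ≤ δ⁻¹ * (t ^ 2 * b ^ 2) := by
    apply div_le_self (by positivity) h1
  linarith


private theorem meas_m (hF : S.Facts C h0) (h : ℝ) :
    Measurable fun x => 1 + nrm (S.H h x - 1) :=
  (meas_nrm (em_sub (em_H hF h) (em_const 1))).const_add 1

private theorem T_int (hF : S.Facts C h0) {h : ℝ} (hh : h ∈ Ioc 0 h0) {f : S.M → ℝ}
    (hf : Measurable f) (K : ℝ) (hK : ∀ x, |f x| ≤ K) :
    Integrable (fun x => f x * ip ((1 / h) • (S.H h x - 1)) (her S.I (S.A x)) /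
      (1 + nrm (S.H h x - 1))) S.μ := by
  have h1 := (B_energy hF hh).1
  have h2 := (b_int hF).1
  have h3 : Integrable (fun x => 1 / 2 * (1 * (nsq ((1 / h) • (S.H h x - 1)) /
      (1 + nrm (S.H h x - 1))) + (1 : ℝ)⁻¹ * (K ^ 2 * nsq (her S.I (S.A x))))) S.μ :=
    ((h1.const_mul 1).add ((h2.const_mul (K ^ 2)).const_mul _)).const_mul _
  refine h3.mono' ((hf.mul (meas_ip (em_B hF h) (em_b hF))).div
    (meas_m hF h)).aestronglyMeasurable ?_
  refine Eventually.of_forall fun x => ?_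
  rw [Real.norm_eq_abs]
  refine (abs_ipd_le h x one_pos (f x)).trans ?_
  have h4 : f x ^ 2 ≤ K ^ 2 := by
    rw [← sq_abs]
    have := abs_nonneg (f x)
    have := hK x
    nlinarith
  have h5 := nsq_nonneg (A := her S.I (S.A x))
  have h6 : f x ^ 2 * nsq (her S.I (S.A x)) ≤ K ^ 2 * nsq (her S.I (S.A x)) := by gcongr
  linarith

/-- the far part -/
private theorem far_le (hF : S.Facts C h0) {h : ℝ} (hh : h ∈ Ioc 0 h0) (j : ℕ) {δ : ℝ}
    (hδ : 0 < δ) :
    ∫ x, (1 - S.χ j x) * ip ((1 / h) • (S.H h x - 1)) (her S.I (S.A x)) /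
      (1 + nrm (S.H h x - 1)) ∂S.μ ≤
    1 / 2 * (δ * (2 * ((∫ x, Phi (S.H h x) ∂S.μ) / h ^ 2)) +
      δ⁻¹ * ∫ x, (1 - S.χ j x) ^ 2 * nsq (her S.I (S.A x)) ∂S.μ) := by
  have h1 := B_energy hF hh
  have h2 := (b_int hF).1
  have hm : Measurable fun x => 1 - S.χ j x := (hF.χ_meas j).const_sub 1
  have hχ : ∀ x, |1 - S.χ j x| ≤ 1 := fun x => by
    have := hF.χ_nonneg j x
    have := hF.χ_le_one j x
    rw [abs_le]; constructor <;> linarith
  have h3 : Integrable (fun x => (1 - S.χ j x) ^ 2 * nsq (her S.I (S.A x))) S.μ := by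
    refine h2.mono' ((hm.pow_const 2).mul (meas_nsq (em_b hF))).aestronglyMeasurable ?_
    refine Eventually.of_forall fun x => ?_
    have h5 := nsq_nonneg (A := her S.I (S.A x))
    rw [Real.norm_of_nonneg (by positivity)]
    have : (1 - S.χ j x) ^ 2 ≤ 1 := by
      rw [← sq_abs]
      have := hχ x
      have := abs_nonneg (1 - S.χ j x)
      nlinarith
    nlinarith
  have h4 : ∫ x, (1 - S.χ j x) * ip ((1 / h) • (S.H h x - 1)) (her S.I (S.A x)) /
      (1 + nrm (S.H h x - 1)) ∂S.μ ≤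
      ∫ x, 1 / 2 * (δ * (nsq ((1 / h) • (S.H h x - 1)) / (1 + nrm (S.H h x - 1))) +
        δ⁻¹ * ((1 - S.χ j x) ^ 2 * nsq (her S.I (S.A x)))) ∂S.μ := by
    refine integral_mono (T_int hF hh hm 1 hχ)
      (((h1.1.const_mul δ).add (h3.const_mul δ⁻¹)).const_mul _) fun x => ?_
    exact (le_abs_self _).trans (abs_ipd_le h x hδ _)
  refine h4.trans ?_
  rw [integral_const_mul, integral_add (h1.1.const_mul δ) (h3.const_mul δ⁻¹),
    integral_const_mul, integral_const_mul]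
  have := h1.2
  gcongr

private theorem near_pt (hF : S.Facts C h0) {h : ℝ} (hh : h ∈ Ioc 0 h0) (j : ℕ) {B : ℝ}
    (hB0 : 0 ≤ B) (hB : ∀ x, S.χ j x ≠ 0 → nrm (S.A x) ≤ B) (x : S.M) :
    |S.χ j x * ip ((1 / h) • (S.H h x - 1)) (her S.I (S.A x)) -
      S.χ j x * ip ((1 / h) • (S.H h x - 1)) (her S.I (S.A x)) / (1 + nrm (S.H h x - 1))| ≤
      h * B * (nsq ((1 / h) • (S.H h x - 1)) / (1 + nrm (S.H h x - 1))) := by
  have h1 := one_le h x
  have hm : 0 < 1 + nrm (S.H h x - 1) := by linarith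
  have hh0 : 0 < h := hh.1
  have hN : nrm (S.H h x - 1) = h * nrm ((1 / h) • (S.H h x - 1)) := by
    rw [nrm_smul, abs_of_pos (by positivity)]
    field_simp
  have h2 := abs_ip_le (A := (1 / h) • (S.H h x - 1)) (B := her S.I (S.A x))
  have hBn := nrm_nonneg (A := (1 / h) • (S.H h x - 1))
  by_cases hx : S.χ j x = 0
  · rw [hx]
    simp only [zero_mul, zero_div, sub_zero, abs_zero]
    have := nsq_nonneg (A := (1 / h) • (S.H h x - 1))
    positivity
  have h3 : nrm (her S.I (S.A x)) ≤ B := (hF.quat.nrm_her_le).trans (hB x hx)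
  rw [← nrm_sq]
  set a := nrm ((1 / h) • (S.H h x - 1))
  set t := ip ((1 / h) • (S.H h x - 1)) (her S.I (S.A x))
  set m := 1 + nrm (S.H h x - 1) with hmdef
  have h4 : S.χ j x * t - S.χ j x * t / m = S.χ j x * t * (h * a) / m := by
    have : h * a = m - 1 := by rw [hmdef, hN]; ring
    rw [this]
    field_simp
  rw [h4, abs_div, abs_of_pos hm, abs_mul, abs_mul, abs_of_nonneg (hF.χ_nonneg j x),
    abs_of_nonneg (by positivity : 0 ≤ h * a)]
  have h5 : S.χ j x * |t| ≤ 1 * (a * B) := by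
    apply mul_le_mul (hF.χ_le_one j x) _ (abs_nonneg _) zero_le_one
    exact h2.trans (by gcongr)
  calc S.χ j x * |t| * (h * a) / m ≤ 1 * (a * B) * (h * a) / m := by gcongr
    _ = _ := by ring

/-- the near part -/
private theorem near_le (hF : S.Facts C h0) {h : ℝ} (hh : h ∈ Ioc 0 h0) (j : ℕ) {B : ℝ}
    (hB0 : 0 ≤ B) (hB : ∀ x, S.χ j x ≠ 0 → nrm (S.A x) ≤ B) :
    ∫ x, S.χ j x * ip ((1 / h) • (S.H h x - 1)) (her S.I (S.A x)) /
      (1 + nrm (S.H h x - 1)) ∂S.μ ≤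
    ∫ x, S.χ j x * ip ((1 / h) • (S.H h x - 1)) (her S.I (S.A x)) ∂S.μ +
      h * B * (2 * ((∫ x, Phi (S.H h x) ∂S.μ) / h ^ 2)) := by
  have h1 := B_energy hF hh
  have hχ : ∀ x, |S.χ j x| ≤ 1 := fun x => by
    rw [abs_of_nonneg (hF.χ_nonneg j x)]; exact hF.χ_le_one j x
  have h2 := T_int hF hh (hF.χ_meas j) 1 hχ
  have h3 : Integrable (fun x => h * B * (nsq ((1 / h) • (S.H h x - 1)) /
      (1 + nrm (S.H h x - 1)))) S.μ := h1.1.const_mul _
  have hpt := near_pt hF hh j hB0 hB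
  have h4 : Integrable (fun x => S.χ j x * ip ((1 / h) • (S.H h x - 1)) (her S.I (S.A x)) -
      S.χ j x * ip ((1 / h) • (S.H h x - 1)) (her S.I (S.A x)) / (1 + nrm (S.H h x - 1))) S.μ := by
    refine h3.mono' ?_ (Eventually.of_forall hpt)
    exact (((hF.χ_meas j).mul (meas_ip (em_B hF h) (em_b hF))).sub
      (((hF.χ_meas j).mul (meas_ip (em_B hF h) (em_b hF))).div
      (meas_m hF h))).aestronglyMeasurable
  have h5 : Integrable (fun x => S.χ j x * ip ((1 / h) • (S.H h x - 1)) (her S.I (S.A x))) S.μ := by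
    refine (h4.add h2).congr (Eventually.of_forall fun x => ?_)
    simp only [Pi.add_apply]
    ring
  have h6 : ∫ x, S.χ j x * ip ((1 / h) • (S.H h x - 1)) (her S.I (S.A x)) /
      (1 + nrm (S.H h x - 1)) ∂S.μ ≤
      ∫ x, (S.χ j x * ip ((1 / h) • (S.H h x - 1)) (her S.I (S.A x)) +
        h * B * (nsq ((1 / h) • (S.H h x - 1)) / (1 + nrm (S.H h x - 1)))) ∂S.μ := by
    refine integral_mono h2 (h5.add h3) fun x => ?_
    have := (abs_le.1 (hpt x)).1
    simp only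
    linarith
  refine h6.trans ?_
  rw [integral_add h5 h3, integral_const_mul]
  have := h1.2
  have hh0 : 0 < h := hh.1
  gcongr

private theorem far_lim (hF : S.Facts C h0) :
    Tendsto (fun j => ∫ x, (1 - S.χ j x) ^ 2 * nsq (her S.I (S.A x)) ∂S.μ) atTop (𝓝 0) := by
  have h2 := (b_int hF).1
  have h0 : (0 : ℝ) = ∫ x, (0 : ℝ) ∂S.μ := by simp
  rw [h0]
  refine tendsto_integral_of_dominated_convergence (fun x => nsq (her S.I (S.A x))) ?_ h2 ?_ ?_
  · intro j
    exact ((((hF.χ_meas j).const_sub 1).pow_const 2).mul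
      (meas_nsq (em_b hF))).aestronglyMeasurable
  · intro j
    refine Eventually.of_forall fun x => ?_
    have h5 := nsq_nonneg (A := her S.I (S.A x))
    rw [Real.norm_of_nonneg (by positivity)]
    have h6 := hF.χ_nonneg j x
    have h7 := hF.χ_le_one j x
    have : (1 - S.χ j x) ^ 2 ≤ 1 := by nlinarith
    nlinarith
  · refine Eventually.of_forall fun x => ?_
    have h1 := hF.χ_lim x
    have : Tendsto (fun j => (1 - S.χ j x) ^ 2 * nsq (her S.I (S.A x))) atTop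
        (𝓝 ((1 - 1) ^ 2 * nsq (her S.I (S.A x)))) := ((h1.const_sub 1).pow 2).mul_const _
    simpa using this

private theorem ipΘ_int (hF : S.Facts C h0) : Integrable (fun x => ip S.I (S.Θ x)) S.μ := by
  have := hF.fin
  refine (integrable_const (nrm S.I * C)).mono'
    (meas_ip (em_const S.I) fun i j => hF.Θ_meas i j).aestronglyMeasurable ?_
  refine Eventually.of_forall fun x => ?_
  rw [Real.norm_eq_abs]
  refine abs_ip_le.trans ?_
  have := hF.Θ_bdd x
  have := nrm_nonneg (A := S.I)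
  gcongr

private theorem lim_cross (hF : S.Facts C h0) :
    Tendsto (fun j => ∫ x, S.χ j x * ip (S.J * lam S.J (S.Θ x)) (two S.I (S.A x)) ∂S.μ) atTop
      (𝓝 (-∫ x, nsq (her S.I (S.A x)) ∂S.μ)) := by
  have h1 := lam_int hF
  have h2 := ipΘ_int hF
  have hE : -∫ x, nsq (her S.I (S.A x)) ∂S.μ =
      ∫ x, -(nsq (lam S.J (S.Θ x)) - ip S.I (S.Θ x)) ∂S.μ := by
    rw [integral_neg, integral_sub h1 h2, hF.cohΘ, (b_int hF).2]
  rw [hE]
  have hc : ∀ x, ip (S.J * lam S.J (S.Θ x)) (two S.I (S.A x)) =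
      -(nsq (lam S.J (S.Θ x)) - ip S.I (S.Θ x)) := fun x => Lie.cross hF.quat (hF.lie x)
  simp only [hc]
  have hm : Measurable fun x => -(nsq (lam S.J (S.Θ x)) - ip S.I (S.Θ x)) :=
    ((meas_nsq (em_lam _ fun i j => hF.Θ_meas i j)).sub
      (meas_ip (em_const S.I) fun i j => hF.Θ_meas i j)).neg
  refine tendsto_integral_of_dominated_convergence
    (fun x => |-(nsq (lam S.J (S.Θ x)) - ip S.I (S.Θ x))|) ?_ (h1.sub h2).neg.abs ?_ ?_
  · intro j
    exact ((hF.χ_meas j).mul hm).aestronglyMeasurable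
  · intro j
    refine Eventually.of_forall fun x => ?_
    rw [Real.norm_eq_abs, abs_mul, abs_of_nonneg (hF.χ_nonneg j x)]
    have := hF.χ_le_one j x
    have := abs_nonneg (-(nsq (lam S.J (S.Θ x)) - ip S.I (S.Θ x)))
    nlinarith
  · refine Eventually.of_forall fun x => ?_
    have := (hF.χ_lim x).mul_const (-(nsq (lam S.J (S.Θ x)) - ip S.I (S.Θ x)))
    simpa using this

/-- the weighted square of `B + b` -/
private theorem F_int (hF : S.Facts C h0) {h : ℝ} (hh : h ∈ Ioc 0 h0) :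
    Integrable (fun x => nsq ((1 / h) • (S.H h x - 1) + her S.I (S.A x)) /
      (1 + nrm (S.H h x - 1))) S.μ ∧
    ∫ x, nsq ((1 / h) • (S.H h x - 1) + her S.I (S.A x)) / (1 + nrm (S.H h x - 1)) ∂S.μ ≤
      2 * ((∫ x, Phi (S.H h x) ∂S.μ) / h ^ 2) +
        2 * ∫ x, ip ((1 / h) • (S.H h x - 1)) (her S.I (S.A x)) / (1 + nrm (S.H h x - 1)) ∂S.μ +
        ∫ x, nsq (her S.I (S.A x)) ∂S.μ := by
  have h1 := B_energy hF hh
  have h2 := (b_int hF).1
  have h3 : Integrable (fun x => ip ((1 / h) • (S.H h x - 1)) (her S.I (S.A x)) /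
      (1 + nrm (S.H h x - 1))) S.μ := by
    have := T_int hF hh (measurable_const (a := (1 : ℝ))) 1 (fun x => by simp)
    simpa only [one_mul] using this
  have h4 : Integrable (fun x => nsq (her S.I (S.A x)) / (1 + nrm (S.H h x - 1))) S.μ := by
    refine h2.mono' ((meas_nsq (em_b hF)).div (meas_m hF h)).aestronglyMeasurable ?_
    refine Eventually.of_forall fun x => ?_
    have h5 := nsq_nonneg (A := her S.I (S.A x))
    have h6 := one_le h x
    rw [Real.norm_of_nonneg (by positivity)]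
    exact div_le_self h5 h6
  simp only [pt_id]
  refine ⟨(h1.1.add (h3.const_mul 2)).add h4, ?_⟩
  have e1 : ∫ x, (nsq ((1 / h) • (S.H h x - 1)) / (1 + nrm (S.H h x - 1)) +
        2 * (ip ((1 / h) • (S.H h x - 1)) (her S.I (S.A x)) / (1 + nrm (S.H h x - 1))) +
        nsq (her S.I (S.A x)) / (1 + nrm (S.H h x - 1))) ∂S.μ =
      ∫ x, nsq ((1 / h) • (S.H h x - 1)) / (1 + nrm (S.H h x - 1)) ∂S.μ +
        2 * ∫ x, ip ((1 / h) • (S.H h x - 1)) (her S.I (S.A x)) / (1 + nrm (S.H h x - 1)) ∂S.μ +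
        ∫ x, nsq (her S.I (S.A x)) / (1 + nrm (S.H h x - 1)) ∂S.μ := by
    have q : Integrable (fun x => nsq ((1 / h) • (S.H h x - 1)) / (1 + nrm (S.H h x - 1)) +
        2 * (ip ((1 / h) • (S.H h x - 1)) (her S.I (S.A x)) / (1 + nrm (S.H h x - 1)))) S.μ :=
      h1.1.add (h3.const_mul 2)
    rw [integral_add q h4, integral_add h1.1 (h3.const_mul 2), integral_const_mul]
  rw [e1]
  have e2 : ∫ x, nsq (her S.I (S.A x)) / (1 + nrm (S.H h x - 1)) ∂S.μ ≤
      ∫ x, nsq (her S.I (S.A x)) ∂S.μ := by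
    refine integral_mono h4 h2 fun x => ?_
    exact div_le_self nsq_nonneg (one_le h x)
  have e3 := h1.2
  linarith

private theorem ev_Ioc (hF : S.Facts C h0) : ∀ᶠ h in 𝓝[>] (0 : ℝ), h ∈ Ioc 0 h0 :=
  Ioc_mem_nhdsGT hF.h0_pos

private theorem F_ev (hF : S.Facts C h0) {ε : ℝ} (hε : 0 < ε) :
    ∀ᶠ h in 𝓝[>] (0 : ℝ),
      ∫ x, nsq ((1 / h) • (S.H h x - 1) + her S.I (S.A x)) / (1 + nrm (S.H h x - 1)) ∂S.μ ≤
        11 * ε := by
  obtain ⟨D, hD, hcross⟩ := cross hF
  set E := ∫ x, nsq (her S.I (S.A x)) ∂S.μ with hE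
  have hE0 : 0 ≤ E := integral_nonneg fun x => nsq_nonneg
  have hδ : 0 < ε / (E + 1) := by positivity
  set δ := ε / (E + 1) with hδdef
  have hT : Tendsto (fun h => 2 * ((∫ x, Phi (S.H h x) ∂S.μ) / h ^ 2)) (𝓝[>] 0) (𝓝 E) := by
    have := (phi_lim hF).const_mul 2
    convert this using 2
    rw [hE, (b_int hF).2]
    ring
  have j1 : ∀ᶠ j in atTop, D * Real.sqrt (∫ x, S.c j x ^ 2 ∂S.μ) < ε := by
    have : Tendsto (fun j => D * Real.sqrt (∫ x, S.c j x ^ 2 ∂S.μ)) atTop (𝓝 0) := by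
      have := (hF.c_sq.sqrt).const_mul D
      simpa using this
    exact this.eventually_lt_const hε
  have j2 : ∀ᶠ j in atTop, ∫ x, S.χ j x * ip (S.J * lam S.J (S.Θ x)) (two S.I (S.A x)) ∂S.μ <
      -E + ε := (lim_cross hF).eventually_lt_const (by linarith)
  have j3 : ∀ᶠ j in atTop, ∫ x, (1 - S.χ j x) ^ 2 * nsq (her S.I (S.A x)) ∂S.μ < δ * ε :=
    (far_lim hF).eventually_lt_const (by positivity)
  obtain ⟨j, a1, a2, a3⟩ := (j1.and (j2.and j3)).exists
  obtain ⟨B, hB⟩ := hF.supp_A j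
  have hB' : ∀ x, S.χ j x ≠ 0 → nrm (S.A x) ≤ |B| := fun x hx => (hB x hx).trans (le_abs_self B)
  have e1 : ∀ᶠ h in 𝓝[>] (0 : ℝ), 2 * ((∫ x, Phi (S.H h x) ∂S.μ) / h ^ 2) < E + ε :=
    hT.eventually_lt_const (by linarith)
  have e2 : ∀ᶠ h in 𝓝[>] (0 : ℝ), 2 * ((∫ x, Phi (S.H h x) ∂S.μ) / h ^ 2) < E + 1 :=
    hT.eventually_lt_const (by linarith)
  have e3 : ∀ᶠ h in 𝓝[>] (0 : ℝ), h * |B| * (E + 1) < ε := by
    have h1 : Tendsto (fun h : ℝ => h * |B| * (E + 1)) (𝓝[>] 0) (𝓝 0) := by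
      have : Tendsto (fun h : ℝ => h * |B| * (E + 1)) (𝓝 0) (𝓝 (0 * |B| * (E + 1))) :=
        ((continuous_id.mul continuous_const).mul continuous_const).tendsto 0
      rw [zero_mul, zero_mul] at this
      exact this.mono_left nhdsWithin_le_nhds
    exact h1.eventually_lt_const hε
  filter_upwards [ev_Ioc hF, e1, e2, e3, hcross j ε hε] with h hh b1 b2 b3 b4
  have hχ : ∀ x, |S.χ j x| ≤ 1 := fun x => by
    rw [abs_of_nonneg (hF.χ_nonneg j x)]; exact hF.χ_le_one j x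
  have hm : Measurable fun x => 1 - S.χ j x := (hF.χ_meas j).const_sub 1
  have hχ' : ∀ x, |1 - S.χ j x| ≤ 1 := fun x => by
    have := hF.χ_nonneg j x
    have := hF.χ_le_one j x
    rw [abs_le]; constructor <;> linarith
  have c1 := (F_int hF hh).2
  have c2 : ∫ x, ip ((1 / h) • (S.H h x - 1)) (her S.I (S.A x)) / (1 + nrm (S.H h x - 1)) ∂S.μ =
      ∫ x, S.χ j x * ip ((1 / h) • (S.H h x - 1)) (her S.I (S.A x)) /
        (1 + nrm (S.H h x - 1)) ∂S.μ +
      ∫ x, (1 - S.χ j x) * ip ((1 / h) • (S.H h x - 1)) (her S.I (S.A x)) /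
        (1 + nrm (S.H h x - 1)) ∂S.μ := by
    rw [← integral_add (T_int hF hh (hF.χ_meas j) 1 hχ) (T_int hF hh hm 1 hχ')]
    congr 1
    funext x
    ring
  have c3 := near_le hF hh j (abs_nonneg B) hB'
  have c4 := far_le hF hh j hδ
  have c5 := (abs_le.1 b4).2
  have hT0 : 0 ≤ 2 * ((∫ x, Phi (S.H h x) ∂S.μ) / h ^ 2) := by
    have h1 : 0 ≤ ∫ x, Phi (S.H h x) ∂S.μ :=
      integral_nonneg fun x => Phi_nonneg _ (H_posDef hF hh x)
    positivity
  have hh0 : 0 < h := hh.1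
  have c6 : h * |B| * (2 * ((∫ x, Phi (S.H h x) ∂S.μ) / h ^ 2)) ≤ ε := by
    refine le_trans ?_ b3.le
    gcongr
  have c7 : δ * (2 * ((∫ x, Phi (S.H h x) ∂S.μ) / h ^ 2)) ≤ ε := by
    have : δ * (E + 1) = ε := by rw [hδdef]; field_simp
    rw [← this]
    gcongr
  have c8 : δ⁻¹ * ∫ x, (1 - S.χ j x) ^ 2 * nsq (her S.I (S.A x)) ∂S.μ ≤ ε := by
    rw [inv_mul_le_iff₀ hδ]
    exact a3.le
  rw [c2] at c1
  linarith

private theorem F_lim (hF : S.Facts C h0) :
    Tendsto (fun h => ∫ x, nsq ((1 / h) • (S.H h x - 1) + her S.I (S.A x)) /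
      (1 + nrm (S.H h x - 1)) ∂S.μ) (𝓝[>] 0) (𝓝 0) := by
  refine tendsto_order.2 ⟨fun a ha => ?_, fun a ha => ?_⟩
  · refine Eventually.of_forall fun h => ha.trans_le (integral_nonneg fun x => ?_)
    exact div_nonneg nsq_nonneg (by have := one_le h x; linarith)
  · filter_upwards [F_ev hF (ε := a / 12) (by positivity)] with h hh
    linarith

/-- `∫ |B + b|` -/
private theorem Bb_le (hF : S.Facts C h0) {h : ℝ} (hh : h ∈ Ioc 0 h0) {δ : ℝ} (hδ : 0 < δ) :
    ∫ x, nrm ((1 / h) • (S.H h x - 1) + her S.I (S.A x)) ∂S.μ ≤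
      1 / 2 * (δ⁻¹ * ∫ x, nsq ((1 / h) • (S.H h x - 1) + her S.I (S.A x)) /
        (1 + nrm (S.H h x - 1)) ∂S.μ + δ * (S.V + 6 * C * S.V)) := by
  have := hF.fin
  have h1 := (F_int hF hh).1
  have h2 := H_sub hF hh
  have h3 : Integrable (fun x => 1 + nrm (S.H h x - 1)) S.μ := (integrable_const 1).add h2.1
  have h4 : ∫ x, nrm ((1 / h) • (S.H h x - 1) + her S.I (S.A x)) ∂S.μ ≤
      ∫ x, 1 / 2 * (δ⁻¹ * (nsq ((1 / h) • (S.H h x - 1) + her S.I (S.A x)) /
        (1 + nrm (S.H h x - 1))) + δ * (1 + nrm (S.H h x - 1))) ∂S.μ := by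
    refine integral_mono (Bb_int hF hh) (((h1.const_mul _).add (h3.const_mul _)).const_mul _)
      fun x => ?_
    have h5 := one_le h x
    have hm : 0 < 1 + nrm (S.H h x - 1) := by linarith
    simp only
    rw [← nrm_sq]
    set a := nrm ((1 / h) • (S.H h x - 1) + her S.I (S.A x))
    set m := 1 + nrm (S.H h x - 1)
    have h6 : 0 ≤ δ⁻¹ * (a - δ * m) ^ 2 / m := by positivity
    have h7 : δ⁻¹ * (a - δ * m) ^ 2 / m = δ⁻¹ * (a ^ 2 / m) + δ * m - 2 * a := by
      field_simp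
      ring
    linarith
  refine h4.trans ?_
  rw [integral_const_mul, integral_add (h1.const_mul _) (h3.const_mul _), integral_const_mul,
    integral_const_mul, integral_add (integrable_const 1) h2.1]
  have h8 : ∫ x, (1 : ℝ) ∂S.μ = S.V := by
    rw [integral_const, smul_eq_mul, mul_one]; rfl
  rw [h8]
  have h9 : ∫ x, nrm (S.H h x - 1) ∂S.μ ≤ 6 * C * S.V := by
    refine h2.2.trans ?_
    have hC := hF.C_nonneg
    have hV : 0 ≤ S.V := measureReal_nonneg
    have : h ≤ 1 := hh.2.trans hF.h0_le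
    have h10 : 0 ≤ 6 * C * S.V := by positivity
    nlinarith
  gcongr

private theorem Bb_lim (hF : S.Facts C h0) :
    Tendsto (fun h => ∫ x, nrm ((1 / h) • (S.H h x - 1) + her S.I (S.A x)) ∂S.μ)
      (𝓝[>] 0) (𝓝 0) := by
  have hC := hF.C_nonneg
  have hV : 0 ≤ S.V := measureReal_nonneg
  refine tendsto_order.2 ⟨fun a ha => ?_, fun a ha => ?_⟩
  · exact Eventually.of_forall fun h => ha.trans_le (integral_nonneg fun x => nrm_nonneg)
  · have hW : 0 < S.V + 6 * C * S.V + 1 := by positivity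
    set δ := a / (S.V + 6 * C * S.V + 1) with hδ
    have hδ0 : 0 < δ := by positivity
    have e1 := (F_lim hF).eventually_lt_const (mul_pos hδ0 (half_pos ha))
    filter_upwards [ev_Ioc hF, e1] with h hh h1
    have h2 := Bb_le hF hh hδ0
    have h3 : δ * (S.V + 6 * C * S.V) ≤ a := by
      have : δ * (S.V + 6 * C * S.V + 1) = a := by rw [hδ]; field_simp
      linarith
    have h4 : δ⁻¹ * ∫ x, nsq ((1 / h) • (S.H h x - 1) + her S.I (S.A x)) /
        (1 + nrm (S.H h x - 1)) ∂S.μ ≤ a / 2 := by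
      rw [inv_mul_le_iff₀ hδ0]
      exact h1.le
    linarith

/-- infinitesimal rotation of the form -/
theorem R1 (hF : S.Facts C h0) :
    Tendsto (fun h => ∫ x, nrm ((1 / h) • (S.w h x - S.I) + S.A x + S.K) ∂S.μ)
      (𝓝[>] 0) (𝓝 0) := by
  have h1 := (Bb_lim hF).add (two_lim hF)
  rw [add_zero] at h1
  refine tendsto_of_tendsto_of_tendsto_of_le_of_le' tendsto_const_nhds h1 ?_ ?_
  · exact Eventually.of_forall fun h => integral_nonneg fun x => nrm_nonneg
  · filter_upwards [ev_Ioc hF] with h hh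
    rw [← integral_add (Bb_int hF hh) (two_int hF hh)]
    exact integral_mono (R1_int hF hh) ((Bb_int hF hh).add (two_int hF hh))
      fun x => X_le hF h x

end Pool.Agent.SYR.Slice
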