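import Pool.Agent.SYR.ArcRel
import Pool.Agent.SYR.Null

/-!
# SYR/ResA : energies for nearby parameters

`pr s x α α = vsq (P_s⁻ᵀ α)`, `P_s = R P_u` with `R = P_s P_u⁻¹`, `gm R = rel u s x`; `symp_vsq_le`,
`rel_trace`, `symp_form_le`, `symp_form_le'`, `dot_gm_inv`. `res_eq'`: test with `χ_j φ` (`cs_mul`), the
error is `∫ φ pr (dRf) (dχ_j) → 0`.
-/

set_option autoImplicit false

open Matrix MeasureTheory Filter Topology Set

namespace Pool.Agent.SYR.Arc

variable {ι : Type} [Fintype ι] [DecidableEq ι] {a : Arc ι} {C h0 : ℝ}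

/-- energy product -/
noncomputable def En (a : Arc ι) (u : ℝ) (f h : a.M → ℝ) : ℝ :=
  ∫ x, a.pr u x (a.dl f x) (a.dl h x) ∂a.μ

private theorem vsq_dot (v : ι → ℝ) : vsq v = v ⬝ᵥ v := by
  unfold vsq dotProduct
  exact Finset.sum_congr rfl fun i _ => by ring

private theorem vsq_nonneg69 (v : ι → ℝ) : 0 ≤ vsq v :=
  Finset.sum_nonneg fun _ _ => sq_nonneg _

private theorem pr_vsq (u : ℝ) (x : a.M) (v : ι → ℝ) : a.pr u x v v = vsq (a.co u x v) := by
  rw [vsq_dot]; rfl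

theorem pr_nonneg (u : ℝ) (x : a.M) (v : ι → ℝ) : 0 ≤ a.pr u x v v := by
  rw [pr_vsq]; exact vsq_nonneg69 _

theorem abs_pr_le (u : ℝ) (x : a.M) (v w : ι → ℝ) :
    |a.pr u x v w| ≤ Real.sqrt (a.pr u x v v) * Real.sqrt (a.pr u x w w) := by
  rw [pr_vsq, pr_vsq]
  exact abs_dot_le _ _

private theorem det_meas {X : Type*} [MeasurableSpace X] {A : X → Matrix ι ι ℝ}
    (hA : ∀ i j, Measurable (fun x => A x i j)) : Measurable (fun x => (A x).det) := by
  simp only [Matrix.det_apply]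
  refine Finset.measurable_sum _ fun σ _ => ?_
  refine Measurable.const_smul ?_ _
  exact Finset.measurable_prod _ fun i _ => hA _ _

private theorem inv_meas {X : Type*} [MeasurableSpace X] {A : X → Matrix ι ι ℝ}
    (hA : ∀ i j, Measurable (fun x => A x i j)) (i j : ι) :
    Measurable (fun x => (A x)⁻¹ i j) := by
  have e : ∀ x, (A x)⁻¹ i j = (A x).det⁻¹ * (A x).adjugate i j := fun x => by
    rw [Matrix.inv_def, Ring.inverse_eq_inv']
    rfl
  simp only [e]
  refine (det_meas hA).inv.mul ?_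
  simp only [Matrix.adjugate_apply]
  refine det_meas fun k l => ?_
  by_cases hk : k = j
  · subst hk
    simp only [Matrix.updateRow_self]
    exact measurable_const
  · simp only [Matrix.updateRow_ne hk]
    exact hA _ _

theorem pr_meas (hG : a.Geom C h0) {α β : a.M → ι → ℝ} (hα : ∀ i, Measurable (fun x => α x i))
    (hβ : ∀ i, Measurable (fun x => β x i)) :
    Measurable (fun z : ℝ × a.M => a.pr z.1 z.2 (α z.2) (β z.2)) := by
  have hi := fun i j => inv_meas (X := ℝ × a.M) (A := fun z => a.P z.1 z.2) hG.P_meas i j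
  have hco : ∀ {γ : a.M → ι → ℝ}, (∀ i, Measurable (fun x => γ x i)) → ∀ i,
      Measurable (fun z : ℝ × a.M => a.co z.1 z.2 (γ z.2) i) := by
    intro γ hγ i
    unfold co Matrix.mulVec dotProduct
    simp only [Matrix.transpose_apply]
    exact Finset.measurable_sum _ fun j _ => (hi j i).mul ((hγ j).comp measurable_snd)
  unfold pr dotProduct
  exact Finset.measurable_sum _ fun i _ => (hco hα i).mul (hco hβ i)

private theorem pr_meas' (hG : a.Geom C h0) {α β : a.M → ι → ℝ}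
    (hα : ∀ i, Measurable (fun x => α x i)) (hβ : ∀ i, Measurable (fun x => β x i)) (s : ℝ) :
    Measurable (fun x => a.pr s x (α x) (β x)) := by
  have h := pr_meas hG hα hβ
  have h2 : Measurable (fun x : a.M => (s, x)) := measurable_prodMk_left
  have h3 := h.comp h2
  rw [Function.comp_def] at h3
  exact h3

private theorem R_symp (hG : a.Geom C h0) {u s : ℝ} (hu : u ∈ Icc 0 a.U) (hs : s ∈ Icc 0 a.U)
    (x : a.M) : (a.P s x * (a.P u x)⁻¹)ᵀ * a.J * (a.P s x * (a.P u x)⁻¹) = a.J :=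
  symp_mul (hG.symp s hs x) (symp_inv_symp hG.quat (hG.symp u hu x))

private theorem co_rel (hG : a.Geom C h0) {u s : ℝ} (hu : u ∈ Icc 0 a.U)
    (x : a.M) (v : ι → ℝ) :
    a.co s x v = ((a.P s x * (a.P u x)⁻¹)⁻¹)ᵀ *ᵥ a.co u x v := by
  have hu' := hG.inv u hu x
  unfold co
  rw [Matrix.mul_inv_rev, Matrix.nonsing_inv_nonsing_inv _ hu', Matrix.mulVec_mulVec,
    ← Matrix.transpose_mul, ← Matrix.mul_assoc, Matrix.nonsing_inv_mul _ hu', Matrix.one_mul]

theorem pr_le_trace (hG : a.Geom C h0) {u s : ℝ} (hu : u ∈ Icc 0 a.U) (hs : s ∈ Icc 0 a.U)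
    (x : a.M) (v : ι → ℝ) : a.pr s x v v ≤ (a.rel u s x).trace * a.pr u x v v := by
  rw [pr_vsq, pr_vsq, co_rel hG hu x v]
  exact symp_vsq_le hG.quat (R_symp hG hu hs x) _

private theorem tr_nonneg (u s : ℝ) (x : a.M) : 0 ≤ (a.rel u s x).trace := by
  unfold rel
  rw [trace_gm]
  exact nsq_nonneg

theorem pr_int (hG : a.Geom C h0) {u s : ℝ} (hu : u ∈ Icc 0 a.U) (hs : s ∈ Icc 0 a.U)
    (hus : |s - u| ≤ h0) {α : a.M → ι → ℝ} (hα : ∀ i, Measurable (fun x => α x i)) {D : ℝ}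
    (hD : ∀ x, a.pr u x (α x) (α x) ≤ D ^ 2) :
    Integrable (fun x => a.pr s x (α x) (α x)) a.μ ∧
      ∫ x, a.pr s x (α x) (α x) ∂a.μ ≤ 2 * Fintype.card ι * a.V * D ^ 2 := by
  obtain ⟨h1, h2⟩ := rel_trace hG hu hs hus
  have hb : ∀ x, a.pr s x (α x) (α x) ≤ (a.rel u s x).trace * D ^ 2 := fun x =>
    (pr_le_trace hG hu hs x (α x)).trans (mul_le_mul_of_nonneg_left (hD x) (tr_nonneg u s x))
  have hint : Integrable (fun x => a.pr s x (α x) (α x)) a.μ := by
    refine (h1.mul_const (D ^ 2)).mono' (pr_meas' hG hα hα s).aestronglyMeasurable ?_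
    refine Eventually.of_forall fun x => ?_
    rw [Real.norm_eq_abs, abs_of_nonneg (pr_nonneg s x _)]
    exact hb x
  refine ⟨hint, ?_⟩
  calc ∫ x, a.pr s x (α x) (α x) ∂a.μ ≤ ∫ x, (a.rel u s x).trace * D ^ 2 ∂a.μ :=
        integral_mono hint (h1.mul_const _) hb
    _ = (∫ x, (a.rel u s x).trace ∂a.μ) * D ^ 2 := integral_mul_const _ _
    _ ≤ _ := mul_le_mul_of_nonneg_right h2 (sq_nonneg D)

/-- Cauchy-Schwarz -/
private theorem cs_int {X : Type*} [MeasurableSpace X] {μ : Measure X} {f g : X → ℝ}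
    (hf : Integrable f μ) (hg : Integrable g μ) (hf0 : ∀ x, 0 ≤ f x) (hg0 : ∀ x, 0 ≤ g x) :
    Integrable (fun x => Real.sqrt (f x) * Real.sqrt (g x)) μ ∧
      ∫ x, Real.sqrt (f x) * Real.sqrt (g x) ∂μ ≤
        Real.sqrt (∫ x, f x ∂μ) * Real.sqrt (∫ x, g x ∂μ) := by
  have hmf : AEStronglyMeasurable (fun x => Real.sqrt (f x)) μ :=
    Real.continuous_sqrt.comp_aestronglyMeasurable hf.aestronglyMeasurable
  have hmg : AEStronglyMeasurable (fun x => Real.sqrt (g x)) μ :=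
    Real.continuous_sqrt.comp_aestronglyMeasurable hg.aestronglyMeasurable
  have hf2 : MemLp (fun x => Real.sqrt (f x)) 2 μ := by
    rw [memLp_two_iff_integrable_sq hmf]
    refine hf.congr (Eventually.of_forall fun x => ?_)
    exact (Real.sq_sqrt (hf0 x)).symm
  have hg2 : MemLp (fun x => Real.sqrt (g x)) 2 μ := by
    rw [memLp_two_iff_integrable_sq hmg]
    refine hg.congr (Eventually.of_forall fun x => ?_)
    exact (Real.sq_sqrt (hg0 x)).symm
  refine ⟨hf2.integrable_mul hg2, ?_⟩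
  have h2 : ENNReal.ofReal 2 = 2 := by norm_num
  have := integral_mul_le_Lp_mul_Lq_of_nonneg (p := 2) (q := 2) (μ := μ)
    (f := fun x => Real.sqrt (f x)) (g := fun x => Real.sqrt (g x))
    Real.HolderConjugate.two_two (Eventually.of_forall fun x => Real.sqrt_nonneg _)
    (Eventually.of_forall fun x => Real.sqrt_nonneg _) (by rwa [h2]) (by rwa [h2])
  refine this.trans (le_of_eq ?_)
  have ef : ∀ x, Real.sqrt (f x) ^ (2 : ℝ) = f x := fun x => by
    rw [Real.rpow_two, Real.sq_sqrt (hf0 x)]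
  have eg : ∀ x, Real.sqrt (g x) ^ (2 : ℝ) = g x := fun x => by
    rw [Real.rpow_two, Real.sq_sqrt (hg0 x)]
  simp only [ef, eg]
  rw [Real.sqrt_eq_rpow, Real.sqrt_eq_rpow]

theorem pr_sqrt_int (hG : a.Geom C h0) {u s : ℝ} (hu : u ∈ Icc 0 a.U) (hs : s ∈ Icc 0 a.U)
    (hus : |s - u| ≤ h0) {α : a.M → ι → ℝ} (hα : ∀ i, Measurable (fun x => α x i))
    (hi : Integrable (fun x => a.pr u x (α x) (α x)) a.μ) :
    Integrable (fun x => Real.sqrt (a.pr s x (α x) (α x))) a.μ ∧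
      ∫ x, Real.sqrt (a.pr s x (α x) (α x)) ∂a.μ ≤
        Real.sqrt (2 * Fintype.card ι * a.V) *
          Real.sqrt (∫ x, a.pr u x (α x) (α x) ∂a.μ) := by
  obtain ⟨h1, h2⟩ := rel_trace hG hu hs hus
  obtain ⟨h3, h4⟩ := cs_int h1 hi (fun x => tr_nonneg u s x) (fun x => pr_nonneg u x _)
  have hb : ∀ x, Real.sqrt (a.pr s x (α x) (α x)) ≤
      Real.sqrt (a.rel u s x).trace * Real.sqrt (a.pr u x (α x) (α x)) := fun x => by
    rw [← Real.sqrt_mul (tr_nonneg u s x)]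
    exact Real.sqrt_le_sqrt (pr_le_trace hG hu hs x (α x))
  have hint : Integrable (fun x => Real.sqrt (a.pr s x (α x) (α x))) a.μ := by
    refine h3.mono' (Real.continuous_sqrt.measurable.comp
      (pr_meas' hG hα hα s)).aestronglyMeasurable ?_
    refine Eventually.of_forall fun x => ?_
    rw [Real.norm_eq_abs, abs_of_nonneg (Real.sqrt_nonneg _)]
    exact hb x
  refine ⟨hint, (integral_mono hint h3 hb).trans (h4.trans ?_)⟩
  exact mul_le_mul_of_nonneg_right (Real.sqrt_le_sqrt h2) (Real.sqrt_nonneg _)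

private theorem pr_sub_eq (hG : a.Geom C h0) {u s : ℝ} (hu : u ∈ Icc 0 a.U)
    (hs : s ∈ Icc 0 a.U) (x : a.M) (v w : ι → ℝ) : a.pr s x v w - a.pr u x v w =
      a.co u x v ⬝ᵥ (((a.rel u s x)⁻¹ - 1) *ᵥ a.co u x w) := by
  have hR : IsUnit (a.P s x * (a.P u x)⁻¹).det := symp_isUnit hG.quat (R_symp hG hu hs x)
  unfold pr rel
  rw [co_rel (s := s) hG hu x v, co_rel (s := s) hG hu x w, dot_gm_inv hR, Matrix.sub_mulVec,
    Matrix.one_mulVec, dotProduct_sub]

theorem pr_diff_le (hG : a.Geom C h0) {u s : ℝ} (hu : u ∈ Icc 0 a.U) (hs : s ∈ Icc 0 a.U)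
    (x : a.M) (v w : ι → ℝ) : |a.pr s x v w - a.pr u x v w| ≤
      nrm (a.rel u s x - 1) * (Real.sqrt (a.pr u x v v) * Real.sqrt (a.pr u x w w)) := by
  rw [pr_sub_eq hG hu hs, pr_vsq, pr_vsq]
  exact symp_form_le hG.quat (R_symp hG hu hs x) _ _

theorem pr_diff_le' (hG : a.Geom C h0) {u s : ℝ} (hu : u ∈ Icc 0 a.U) (hs : s ∈ Icc 0 a.U)
    (x : a.M) (v w : ι → ℝ) : |a.pr s x v w - a.pr u x v w| ≤
      nrm (a.rel u s x - 1) * (Real.sqrt (a.pr u x v v) * Real.sqrt (a.pr s x w w)) := by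
  rw [pr_sub_eq hG hu hs, pr_vsq, pr_vsq, co_rel (s := s) hG hu x w]
  exact symp_form_le' hG.quat (R_symp hG hu hs x) _ _

/-- first order expansion of the product (`(rel)⁻¹ - 1 = -J (rel - 1) J`, `J S J = S`) -/
theorem pr_exp (hG : a.Geom C h0) {u s : ℝ} (hu : u ∈ Icc 0 a.U) (hs : s ∈ Icc 0 a.U)
    (hus : u < s) (x : a.M) (v w : ι → ℝ) :
    |(a.pr s x v w - a.pr u x v w) / (s - u) - a.co u x v ⬝ᵥ (a.S u x *ᵥ a.co u x w)| ≤
      nrm ((1 / (s - u)) • (a.rel u s x - 1) + a.S u x) *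
        (Real.sqrt (a.pr u x v v) * Real.sqrt (a.pr u x w w)) := by
  have hq := hG.quat
  have hinv : (a.rel u s x)⁻¹ - 1 = -(a.J * (a.rel u s x - 1) * a.J) := by
    have := symp_gm_inv hq (R_symp hG hu hs x)
    unfold rel
    rw [this, Matrix.mul_sub, Matrix.sub_mul, Matrix.mul_one, hq.JJ]
    abel
  have hS : a.J * a.S u x * a.J = a.S u x := by
    have := Lie.JSJ hq (hG.lie u hu x)
    unfold S
    rw [Matrix.mul_neg, Matrix.neg_mul, this]
  have key : (1 / (s - u)) • ((a.rel u s x)⁻¹ - 1) - a.S u x =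
      -(a.J * ((1 / (s - u)) • (a.rel u s x - 1) + a.S u x) * a.J) := by
    rw [hinv, Matrix.mul_add, Matrix.add_mul, hS, Matrix.mul_smul, Matrix.smul_mul, smul_neg]
    abel
  have e : (a.pr s x v w - a.pr u x v w) / (s - u) - a.co u x v ⬝ᵥ (a.S u x *ᵥ a.co u x w) =
      a.co u x v ⬝ᵥ
        ((-(a.J * ((1 / (s - u)) • (a.rel u s x - 1) + a.S u x) * a.J)) *ᵥ a.co u x w) := by
    rw [← key, pr_sub_eq hG hu hs,
      Matrix.sub_mulVec ((1 / (s - u)) • ((a.rel u s x)⁻¹ - 1)) (a.S u x), dotProduct_sub,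
      Matrix.smul_mulVec, dotProduct_smul, smul_eq_mul]
    ring
  rw [e, pr_vsq, pr_vsq]
  refine (abs_form_le _ _ _).trans (le_of_eq ?_)
  rw [nrm_neg, hq.nrm_J_right, hq.nrm_J_left]

private theorem pr_add_right (u : ℝ) (x : a.M) (v w₁ w₂ : ι → ℝ) (c₁ c₂ : ℝ) :
    a.pr u x v (c₁ • w₁ + c₂ • w₂) = c₁ * a.pr u x v w₁ + c₂ * a.pr u x v w₂ := by
  unfold pr co
  rw [Matrix.mulVec_add, Matrix.mulVec_smul, Matrix.mulVec_smul, dotProduct_add,
    dotProduct_smul, dotProduct_smul, smul_eq_mul, smul_eq_mul]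

theorem res_eq' (hG : a.Geom C h0) (hR : a.Rcd) {l : ℝ} (hl : 0 < l) {u : ℝ}
    (hu : u ∈ Icc 0 a.U) {f : a.M → ℝ} (hf : Measurable f) {L : ℝ} (hL : ∀ x, |f x| ≤ L)
    {φ : a.M → ℝ} (hφ : φ ∈ a.sm) {D : ℝ} (hD : ∀ x, |φ x| ≤ D)
    (hi : Integrable (fun x => a.pr u x (a.dl φ x) (a.dl φ x)) a.μ) :
    a.En u (a.Res l u f) φ + l * ∫ x, a.Res l u f x * φ x ∂a.μ = ∫ x, f x * φ x ∂a.μ := by
  have := hG.fin
  obtain ⟨D₀, hD₀, hgr⟩ := hR.res_grad l hl
  have hg := hgr u hu f hf L hL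
  obtain ⟨hRs, hRb⟩ := hR.res_sm l hl u hu f hf L hL
  set r := a.Res l u f with hr
  have hrm : Measurable r := (hG.sm_cont r hRs).measurable
  have hφm : Measurable φ := (hG.sm_cont φ hφ).measurable
  have hχm : ∀ j, Measurable (a.χ j) := fun j =>
    (hG.sm_cont _ (hG.cs_sm (hG.χ_cs j))).measurable
  have hχs : ∀ j, a.χ j ∈ a.sm := fun j => hG.cs_sm (hG.χ_cs j)
  have hχa : ∀ j x, |a.χ j x| ≤ 1 := fun j x => by
    rw [abs_of_nonneg (hG.χ_nonneg j x)]; exact hG.χ_le_one j x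
  have hdr := hG.dl_meas r hRs
  have hdφ := hG.dl_meas φ hφ
  have hdχ := fun j => hG.dl_meas (a.χ j) (hχs j)
  have hgs : ∀ x, Real.sqrt (a.pr u x (a.dl r x) (a.dl r x)) ≤ |D₀ * L| := fun x => by
    rw [← Real.sqrt_sq_eq_abs]; exact Real.sqrt_le_sqrt (hg x)
  have hφD : ∀ x, |φ x| ≤ |D| := fun x => (hD x).trans (le_abs_self D)
  have hfL : ∀ x, |f x| ≤ |L| := fun x => (hL x).trans (le_abs_self L)
  have hrL : ∀ x, |r x| ≤ |L / l| := fun x => (hRb x).trans (le_abs_self _)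
  -- the energy density
  have hm1 : Measurable (fun x => a.pr u x (a.dl r x) (a.dl φ x)) := pr_meas' hG hdr hdφ u
  have hsq : Integrable (fun x => Real.sqrt (a.pr u x (a.dl φ x) (a.dl φ x))) a.μ := by
    have := (cs_int (integrable_const (1 : ℝ)) hi (fun _ => zero_le_one)
      (fun x => pr_nonneg u x _)).1
    simpa using this
  have hb1 : ∀ x, |a.pr u x (a.dl r x) (a.dl φ x)| ≤
      |D₀ * L| * Real.sqrt (a.pr u x (a.dl φ x) (a.dl φ x)) := fun x =>
    (abs_pr_le u x _ _).trans (mul_le_mul_of_nonneg_right (hgs x) (Real.sqrt_nonneg _))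
  have hdom1 : Integrable (fun x => |D₀ * L| * Real.sqrt (a.pr u x (a.dl φ x) (a.dl φ x))) a.μ :=
    hsq.const_mul _
  -- limits
  have T1 : Tendsto (fun j => ∫ x, a.χ j x * a.pr u x (a.dl r x) (a.dl φ x) ∂a.μ) atTop
      (𝓝 (∫ x, a.pr u x (a.dl r x) (a.dl φ x) ∂a.μ)) := by
    refine tendsto_integral_of_dominated_convergence _
      (fun j => ((hχm j).mul hm1).aestronglyMeasurable) hdom1
      (fun j => Eventually.of_forall fun x => ?_) (Eventually.of_forall fun x => ?_)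
    · rw [Real.norm_eq_abs, abs_mul]
      calc |a.χ j x| * |a.pr u x (a.dl r x) (a.dl φ x)| ≤
            1 * (|D₀ * L| * Real.sqrt (a.pr u x (a.dl φ x) (a.dl φ x))) :=
            mul_le_mul (hχa j x) (hb1 x) (abs_nonneg _) zero_le_one
        _ = _ := one_mul _
    · simpa using (hG.χ_lim x).mul_const (a.pr u x (a.dl r x) (a.dl φ x))
  have T2 : Tendsto (fun j => ∫ x, φ x * a.pr u x (a.dl r x) (a.dl (a.χ j) x) ∂a.μ) atTop
      (𝓝 0) := by
    obtain ⟨ε, hε, hε'⟩ := hG.c_sq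
    have hχi : ∀ j, Integrable (fun x => a.pr u x (a.dl (a.χ j) x) (a.dl (a.χ j) x)) a.μ := by
      intro j
      obtain ⟨B, hB⟩ := hG.c_bdd (a.χ j) (hG.χ_cs j)
      refine (integrable_const B).mono' (pr_meas' hG (hdχ j) (hdχ j) u).aestronglyMeasurable ?_
      refine Eventually.of_forall fun x => ?_
      rw [Real.norm_eq_abs, abs_of_nonneg (pr_nonneg u x _)]
      exact hB u hu x
    have hb : ∀ j, ‖∫ x, φ x * a.pr u x (a.dl r x) (a.dl (a.χ j) x) ∂a.μ‖ ≤
        |D| * |D₀ * L| * (Real.sqrt (∫ _x, (1 : ℝ) ∂a.μ) * Real.sqrt (ε j)) := by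
      intro j
      obtain ⟨c1, c2⟩ := cs_int (μ := a.μ) (integrable_const (1 : ℝ)) (hχi j)
        (fun _ => zero_le_one) (fun x => pr_nonneg u x _)
      simp only [Real.sqrt_one, one_mul] at c1 c2
      have hd : ∀ x, ‖φ x * a.pr u x (a.dl r x) (a.dl (a.χ j) x)‖ ≤ |D| * |D₀ * L| *
          Real.sqrt (a.pr u x (a.dl (a.χ j) x) (a.dl (a.χ j) x)) := by
        intro x
        rw [Real.norm_eq_abs, abs_mul, mul_assoc]
        refine mul_le_mul (hφD x) ?_ (abs_nonneg _) (abs_nonneg _)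
        exact (abs_pr_le u x _ _).trans
          (mul_le_mul_of_nonneg_right (hgs x) (Real.sqrt_nonneg _))
      calc ‖∫ x, φ x * a.pr u x (a.dl r x) (a.dl (a.χ j) x) ∂a.μ‖ ≤
            ∫ x, |D| * |D₀ * L| *
              Real.sqrt (a.pr u x (a.dl (a.χ j) x) (a.dl (a.χ j) x)) ∂a.μ :=
            norm_integral_le_of_norm_le (c1.const_mul _) (Eventually.of_forall hd)
        _ = |D| * |D₀ * L| *
              ∫ x, Real.sqrt (a.pr u x (a.dl (a.χ j) x) (a.dl (a.χ j) x)) ∂a.μ :=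
            integral_const_mul _ _
        _ ≤ _ := by
            refine mul_le_mul_of_nonneg_left (c2.trans ?_) (by positivity)
            exact mul_le_mul_of_nonneg_left (Real.sqrt_le_sqrt (hε' j u hu)) (Real.sqrt_nonneg _)
    refine squeeze_zero_norm hb ?_
    have : Tendsto (fun j => Real.sqrt (ε j)) atTop (𝓝 0) := by
      have := (Real.continuous_sqrt.tendsto 0).comp hε
      rw [Real.sqrt_zero, Function.comp_def] at this
      exact this
    have := (this.const_mul (Real.sqrt (∫ _x, (1 : ℝ) ∂a.μ))).const_mul (|D| * |D₀ * L|)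
    simpa using this
  have T3 : Tendsto (fun j => ∫ x, r x * (a.χ j x * φ x) ∂a.μ) atTop
      (𝓝 (∫ x, r x * φ x ∂a.μ)) := by
    refine tendsto_integral_of_dominated_convergence (fun _ => |L / l| * (1 * |D|))
      (fun j => (hrm.mul ((hχm j).mul hφm)).aestronglyMeasurable) (integrable_const _)
      (fun j => Eventually.of_forall fun x => ?_) (Eventually.of_forall fun x => ?_)
    · rw [Real.norm_eq_abs, abs_mul, abs_mul]
      exact mul_le_mul (hrL x) (mul_le_mul (hχa j x) (hφD x) (abs_nonneg _) zero_le_one)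
        (by positivity) (abs_nonneg _)
    · have := ((hG.χ_lim x).mul_const (φ x)).const_mul (r x)
      simpa using this
  have T4 : Tendsto (fun j => ∫ x, f x * (a.χ j x * φ x) ∂a.μ) atTop
      (𝓝 (∫ x, f x * φ x ∂a.μ)) := by
    refine tendsto_integral_of_dominated_convergence (fun _ => |L| * (1 * |D|))
      (fun j => (hf.mul ((hχm j).mul hφm)).aestronglyMeasurable) (integrable_const _)
      (fun j => Eventually.of_forall fun x => ?_) (Eventually.of_forall fun x => ?_)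
    · rw [Real.norm_eq_abs, abs_mul, abs_mul]
      exact mul_le_mul (hfL x) (mul_le_mul (hχa j x) (hφD x) (abs_nonneg _) zero_le_one)
        (by positivity) (abs_nonneg _)
    · have := ((hG.χ_lim x).mul_const (φ x)).const_mul (f x)
      simpa using this
  have T5 := (T1.add T2).add (T3.const_mul l)
  rw [add_zero] at T5
  refine tendsto_nhds_unique T5 (T4.congr fun j => ?_)
  obtain ⟨hc, hd⟩ := hG.cs_mul (a.χ j) (hG.χ_cs j) φ hφ
  rw [← hR.res_eq l hl u hu f hf L hL _ hc, ← hr]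
  congr 1
  rw [← integral_add]
  · refine integral_congr_ae (Eventually.of_forall fun x => ?_)
    simp only
    rw [hd x, pr_add_right]
  · refine hdom1.mono' ((hχm j).mul hm1).aestronglyMeasurable (Eventually.of_forall fun x => ?_)
    rw [Real.norm_eq_abs, abs_mul]
    calc |a.χ j x| * |a.pr u x (a.dl r x) (a.dl φ x)| ≤
          1 * (|D₀ * L| * Real.sqrt (a.pr u x (a.dl φ x) (a.dl φ x))) :=
          mul_le_mul (hχa j x) (hb1 x) (abs_nonneg _) zero_le_one
      _ = _ := one_mul _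
  · obtain ⟨B, hB⟩ := hG.c_bdd (a.χ j) (hG.χ_cs j)
    refine (integrable_const (|D| * (|D₀ * L| * Real.sqrt B))).mono'
      (hφm.mul (pr_meas' hG hdr (hdχ j) u)).aestronglyMeasurable
      (Eventually.of_forall fun x => ?_)
    rw [Real.norm_eq_abs, abs_mul]
    refine mul_le_mul (hφD x) ?_ (abs_nonneg _) (abs_nonneg _)
    exact (abs_pr_le u x _ _).trans
      (mul_le_mul (hgs x) (Real.sqrt_le_sqrt (hB u hu x)) (Real.sqrt_nonneg _) (abs_nonneg _))

end Pool.Agent.SYR.Arc
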