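import Pool.Agent.SYR.ResA

/-!
# SYR/ResB : transport

`∫ push f v φ - ∫ push f u φ = ∫ f (y) (φ (Fl 0 v y) - φ (Fl 0 u y))` (`push_pair`, almost every `y` is in
`Dom 0 U`-type domains), fundamental theorem along the trajectory (`deriv`, `deriv_cont`), Fubini; then
`|dl φ · W_s| ≤ C sqrt (pr s dφ dφ)` (`dl_W_le`), `pres`, `pr_sqrt_int`. For the limit: for almost every
`y` the integrand `s ↦ (dl φ · W_s)(Fl 0 s y)` is continuous, and its `L²(μ)` norm is bounded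
(`pr_int`), so the average over `[u, v]` converges in `L¹`
(`MeasureTheory.tendsto_Lp_finite_of_tendsto_ae` or a truncation argument).
-/

set_option autoImplicit false

open Matrix MeasureTheory Filter Topology Set

namespace Pool.Agent.SYR.Arc

variable {ι : Type} [Fintype ι] [DecidableEq ι] {a : Arc ι} {C h0 : ℝ}

open scoped ENNReal

/-- derivative of `φ` along the trajectory of `y` -/
private noncomputable def gf15 (a : Arc ι) (φ : a.M → ℝ) (r : ℝ) (y : a.M) : ℝ :=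
  a.dl φ (a.Fl 0 r y) ⬝ᵥ a.W r (a.Fl 0 r y)

private theorem gf15_meas (hG : a.Geom C h0) (hF : a.Flow) {φ : a.M → ℝ} (hφ : φ ∈ a.sm) :
    Measurable (fun z : ℝ × a.M => gf15 a φ z.1 z.2) := by
  have h0' : (0 : ℝ) ∈ Icc 0 a.U := ⟨le_rfl, hG.U_pos.le⟩
  have hFl := (hF.meas 0 h0').1
  unfold gf15 dotProduct
  refine Finset.measurable_sum _ fun i _ => ?_
  exact ((hG.dl_meas φ hφ i).comp hFl).mul ((hG.W_meas i).comp (measurable_fst.prodMk hFl))

private theorem gx15_meas (hG : a.Geom C h0) {φ : a.M → ℝ} (hφ : φ ∈ a.sm) (r : ℝ) :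
    Measurable (fun x : a.M => a.dl φ x ⬝ᵥ a.W r x) := by
  unfold dotProduct
  refine Finset.measurable_sum _ fun i _ => ?_
  exact (hG.dl_meas φ hφ i).mul ((hG.W_meas i).comp (measurable_const.prodMk measurable_id))

private theorem fl15_meas (hG : a.Geom C h0) (hF : a.Flow) {φ : a.M → ℝ} (hφ : φ ∈ a.sm) (r : ℝ) :
    Measurable (fun y : a.M => φ (a.Fl 0 r y)) := by
  have h0' : (0 : ℝ) ∈ Icc 0 a.U := ⟨le_rfl, hG.U_pos.le⟩
  have hFl := (hF.meas 0 h0').1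
  have h1 : Measurable (fun y : a.M => a.Fl 0 r y) :=
    hFl.comp (measurable_const.prodMk measurable_id)
  exact (hG.sm_cont φ hφ).measurable.comp h1

private theorem ftc15 (hG : a.Geom C h0) (hF : a.Flow) {u v : ℝ} (hu : u ∈ Icc 0 a.U)
    (hv : v ∈ Icc 0 a.U) (huv : u ≤ v) {φ : a.M → ℝ} (hφ : φ ∈ a.sm) {y : a.M}
    (hy : y ∈ a.Dom 0 v) :
    ContinuousOn (fun r => gf15 a φ r y) (Icc u v) ∧
      ∫ r in u..v, gf15 a φ r y = φ (a.Fl 0 v y) - φ (a.Fl 0 u y) := by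
  have h0' : (0 : ℝ) ∈ Icc 0 a.U := ⟨le_rfl, hG.U_pos.le⟩
  have hI : uIcc 0 v = Icc 0 v := uIcc_of_le hv.1
  have hsub : Icc u v ⊆ Icc 0 v := Icc_subset_Icc_left hu.1
  have hc : ContinuousOn (fun r => gf15 a φ r y) (Icc u v) := by
    have := hF.deriv_cont φ hφ 0 h0' v hv y hy
    rw [hI] at this
    exact this.mono hsub
  have hd : ∀ r ∈ Icc 0 v, HasDerivWithinAt (fun r => φ (a.Fl 0 r y)) (gf15 a φ r y) (Icc 0 v) r := by
    intro r hr
    have := hF.deriv φ hφ 0 h0' v hv y hy r (by rw [hI]; exact hr)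
    rw [hI] at this
    exact this
  refine ⟨hc, ?_⟩
  refine intervalIntegral.integral_eq_sub_of_hasDeriv_right_of_le huv ?_ ?_ ?_
    (f := fun r => φ (a.Fl 0 r y)) (f' := fun r => gf15 a φ r y)
  · exact fun r hr => ((hd r (hsub hr)).continuousWithinAt).mono hsub
  · intro r hr
    have h1 : Icc 0 v ∈ 𝓝 r := Icc_mem_nhds (lt_of_le_of_lt hu.1 hr.1) hr.2
    exact ((hd r (hsub (Ioo_subset_Icc_self hr))).hasDerivAt h1).hasDerivWithinAt
  · exact ContinuousOn.intervalIntegrable (by rw [uIcc_of_le huv]; exact hc)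

private theorem lint_flow15 (hG : a.Geom C h0) (hF : a.Flow) {r v : ℝ} (hr : r ∈ Icc 0 a.U)
    (hv : v ∈ Icc 0 a.U) (hrv : r ≤ v) {k : a.M → ℝ≥0∞} (hk : Measurable k) :
    ∫⁻ y in a.Dom 0 v, k (a.Fl 0 r y) ∂a.μ ≤ ∫⁻ x, k x ∂a.μ := by
  have h0' : (0 : ℝ) ∈ Icc 0 a.U := ⟨le_rfl, hG.U_pos.le⟩
  have hI : uIcc 0 v = Icc 0 v := uIcc_of_le hv.1
  calc ∫⁻ y in a.Dom 0 v, k (a.Fl 0 r y) ∂a.μ
      ≤ ∫⁻ y in a.Dom 0 r, k (a.Fl 0 r y) ∂a.μ := by
        refine lintegral_mono_set ?_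
        intro y hy
        exact (hF.comp 0 h0' v hv r (by rw [hI]; exact ⟨hr.1, hrv⟩) y hy).1
    _ = ∫⁻ x in a.Dom r 0, k x ∂a.μ := hF.pres 0 h0' r hr k hk
    _ ≤ ∫⁻ x, k x ∂a.μ := setLIntegral_le_lintegral _ _

private theorem lint_avg15 (hG : a.Geom C h0) (hF : a.Flow) {u v : ℝ} (hu : u ∈ Icc 0 a.U)
    (hv : v ∈ Icc 0 a.U) {φ : a.M → ℝ} (hφ : φ ∈ a.sm) {q : ℝ → ℝ≥0∞}
    (hq : Measurable q) {B : ℝ≥0∞}
    (hB : ∀ r ∈ Icc u v, ∫⁻ x, q (a.dl φ x ⬝ᵥ a.W r x) ∂a.μ ≤ B) :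
    ∫⁻ y in a.Dom 0 v, (∫⁻ r in Ioc u v, q (gf15 a φ r y)) ∂a.μ ≤ ENNReal.ofReal (v - u) * B := by
  have := hG.fin
  have hm : Measurable (fun z : a.M × ℝ => q (gf15 a φ z.2 z.1)) :=
    hq.comp ((gf15_meas hG hF hφ).comp measurable_swap)
  rw [lintegral_lintegral_swap hm.aemeasurable]
  calc ∫⁻ r in Ioc u v, ∫⁻ y in a.Dom 0 v, q (gf15 a φ r y) ∂a.μ
      ≤ ∫⁻ _r in Ioc u v, B := by
        refine setLIntegral_mono' measurableSet_Ioc fun r hr => ?_
        have hr' : r ∈ Icc 0 a.U := ⟨hu.1.trans hr.1.le, hr.2.trans hv.2⟩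
        have hk : Measurable (fun x : a.M => q (a.dl φ x ⬝ᵥ a.W r x)) := hq.comp (gx15_meas hG hφ r)
        exact (lint_flow15 hG hF hr' hv hr.2 hk).trans (hB r ⟨hr.1.le, hr.2⟩)
    _ = ENNReal.ofReal (v - u) * B := by
        rw [setLIntegral_const, Real.volume_Ioc, mul_comm]

private theorem transport_aux15 (hG : a.Geom C h0) (hF : a.Flow) {u v : ℝ} (hu : u ∈ Icc 0 a.U)
    (hv : v ∈ Icc 0 a.U) (huv : u ≤ v) {f : a.M → ℝ} (hf : Measurable f)
    {L : ℝ} (hL0 : 0 ≤ L) (hL : ∀ x, |f x| ≤ L) {φ : a.M → ℝ} (hφ : φ ∈ a.sm) {D : ℝ}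
    (hD : ∀ x, |φ x| ≤ D) {B : ℝ} (hB0 : 0 ≤ B)
    (hB : ∀ r ∈ Icc u v, ∫⁻ x, ‖a.dl φ x ⬝ᵥ a.W r x‖ₑ ∂a.μ ≤ ENNReal.ofReal B) :
    |∫ x, a.push f v x * φ x ∂a.μ - ∫ x, a.push f u x * φ x ∂a.μ| ≤ L * ((v - u) * B) := by
  have := hG.fin
  have h0' : (0 : ℝ) ∈ Icc 0 a.U := ⟨le_rfl, hG.U_pos.le⟩
  have hφm : Measurable φ := (hG.sm_cont φ hφ).measurable
  have hφi : Integrable φ a.μ :=
    Integrable.of_bound hφm.aestronglyMeasurable D (ae_of_all _ fun x => hD x)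
  obtain ⟨i1, e1⟩ := push_pair hG hF hf hL hφm hφi hv
  obtain ⟨i2, e2⟩ := push_pair hG hF hf hL hφm hφi hu
  rw [e1, e2, ← integral_sub i1 i2]
  have hae : ∀ᵐ y ∂a.μ, y ∈ a.Dom 0 v := by
    rw [ae_iff]
    exact dom_null hG hF h0' hv
  have hrest : a.μ.restrict (a.Dom 0 v) = a.μ := Measure.restrict_eq_self_of_ae_mem hae
  have key : ‖∫ y, (f y * φ (a.Fl 0 v y) - f y * φ (a.Fl 0 u y)) ∂a.μ‖ₑ ≤
      ENNReal.ofReal (L * ((v - u) * B)) := by
    calc ‖∫ y, (f y * φ (a.Fl 0 v y) - f y * φ (a.Fl 0 u y)) ∂a.μ‖ₑ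
        ≤ ∫⁻ y, ‖f y * φ (a.Fl 0 v y) - f y * φ (a.Fl 0 u y)‖ₑ ∂a.μ :=
          enorm_integral_le_lintegral_enorm _
      _ ≤ ∫⁻ y, ENNReal.ofReal L * ‖φ (a.Fl 0 v y) - φ (a.Fl 0 u y)‖ₑ ∂a.μ := by
          refine lintegral_mono fun y => ?_
          rw [← mul_sub, enorm_mul]
          refine mul_le_mul_left ?_ _
          rw [Real.enorm_eq_ofReal_abs]
          exact ENNReal.ofReal_le_ofReal (hL y)
      _ = ENNReal.ofReal L * ∫⁻ y in a.Dom 0 v, ‖φ (a.Fl 0 v y) - φ (a.Fl 0 u y)‖ₑ ∂a.μ := by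
          rw [hrest, lintegral_const_mul]
          exact ((fl15_meas hG hF hφ v).sub (fl15_meas hG hF hφ u)).enorm
      _ ≤ ENNReal.ofReal L * ∫⁻ y in a.Dom 0 v, (∫⁻ r in Ioc u v, ‖gf15 a φ r y‖ₑ) ∂a.μ := by
          refine mul_le_mul_right ?_ _
          refine setLIntegral_mono' (hF.isOpen 0 h0' v hv).measurableSet fun y hy => ?_
          obtain ⟨_, h2⟩ := ftc15 hG hF hu hv huv hφ hy
          rw [← h2, intervalIntegral.integral_of_le huv]
          exact enorm_integral_le_lintegral_enorm _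
      _ ≤ ENNReal.ofReal L * (ENNReal.ofReal (v - u) * ENNReal.ofReal B) := by
          refine mul_le_mul_right ?_ _
          exact lint_avg15 hG hF hu hv hφ (q := fun t => ‖t‖ₑ) measurable_enorm hB
      _ = ENNReal.ofReal (L * ((v - u) * B)) := by
          rw [ENNReal.ofReal_mul hL0, ENNReal.ofReal_mul (by linarith)]
  rw [Real.enorm_eq_ofReal_abs, ENNReal.ofReal_le_ofReal_iff (by
    exact mul_nonneg hL0 (mul_nonneg (by linarith) hB0))] at key
  exact key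

private theorem bound15 (hG : a.Geom C h0) {u r : ℝ} (hu : u ∈ Icc 0 a.U) (hr : r ∈ Icc 0 a.U)
    (hur : |r - u| ≤ h0) {φ : a.M → ℝ} (hφ : φ ∈ a.sm)
    (hi : Integrable (fun x => a.pr u x (a.dl φ x) (a.dl φ x)) a.μ) :
    ∫⁻ x, ‖a.dl φ x ⬝ᵥ a.W r x‖ₑ ∂a.μ ≤ ENNReal.ofReal
      (C * (Real.sqrt (2 * Fintype.card ι * a.V) * Real.sqrt (a.En u φ φ))) := by
  have hC := hG.C_nonneg
  obtain ⟨h1, h2⟩ := pr_sqrt_int hG hu hr hur (hG.dl_meas φ hφ) hi
  calc ∫⁻ x, ‖a.dl φ x ⬝ᵥ a.W r x‖ₑ ∂a.μ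
      ≤ ∫⁻ x, ENNReal.ofReal (C * Real.sqrt (a.pr r x (a.dl φ x) (a.dl φ x))) ∂a.μ := by
        refine lintegral_mono fun x => ?_
        rw [Real.enorm_eq_ofReal_abs]
        exact ENNReal.ofReal_le_ofReal (dl_W_le hG hr x _)
    _ = ENNReal.ofReal (∫ x, C * Real.sqrt (a.pr r x (a.dl φ x) (a.dl φ x)) ∂a.μ) := by
        rw [ofReal_integral_eq_lintegral_ofReal (h1.const_mul C)
          (ae_of_all _ fun x => mul_nonneg hC (Real.sqrt_nonneg _))]
    _ ≤ _ := by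
        refine ENNReal.ofReal_le_ofReal ?_
        rw [integral_const_mul]
        exact mul_le_mul_of_nonneg_left h2 hC

theorem transport_le (hG : a.Geom C h0) (hF : a.Flow) {u v : ℝ} (hu : u ∈ Icc 0 a.U)
    (hv : v ∈ Icc 0 a.U) (huv : u ≤ v) (huv' : v - u ≤ h0) {f : a.M → ℝ} (hf : Measurable f)
    {L : ℝ} (hL : ∀ x, |f x| ≤ L) {φ : a.M → ℝ} (hφ : φ ∈ a.sm) {D : ℝ}
    (hD : ∀ x, |φ x| ≤ D) (hi : Integrable (fun x => a.pr v x (a.dl φ x) (a.dl φ x)) a.μ) :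
    |∫ x, a.push f v x * φ x ∂a.μ - ∫ x, a.push f u x * φ x ∂a.μ| ≤
      (v - u) * (L * C * Real.sqrt (2 * Fintype.card ι * a.V) *
        Real.sqrt (a.En v φ φ)) := by
  have hC := hG.C_nonneg
  rcases isEmpty_or_nonempty a.M with hM | ⟨⟨x0⟩⟩
  · have hV : a.V = 0 := by
      unfold V
      have : (univ : Set a.M) = ∅ := univ_eq_empty_iff.2 hM
      rw [this, measureReal_empty]
    have e : ∀ g : a.M → ℝ, ∫ x, g x ∂a.μ = 0 := by
      intro g
      have : a.μ = 0 := Measure.eq_zero_of_isEmpty a.μ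
      rw [this, integral_zero_measure]
    rw [e, e, hV]
    simp
  · have hL0 : 0 ≤ L := (abs_nonneg _).trans (hL x0)
    have h1 := transport_aux15 hG hF hu hv huv hf hL0 hL hφ hD
      (B := C * (Real.sqrt (2 * Fintype.card ι * a.V) * Real.sqrt (a.En v φ φ)))
      (mul_nonneg hC (mul_nonneg (Real.sqrt_nonneg _) (Real.sqrt_nonneg _)))
      (fun r hr => bound15 hG hv ⟨hu.1.trans hr.1, hr.2.trans hv.2⟩ (by
        rw [abs_le]
        constructor
        · linarith [hr.1]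
        · linarith [hr.2, hG.h0_pos]) hφ hi)
    refine h1.trans (le_of_eq ?_)
    ring

theorem transport_le' (hG : a.Geom C h0) (hF : a.Flow) {u v : ℝ} (hu : u ∈ Icc 0 a.U)
    (hv : v ∈ Icc 0 a.U) (huv : u ≤ v) (huv' : v - u ≤ h0) {f : a.M → ℝ} (hf : Measurable f)
    {L : ℝ} (hL : ∀ x, |f x| ≤ L) {φ : a.M → ℝ} (hφ : φ ∈ a.sm) {D : ℝ}
    (hD : ∀ x, |φ x| ≤ D) (hi : Integrable (fun x => a.pr u x (a.dl φ x) (a.dl φ x)) a.μ) :
    |∫ x, a.push f v x * φ x ∂a.μ - ∫ x, a.push f u x * φ x ∂a.μ| ≤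
      (v - u) * (L * C * Real.sqrt (2 * Fintype.card ι * a.V) *
        Real.sqrt (a.En u φ φ)) := by
  have hC := hG.C_nonneg
  rcases isEmpty_or_nonempty a.M with hM | ⟨⟨x0⟩⟩
  · have hV : a.V = 0 := by
      unfold V
      have : (univ : Set a.M) = ∅ := univ_eq_empty_iff.2 hM
      rw [this, measureReal_empty]
    have e : ∀ g : a.M → ℝ, ∫ x, g x ∂a.μ = 0 := by
      intro g
      have : a.μ = 0 := Measure.eq_zero_of_isEmpty a.μ
      rw [this, integral_zero_measure]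
    rw [e, e, hV]
    simp
  · have hL0 : 0 ≤ L := (abs_nonneg _).trans (hL x0)
    have h1 := transport_aux15 hG hF hu hv huv hf hL0 hL hφ hD
      (B := C * (Real.sqrt (2 * Fintype.card ι * a.V) * Real.sqrt (a.En u φ φ)))
      (mul_nonneg hC (mul_nonneg (Real.sqrt_nonneg _) (Real.sqrt_nonneg _)))
      (fun r hr => bound15 hG hu ⟨hu.1.trans hr.1, hr.2.trans hv.2⟩ (by
        rw [abs_le]
        constructor
        · linarith [hr.1, hG.h0_pos]
        · linarith [hr.2]) hφ hi)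
    refine h1.trans (le_of_eq ?_)
    ring

/-- almost everywhere convergence and a bound in `L²` give convergence in `L¹` -/
private theorem tendsto_L1_15 {Ω : Type} [MeasurableSpace Ω] {μ : Measure Ω} [IsFiniteMeasure μ]
    {l : Filter ℝ} [l.IsCountablyGenerated] {w : ℝ → Ω → ℝ} {Λ : ℝ}
    (hm : ∀ᶠ v in l, AEStronglyMeasurable (w v) μ)
    (hi : ∀ᶠ v in l, Integrable (fun y => (w v y) ^ 2) μ ∧ ∫ y, (w v y) ^ 2 ∂μ ≤ Λ)
    (hlim : ∀ᵐ y ∂μ, Tendsto (fun v => w v y) l (𝓝 0)) :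
    (∀ᶠ v in l, Integrable (w v) μ) ∧ Tendsto (fun v => ∫ y, |w v y| ∂μ) l (𝓝 0) := by
  have hint : ∀ᶠ v in l, Integrable (w v) μ := by
    filter_upwards [hm, hi] with v h1 h2
    have h3 : Integrable (fun y => 1 + (w v y) ^ 2) μ := (integrable_const 1).add h2.1
    refine h3.mono' h1 (ae_of_all _ fun y => ?_)
    rw [Real.norm_eq_abs]
    nlinarith [sq_nonneg (|w v y| - 1), sq_abs (w v y), abs_nonneg (w v y)]
  refine ⟨hint, ?_⟩
  rw [Metric.tendsto_nhds]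
  intro ε hε
  obtain ⟨R, hR0, hR⟩ : ∃ R : ℝ, 0 < R ∧ |Λ| / R < ε / 2 := by
    refine ⟨2 * (|Λ| + 1) / ε, by positivity, ?_⟩
    rw [div_lt_iff₀ (by positivity)]
    have : ε / 2 * (2 * (|Λ| + 1) / ε) = |Λ| + 1 := by field_simp
    rw [this]
    linarith
  have hmin : Tendsto (fun v => ∫ y, min |w v y| R ∂μ) l (𝓝 (∫ _y : Ω, (0 : ℝ) ∂μ)) := by
    refine tendsto_integral_filter_of_dominated_convergence (fun _ => R) ?_ ?_ ?_ ?_
    · filter_upwards [hm] with v h1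
      exact (continuous_abs.comp_aestronglyMeasurable h1).inf aestronglyMeasurable_const
    · refine Eventually.of_forall fun v => ae_of_all _ fun y => ?_
      rw [Real.norm_of_nonneg (le_min (abs_nonneg _) hR0.le)]
      exact min_le_right _ _
    · exact integrable_const _
    · filter_upwards [hlim] with y hy
      have h1 : Tendsto (fun v => min |w v y| R) l (𝓝 (min |(0 : ℝ)| R)) :=
        (hy.abs).min tendsto_const_nhds
      rw [abs_zero, min_eq_left hR0.le] at h1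
      exact h1
  rw [integral_zero, Metric.tendsto_nhds] at hmin
  filter_upwards [hmin (ε / 2) (by positivity), hint, hi, hm] with v h1 h2 h3 h4
  rw [Real.dist_eq, sub_zero] at h1 ⊢
  have hmi : Integrable (fun y => min |w v y| R) μ := by
    refine (integrable_const R).mono'
      ((continuous_abs.comp_aestronglyMeasurable h4).inf aestronglyMeasurable_const)
      (ae_of_all _ fun y => ?_)
    rw [Real.norm_of_nonneg (le_min (abs_nonneg _) hR0.le)]
    exact min_le_right _ _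
  have h5 : ∫ y, |w v y| ∂μ ≤ ∫ y, (min |w v y| R + (1 / R) * (w v y) ^ 2) ∂μ := by
    refine integral_mono h2.abs (hmi.add (h3.1.const_mul _)) fun y => ?_
    rcases le_total |w v y| R with h | h
    · have h6 : 0 ≤ (1 / R) * (w v y) ^ 2 := by positivity
      simp only [min_eq_left h]
      linarith
    · have h6 : |w v y| ≤ (1 / R) * (w v y) ^ 2 := by
        rw [← sq_abs (w v y), one_div, inv_mul_eq_div, le_div_iff₀ hR0]
        nlinarith [abs_nonneg (w v y)]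
      simp only [min_eq_right h]
      linarith
  rw [integral_add hmi (h3.1.const_mul _), integral_const_mul] at h5
  have h7 : (1 / R) * ∫ y, (w v y) ^ 2 ∂μ ≤ |Λ| / R := by
    rw [one_div, inv_mul_eq_div]
    exact div_le_div_of_nonneg_right (h3.2.trans (le_abs_self _)) hR0.le
  have h8 : 0 ≤ ∫ y, |w v y| ∂μ := integral_nonneg fun y => abs_nonneg _
  rw [abs_of_nonneg h8]
  have h9 := le_abs_self (∫ y, min |w v y| R ∂μ)
  linarith

/-- Cauchy-Schwarz for averages -/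
private theorem avg_sq15 {g : ℝ → ℝ} {u v : ℝ} (huv : u < v) (hg : ContinuousOn g (Icc u v)) :
    ((∫ r in u..v, g r) / (v - u)) ^ 2 ≤ (1 / (v - u)) * ∫ r in Ioc u v, (g r) ^ 2 := by
  have hd : 0 < v - u := by linarith
  set c : ℝ := (∫ r in u..v, g r) / (v - u) with hc
  have hc' : ∫ r in u..v, g r = c * (v - u) := by rw [hc]; field_simp
  have hgu : ContinuousOn g (uIcc u v) := by rw [uIcc_of_le huv.le]; exact hg
  have i1 : IntervalIntegrable g volume u v := hgu.intervalIntegrable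
  have i2 : IntervalIntegrable (fun r => (g r) ^ 2) volume u v := (hgu.pow 2).intervalIntegrable
  have h1 : 0 ≤ ∫ r in u..v, ((g r) ^ 2 - (2 * c) * g r + c ^ 2) := by
    refine intervalIntegral.integral_nonneg huv.le fun r _ => ?_
    nlinarith [sq_nonneg (g r - c)]
  rw [intervalIntegral.integral_add (i2.sub (i1.const_mul _)) intervalIntegrable_const,
    intervalIntegral.integral_sub i2 (i1.const_mul _), intervalIntegral.integral_const_mul,
    intervalIntegral.integral_const, smul_eq_mul, hc', intervalIntegral.integral_of_le huv.le] at h1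
  rw [one_div, inv_mul_eq_div, le_div_iff₀ hd]
  nlinarith

theorem transport_lim (hG : a.Geom C h0) (hF : a.Flow) {u : ℝ} (hu : u ∈ Ico 0 a.U)
    {f : a.M → ℝ} (hf : Measurable f) {L : ℝ} (hL : ∀ x, |f x| ≤ L) {φ : a.M → ℝ}
    (hφ : φ ∈ a.sm) {D : ℝ} (hD : ∀ x, |φ x| ≤ D) {E : ℝ}
    (hE : ∀ x, a.pr u x (a.dl φ x) (a.dl φ x) ≤ E ^ 2) :
    Tendsto (fun v => (∫ x, a.push f v x * φ x ∂a.μ - ∫ x, a.push f u x * φ x ∂a.μ) / (v - u))
      (𝓝[>] u) (𝓝 (∫ x, a.push f u x * (a.dl φ x ⬝ᵥ a.W u x) ∂a.μ)) := by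
  have := hG.fin
  have hC := hG.C_nonneg
  have h0' : (0 : ℝ) ∈ Icc 0 a.U := ⟨le_rfl, hG.U_pos.le⟩
  have hU' : a.U ∈ Icc 0 a.U := ⟨hG.U_pos.le, le_rfl⟩
  have hu' : u ∈ Icc 0 a.U := ⟨hu.1, hu.2.le⟩
  have hφm : Measurable φ := (hG.sm_cont φ hφ).measurable
  have hφi : Integrable φ a.μ :=
    Integrable.of_bound hφm.aestronglyMeasurable D (ae_of_all _ fun x => hD x)
  -- the derivative at `u`
  have hgb : ∀ x, |a.dl φ x ⬝ᵥ a.W u x| ≤ C * |E| := by
    intro x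
    refine (dl_W_le hG hu' x _).trans (mul_le_mul_of_nonneg_left ?_ hC)
    rw [← Real.sqrt_sq_eq_abs]
    exact Real.sqrt_le_sqrt (hE x)
  have hgm := gx15_meas hG hφ u
  have hgi : Integrable (fun x => a.dl φ x ⬝ᵥ a.W u x) a.μ :=
    Integrable.of_bound hgm.aestronglyMeasurable (C * |E|) (ae_of_all _ fun x => hgb x)
  obtain ⟨i0, e0⟩ := push_pair hG hF hf hL hgm hgi hu'
  rw [e0]
  set w : ℝ → a.M → ℝ := fun v y =>
    (φ (a.Fl 0 v y) - φ (a.Fl 0 u y)) / (v - u) - gf15 a φ u y with hw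
  have hwm : ∀ v, Measurable (w v) := fun v =>
    (((fl15_meas hG hF hφ v).sub (fl15_meas hG hF hφ u)).div_const _).sub
      ((gf15_meas hG hF hφ).comp (measurable_const.prodMk measurable_id))
  have hqm : ∀ v, Measurable (fun y => (φ (a.Fl 0 v y) - φ (a.Fl 0 u y)) / (v - u)) := fun v =>
    ((fl15_meas hG hF hφ v).sub (fl15_meas hG hF hφ u)).div_const _
  have hqb : ∀ v y, |(φ (a.Fl 0 v y) - φ (a.Fl 0 u y)) / (v - u)| ≤ 2 * D / |v - u| := by
    intro v y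
    rw [abs_div]
    refine div_le_div_of_nonneg_right ?_ (abs_nonneg _)
    refine (abs_sub _ _).trans ?_
    linarith [hD (a.Fl 0 v y), hD (a.Fl 0 u y)]
  have hqi : ∀ v, Integrable (fun y => ((φ (a.Fl 0 v y) - φ (a.Fl 0 u y)) / (v - u)) ^ 2) a.μ := by
    intro v
    refine Integrable.of_bound ((hqm v).pow_const 2).aestronglyMeasurable ((2 * D / |v - u|) ^ 2)
      (ae_of_all _ fun y => ?_)
    rw [Real.norm_eq_abs, abs_pow]
    exact pow_le_pow_left₀ (abs_nonneg _) (hqb v y) 2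
  have hgu : ∀ y, |gf15 a φ u y| ≤ C * |E| := fun y => hgb _
  have hgum : Measurable (fun y => gf15 a φ u y) :=
    (gf15_meas hG hF hφ).comp (measurable_const.prodMk measurable_id)
  -- the bound in `L²`
  set Λ₀ : ℝ := C ^ 2 * (2 * Fintype.card ι * a.V * E ^ 2) with hΛ₀
  have hV : 0 ≤ a.V := measureReal_nonneg
  have hΛ₀0 : 0 ≤ Λ₀ := by positivity
  have hev : ∀ᶠ v in 𝓝[>] u, u < v ∧ v ≤ a.U ∧ v - u ≤ h0 := by
    have h1 : Ioc u (min a.U (u + h0)) ∈ 𝓝[>] u :=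
      Ioc_mem_nhdsGT (lt_min hu.2 (by linarith [hG.h0_pos]))
    filter_upwards [h1] with v hv
    refine ⟨hv.1, hv.2.trans (min_le_left _ _), ?_⟩
    have := hv.2.trans (min_le_right _ _)
    linarith
  have hsqB : ∀ r ∈ Icc 0 a.U, |r - u| ≤ h0 →
      ∫⁻ x, ENNReal.ofReal ((a.dl φ x ⬝ᵥ a.W r x) ^ 2) ∂a.μ ≤ ENNReal.ofReal Λ₀ := by
    intro r hr hru
    obtain ⟨h1, h2⟩ := pr_int hG hu' hr hru (hG.dl_meas φ hφ) hE
    calc ∫⁻ x, ENNReal.ofReal ((a.dl φ x ⬝ᵥ a.W r x) ^ 2) ∂a.μ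
        ≤ ∫⁻ x, ENNReal.ofReal (C ^ 2 * a.pr r x (a.dl φ x) (a.dl φ x)) ∂a.μ := by
          refine lintegral_mono fun x => ENNReal.ofReal_le_ofReal ?_
          have h3 := dl_W_le hG hr x (a.dl φ x)
          have h4 : (a.dl φ x ⬝ᵥ a.W r x) ^ 2 ≤
              (C * Real.sqrt (a.pr r x (a.dl φ x) (a.dl φ x))) ^ 2 := by
            rw [← sq_abs (a.dl φ x ⬝ᵥ a.W r x)]
            exact pow_le_pow_left₀ (abs_nonneg _) h3 2
          rw [mul_pow, Real.sq_sqrt (pr_nonneg r x _)] at h4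
          exact h4
      _ = ENNReal.ofReal (∫ x, C ^ 2 * a.pr r x (a.dl φ x) (a.dl φ x) ∂a.μ) := by
          rw [ofReal_integral_eq_lintegral_ofReal (h1.const_mul _)
            (ae_of_all _ fun x => mul_nonneg (sq_nonneg _) (pr_nonneg r x _))]
      _ ≤ ENNReal.ofReal Λ₀ := by
          refine ENNReal.ofReal_le_ofReal ?_
          rw [integral_const_mul]
          exact mul_le_mul_of_nonneg_left h2 (sq_nonneg _)
  have hq2 : ∀ v, u < v → v ≤ a.U → v - u ≤ h0 →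
      ∫ y, ((φ (a.Fl 0 v y) - φ (a.Fl 0 u y)) / (v - u)) ^ 2 ∂a.μ ≤ Λ₀ := by
    intro v hv1 hv2 hv3
    have hv : v ∈ Icc 0 a.U := ⟨hu.1.trans hv1.le, hv2⟩
    have hd : 0 < v - u := by linarith
    have hae : ∀ᵐ y ∂a.μ, y ∈ a.Dom 0 v := by
      rw [ae_iff]
      exact dom_null hG hF h0' hv
    have hrest : a.μ.restrict (a.Dom 0 v) = a.μ := Measure.restrict_eq_self_of_ae_mem hae
    rw [integral_eq_lintegral_of_nonneg_ae (ae_of_all _ fun y => sq_nonneg _)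
      ((hqm v).pow_const 2).aestronglyMeasurable]
    refine ENNReal.toReal_le_of_le_ofReal hΛ₀0 ?_
    calc ∫⁻ y, ENNReal.ofReal (((φ (a.Fl 0 v y) - φ (a.Fl 0 u y)) / (v - u)) ^ 2) ∂a.μ
        = ∫⁻ y in a.Dom 0 v,
            ENNReal.ofReal (((φ (a.Fl 0 v y) - φ (a.Fl 0 u y)) / (v - u)) ^ 2) ∂a.μ := by
          rw [hrest]
      _ ≤ ∫⁻ y in a.Dom 0 v, ENNReal.ofReal (1 / (v - u)) *
            (∫⁻ r in Ioc u v, ENNReal.ofReal ((gf15 a φ r y) ^ 2)) ∂a.μ := by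
          refine setLIntegral_mono' (hF.isOpen 0 h0' v hv).measurableSet fun y hy => ?_
          obtain ⟨h1, h2⟩ := ftc15 hG hF hu' hv hv1.le hφ hy
          have h3 := avg_sq15 hv1 h1
          rw [h2] at h3
          refine (ENNReal.ofReal_le_ofReal h3).trans (le_of_eq ?_)
          rw [ENNReal.ofReal_mul (by positivity)]
          congr 1
          have h4 : IntegrableOn (fun r => (gf15 a φ r y) ^ 2) (Ioc u v) volume :=
            ((h1.pow 2).integrableOn_Icc).mono_set Ioc_subset_Icc_self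
          exact ofReal_integral_eq_lintegral_ofReal h4 (ae_of_all _ fun r => sq_nonneg _)
      _ = ENNReal.ofReal (1 / (v - u)) * ∫⁻ y in a.Dom 0 v,
            (∫⁻ r in Ioc u v, ENNReal.ofReal ((gf15 a φ r y) ^ 2)) ∂a.μ := by
          rw [lintegral_const_mul' _ _ ENNReal.ofReal_ne_top]
      _ ≤ ENNReal.ofReal (1 / (v - u)) * (ENNReal.ofReal (v - u) * ENNReal.ofReal Λ₀) := by
          refine mul_le_mul_right ?_ _
          refine lint_avg15 hG hF hu' hv hφ (q := fun t => ENNReal.ofReal (t ^ 2))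
            ((measurable_id.pow_const 2).ennreal_ofReal) ?_
          intro r hr
          refine hsqB r ⟨hu.1.trans hr.1, hr.2.trans hv2⟩ ?_
          rw [abs_le]
          constructor
          · linarith [hr.1, hG.h0_pos]
          · linarith [hr.2]
      _ = ENNReal.ofReal Λ₀ := by
          rw [← mul_assoc, ← ENNReal.ofReal_mul (by positivity), one_div,
            inv_mul_cancel₀ hd.ne', ENNReal.ofReal_one, one_mul]
  have hg2 : Integrable (fun y => (gf15 a φ u y) ^ 2) a.μ ∧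
      ∫ y, (gf15 a φ u y) ^ 2 ∂a.μ ≤ (C * |E|) ^ 2 * a.V := by
    have h1 : Integrable (fun y => (gf15 a φ u y) ^ 2) a.μ := by
      refine Integrable.of_bound (hgum.pow_const 2).aestronglyMeasurable ((C * |E|) ^ 2)
        (ae_of_all _ fun y => ?_)
      rw [Real.norm_eq_abs, abs_pow]
      exact pow_le_pow_left₀ (abs_nonneg _) (hgu y) 2
    refine ⟨h1, ?_⟩
    have h2 : ∫ y, (gf15 a φ u y) ^ 2 ∂a.μ ≤ ∫ _y : a.M, (C * |E|) ^ 2 ∂a.μ := by
      refine integral_mono h1 (integrable_const _) fun y => ?_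
      simp only
      rw [← sq_abs (gf15 a φ u y)]
      exact pow_le_pow_left₀ (abs_nonneg _) (hgu y) 2
    rw [integral_const, smul_eq_mul, mul_comm] at h2
    exact h2
  have hL1 := tendsto_L1_15 (μ := a.μ) (l := 𝓝[>] u) (w := w)
    (Λ := 2 * Λ₀ + 2 * ((C * |E|) ^ 2 * a.V))
    (Eventually.of_forall fun v => (hwm v).aestronglyMeasurable)
    (by
      filter_upwards [hev] with v hv
      have h1 := hq2 v hv.1 hv.2.1 hv.2.2
      have h2 : Integrable (fun y => 2 * ((φ (a.Fl 0 v y) - φ (a.Fl 0 u y)) / (v - u)) ^ 2 +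
          2 * (gf15 a φ u y) ^ 2) a.μ := ((hqi v).const_mul 2).add (hg2.1.const_mul 2)
      have h3 : ∀ y, (w v y) ^ 2 ≤ 2 * ((φ (a.Fl 0 v y) - φ (a.Fl 0 u y)) / (v - u)) ^ 2 +
          2 * (gf15 a φ u y) ^ 2 := by
        intro y
        simp only [hw]
        nlinarith [sq_nonneg ((φ (a.Fl 0 v y) - φ (a.Fl 0 u y)) / (v - u) + gf15 a φ u y)]
      have h4 : Integrable (fun y => (w v y) ^ 2) a.μ := by
        refine h2.mono' ((hwm v).pow_const 2).aestronglyMeasurable (ae_of_all _ fun y => ?_)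
        rw [Real.norm_of_nonneg (sq_nonneg _)]
        exact h3 y
      refine ⟨h4, ?_⟩
      have h5 := integral_mono h4 h2 h3
      rw [integral_add ((hqi v).const_mul 2) (hg2.1.const_mul 2), integral_const_mul,
        integral_const_mul] at h5
      linarith [hg2.2])
    (by
      have hae : ∀ᵐ y ∂a.μ, y ∈ a.Dom 0 a.U := by
        rw [ae_iff]
        exact dom_null hG hF h0' hU'
      filter_upwards [hae] with y hy
      have h1 : HasDerivWithinAt (fun r => φ (a.Fl 0 r y)) (gf15 a φ u y) (Icc 0 a.U) u := by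
        have := hF.deriv φ hφ 0 h0' a.U hU' y hy u (by rw [uIcc_of_le hG.U_pos.le]; exact hu')
        rw [uIcc_of_le hG.U_pos.le] at this
        exact this
      rw [hasDerivWithinAt_iff_tendsto_slope] at h1
      have h2 : 𝓝[>] u ≤ 𝓝[Icc 0 a.U \ {u}] u := by
        rw [← nhdsWithin_Ioo_eq_nhdsGT hu.2]
        refine nhdsWithin_mono _ fun r hr => ?_
        exact ⟨⟨hu.1.trans hr.1.le, hr.2.le⟩, fun h => absurd hr.1 (by rw [h]; exact lt_irrefl _)⟩
      have h3 := (h1.mono_left h2).sub_const (gf15 a φ u y)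
      rw [sub_self] at h3
      refine h3.congr fun v => ?_
      simp only [hw, slope_def_field])
  obtain ⟨hwi, hwl⟩ := hL1
  have hLb : ∀ y, |f y| ≤ |L| := fun y => (hL y).trans (le_abs_self L)
  have hkey : ∀ᶠ v in 𝓝[>] u, |(∫ x, a.push f v x * φ x ∂a.μ - ∫ x, a.push f u x * φ x ∂a.μ) /
      (v - u) - ∫ y, f y * (a.dl φ (a.Fl 0 u y) ⬝ᵥ a.W u (a.Fl 0 u y)) ∂a.μ| ≤
        |L| * ∫ y, |w v y| ∂a.μ := by
    filter_upwards [hev, hwi] with v hv hwv
    have hv' : v ∈ Icc 0 a.U := ⟨hu.1.trans hv.1.le, hv.2.1⟩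
    obtain ⟨i1, e1⟩ := push_pair hG hF hf hL hφm hφi hv'
    obtain ⟨i2, e2⟩ := push_pair hG hF hf hL hφm hφi hu'
    have e3 : (∫ x, a.push f v x * φ x ∂a.μ - ∫ x, a.push f u x * φ x ∂a.μ) / (v - u) -
        ∫ y, f y * (a.dl φ (a.Fl 0 u y) ⬝ᵥ a.W u (a.Fl 0 u y)) ∂a.μ = ∫ y, f y * w v y ∂a.μ := by
      have i3 : Integrable (fun y => (f y * φ (a.Fl 0 v y) - f y * φ (a.Fl 0 u y)) / (v - u)) a.μ :=
        (i1.sub i2).div_const _
      rw [e1, e2, ← integral_sub i1 i2, ← integral_div, ← integral_sub i3 i0]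
      refine integral_congr_ae (ae_of_all _ fun y => ?_)
      simp only [hw, gf15]
      ring
    rw [e3]
    calc |∫ y, f y * w v y ∂a.μ| ≤ ∫ y, |f y * w v y| ∂a.μ := abs_integral_le_integral_abs
      _ ≤ ∫ y, |L| * |w v y| ∂a.μ := by
          refine integral_mono_of_nonneg (ae_of_all _ fun y => abs_nonneg _)
            (hwv.abs.const_mul _) (ae_of_all _ fun y => ?_)
          simp only
          rw [abs_mul]
          exact mul_le_mul_of_nonneg_right (hLb y) (abs_nonneg _)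
      _ = |L| * ∫ y, |w v y| ∂a.μ := integral_const_mul _ _
  rw [tendsto_iff_norm_sub_tendsto_zero]
  refine squeeze_zero' (Eventually.of_forall fun v => norm_nonneg _) hkey ?_
  have := hwl.const_mul |L|
  rw [mul_zero] at this
  exact this

end Pool.Agent.SYR.Arc
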