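import Pool.Agent.SYR.ResB

/-!
# SYR/ResC : expansion of `⟨R_v f^v, h^v⟩`

Notation: `l > 0`, `f, h` bounded measurable, `f^v = push f v`, `F v = Res l v (push f v)`, `H v`
similarly for `h`; `φ v = F v - F u`. With `B_v (p, q) = En v p q + l ∫ p q` (for bounded functions of
class `C¹` of finite energy) and `B_v (F v, q) = ∫ f^v q`:
`pairing v - pairing u = [∫ (f^v - f^u) H u] + [∫ (h^v - h^u) F u] - [En v (F u) (H u) - En u (F u) (H u)]
  + B_v (F v - F u, H v - H u)`.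
Error term: `B_v (φ, φ) = [∫ (f^v - f^u) φ] - [En v (F u) φ - En u (F u) φ]`; first bracket
`≤ (v-u) C' sqrt (En v φ φ)` (`transport_le`), second: `≤ ∫ nrm (rel - 1) min (C1, C2 sqrt (pr v dφ dφ))`
(`pr_diff_le` for `dF u, dF u`; `pr_diff_le` with the roles of `v, w` exchanged as in `pr_diff_le'` for
`dF u, dF v` resp. `dφ`). So first `B_v (φ, φ) ≤ C'' (v - u)` (`rel_sub`), then
`B_v (φ, φ) / (v - u) → 0`: `nrm (rel - 1)/(v-u) → nrm S` in `L¹` (`rel_lim`, `S_int`) and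
`∫ pr v dφ dφ → 0`.
-/

set_option autoImplicit false

open Matrix MeasureTheory Filter Topology Set

namespace Pool.Agent.SYR.Arc

variable {ι : Type} [Fintype ι] [DecidableEq ι] {a : Arc ι} {C h0 : ℝ}

/-- `⟨R_u f^u, h^u⟩` -/
noncomputable def pairing (a : Arc ι) (l : ℝ) (f h : a.M → ℝ) (u : ℝ) : ℝ :=
  ∫ x, a.Res l u (a.push f u) x * a.push h u x ∂a.μ

/-- the quadratic error term -/
noncomputable def err (a : Arc ι) (l : ℝ) (f : a.M → ℝ) (u v : ℝ) : ℝ :=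
  a.En v (fun x => a.Res l v (a.push f v) x - a.Res l u (a.push f u) x)
      (fun x => a.Res l v (a.push f v) x - a.Res l u (a.push f u) x) +
    l * ∫ x, (a.Res l v (a.push f v) x - a.Res l u (a.push f u) x) ^ 2 ∂a.μ

theorem err_nonneg {l : ℝ} (hl : 0 < l) {f : a.M → ℝ} {u v : ℝ} : 0 ≤ a.err l f u v := by
  unfold err
  have h1 : 0 ≤ a.En v (fun x => a.Res l v (a.push f v) x - a.Res l u (a.push f u) x)
      (fun x => a.Res l v (a.push f v) x - a.Res l u (a.push f u) x) :=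
    integral_nonneg fun x => pr_nonneg v x _
  have h2 : 0 ≤ ∫ x, (a.Res l v (a.push f v) x - a.Res l u (a.push f u) x) ^ 2 ∂a.μ :=
    integral_nonneg fun x => sq_nonneg _
  have h3 := mul_nonneg hl.le h2
  linarith

theorem pr_sub_left (u : ℝ) (x : a.M) (v w z : ι → ℝ) :
    a.pr u x (v - w) z = a.pr u x v z - a.pr u x w z := by
  unfold pr co
  rw [Matrix.mulVec_sub, sub_dotProduct]

theorem pr_sub_right (u : ℝ) (x : a.M) (v w z : ι → ℝ) :
    a.pr u x z (v - w) = a.pr u x z v - a.pr u x z w := by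
  unfold pr co
  rw [Matrix.mulVec_sub, dotProduct_sub]

theorem pr_comm (u : ℝ) (x : a.M) (v w : ι → ℝ) : a.pr u x v w = a.pr u x w v := by
  unfold pr
  rw [dotProduct_comm]

theorem pr_quad (u : ℝ) (x : a.M) (v w : ι → ℝ) (t : ℝ) :
    a.pr u x (v + t • w) (v + t • w) =
      a.pr u x v v + 2 * t * a.pr u x v w + t * t * a.pr u x w w := by
  unfold pr co
  rw [Matrix.mulVec_add, Matrix.mulVec_smul, add_dotProduct, dotProduct_add, dotProduct_add,
    smul_dotProduct, dotProduct_smul, smul_dotProduct, dotProduct_smul,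
    dotProduct_comm ((a.P u x)⁻¹ᵀ *ᵥ w) ((a.P u x)⁻¹ᵀ *ᵥ v)]
  simp only [smul_eq_mul]
  ring

theorem pr_meas1 (hG : a.Geom C h0) (u : ℝ) {α β : a.M → ι → ℝ}
    (hα : ∀ i, Measurable (fun x => α x i)) (hβ : ∀ i, Measurable (fun x => β x i)) :
    Measurable (fun x => a.pr u x (α x) (β x)) := by
  have h1 : Measurable (fun z : ℝ × a.M => a.pr z.1 z.2 (α z.2) (β z.2)) := pr_meas hG hα hβ
  have h2 : Measurable (fun x : a.M => ((u, x) : ℝ × a.M)) := measurable_prodMk_left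
  have h3 := h1.comp h2
  simp only [Function.comp_def] at h3
  exact h3

theorem pr_int2 (hG : a.Geom C h0) (u : ℝ) {α β : a.M → ι → ℝ}
    (hα : ∀ i, Measurable (fun x => α x i)) (hβ : ∀ i, Measurable (fun x => β x i))
    (h1 : Integrable (fun x => a.pr u x (α x) (α x)) a.μ)
    (h2 : Integrable (fun x => a.pr u x (β x) (β x)) a.μ) :
    Integrable (fun x => a.pr u x (α x) (β x)) a.μ := by
  refine (h1.add h2).mono' (pr_meas1 hG u hα hβ).aestronglyMeasurable (ae_of_all _ fun x => ?_)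
  rw [Real.norm_eq_abs]
  refine (abs_pr_le u x (α x) (β x)).trans ?_
  have e1 := pr_nonneg u x (α x)
  have e2 := pr_nonneg u x (β x)
  have s1 := Real.sq_sqrt e1
  have s2 := Real.sq_sqrt e2
  simp only [Pi.add_apply]
  nlinarith [sq_nonneg (Real.sqrt (a.pr u x (α x) (α x)) - Real.sqrt (a.pr u x (β x) (β x)))]

/-- Cauchy-Schwarz for `En + l ∫` -/
theorem B_cs (u : ℝ) {l : ℝ} (hl : 0 < l) {α β : a.M → ι → ℝ} {p q : a.M → ℝ}
    (h1 : Integrable (fun x => a.pr u x (α x) (α x)) a.μ)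
    (h2 : Integrable (fun x => a.pr u x (α x) (β x)) a.μ)
    (h3 : Integrable (fun x => a.pr u x (β x) (β x)) a.μ)
    (k1 : Integrable (fun x => p x ^ 2) a.μ) (k2 : Integrable (fun x => p x * q x) a.μ)
    (k3 : Integrable (fun x => q x ^ 2) a.μ) :
    |∫ x, a.pr u x (α x) (β x) ∂a.μ + l * ∫ x, p x * q x ∂a.μ| ≤
      Real.sqrt (∫ x, a.pr u x (α x) (α x) ∂a.μ + l * ∫ x, p x ^ 2 ∂a.μ) *
        Real.sqrt (∫ x, a.pr u x (β x) (β x) ∂a.μ + l * ∫ x, q x ^ 2 ∂a.μ) := by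
  set X := ∫ x, a.pr u x (α x) (α x) ∂a.μ + l * ∫ x, p x ^ 2 ∂a.μ with hX
  set Y := ∫ x, a.pr u x (β x) (β x) ∂a.μ + l * ∫ x, q x ^ 2 ∂a.μ with hY
  set Z := ∫ x, a.pr u x (α x) (β x) ∂a.μ + l * ∫ x, p x * q x ∂a.μ with hZ
  have hX0 : 0 ≤ X := by
    have e1 : 0 ≤ ∫ x, a.pr u x (α x) (α x) ∂a.μ := integral_nonneg fun x => pr_nonneg u x _
    have e2 : 0 ≤ ∫ x, p x ^ 2 ∂a.μ := integral_nonneg fun x => sq_nonneg _
    have e3 := mul_nonneg hl.le e2
    linarith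
  have key : ∀ t : ℝ, 0 ≤ Y * (t * t) + 2 * Z * t + X := by
    intro t
    have i1 : 0 ≤ ∫ x, (a.pr u x (α x) (α x) + 2 * t * a.pr u x (α x) (β x) +
        t * t * a.pr u x (β x) (β x)) ∂a.μ := by
      refine integral_nonneg fun x => ?_
      have := pr_nonneg u x (α x + t • β x)
      rw [pr_quad] at this
      exact this
    have i2 : 0 ≤ ∫ x, (p x ^ 2 + 2 * t * (p x * q x) + t * t * q x ^ 2) ∂a.μ := by
      refine integral_nonneg fun x => ?_
      have := sq_nonneg (p x + t * q x)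
      show 0 ≤ p x ^ 2 + 2 * t * (p x * q x) + t * t * q x ^ 2
      nlinarith
    have g1 : ∫ x, (a.pr u x (α x) (α x) + 2 * t * a.pr u x (α x) (β x) +
        t * t * a.pr u x (β x) (β x)) ∂a.μ =
        ∫ x, (a.pr u x (α x) (α x) + 2 * t * a.pr u x (α x) (β x)) ∂a.μ +
          ∫ x, t * t * a.pr u x (β x) (β x) ∂a.μ :=
      integral_add (h1.add (h2.const_mul _)) (h3.const_mul _)
    have g2 : ∫ x, (p x ^ 2 + 2 * t * (p x * q x) + t * t * q x ^ 2) ∂a.μ =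
        ∫ x, (p x ^ 2 + 2 * t * (p x * q x)) ∂a.μ + ∫ x, t * t * q x ^ 2 ∂a.μ :=
      integral_add (k1.add (k2.const_mul _)) (k3.const_mul _)
    rw [g1, integral_add h1 (h2.const_mul _), integral_const_mul, integral_const_mul] at i1
    rw [g2, integral_add k1 (k2.const_mul _), integral_const_mul, integral_const_mul] at i2
    have i3 := mul_nonneg hl.le i2
    rw [hX, hY, hZ]
    linarith
  have hd := discrim_le_zero (fun t => key t)
  unfold discrim at hd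
  have hZ2 : Z ^ 2 ≤ X * Y := by nlinarith
  rw [← Real.sqrt_mul hX0]
  exact Real.abs_le_sqrt hZ2

theorem pairing_expand (hG : a.Geom C h0) (hF : a.Flow) (hR : a.Rcd) {l : ℝ} (hl : 0 < l)
    {u v : ℝ} (hu : u ∈ Icc 0 a.U) (hv : v ∈ Icc 0 a.U) (huv : u ≤ v) (huv' : v - u ≤ h0)
    {f h : a.M → ℝ} (hf : Measurable f) (hh : Measurable h) {L : ℝ} (hL : ∀ x, |f x| ≤ L)
    (hL' : ∀ x, |h x| ≤ L) :
    |a.pairing l f h v - a.pairing l f h u -
      ((∫ x, a.push f v x * a.Res l u (a.push h u) x ∂a.μ -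
          ∫ x, a.push f u x * a.Res l u (a.push h u) x ∂a.μ) +
        (∫ x, a.push h v x * a.Res l u (a.push f u) x ∂a.μ -
          ∫ x, a.push h u x * a.Res l u (a.push f u) x ∂a.μ) -
        (a.En v (a.Res l u (a.push f u)) (a.Res l u (a.push h u)) -
          a.En u (a.Res l u (a.push f u)) (a.Res l u (a.push h u))))| ≤
      Real.sqrt (a.err l f u v) * Real.sqrt (a.err l h u v) := by
  have := hG.fin
  -- bounds
  have hL0 : (0 : ℝ) ≤ max L 0 := le_max_right _ _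
  have bf : ∀ s x, |a.push f s x| ≤ max L 0 := fun s x =>
    push_le (fun x => (hL x).trans (le_max_left _ _)) hL0 s x
  have bh : ∀ s x, |a.push h s x| ≤ max L 0 := fun s x =>
    push_le (fun x => (hL' x).trans (le_max_left _ _)) hL0 s x
  have mf : ∀ s ∈ Icc 0 a.U, Measurable (a.push f s) := fun s hs => push_meas hF hf hs
  have mh : ∀ s ∈ Icc 0 a.U, Measurable (a.push h s) := fun s hs => push_meas hF hh hs
  -- general facts for the resolvents
  have sm : ∀ s ∈ Icc 0 a.U, ∀ k : a.M → ℝ, Measurable k → (∀ x, |k x| ≤ max L 0) →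
      a.Res l s k ∈ a.sm ∧ ∀ x, |a.Res l s k x| ≤ max L 0 / l := fun s hs k hk hb =>
    hR.res_sm l hl s hs k hk _ hb
  obtain ⟨D, hD0, hD⟩ := hR.res_grad l hl
  have hvv : |v - u| ≤ h0 := by rw [abs_of_nonneg (by linarith)]; exact huv'
  have hv0 : |v - v| ≤ h0 := by simpa using hG.h0_pos.le
  have hu0 : |u - u| ≤ h0 := by simpa using hG.h0_pos.le
  have dm : ∀ φ ∈ a.sm, ∀ i, Measurable (fun x => a.dl φ x i) := hG.dl_meas
  have ei : ∀ s ∈ Icc 0 a.U, ∀ r ∈ Icc 0 a.U, |r - s| ≤ h0 → ∀ k : a.M → ℝ, Measurable k →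
      (∀ x, |k x| ≤ max L 0) →
      Integrable (fun x => a.pr r x (a.dl (a.Res l s k) x) (a.dl (a.Res l s k) x)) a.μ :=
    fun s hs r hr hrs k hk hb =>
      (pr_int hG hs hr hrs (dm _ (sm s hs k hk hb).1) (hD s hs k hk _ hb)).1
  set Fv := a.Res l v (a.push f v) with hFv
  set Fu := a.Res l u (a.push f u) with hFu
  set Hv := a.Res l v (a.push h v) with hHv
  set Hu := a.Res l u (a.push h u) with hHu
  obtain ⟨sFv, bFv⟩ := sm v hv _ (mf v hv) (bf v)
  obtain ⟨sFu, bFu⟩ := sm u hu _ (mf u hu) (bf u)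
  obtain ⟨sHv, bHv⟩ := sm v hv _ (mh v hv) (bh v)
  obtain ⟨sHu, bHu⟩ := sm u hu _ (mh u hu) (bh u)
  have eFv := ei v hv v hv hv0 _ (mf v hv) (bf v)
  have eFu := ei u hu v hv hvv _ (mf u hu) (bf u)
  have eFu' := ei u hu u hu hu0 _ (mf u hu) (bf u)
  have eHv := ei v hv v hv hv0 _ (mh v hv) (bh v)
  have eHu := ei u hu v hv hvv _ (mh u hu) (bh u)
  have eHu' := ei u hu u hu hu0 _ (mh u hu) (bh u)
  rw [← hFv] at sFv bFv eFv
  rw [← hFu] at sFu bFu eFu eFu'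
  rw [← hHv] at sHv bHv eHv
  rw [← hHu] at sHu bHu eHu eHu'
  -- bounded measurable products are integrable
  have bi : ∀ p q : a.M → ℝ, p ∈ a.sm → q ∈ a.sm → (∀ x, |p x| ≤ max L 0 / l) →
      (∀ x, |q x| ≤ max L 0 / l) → Integrable (fun x => p x * q x) a.μ := by
    intro p q hp hq hpb hqb
    have m1 : Measurable p := (hG.sm_cont p hp).measurable
    have m2 : Measurable q := (hG.sm_cont q hq).measurable
    refine Integrable.mono' (integrable_const ((max L 0 / l) * (max L 0 / l)))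
      (m1.mul m2).aestronglyMeasurable (ae_of_all _ fun x => ?_)
    rw [Real.norm_eq_abs, abs_mul]
    exact mul_le_mul (hpb x) (hqb x) (abs_nonneg _) ((abs_nonneg _).trans (hpb x))
  -- the equations
  have E1 := res_eq' hG hR hl hv (mf v hv) (bf v) sHu bHu eHu
  have E2 := res_eq' hG hR hl hv (mh v hv) (bh v) sFu bFu eFu
  have E3 := res_eq' hG hR hl hv (mh v hv) (bh v) sFv bFv eFv
  have E4 := res_eq' hG hR hl hu (mh u hu) (bh u) sFu bFu eFu'
  have E5 := res_eq' hG hR hl hu (mf u hu) (bf u) sHu bHu eHu'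
  rw [← hFv] at E1
  rw [← hHv] at E2 E3
  rw [← hHu] at E4
  rw [← hFu] at E5
  -- cross products
  have cFvHv := pr_int2 hG v (dm _ sFv) (dm _ sHv) eFv eHv
  have cFvHu := pr_int2 hG v (dm _ sFv) (dm _ sHu) eFv eHu
  have cFuHv := pr_int2 hG v (dm _ sFu) (dm _ sHv) eFu eHv
  have cFuHu := pr_int2 hG v (dm _ sFu) (dm _ sHu) eFu eHu
  have cFvFu := pr_int2 hG v (dm _ sFv) (dm _ sFu) eFv eFu
  have cFuFv := pr_int2 hG v (dm _ sFu) (dm _ sFv) eFu eFv
  have cHvHu := pr_int2 hG v (dm _ sHv) (dm _ sHu) eHv eHu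
  have cHuHv := pr_int2 hG v (dm _ sHu) (dm _ sHv) eHu eHv
  have pFvHv := bi _ _ sFv sHv bFv bHv
  have pFvHu := bi _ _ sFv sHu bFv bHu
  have pFuHv := bi _ _ sFu sHv bFu bHv
  have pFuHu := bi _ _ sFu sHu bFu bHu
  -- differences
  have dF : ∀ x, a.dl (fun x => Fv x - Fu x) x = a.dl Fv x - a.dl Fu x :=
    (hG.sm_sub _ sFv _ sFu).2
  have dH : ∀ x, a.dl (fun x => Hv x - Hu x) x = a.dl Hv x - a.dl Hu x :=
    (hG.sm_sub _ sHv _ sHu).2
  have CS := B_cs (a := a) v hl (α := fun x => a.dl (fun x => Fv x - Fu x) x)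
    (β := fun x => a.dl (fun x => Hv x - Hu x) x) (p := fun x => Fv x - Fu x)
    (q := fun x => Hv x - Hu x)
    (by
      simp only [dF, pr_sub_left, pr_sub_right]
      exact (eFv.sub cFuFv).sub (cFvFu.sub eFu))
    (by
      simp only [dF, dH, pr_sub_left, pr_sub_right]
      exact (cFvHv.sub cFuHv).sub (cFvHu.sub cFuHu))
    (by
      simp only [dH, pr_sub_left, pr_sub_right]
      exact (eHv.sub cHuHv).sub (cHvHu.sub eHu))
    (by
      have := ((bi _ _ sFv sFv bFv bFv).sub ((bi _ _ sFv sFu bFv bFu).const_mul 2)).add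
        (bi _ _ sFu sFu bFu bFu)
      refine this.congr (ae_of_all _ fun x => ?_)
      simp only [Pi.add_apply, Pi.sub_apply]
      ring)
    (by
      have := ((pFvHv.sub pFvHu).sub pFuHv).add pFuHu
      refine this.congr (ae_of_all _ fun x => ?_)
      simp only [Pi.add_apply, Pi.sub_apply]
      ring)
    (by
      have := ((bi _ _ sHv sHv bHv bHv).sub ((bi _ _ sHv sHu bHv bHu).const_mul 2)).add
        (bi _ _ sHu sHu bHu bHu)
      refine this.congr (ae_of_all _ fun x => ?_)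
      simp only [Pi.add_apply, Pi.sub_apply]
      ring)
  -- expansion of the product
  have X1 : ∫ x, a.pr v x (a.dl (fun x => Fv x - Fu x) x) (a.dl (fun x => Hv x - Hu x) x) ∂a.μ =
      (a.En v Fv Hv - a.En v Fv Hu) - (a.En v Fu Hv - a.En v Fu Hu) := by
    have hp : ∀ x, a.pr v x (a.dl (fun x => Fv x - Fu x) x) (a.dl (fun x => Hv x - Hu x) x) =
        (a.pr v x (a.dl Fv x) (a.dl Hv x) - a.pr v x (a.dl Fv x) (a.dl Hu x)) -
          (a.pr v x (a.dl Fu x) (a.dl Hv x) - a.pr v x (a.dl Fu x) (a.dl Hu x)) := by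
      intro x
      rw [dF, dH, pr_sub_left, pr_sub_right, pr_sub_right]
    simp_rw [hp]
    unfold En
    have e1 : ∫ x, ((a.pr v x (a.dl Fv x) (a.dl Hv x) - a.pr v x (a.dl Fv x) (a.dl Hu x)) -
          (a.pr v x (a.dl Fu x) (a.dl Hv x) - a.pr v x (a.dl Fu x) (a.dl Hu x))) ∂a.μ =
        ∫ x, (a.pr v x (a.dl Fv x) (a.dl Hv x) - a.pr v x (a.dl Fv x) (a.dl Hu x)) ∂a.μ -
          ∫ x, (a.pr v x (a.dl Fu x) (a.dl Hv x) - a.pr v x (a.dl Fu x) (a.dl Hu x)) ∂a.μ :=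
      integral_sub (cFvHv.sub cFvHu) (cFuHv.sub cFuHu)
    rw [e1, integral_sub cFvHv cFvHu, integral_sub cFuHv cFuHu]
  have X2 : ∫ x, (Fv x - Fu x) * (Hv x - Hu x) ∂a.μ =
      (∫ x, Fv x * Hv x ∂a.μ - ∫ x, Fv x * Hu x ∂a.μ) -
        (∫ x, Fu x * Hv x ∂a.μ - ∫ x, Fu x * Hu x ∂a.μ) := by
    have hp : ∀ x, (Fv x - Fu x) * (Hv x - Hu x) =
        (Fv x * Hv x - Fv x * Hu x) - (Fu x * Hv x - Fu x * Hu x) := fun x => by ring
    simp_rw [hp]
    have e1 : ∫ x, ((Fv x * Hv x - Fv x * Hu x) - (Fu x * Hv x - Fu x * Hu x)) ∂a.μ =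
        ∫ x, (Fv x * Hv x - Fv x * Hu x) ∂a.μ - ∫ x, (Fu x * Hv x - Fu x * Hu x) ∂a.μ :=
      integral_sub (pFvHv.sub pFvHu) (pFuHv.sub pFuHu)
    rw [e1, integral_sub pFvHv pFvHu, integral_sub pFuHv pFuHu]
  have Ec : ∀ (s : ℝ) (p q : a.M → ℝ), a.En s p q = a.En s q p := fun s p q => by
    unfold En
    exact integral_congr_ae (ae_of_all _ fun x => pr_comm s x _ _)
  have Ic : ∀ p q : a.M → ℝ, ∫ x, p x * q x ∂a.μ = ∫ x, q x * p x ∂a.μ := fun p q =>
    integral_congr_ae (ae_of_all _ fun x => mul_comm _ _)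
  have P1 : a.pairing l f h v = ∫ x, a.push h v x * Fv x ∂a.μ := by
    unfold pairing
    rw [← hFv]
    exact Ic _ _
  have P2 : a.pairing l f h u = ∫ x, a.push h u x * Fu x ∂a.μ := by
    unfold pairing
    rw [← hFu]
    exact Ic _ _
  rw [X1, X2] at CS
  have EQ : a.pairing l f h v - a.pairing l f h u -
      ((∫ x, a.push f v x * Hu x ∂a.μ - ∫ x, a.push f u x * Hu x ∂a.μ) +
        (∫ x, a.push h v x * Fu x ∂a.μ - ∫ x, a.push h u x * Fu x ∂a.μ) -
        (a.En v Fu Hu - a.En u Fu Hu)) =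
      (a.En v Fv Hv - a.En v Fv Hu - (a.En v Fu Hv - a.En v Fu Hu)) +
        l * ((∫ x, Fv x * Hv x ∂a.μ - ∫ x, Fv x * Hu x ∂a.μ) -
        (∫ x, Fu x * Hv x ∂a.μ - ∫ x, Fu x * Hu x ∂a.μ)) := by
    rw [P1, P2]
    have e3 : a.En v Hv Fv = a.En v Fv Hv := Ec _ _ _
    have e2 : a.En v Hv Fu = a.En v Fu Hv := Ec _ _ _
    have e4 : a.En u Hu Fu = a.En u Fu Hu := Ec _ _ _
    have i3 : ∫ x, Hv x * Fv x ∂a.μ = ∫ x, Fv x * Hv x ∂a.μ := Ic _ _
    have i2 : ∫ x, Hv x * Fu x ∂a.μ = ∫ x, Fu x * Hv x ∂a.μ := Ic _ _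
    have i4 : ∫ x, Hu x * Fu x ∂a.μ = ∫ x, Fu x * Hu x ∂a.μ := Ic _ _
    rw [e3, i3] at E3
    rw [e2, i2] at E2
    rw [e4, i4] at E4
    linarith
  rw [EQ]
  exact CS

end Pool.Agent.SYR.Arc
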