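import Pool.Agent.SYR.ResA

/-!
# SYR/ResStress : derivative of the energy, and the stress-energy identity

`en_lim`: `pr_exp`, `rel_lim`. `en_lip`: `pr_diff_le`, `rel_sub`. `stress_lim`: field `stress` with
`φ = χ_j`, `j → ∞` (gradients bounded by `res_grad`, `W` bounded, `∫ sqrt (pr dχ_j dχ_j) → 0` by `c_sq`),
and `∫ χ_j (G (dH·W) + H (dG·W)) = - ∫ G H (dχ_j·W)` from `div` applied to `χ_j (G H)`.
-/

set_option autoImplicit false

open Matrix MeasureTheory Filter Topology Set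

namespace Pool.Agent.SYR.Arc

section Meas

variable {ι : Type} {X : Type} [MeasurableSpace X]

private theorem me_mul [Fintype ι] {A B : X → Matrix ι ι ℝ} (hA : ∀ i j, Measurable fun x => A x i j)
    (hB : ∀ i j, Measurable fun x => B x i j) (i j : ι) :
    Measurable fun x => (A x * B x) i j := by
  simp only [Matrix.mul_apply]
  exact Finset.measurable_sum _ fun k _ => (hA i k).mul (hB k j)

private theorem me_tr {A : X → Matrix ι ι ℝ} (hA : ∀ i j, Measurable fun x => A x i j) (i j : ι) :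
    Measurable fun x => (A x)ᵀ i j := hA j i

private theorem me_neg {A : X → Matrix ι ι ℝ} (hA : ∀ i j, Measurable fun x => A x i j) (i j : ι) :
    Measurable fun x => (-A x) i j := (hA i j).neg

private theorem me_add {A B : X → Matrix ι ι ℝ} (hA : ∀ i j, Measurable fun x => A x i j)
    (hB : ∀ i j, Measurable fun x => B x i j) (i j : ι) :
    Measurable fun x => (A x + B x) i j := (hA i j).add (hB i j)

private theorem me_sub {A B : X → Matrix ι ι ℝ} (hA : ∀ i j, Measurable fun x => A x i j)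
    (hB : ∀ i j, Measurable fun x => B x i j) (i j : ι) :
    Measurable fun x => (A x - B x) i j := (hA i j).sub (hB i j)

private theorem me_smul (c : ℝ) {A : X → Matrix ι ι ℝ} (hA : ∀ i j, Measurable fun x => A x i j)
    (i j : ι) : Measurable fun x => (c • A x) i j := (hA i j).const_mul c

private theorem me_const (A : Matrix ι ι ℝ) (i j : ι) :
    Measurable fun _ : X => A i j := measurable_const

private theorem me_vec [Fintype ι] {A : X → Matrix ι ι ℝ} {v : X → ι → ℝ}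
    (hA : ∀ i j, Measurable fun x => A x i j) (hv : ∀ i, Measurable fun x => v x i) (i : ι) :
    Measurable fun x => (A x *ᵥ v x) i := by
  simp only [Matrix.mulVec, dotProduct]
  exact Finset.measurable_sum _ fun k _ => (hA i k).mul (hv k)

private theorem me_dot [Fintype ι] {v w : X → ι → ℝ} (hv : ∀ i, Measurable fun x => v x i)
    (hw : ∀ i, Measurable fun x => w x i) : Measurable fun x => v x ⬝ᵥ w x := by
  simp only [dotProduct]
  exact Finset.measurable_sum _ fun k _ => (hv k).mul (hw k)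

private theorem me_nrm [Fintype ι] {A : X → Matrix ι ι ℝ} (hA : ∀ i j, Measurable fun x => A x i j) :
    Measurable fun x => nrm (A x) := by
  unfold nrm nsq ip
  exact (Finset.measurable_sum _ fun i _ => Finset.measurable_sum _ fun j _ =>
    (hA i j).mul (hA i j)).sqrt

end Meas

variable {ι : Type} [Fintype ι] [DecidableEq ι] {a : Arc ι} {C h0 : ℝ}

private theorem mP (hG : a.Geom C h0) (u : ℝ) (i j : ι) : Measurable fun x => a.P u x i j :=
  (hG.P_meas i j).comp measurable_prodMk_left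

private theorem mPi (hG : a.Geom C h0) {u : ℝ} (hu : u ∈ Icc 0 a.U) (i j : ι) :
    Measurable fun x => (a.P u x)⁻¹ i j := by
  have h : (fun x => (a.P u x)⁻¹ i j) = fun x => (-(a.J * (a.P u x)ᵀ * a.J)) i j := by
    funext x
    rw [symp_inv hG.quat (hG.symp u hu x)]
  rw [h]
  exact me_neg (me_mul (me_mul (me_const _) (me_tr (mP hG u))) (me_const _)) i j

private theorem mco (hG : a.Geom C h0) {u : ℝ} (hu : u ∈ Icc 0 a.U) {v : a.M → ι → ℝ}
    (hv : ∀ i, Measurable fun x => v x i) (i : ι) : Measurable fun x => a.co u x (v x) i :=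
  me_vec (me_tr (mPi hG hu)) hv i

private theorem mhat (hG : a.Geom C h0) {u : ℝ} (hu : u ∈ Icc 0 a.U) {A : a.M → Matrix ι ι ℝ}
    (hA : ∀ i j, Measurable fun x => A x i j) (i j : ι) :
    Measurable fun x => a.hat u x (A x) i j :=
  me_mul (me_mul (me_tr (mPi hG hu)) hA) (mPi hG hu) i j

private theorem mS (hG : a.Geom C h0) {u : ℝ} (hu : u ∈ Icc 0 a.U) (i j : ι) :
    Measurable fun x => a.S u x i j := by
  have hA : ∀ i j, Measurable fun x => a.A u x i j := fun i j =>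
    (hG.A_meas i j).comp measurable_prodMk_left
  have hT : ∀ i j, Measurable fun x => a.Θ u x i j := fun i j =>
    (hG.Θ_meas i j).comp measurable_prodMk_left
  exact me_neg (me_sub (me_add (me_mul (mhat hG hu hA) (me_const _)) (me_const _))
    (me_mul (me_const _) (mhat hG hu hT))) i j

private theorem mrel (hG : a.Geom C h0) {u : ℝ} (hu : u ∈ Icc 0 a.U) (s : ℝ) (i j : ι) :
    Measurable fun x => a.rel u s x i j := by
  have h1 : ∀ i j, Measurable fun x => (a.P s x * (a.P u x)⁻¹) i j :=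
    me_mul (mP hG s) (mPi hG hu)
  exact me_mul (me_tr h1) h1 i j

private theorem mpr (hG : a.Geom C h0) {α β : a.M → ι → ℝ} (hα : ∀ i, Measurable (fun x => α x i))
    (hβ : ∀ i, Measurable (fun x => β x i)) (s : ℝ) :
    Measurable (fun x => a.pr s x (α x) (β x)) := by
  have h1 : Measurable (fun z : ℝ × a.M => a.pr z.1 z.2 (α z.2) (β z.2)) := pr_meas hG hα hβ
  have h2 : Measurable (fun x : a.M => (s, x)) := measurable_prodMk_left
  exact Measurable.comp (g := fun z : ℝ × a.M => a.pr z.1 z.2 (α z.2) (β z.2))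
    (f := fun x : a.M => (s, x)) h1 h2

private theorem sq_le_E {p E : ℝ} (h : p ≤ E ^ 2) : Real.sqrt p ≤ |E| := by
  rw [← Real.sqrt_sq_eq_abs]
  exact Real.sqrt_le_sqrt h

private theorem sq_sq_le {p q E : ℝ} (h : p ≤ E ^ 2) (h' : q ≤ E ^ 2) :
    Real.sqrt p * Real.sqrt q ≤ E ^ 2 := by
  calc Real.sqrt p * Real.sqrt q ≤ |E| * |E| :=
        mul_le_mul (sq_le_E h) (sq_le_E h') (Real.sqrt_nonneg _) (abs_nonneg _)
    _ = E ^ 2 := by rw [abs_mul_abs_self, sq]

private theorem pr_ab_int (hG : a.Geom C h0) {u s : ℝ} (hu : u ∈ Icc 0 a.U) (hs : s ∈ Icc 0 a.U)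
    (hus : |s - u| ≤ h0) {α β : a.M → ι → ℝ} (hα : ∀ i, Measurable (fun x => α x i))
    (hβ : ∀ i, Measurable (fun x => β x i)) {D : ℝ}
    (hD : ∀ x, a.pr u x (α x) (α x) ≤ D ^ 2) (hD' : ∀ x, a.pr u x (β x) (β x) ≤ D ^ 2) :
    Integrable (fun x => a.pr s x (α x) (β x)) a.μ := by
  have h1 := (pr_int hG hu hs hus hα hD).1
  have h2 := (pr_int hG hu hs hus hβ hD').1
  refine Integrable.mono' (h1.add h2) (mpr hG hα hβ s).aestronglyMeasurable
    (Eventually.of_forall fun x => ?_)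
  rw [Real.norm_eq_abs]
  refine (abs_pr_le s x (α x) (β x)).trans ?_
  have h3 := pr_nonneg (a := a) s x (α x)
  have h4 := pr_nonneg (a := a) s x (β x)
  have h5 := Real.sq_sqrt h3
  have h6 := Real.sq_sqrt h4
  have h7 := Real.sqrt_nonneg (a.pr s x (α x) (α x))
  have h8 := Real.sqrt_nonneg (a.pr s x (β x) (β x))
  show _ ≤ a.pr s x (α x) (α x) + a.pr s x (β x) (β x)
  nlinarith [sq_nonneg (Real.sqrt (a.pr s x (α x) (α x)) - Real.sqrt (a.pr s x (β x) (β x)))]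

theorem co_vsq (u : ℝ) (x : a.M) (v : ι → ℝ) : vsq (a.co u x v) = a.pr u x v v := by
  unfold vsq pr dotProduct
  exact Finset.sum_congr rfl fun i _ => sq _

private theorem form_le (u : ℝ) (x : a.M) (v w : ι → ℝ) :
    |a.co u x v ⬝ᵥ (a.S u x *ᵥ a.co u x w)| ≤
      nrm (a.S u x) * (Real.sqrt (a.pr u x v v) * Real.sqrt (a.pr u x w w)) := by
  have h := abs_form_le (a.S u x) (a.co u x v) (a.co u x w)
  rwa [co_vsq, co_vsq] at h

private theorem form_int (hG : a.Geom C h0) {u : ℝ} (hu : u ∈ Icc 0 a.U)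
    {α β : a.M → ι → ℝ} (hα : ∀ i, Measurable (fun x => α x i))
    (hβ : ∀ i, Measurable (fun x => β x i)) {D : ℝ}
    (hD : ∀ x, a.pr u x (α x) (α x) ≤ D ^ 2) (hD' : ∀ x, a.pr u x (β x) (β x) ≤ D ^ 2) :
    Integrable (fun x => a.co u x (α x) ⬝ᵥ (a.S u x *ᵥ a.co u x (β x))) a.μ := by
  refine Integrable.mono' ((S_int hG hu).mul_const (D ^ 2))
    (me_dot (mco hG hu hα) (me_vec (mS hG hu) (mco hG hu hβ))).aestronglyMeasurable
    (Eventually.of_forall fun x => ?_)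
  rw [Real.norm_eq_abs]
  exact (form_le u x _ _).trans (mul_le_mul_of_nonneg_left (sq_sq_le (hD x) (hD' x)) nrm_nonneg)

theorem en_lim (hG : a.Geom C h0) {u : ℝ} (hu : u ∈ Ico 0 a.U) {G H : a.M → ℝ}
    (hG1 : G ∈ a.sm) (hH1 : H ∈ a.sm) {E : ℝ}
    (hG2 : ∀ x, a.pr u x (a.dl G x) (a.dl G x) ≤ E ^ 2)
    (hH2 : ∀ x, a.pr u x (a.dl H x) (a.dl H x) ≤ E ^ 2) :
    Tendsto (fun v => (a.En v G H - a.En u G H) / (v - u)) (𝓝[>] u)
      (𝓝 (∫ x, a.co u x (a.dl G x) ⬝ᵥ (a.S u x *ᵥ a.co u x (a.dl H x)) ∂a.μ)) := by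
  have hu' : u ∈ Icc 0 a.U := ⟨hu.1, hu.2.le⟩
  have hGm := hG.dl_meas G hG1
  have hHm := hG.dl_meas H hH1
  have hlim := (rel_lim hG hu).const_mul (E ^ 2)
  rw [mul_zero] at hlim
  rw [tendsto_iff_dist_tendsto_zero]
  refine squeeze_zero' (Eventually.of_forall fun v => dist_nonneg) ?_ hlim
  have hev : ∀ᶠ v in 𝓝[>] u, v ∈ Ioo u (min a.U (u + h0)) :=
    Ioo_mem_nhdsGT (lt_min hu.2 (by linarith [hG.h0_pos]))
  filter_upwards [hev] with v hv
  have hv1 : u < v := hv.1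
  have hv2 : v ≤ a.U := (hv.2.trans_le (min_le_left _ _)).le
  have hv3 : v ≤ u + h0 := (hv.2.trans_le (min_le_right _ _)).le
  have hv' : v ∈ Icc 0 a.U := ⟨hu.1.trans hv1.le, hv2⟩
  have hvu : |v - u| ≤ h0 := by rw [abs_of_pos (by linarith)]; linarith
  have hi1 := pr_ab_int hG hu' hv' hvu hGm hHm hG2 hH2
  have hi2 := pr_ab_int hG hu' hu' (by simpa using hG.h0_pos.le) hGm hHm hG2 hH2
  have hi3 := form_int hG hu' hGm hHm hG2 hH2
  have heq : (a.En v G H - a.En u G H) / (v - u) -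
      ∫ x, a.co u x (a.dl G x) ⬝ᵥ (a.S u x *ᵥ a.co u x (a.dl H x)) ∂a.μ =
      ∫ x, ((a.pr v x (a.dl G x) (a.dl H x) - a.pr u x (a.dl G x) (a.dl H x)) / (v - u) -
        a.co u x (a.dl G x) ⬝ᵥ (a.S u x *ᵥ a.co u x (a.dl H x))) ∂a.μ := by
    have e1 : a.En v G H - a.En u G H =
        ∫ x, (a.pr v x (a.dl G x) (a.dl H x) - a.pr u x (a.dl G x) (a.dl H x)) ∂a.μ :=
      (integral_sub hi1 hi2).symm
    have e2 : Integrable (fun x => (a.pr v x (a.dl G x) (a.dl H x) -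
        a.pr u x (a.dl G x) (a.dl H x)) / (v - u)) a.μ := (hi1.sub hi2).div_const (v - u)
    rw [e1, ← integral_div, ← integral_sub e2 hi3]
  rw [Real.dist_eq, heq]
  have hbd : Integrable (fun x => nrm ((1 / (v - u)) • (a.rel u v x - 1) + a.S u x)) a.μ := by
    have h1 := (rel_sub hG hu' hv' hv1.le (by linarith)).1
    refine Integrable.mono' ((h1.const_mul (1 / (v - u))).add (S_int hG hu'))
      (me_nrm (me_add (me_smul _ (me_sub (mrel hG hu' v) (me_const _)))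
        (mS hG hu'))).aestronglyMeasurable (Eventually.of_forall fun x => ?_)
    rw [Real.norm_eq_abs, abs_of_nonneg nrm_nonneg]
    refine nrm_add_le.trans ?_
    rw [nrm_smul, abs_of_pos (by positivity [sub_pos.2 hv1])]
    exact le_rfl
  calc |∫ x, ((a.pr v x (a.dl G x) (a.dl H x) - a.pr u x (a.dl G x) (a.dl H x)) / (v - u) -
        a.co u x (a.dl G x) ⬝ᵥ (a.S u x *ᵥ a.co u x (a.dl H x))) ∂a.μ| ≤
      ∫ x, E ^ 2 * nrm ((1 / (v - u)) • (a.rel u v x - 1) + a.S u x) ∂a.μ := by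
        rw [← Real.norm_eq_abs]
        refine norm_integral_le_of_norm_le (hbd.const_mul (E ^ 2))
          (Eventually.of_forall fun x => ?_)
        rw [Real.norm_eq_abs]
        refine (pr_exp hG hu' hv' hv1 x _ _).trans ?_
        rw [mul_comm (E ^ 2)]
        exact mul_le_mul_of_nonneg_left (sq_sq_le (hG2 x) (hH2 x)) nrm_nonneg
    _ = E ^ 2 * ∫ x, nrm ((1 / (v - u)) • (a.rel u v x - 1) + a.S u x) ∂a.μ :=
        integral_const_mul _ _

theorem en_lip (hG : a.Geom C h0) {u v : ℝ} (hu : u ∈ Icc 0 a.U) (hv : v ∈ Icc 0 a.U)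
    (huv : u ≤ v) (huv' : v - u ≤ h0) {G H : a.M → ℝ}
    (hG1 : G ∈ a.sm) (hH1 : H ∈ a.sm) {E : ℝ}
    (hG2 : ∀ x, a.pr u x (a.dl G x) (a.dl G x) ≤ E ^ 2)
    (hH2 : ∀ x, a.pr u x (a.dl H x) (a.dl H x) ≤ E ^ 2) :
    |a.En v G H - a.En u G H| ≤
      E ^ 2 * ((6 + 2 * Fintype.card ι) * (8 * C) * a.V * (v - u)) := by
  have hGm := hG.dl_meas G hG1
  have hHm := hG.dl_meas H hH1
  have hvu : |v - u| ≤ h0 := by rw [abs_of_nonneg (by linarith)]; exact huv'
  have hi1 := pr_ab_int hG hu hv hvu hGm hHm hG2 hH2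
  have hi2 := pr_ab_int hG hu hu (by simpa using hG.h0_pos.le) hGm hHm hG2 hH2
  obtain ⟨h1, h2⟩ := rel_sub hG hu hv huv huv'
  have e1 : a.En v G H - a.En u G H =
      ∫ x, (a.pr v x (a.dl G x) (a.dl H x) - a.pr u x (a.dl G x) (a.dl H x)) ∂a.μ :=
    (integral_sub hi1 hi2).symm
  rw [e1]
  calc |∫ x, (a.pr v x (a.dl G x) (a.dl H x) - a.pr u x (a.dl G x) (a.dl H x)) ∂a.μ| ≤
      ∫ x, E ^ 2 * nrm (a.rel u v x - 1) ∂a.μ := by
        rw [← Real.norm_eq_abs]
        refine norm_integral_le_of_norm_le (h1.const_mul (E ^ 2))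
          (Eventually.of_forall fun x => ?_)
        rw [Real.norm_eq_abs]
        refine (pr_diff_le hG hu hv x _ _).trans ?_
        rw [mul_comm (E ^ 2)]
        exact mul_le_mul_of_nonneg_left (sq_sq_le (hG2 x) (hH2 x)) nrm_nonneg
    _ = E ^ 2 * ∫ x, nrm (a.rel u v x - 1) ∂a.μ := integral_const_mul _ _
    _ ≤ _ := mul_le_mul_of_nonneg_left h2 (sq_nonneg _)

/-- bounded measurable functions are integrable -/
private theorem bd_int (hG : a.Geom C h0) {f : a.M → ℝ} (hf : Measurable f) {B : ℝ}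
    (hB : ∀ x, |f x| ≤ B) : Integrable f a.μ := by
  have := hG.fin
  exact Integrable.mono' (integrable_const B) hf.aestronglyMeasurable
    (Eventually.of_forall fun x => by rw [Real.norm_eq_abs]; exact hB x)

private theorem mW (hG : a.Geom C h0) (u : ℝ) (i : ι) : Measurable fun x => a.W u x i :=
  (hG.W_meas i).comp measurable_prodMk_left

theorem stress_lim (hG : a.Geom C h0) (hR : a.Rcd) {l : ℝ} (hl : 0 < l) {u : ℝ}
    (hu : u ∈ Icc 0 a.U) {f h : a.M → ℝ} (hf : Measurable f) (hh : Measurable h) {L : ℝ}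
    (hL : ∀ x, |f x| ≤ L) (hL' : ∀ x, |h x| ≤ L) :
    ∫ x, f x * (a.dl (a.Res l u h) x ⬝ᵥ a.W u x) ∂a.μ +
      ∫ x, h x * (a.dl (a.Res l u f) x ⬝ᵥ a.W u x) ∂a.μ =
      ∫ x, a.co u x (a.dl (a.Res l u f) x) ⬝ᵥ
        (a.S u x *ᵥ a.co u x (a.dl (a.Res l u h) x)) ∂a.μ := by
  have := hG.fin
  obtain ⟨D0, hD0, hD1⟩ := hR.res_grad l hl
  obtain ⟨hGs, hGb⟩ := hR.res_sm l hl u hu f hf L hL
  obtain ⟨hHs, hHb⟩ := hR.res_sm l hl u hu h hh L hL'
  have hG2 := hD1 u hu f hf L hL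
  have hH2 := hD1 u hu h hh L hL'
  set G : a.M → ℝ := a.Res l u f with hGdef
  set H : a.M → ℝ := a.Res l u h with hHdef
  set D : ℝ := D0 * L with hDdef
  have hGm := hG.dl_meas G hGs
  have hHm := hG.dl_meas H hHs
  have hGM : Measurable G := (hG.sm_cont G hGs).measurable
  have hHM : Measurable H := (hG.sm_cont H hHs).measurable
  have hWm := mW hG u
  -- bounds for the products with `W`
  have hWG : ∀ x, |a.dl G x ⬝ᵥ a.W u x| ≤ C * |D| := fun x =>
    (dl_W_le hG hu x _).trans (mul_le_mul_of_nonneg_left (sq_le_E (hG2 x)) hG.C_nonneg)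
  have hWH : ∀ x, |a.dl H x ⬝ᵥ a.W u x| ≤ C * |D| := fun x =>
    (dl_W_le hG hu x _).trans (mul_le_mul_of_nonneg_left (sq_le_E (hH2 x)) hG.C_nonneg)
  have hmG : Measurable fun x => a.dl G x ⬝ᵥ a.W u x := me_dot hGm hWm
  have hmH : Measurable fun x => a.dl H x ⬝ᵥ a.W u x := me_dot hHm hWm
  have hCD : 0 ≤ C * |D| := mul_nonneg hG.C_nonneg (abs_nonneg _)
  by_cases hne : Nonempty a.M
  swap
  · rw [not_nonempty_iff] at hne
    have h0 : ∀ F : a.M → ℝ, ∫ x, F x ∂a.μ = 0 := fun F => by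
      have : F = 0 := by funext x; exact (hne.false x).elim
      rw [this]; simp
    rw [h0, h0, h0, add_zero]
  have hL0 : 0 ≤ L := (abs_nonneg _).trans (hL hne.some)
  -- integrable functions
  have hi1 : Integrable (fun x => f x * (a.dl H x ⬝ᵥ a.W u x)) a.μ :=
    bd_int hG (hf.mul hmH) (B := L * (C * |D|)) fun x => by
      rw [abs_mul]; exact mul_le_mul (hL x) (hWH x) (abs_nonneg _) hL0
  have hi2 : Integrable (fun x => h x * (a.dl G x ⬝ᵥ a.W u x)) a.μ :=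
    bd_int hG (hh.mul hmG) (B := L * (C * |D|)) fun x => by
      rw [abs_mul]; exact mul_le_mul (hL' x) (hWG x) (abs_nonneg _) hL0
  have hi3 : Integrable (fun x => a.co u x (a.dl G x) ⬝ᵥ (a.S u x *ᵥ a.co u x (a.dl H x))) a.μ :=
    form_int hG hu hGm hHm hG2 hH2
  have hi4 : Integrable (fun x => G x * (a.dl H x ⬝ᵥ a.W u x)) a.μ :=
    bd_int hG (hGM.mul hmH) (B := L / l * (C * |D|)) fun x => by
      rw [abs_mul]; exact mul_le_mul (hGb x) (hWH x) (abs_nonneg _) (div_nonneg hL0 hl.le)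
  have hi5 : Integrable (fun x => H x * (a.dl G x ⬝ᵥ a.W u x)) a.μ :=
    bd_int hG (hHM.mul hmG) (B := L / l * (C * |D|)) fun x => by
      rw [abs_mul]; exact mul_le_mul (hHb x) (hWG x) (abs_nonneg _) (div_nonneg hL0 hl.le)
  have hi45 : Integrable (fun x => G x * (a.dl H x ⬝ᵥ a.W u x) + H x * (a.dl G x ⬝ᵥ a.W u x))
      a.μ := hi4.add hi5
  have hi12 : Integrable (fun x => f x * (a.dl H x ⬝ᵥ a.W u x) + h x * (a.dl G x ⬝ᵥ a.W u x))
      a.μ := hi1.add hi2
  -- the cut-off functions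
  have hχm : ∀ j, Measurable (a.χ j) := fun j =>
    (hG.sm_cont _ (hG.cs_sm (hG.χ_cs j))).measurable
  have hχd : ∀ j i, Measurable fun x => a.dl (a.χ j) x i := fun j =>
    hG.dl_meas _ (hG.cs_sm (hG.χ_cs j))
  have hχa : ∀ j x, |a.χ j x| ≤ 1 := fun j x => by
    rw [abs_of_nonneg (hG.χ_nonneg j x)]; exact hG.χ_le_one j x
  have hcut : ∀ F : a.M → ℝ, Integrable F a.μ → ∀ j, Integrable (fun x => a.χ j x * F x) a.μ :=
    fun F hF j => hF.bdd_mul (hχm j).aestronglyMeasurable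
      (Eventually.of_forall fun x => by rw [Real.norm_eq_abs]; exact hχa j x)
  have hcutlim : ∀ F : a.M → ℝ, Integrable F a.μ →
      Tendsto (fun j => ∫ x, a.χ j x * F x ∂a.μ) atTop (𝓝 (∫ x, F x ∂a.μ)) := by
    intro F hF
    refine tendsto_integral_of_dominated_convergence (fun x => |F x|)
      (fun j => (hcut F hF j).aestronglyMeasurable) hF.abs (fun j => Eventually.of_forall fun x => ?_)
      (Eventually.of_forall fun x => ?_)
    · rw [Real.norm_eq_abs, abs_mul]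
      exact mul_le_of_le_one_left (abs_nonneg _) (hχa j x)
    · have := (hG.χ_lim x).mul_const (F x)
      rwa [one_mul] at this
  -- square roots of the gradients of the cut-offs
  set c : ℕ → a.M → ℝ := fun j x => Real.sqrt (a.pr u x (a.dl (a.χ j) x) (a.dl (a.χ j) x)) with hc
  have hpi : ∀ j, Integrable (fun x => a.pr u x (a.dl (a.χ j) x) (a.dl (a.χ j) x)) a.μ := by
    intro j
    obtain ⟨B, hB⟩ := hG.c_bdd _ (hG.χ_cs j)
    exact bd_int hG (mpr hG (hχd j) (hχd j) u) (B := B) fun x => by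
      rw [abs_of_nonneg (pr_nonneg u x _)]; exact hB u hu x
  have hci : ∀ j, Integrable (c j) a.μ := fun j =>
    (pr_sqrt_int hG hu hu (by simpa using hG.h0_pos.le) (hχd j) (hpi j)).1
  have hclim : Tendsto (fun j => ∫ x, c j x ∂a.μ) atTop (𝓝 0) := by
    obtain ⟨ε, hε, hε'⟩ := hG.c_sq
    have h1 : Tendsto (fun j => Real.sqrt (2 * Fintype.card ι * a.V) * Real.sqrt (ε j)) atTop
        (𝓝 0) := by
      have := (hε.sqrt).const_mul (Real.sqrt (2 * Fintype.card ι * a.V))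
      rwa [Real.sqrt_zero, mul_zero] at this
    refine squeeze_zero (fun j => integral_nonneg fun x => Real.sqrt_nonneg _) (fun j => ?_) h1
    refine (pr_sqrt_int hG hu hu (by simpa using hG.h0_pos.le) (hχd j) (hpi j)).2.trans ?_
    exact mul_le_mul_of_nonneg_left (Real.sqrt_le_sqrt (hε' j u hu)) (Real.sqrt_nonneg _)
  have hsmall : ∀ (F : ℕ → a.M → ℝ) (B : ℝ), (∀ j x, |F j x| ≤ B * c j x) →
      Tendsto (fun j => ∫ x, F j x ∂a.μ) atTop (𝓝 0) := by
    intro F B hB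
    refine squeeze_zero_norm (a := fun j => B * ∫ x, c j x ∂a.μ) (fun j => ?_) ?_
    · rw [← integral_const_mul]
      exact norm_integral_le_of_norm_le ((hci j).const_mul B)
        (Eventually.of_forall fun x => by rw [Real.norm_eq_abs]; exact hB j x)
    · have := hclim.const_mul B
      rwa [mul_zero] at this
  have hcn : ∀ j x, 0 ≤ c j x := fun j x => Real.sqrt_nonneg _
  -- right side
  have hr : Tendsto (fun j => ∫ x, (-(a.pr u x (a.dl (a.χ j) x) (a.dl G x) *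
          (a.dl H x ⬝ᵥ a.W u x)) -
        a.pr u x (a.dl (a.χ j) x) (a.dl H x) * (a.dl G x ⬝ᵥ a.W u x) +
        (a.dl (a.χ j) x ⬝ᵥ a.W u x) * a.pr u x (a.dl G x) (a.dl H x)) ∂a.μ) atTop (𝓝 0) := by
    refine hsmall _ (|D| * (C * |D|) + |D| * (C * |D|) + C * D ^ 2) fun j x => ?_
    have g1 : |a.pr u x (a.dl (a.χ j) x) (a.dl G x)| ≤ c j x * |D| :=
      (abs_pr_le u x _ _).trans (mul_le_mul_of_nonneg_left (sq_le_E (hG2 x)) (hcn j x))
    have g2 : |a.pr u x (a.dl (a.χ j) x) (a.dl H x)| ≤ c j x * |D| :=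
      (abs_pr_le u x _ _).trans (mul_le_mul_of_nonneg_left (sq_le_E (hH2 x)) (hcn j x))
    have g3 : |a.dl (a.χ j) x ⬝ᵥ a.W u x| ≤ C * c j x := dl_W_le hG hu x _
    have g4 : |a.pr u x (a.dl G x) (a.dl H x)| ≤ D ^ 2 :=
      (abs_pr_le u x _ _).trans (sq_sq_le (hG2 x) (hH2 x))
    have k1 : |a.pr u x (a.dl (a.χ j) x) (a.dl G x) * (a.dl H x ⬝ᵥ a.W u x)| ≤
        c j x * |D| * (C * |D|) := by
      rw [abs_mul]
      exact mul_le_mul g1 (hWH x) (abs_nonneg _) (mul_nonneg (hcn j x) (abs_nonneg _))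
    have k2 : |a.pr u x (a.dl (a.χ j) x) (a.dl H x) * (a.dl G x ⬝ᵥ a.W u x)| ≤
        c j x * |D| * (C * |D|) := by
      rw [abs_mul]
      exact mul_le_mul g2 (hWG x) (abs_nonneg _) (mul_nonneg (hcn j x) (abs_nonneg _))
    have k3 : |(a.dl (a.χ j) x ⬝ᵥ a.W u x) * a.pr u x (a.dl G x) (a.dl H x)| ≤
        C * c j x * D ^ 2 := by
      rw [abs_mul]
      exact mul_le_mul g3 g4 (abs_nonneg _) (mul_nonneg hG.C_nonneg (hcn j x))
    calc _ ≤ |-(a.pr u x (a.dl (a.χ j) x) (a.dl G x) * (a.dl H x ⬝ᵥ a.W u x)) -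
          a.pr u x (a.dl (a.χ j) x) (a.dl H x) * (a.dl G x ⬝ᵥ a.W u x)| +
          |(a.dl (a.χ j) x ⬝ᵥ a.W u x) * a.pr u x (a.dl G x) (a.dl H x)| := abs_add_le _ _
      _ ≤ (|-(a.pr u x (a.dl (a.χ j) x) (a.dl G x) * (a.dl H x ⬝ᵥ a.W u x))| +
          |a.pr u x (a.dl (a.χ j) x) (a.dl H x) * (a.dl G x ⬝ᵥ a.W u x)|) +
          |(a.dl (a.χ j) x ⬝ᵥ a.W u x) * a.pr u x (a.dl G x) (a.dl H x)| :=
          add_le_add_left (abs_sub _ _) _
      _ ≤ (c j x * |D| * (C * |D|) + c j x * |D| * (C * |D|)) + C * c j x * D ^ 2 := by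
          rw [abs_neg]
          exact add_le_add (add_le_add k1 k2) k3
      _ = _ := by ring
  -- the divergence
  have hdiv : ∀ j, ∫ x, a.χ j x * (G x * (a.dl H x ⬝ᵥ a.W u x) + H x * (a.dl G x ⬝ᵥ a.W u x)) ∂a.μ
      = -∫ x, G x * H x * (a.dl (a.χ j) x ⬝ᵥ a.W u x) ∂a.μ := by
    intro j
    obtain ⟨m1, m2⟩ := hG.sm_mul G hGs H hHs
    obtain ⟨m3, m4⟩ := hG.cs_mul _ (hG.χ_cs j) _ m1
    have h1 := hG.div u hu _ m3
    have h2 : ∀ x, a.dl (fun x => a.χ j x * (G x * H x)) x ⬝ᵥ a.W u x =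
        a.χ j x * (G x * (a.dl H x ⬝ᵥ a.W u x) + H x * (a.dl G x ⬝ᵥ a.W u x)) +
          G x * H x * (a.dl (a.χ j) x ⬝ᵥ a.W u x) := by
      intro x
      rw [m4 x, m2 x]
      simp only [add_dotProduct, smul_dotProduct, smul_eq_mul]
    rw [integral_congr_ae (Eventually.of_forall h2)] at h1
    have hi6 : Integrable (fun x => G x * H x * (a.dl (a.χ j) x ⬝ᵥ a.W u x)) a.μ := by
      refine Integrable.mono' ((hci j).const_mul (L / l * (L / l) * C))
        ((hGM.mul hHM).mul (me_dot (hχd j) hWm)).aestronglyMeasurable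
        (Eventually.of_forall fun x => ?_)
      rw [Real.norm_eq_abs, abs_mul, abs_mul]
      have g3 : |a.dl (a.χ j) x ⬝ᵥ a.W u x| ≤ C * c j x := dl_W_le hG hu x _
      calc |G x| * |H x| * |a.dl (a.χ j) x ⬝ᵥ a.W u x| ≤ L / l * (L / l) * (C * c j x) := by
            refine mul_le_mul (mul_le_mul (hGb x) (hHb x) (abs_nonneg _) (div_nonneg hL0 hl.le))
              g3 (abs_nonneg _) ?_
            exact mul_nonneg (div_nonneg hL0 hl.le) (div_nonneg hL0 hl.le)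
        _ = _ := by ring
    rw [integral_add (hcut _ hi45 j) hi6] at h1
    linarith
  have hd : Tendsto (fun j => l * ∫ x, a.χ j x * (G x * (a.dl H x ⬝ᵥ a.W u x) +
      H x * (a.dl G x ⬝ᵥ a.W u x)) ∂a.μ) atTop (𝓝 0) := by
    have h1 : Tendsto (fun j => ∫ x, G x * H x * (a.dl (a.χ j) x ⬝ᵥ a.W u x) ∂a.μ) atTop (𝓝 0) := by
      refine hsmall _ (L / l * (L / l) * C) fun j x => ?_
      rw [abs_mul, abs_mul]
      have g3 : |a.dl (a.χ j) x ⬝ᵥ a.W u x| ≤ C * c j x := dl_W_le hG hu x _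
      calc |G x| * |H x| * |a.dl (a.χ j) x ⬝ᵥ a.W u x| ≤ L / l * (L / l) * (C * c j x) := by
            refine mul_le_mul (mul_le_mul (hGb x) (hHb x) (abs_nonneg _) (div_nonneg hL0 hl.le))
              g3 (abs_nonneg _) ?_
            exact mul_nonneg (div_nonneg hL0 hl.le) (div_nonneg hL0 hl.le)
        _ = _ := by ring
    have h2 := (h1.neg).const_mul l
    rw [neg_zero, mul_zero] at h2
    refine h2.congr fun j => ?_
    rw [hdiv j]
  -- the limit
  have hA : Tendsto (fun j => ∫ x, a.χ j x * (f x * (a.dl H x ⬝ᵥ a.W u x) +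
      h x * (a.dl G x ⬝ᵥ a.W u x)) ∂a.μ) atTop
      (𝓝 (∫ x, (f x * (a.dl H x ⬝ᵥ a.W u x) + h x * (a.dl G x ⬝ᵥ a.W u x)) ∂a.μ)) :=
    hcutlim _ hi12
  have hB := hcutlim _ hi3
  have hst : ∀ j, ∫ x, (-(a.pr u x (a.dl (a.χ j) x) (a.dl G x) *
          (a.dl H x ⬝ᵥ a.W u x)) -
        a.pr u x (a.dl (a.χ j) x) (a.dl H x) * (a.dl G x ⬝ᵥ a.W u x) +
        (a.dl (a.χ j) x ⬝ᵥ a.W u x) * a.pr u x (a.dl G x) (a.dl H x)) ∂a.μ =
      l * (∫ x, a.χ j x * (G x * (a.dl H x ⬝ᵥ a.W u x) + H x * (a.dl G x ⬝ᵥ a.W u x)) ∂a.μ) -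
      (∫ x, a.χ j x * (f x * (a.dl H x ⬝ᵥ a.W u x) + h x * (a.dl G x ⬝ᵥ a.W u x)) ∂a.μ) +
      ∫ x, a.χ j x * (a.co u x (a.dl G x) ⬝ᵥ (a.S u x *ᵥ a.co u x (a.dl H x))) ∂a.μ := by
    intro j
    rw [← hR.stress l hl u hu f h hf hh L hL hL' _ (hG.χ_cs j)]
    congr 1
    rw [← integral_const_mul, ← integral_sub ((hcut _ hi45 j).const_mul l) (hcut _ hi12 j)]
    refine integral_congr_ae (Eventually.of_forall fun x => ?_)
    simp only [← hGdef, ← hHdef]
    ring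
  have hlim2 := (hd.sub hA).add hB
  have huniq := tendsto_nhds_unique (hlim2.congr fun j => (hst j).symm) hr
  rw [integral_add hi1 hi2] at huniq
  linarith

end Pool.Agent.SYR.Arc
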