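import Pool.Agent.SYR.ResErr
import Pool.Agent.SYR.ResStress

/-!
# SYR/ResD : the pairing is constant, the resolvents are intertwined

`pairing_lip` from `pairing_expand`, `err_le`, `transport_le'`, `en_lip`. The right derivative of
`pairing` is `0`: `pairing_expand`, `transport_lim` (twice), `en_lim`, `stress_lim` (with `push f u`,
`push h u` as `f`, `h`), `err_lim`. Then `constant_of_has_deriv_right_zero`. `res_push`: `pairing` at `0`
is `∫ Res l 0 f * h`, at `u` it is `∫ h y * (Res l u (push f u)) (Fl 0 u y)` (`push_pair`), all bounded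
measurable `h`; then continuity (`IsOpenPosMeasure`, `Dom 0 u` open).
-/

set_option autoImplicit false

open Matrix MeasureTheory Filter Topology Set

namespace Pool.Agent.SYR.Arc

variable {ι : Type} [Fintype ι] [DecidableEq ι] {a : Arc ι} {C h0 : ℝ}

omit [Fintype ι] [DecidableEq ι] in
private theorem abs_le_abs62 {f : a.M → ℝ} {L : ℝ} (hL : ∀ x, |f x| ≤ L) :
    ∀ x, |f x| ≤ |L| := fun x => (hL x).trans (le_abs_self L)

/-- energy of a function with bounded gradient -/
private theorem en_bdd62 (hG : a.Geom C h0) {u : ℝ} (hu : u ∈ Icc 0 a.U) {φ : a.M → ℝ}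
    (hφ : φ ∈ a.sm) {E : ℝ} (hE : ∀ x, a.pr u x (a.dl φ x) (a.dl φ x) ≤ E ^ 2) :
    Integrable (fun x => a.pr u x (a.dl φ x) (a.dl φ x)) a.μ ∧
      a.En u φ φ ≤ 2 * Fintype.card ι * a.V * E ^ 2 := by
  have h := pr_int hG hu hu (by rw [sub_self, abs_zero]; exact hG.h0_pos.le)
    (α := fun x => a.dl φ x) (hG.dl_meas φ hφ) hE
  exact h

theorem pairing_lip (hG : a.Geom C h0) (hF : a.Flow) (hR : a.Rcd) {l : ℝ} (hl : 0 < l)
    {f h : a.M → ℝ} (hf : Measurable f) (hh : Measurable h) {L : ℝ} (hL : ∀ x, |f x| ≤ L)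
    (hL' : ∀ x, |h x| ≤ L) :
    ∃ D, 0 ≤ D ∧ ∀ u ∈ Icc 0 a.U, ∀ v ∈ Icc 0 a.U, u ≤ v → v - u ≤ h0 →
      |a.pairing l f h v - a.pairing l f h u| ≤ D * (v - u) := by
  obtain ⟨D1, hD1, H1⟩ := err_le hG hF hR hl hf (abs_le_abs62 hL)
  obtain ⟨D2, hD2, H2⟩ := err_le hG hF hR hl hh (abs_le_abs62 hL')
  obtain ⟨D0, hD0, H0⟩ := hR.res_grad l hl
  have hV : 0 ≤ a.V := measureReal_nonneg
  have hC := hG.C_nonneg
  set L0 : ℝ := |L| with hL0
  have hL0' : 0 ≤ L0 := abs_nonneg L
  set T : ℝ := L0 * C * Real.sqrt (2 * Fintype.card ι * a.V) *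
    Real.sqrt (2 * Fintype.card ι * a.V * (D0 * L0) ^ 2) with hT
  have hT0 : 0 ≤ T := by positivity
  set N : ℝ := (D0 * L0) ^ 2 * ((6 + 2 * Fintype.card ι) * (8 * C) * a.V) with hN
  have hN0 : 0 ≤ N := by positivity
  refine ⟨Real.sqrt D1 * Real.sqrt D2 + (T + T + N), by positivity, ?_⟩
  intro u hu v hv huv huv'
  have hd : 0 ≤ v - u := sub_nonneg.2 huv
  have hfm := push_meas hF hf hu
  have hhm := push_meas hF hh hu
  have hfb := fun x => push_le (abs_le_abs62 hL) hL0' u x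
  have hhb := fun x => push_le (abs_le_abs62 hL') hL0' u x
  obtain ⟨hFs, hFb⟩ := hR.res_sm l hl u hu _ hfm L0 hfb
  obtain ⟨hHs, hHb⟩ := hR.res_sm l hl u hu _ hhm L0 hhb
  have hFg := H0 u hu _ hfm L0 hfb
  have hHg := H0 u hu _ hhm L0 hhb
  obtain ⟨hFi, hFe⟩ := en_bdd62 hG hu hFs hFg
  obtain ⟨hHi, hHe⟩ := en_bdd62 hG hu hHs hHg
  have hX := pairing_expand hG hF hR hl hu hv huv huv' hf hh (abs_le_abs62 hL)
    (abs_le_abs62 hL')
  have hT1 := transport_le' hG hF hu hv huv huv' hf (abs_le_abs62 hL) hHs hHb hHi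
  have hT2 := transport_le' hG hF hu hv huv huv' hh (abs_le_abs62 hL') hFs hFb hFi
  have hN1 := en_lip hG hu hv huv huv' hFs hHs hFg hHg
  have hT1' : (v - u) * (|L| * C * Real.sqrt (2 * Fintype.card ι * a.V) *
        Real.sqrt (a.En u (a.Res l u (a.push h u)) (a.Res l u (a.push h u)))) ≤ (v - u) * T := by
    refine mul_le_mul_of_nonneg_left ?_ hd
    exact mul_le_mul_of_nonneg_left (Real.sqrt_le_sqrt hHe) (by positivity)
  have hT2' : (v - u) * (|L| * C * Real.sqrt (2 * Fintype.card ι * a.V) *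
        Real.sqrt (a.En u (a.Res l u (a.push f u)) (a.Res l u (a.push f u)))) ≤ (v - u) * T := by
    refine mul_le_mul_of_nonneg_left ?_ hd
    exact mul_le_mul_of_nonneg_left (Real.sqrt_le_sqrt hFe) (by positivity)
  have hE1 := Real.sqrt_le_sqrt (H1 u hu v hv huv huv')
  have hE2 := Real.sqrt_le_sqrt (H2 u hu v hv huv huv')
  have hE : Real.sqrt (a.err l f u v) * Real.sqrt (a.err l h u v) ≤
      Real.sqrt D1 * Real.sqrt D2 * (v - u) := by
    refine (mul_le_mul hE1 hE2 (Real.sqrt_nonneg _) (Real.sqrt_nonneg _)).trans (le_of_eq ?_)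
    rw [Real.sqrt_mul hD1, Real.sqrt_mul hD2]
    have := Real.mul_self_sqrt hd
    calc Real.sqrt D1 * Real.sqrt (v - u) * (Real.sqrt D2 * Real.sqrt (v - u))
        = Real.sqrt D1 * Real.sqrt D2 * (Real.sqrt (v - u) * Real.sqrt (v - u)) := by ring
      _ = _ := by rw [this]
  have hN1' : (D0 * L0) ^ 2 * ((6 + 2 * Fintype.card ι) * (8 * C) * a.V * (v - u)) =
      N * (v - u) := by rw [hN]; ring
  rw [hN1'] at hN1
  have hX' := (hX.trans hE)
  rw [abs_le] at hX' ⊢
  have h1 := abs_le.1 (hT1.trans hT1')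
  have h2 := abs_le.1 (hT2.trans hT2')
  have h3 := abs_le.1 hN1
  constructor
  · nlinarith [h1.1, h2.1, h3.1, h3.2, hX'.1]
  · nlinarith [h1.2, h2.2, h3.1, h3.2, hX'.2]

private theorem pairing_deriv62 (hG : a.Geom C h0) (hF : a.Flow) (hR : a.Rcd) {l : ℝ}
    (hl : 0 < l) {f h : a.M → ℝ} (hf : Measurable f) (hh : Measurable h) {L : ℝ}
    (hL : ∀ x, |f x| ≤ L) (hL' : ∀ x, |h x| ≤ L) {u : ℝ} (hu : u ∈ Ico 0 a.U) :
    HasDerivWithinAt (a.pairing l f h) 0 (Ici u) u := by
  rw [← hasDerivWithinAt_Ioi_iff_Ici, hasDerivWithinAt_iff_tendsto_slope'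
    (by simp only [mem_Ioi, lt_self_iff_false, not_false_eq_true])]
  obtain ⟨D0, hD0, H0⟩ := hR.res_grad l hl
  have huI : u ∈ Icc 0 a.U := ⟨hu.1, hu.2.le⟩
  have hL0' : 0 ≤ |L| := abs_nonneg L
  have hfm := push_meas hF hf huI
  have hhm := push_meas hF hh huI
  have hfb := fun x => push_le (abs_le_abs62 hL) hL0' u x
  have hhb := fun x => push_le (abs_le_abs62 hL') hL0' u x
  obtain ⟨hFs, hFb⟩ := hR.res_sm l hl u huI _ hfm |L| hfb
  obtain ⟨hHs, hHb⟩ := hR.res_sm l hl u huI _ hhm |L| hhb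
  have hFg := H0 u huI _ hfm |L| hfb
  have hHg := H0 u huI _ hhm |L| hhb
  have hT1 := transport_lim hG hF hu hf (abs_le_abs62 hL) hHs hHb hHg
  have hT2 := transport_lim hG hF hu hh (abs_le_abs62 hL') hFs hFb hFg
  have hN := en_lim hG hu hFs hHs hFg hHg
  have hS := stress_lim hG hR hl huI hfm hhm hfb hhb
  have hE1 := err_lim hG hF hR hl hf (abs_le_abs62 hL) hu
  have hE2 := err_lim hG hF hR hl hh (abs_le_abs62 hL') hu
  -- main part
  have hmain := (hT1.add hT2).sub hN
  rw [hS, sub_self] at hmain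
  -- error part
  have herr : Tendsto (fun v => Real.sqrt (a.err l f u v / (v - u)) *
      Real.sqrt (a.err l h u v / (v - u))) (𝓝[>] u) (𝓝 0) := by
    have h1 := (Real.continuous_sqrt.tendsto 0).comp hE1
    have h2 := (Real.continuous_sqrt.tendsto 0).comp hE2
    have h3 := h1.mul h2
    simpa only [Real.sqrt_zero, mul_zero, Function.comp_def] using h3
  have hev : ∀ᶠ v in 𝓝[>] u, v ∈ Icc 0 a.U ∧ u < v ∧ v - u ≤ h0 := by
    have h1 : ∀ᶠ v in 𝓝[>] u, v ∈ Ioo u (min a.U (u + h0)) :=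
      Ioo_mem_nhdsGT (lt_min hu.2 (by linarith [hG.h0_pos]))
    filter_upwards [h1] with v hv
    have h2 := lt_min_iff.1 hv.2
    exact ⟨⟨hu.1.trans hv.1.le, h2.1.le⟩, hv.1, by linarith [h2.2]⟩
  have hdiff : Tendsto (fun v => slope (a.pairing l f h) u v -
      ((∫ x, a.push f v x * a.Res l u (a.push h u) x ∂a.μ -
          ∫ x, a.push f u x * a.Res l u (a.push h u) x ∂a.μ) / (v - u) +
        (∫ x, a.push h v x * a.Res l u (a.push f u) x ∂a.μ -
          ∫ x, a.push h u x * a.Res l u (a.push f u) x ∂a.μ) / (v - u) -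
        (a.En v (a.Res l u (a.push f u)) (a.Res l u (a.push h u)) -
          a.En u (a.Res l u (a.push f u)) (a.Res l u (a.push h u))) / (v - u)))
      (𝓝[>] u) (𝓝 0) := by
    refine squeeze_zero_norm' ?_ herr
    filter_upwards [hev] with v hv
    obtain ⟨hv1, hv2, hv3⟩ := hv
    have hd : 0 < v - u := sub_pos.2 hv2
    have hX := pairing_expand hG hF hR hl huI hv1 hv2.le hv3 hf hh (abs_le_abs62 hL)
      (abs_le_abs62 hL')
    have hsq : Real.sqrt (a.err l f u v / (v - u)) * Real.sqrt (a.err l h u v / (v - u)) =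
        Real.sqrt (a.err l f u v) * Real.sqrt (a.err l h u v) / (v - u) := by
      rw [Real.sqrt_div (err_nonneg hl), Real.sqrt_div (err_nonneg hl), div_mul_div_comm,
        Real.mul_self_sqrt hd.le]
    rw [hsq, Real.norm_eq_abs, le_div_iff₀ hd]
    refine le_trans (le_of_eq ?_) hX
    rw [slope_def_field, ← abs_of_pos hd, ← abs_mul, abs_of_pos hd]
    congr 1
    field_simp
  have hfin := hdiff.add hmain
  rw [add_zero] at hfin
  refine hfin.congr fun v => ?_
  ring

theorem pairing_const (hG : a.Geom C h0) (hF : a.Flow) (hR : a.Rcd) {l : ℝ} (hl : 0 < l)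
    {f h : a.M → ℝ} (hf : Measurable f) (hh : Measurable h) {L : ℝ} (hL : ∀ x, |f x| ≤ L)
    (hL' : ∀ x, |h x| ≤ L) {u : ℝ} (hu : u ∈ Icc 0 a.U) :
    a.pairing l f h u = a.pairing l f h 0 := by
  obtain ⟨D, hD, HD⟩ := pairing_lip hG hF hR hl hf hh hL hL'
  refine constant_of_has_deriv_right_zero (a := 0) (b := a.U) ?_
    (fun x hx => pairing_deriv62 hG hF hR hl hf hh hL hL' hx) u hu
  intro x hx
  rw [Metric.continuousWithinAt_iff]
  intro ε hε
  refine ⟨min h0 (ε / (D + 1)), lt_min hG.h0_pos (by positivity), ?_⟩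
  intro y hy hxy
  have hxy1 : |y - x| < h0 := lt_of_lt_of_le hxy (min_le_left _ _)
  have hxy2 : |y - x| < ε / (D + 1) := lt_of_lt_of_le hxy (min_le_right _ _)
  rw [Real.dist_eq]
  have key : |a.pairing l f h y - a.pairing l f h x| ≤ D * |y - x| := by
    rcases le_total x y with hle | hle
    · rw [abs_of_nonneg (sub_nonneg.2 hle)] at hxy1 ⊢
      exact HD x hx y hy hle hxy1.le
    · rw [abs_sub_comm, abs_sub_comm y x] at *
      rw [abs_of_nonneg (sub_nonneg.2 hle)] at hxy1 ⊢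
      exact HD y hy x hx hle hxy1.le
  refine key.trans_lt ?_
  rw [lt_div_iff₀ (by linarith)] at hxy2
  nlinarith [abs_nonneg (y - x)]

/-- the resolvents are intertwined by the flow -/
theorem res_push (hG : a.Geom C h0) (hF : a.Flow) (hR : a.Rcd) {l : ℝ} (hl : 0 < l)
    {f : a.M → ℝ} (hf : Measurable f) {L : ℝ} (hL : ∀ x, |f x| ≤ L) {u : ℝ}
    (hu : u ∈ Icc 0 a.U) :
    ∀ y ∈ a.Dom 0 u, a.Res l u (a.push f u) (a.Fl 0 u y) = a.Res l 0 f y := by
  have := hG.fin
  have := hG.pos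
  have h0U : (0 : ℝ) ∈ Icc 0 a.U := ⟨le_rfl, hG.U_pos.le⟩
  have hL0' : 0 ≤ |L| := abs_nonneg L
  have hfm := push_meas hF hf hu
  have hfb := fun x => push_le (abs_le_abs62 hL) hL0' u x
  obtain ⟨hFs, hFb⟩ := hR.res_sm l hl u hu _ hfm |L| hfb
  obtain ⟨hGs, hGb⟩ := hR.res_sm l hl 0 h0U _ hf |L| (abs_le_abs62 hL)
  have hFc := hG.sm_cont _ hFs
  have hGc := hG.sm_cont _ hGs
  have hFi : Integrable (a.Res l u (a.push f u)) a.μ :=
    Integrable.of_bound hFc.measurable.aestronglyMeasurable (|L| / l)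
      (Eventually.of_forall fun x => by rw [Real.norm_eq_abs]; exact hFb x)
  have hGi : Integrable (a.Res l 0 f) a.μ :=
    Integrable.of_bound hGc.measurable.aestronglyMeasurable (|L| / l)
      (Eventually.of_forall fun x => by rw [Real.norm_eq_abs]; exact hGb x)
  have hone : Integrable (fun y => a.Res l u (a.push f u) (a.Fl 0 u y)) a.μ := by
    have := (push_pair hG hF (f := fun _ => (1 : ℝ)) measurable_const (L := 1)
      (fun x => by rw [abs_one]) hFc.measurable hFi hu).1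
    simpa only [one_mul] using this
  have hae : (fun y => a.Res l u (a.push f u) (a.Fl 0 u y)) =ᵐ[a.μ] a.Res l 0 f := by
    refine Integrable.ae_eq_of_forall_setIntegral_eq _ _ hone hGi ?_
    intro s hs _
    set h : a.M → ℝ := s.indicator (fun _ => (1 : ℝ)) with hdef
    have hhm : Measurable h := measurable_const.indicator hs
    have hhb1 : ∀ x, |h x| ≤ 1 := by
      intro x
      rw [hdef]
      by_cases hx : x ∈ s
      · rw [indicator_of_mem hx, abs_one]
      · rw [indicator_of_notMem hx, abs_zero]; exact zero_le_one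
    have hc := pairing_const hG hF hR hl hf hhm (L := |L| + 1)
      (fun x => (abs_le_abs62 hL x).trans (by linarith))
      (fun x => (hhb1 x).trans (by linarith)) hu
    unfold pairing at hc
    rw [push_zero hF hG.U_pos.le, push_zero hF hG.U_pos.le] at hc
    have hp := (push_pair hG hF hhm hhb1 hFc.measurable hFi hu).2
    have e1 : ∫ x, a.Res l u (a.push f u) x * a.push h u x ∂a.μ =
        ∫ x, a.push h u x * a.Res l u (a.push f u) x ∂a.μ :=
      integral_congr_ae (Eventually.of_forall fun x => mul_comm _ _)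
    rw [e1, hp] at hc
    have e2 : ∀ g : a.M → ℝ, ∫ x in s, g x ∂a.μ = ∫ x, h x * g x ∂a.μ := by
      intro g
      rw [← integral_indicator hs]
      refine integral_congr_ae (Eventually.of_forall fun x => ?_)
      show s.indicator g x = h x * g x
      rw [hdef]
      by_cases hx : x ∈ s
      · rw [indicator_of_mem hx, indicator_of_mem hx, one_mul]
      · rw [indicator_of_notMem hx, indicator_of_notMem hx, zero_mul]
    rw [e2, e2, hc]
    exact integral_congr_ae (Eventually.of_forall fun x => mul_comm _ _)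
  -- equality everywhere on the open domain
  intro y hy
  by_contra hne
  have hopen := hF.isOpen 0 h0U u hu
  have hcontF : ContinuousOn (fun y => a.Res l u (a.push f u) (a.Fl 0 u y)) (a.Dom 0 u) :=
    hFc.comp_continuousOn (hF.cont 0 h0U u hu)
  have hcd : ContinuousOn (fun y => a.Res l u (a.push f u) (a.Fl 0 u y) - a.Res l 0 f y)
      (a.Dom 0 u) := hcontF.sub hGc.continuousOn
  have hO : IsOpen (a.Dom 0 u ∩ (fun y => a.Res l u (a.push f u) (a.Fl 0 u y) -
      a.Res l 0 f y) ⁻¹' {0}ᶜ) := hcd.isOpen_inter_preimage hopen isOpen_compl_singleton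
  have hmem : y ∈ a.Dom 0 u ∩ (fun y => a.Res l u (a.push f u) (a.Fl 0 u y) -
      a.Res l 0 f y) ⁻¹' {0}ᶜ := ⟨hy, by
    simp only [mem_preimage, mem_compl_iff, mem_singleton_iff]
    exact sub_ne_zero.2 hne⟩
  have hpos := hO.measure_pos a.μ ⟨y, hmem⟩
  have hzero : a.μ (a.Dom 0 u ∩ (fun y => a.Res l u (a.push f u) (a.Fl 0 u y) -
      a.Res l 0 f y) ⁻¹' {0}ᶜ) = 0 := by
    refine measure_mono_null ?_ (ae_iff.1 hae)
    intro z hz
    have := hz.2
    simp only [mem_preimage, mem_compl_iff, mem_singleton_iff] at this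
    exact fun h => this (sub_eq_zero.2 h)
  rw [hzero] at hpos
  exact lt_irrefl _ hpos

end Pool.Agent.SYR.Arc
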