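import Pool.Agent.SYR.ResC

/-!
# SYR/ResErr : the quadratic error term

With `F = Res l u (push f u)`, `φ = Res l v (push f v) - F`, `B_v (p, q) = En v p q + l ∫ p q`:
`err = B_v (φ, φ) = [∫ (f^v - f^u) φ] - [En v F φ - En u F φ]` (`res_eq'` at `v` and at `u`). First bracket:
`transport_le`. Second: `|pr v dF dφ - pr u dF dφ| ≤ nrm (rel u v - 1) (D L)² 2` from
`dφ = dF_v - dF` (`pr_diff_le'` for `dF, dF_v`; `pr_diff_le` for `dF, dF`), and also
`≤ nrm (rel u v - 1) (D L) sqrt (pr v dφ dφ)`. So `err ≤ C'' (v - u)` first (`rel_sub`; note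
`En v φ φ ≤ err` and that `En v φ φ` is bounded), then
`err / (v - u) → 0` since `nrm (rel - 1)/(v - u) → nrm S` in `L¹` (`rel_lim`, `S_int`),
`∫ pr v dφ dφ ≤ err → 0` and `∫ nrm S * min (C1, C2 X_v) → 0` whenever `∫ X_v² → 0` (split at
`nrm S ≤ R`).
-/

set_option autoImplicit false

open Matrix MeasureTheory Filter Topology Set

namespace Pool.Agent.SYR.Arc

variable {ι : Type} [Fintype ι] [DecidableEq ι] {a : Arc ι} {C h0 : ℝ}

/-! ### the product -/

private theorem pr_comm44 (u : ℝ) (x : a.M) (v w : ι → ℝ) : a.pr u x v w = a.pr u x w v := by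
  unfold pr
  exact dotProduct_comm _ _

private theorem pr_sub_right44 (u : ℝ) (x : a.M) (v w w' : ι → ℝ) :
    a.pr u x v (w - w') = a.pr u x v w - a.pr u x v w' := by
  unfold pr co
  rw [Matrix.mulVec_sub, dotProduct_sub]

private theorem pr_sub_left44 (u : ℝ) (x : a.M) (v v' w : ι → ℝ) :
    a.pr u x (v - v') w = a.pr u x v w - a.pr u x v' w := by
  rw [pr_comm44, pr_sub_right44, pr_comm44, pr_comm44 (v := w) (w := v')]

private theorem pr_add_add44 (u : ℝ) (x : a.M) (v w : ι → ℝ) :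
    a.pr u x (v + w) (v + w) = a.pr u x v v + 2 * a.pr u x v w + a.pr u x w w := by
  have h : a.pr u x w v = a.pr u x v w := pr_comm44 u x w v
  unfold pr co at *
  rw [Matrix.mulVec_add, dotProduct_add, add_dotProduct, add_dotProduct]
  linarith

private theorem pr_sub_sub44 (u : ℝ) (x : a.M) (v w : ι → ℝ) :
    a.pr u x (v - w) (v - w) = a.pr u x v v - 2 * a.pr u x v w + a.pr u x w w := by
  rw [pr_sub_right44, pr_sub_left44, pr_sub_left44, pr_comm44 (v := w) (w := v)]
  ring

private theorem pr_sub_le44 (u : ℝ) (x : a.M) (v w : ι → ℝ) :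
    a.pr u x (v - w) (v - w) ≤ 2 * a.pr u x v v + 2 * a.pr u x w w := by
  have h1 := pr_nonneg u x (v + w)
  rw [pr_add_add44] at h1
  rw [pr_sub_sub44]
  linarith

private theorem pair44 (u : ℝ) : Measurable (fun x : a.M => ((u, x) : ℝ × a.M)) :=
  measurable_const.prodMk measurable_id

private theorem pr_meas44 (hG : a.Geom C h0) {α β : a.M → ι → ℝ}
    (hα : ∀ i, Measurable (fun x => α x i)) (hβ : ∀ i, Measurable (fun x => β x i)) (u : ℝ) :
    Measurable (fun x => a.pr u x (α x) (β x)) := by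
  have h1 := (pr_meas hG hα hβ).comp (pair44 u)
  rw [Function.comp_def] at h1
  exact h1

/-- product of covectors with integrable squares -/
private theorem pr_int44 (hG : a.Geom C h0) {α β : a.M → ι → ℝ}
    (hα : ∀ i, Measurable (fun x => α x i)) (hβ : ∀ i, Measurable (fun x => β x i)) (u : ℝ)
    (h1 : Integrable (fun x => a.pr u x (α x) (α x)) a.μ)
    (h2 : Integrable (fun x => a.pr u x (β x) (β x)) a.μ) :
    Integrable (fun x => a.pr u x (α x) (β x)) a.μ := by
  refine (h1.add h2).mono' (pr_meas44 hG hα hβ u).aestronglyMeasurable (ae_of_all _ fun x => ?_)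
  rw [Real.norm_eq_abs]
  have h3 := pr_nonneg u x (α x)
  have h4 := pr_nonneg u x (β x)
  refine (abs_pr_le u x (α x) (β x)).trans ?_
  have h5 := Real.sq_sqrt h3
  have h6 := Real.sq_sqrt h4
  simp only [Pi.add_apply]
  nlinarith [sq_nonneg (Real.sqrt (a.pr u x (α x) (α x)) - Real.sqrt (a.pr u x (β x) (β x)))]

/-- `pr v dφ dφ` -/
private noncomputable def X44 (a : Arc ι) (l : ℝ) (f : a.M → ℝ) (u v : ℝ) (x : a.M) : ℝ :=
  a.pr v x (a.dl (a.Res l v (a.push f v)) x - a.dl (a.Res l u (a.push f u)) x)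
    (a.dl (a.Res l v (a.push f v)) x - a.dl (a.Res l u (a.push f u)) x)

private theorem X44_nonneg (l : ℝ) (f : a.M → ℝ) (u v : ℝ) (x : a.M) : 0 ≤ X44 a l f u v x :=
  pr_nonneg _ _ _

private theorem main44 (hG : a.Geom C h0) (hF : a.Flow) (hR : a.Rcd) {l : ℝ} (hl : 0 < l)
    {f : a.M → ℝ} (hf : Measurable f) {L : ℝ} (hL0 : 0 ≤ L) (hL : ∀ x, |f x| ≤ L) :
    ∃ E, 0 ≤ E ∧ ∀ u ∈ Icc 0 a.U, ∀ v ∈ Icc 0 a.U, u ≤ v → v - u ≤ h0 →
      Integrable (X44 a l f u v) a.μ ∧ Measurable (X44 a l f u v) ∧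
        ∫ x, X44 a l f u v x ∂a.μ ≤ (2 + 4 * Fintype.card ι) * a.V * E ^ 2 ∧
        ∫ x, X44 a l f u v x ∂a.μ ≤ a.err l f u v ∧
        a.err l f u v ≤ (v - u) * (L * C * Real.sqrt (2 * Fintype.card ι * a.V) *
          Real.sqrt (∫ x, X44 a l f u v x ∂a.μ)) +
          ∫ x, nrm (a.rel u v x - 1) *
            min (2 * E ^ 2) (E * Real.sqrt (X44 a l f u v x)) ∂a.μ := by
  have := hG.fin
  obtain ⟨D, hD0, hD⟩ := hR.res_grad l hl
  refine ⟨D * L, by positivity, fun u hu v hv huv huv' => ?_⟩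
  have huvs : |v - u| ≤ h0 := by rw [abs_of_nonneg (by linarith)]; exact huv'
  have hvus : |u - v| ≤ h0 := by rw [abs_sub_comm]; exact huvs
  set E : ℝ := D * L with hE
  have hE0 : 0 ≤ E := by positivity
  have mu := push_meas hF hf hu
  have mv := push_meas hF hf hv
  have bu : ∀ x, |a.push f u x| ≤ L := push_le hL hL0 u
  have bv : ∀ x, |a.push f v x| ≤ L := push_le hL hL0 v
  obtain ⟨sF, bF⟩ := hR.res_sm l hl u hu _ mu L bu
  obtain ⟨sG, bG⟩ := hR.res_sm l hl v hv _ mv L bv
  have gF := hD u hu _ mu L bu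
  have gG := hD v hv _ mv L bv
  set F := a.Res l u (a.push f u) with hFdef
  set G := a.Res l v (a.push f v) with hGdef
  have dF := hG.dl_meas F sF
  have dG := hG.dl_meas G sG
  obtain ⟨sφ, dφ⟩ := hG.sm_sub G sG F sF
  set φ : a.M → ℝ := fun x => G x - F x with hφ
  have dd : ∀ i, Measurable (fun x => (a.dl G x - a.dl F x) i) := by
    intro i
    simp only [Pi.sub_apply]
    exact (dG i).sub (dF i)
  have mdφ : ∀ i, Measurable (fun x => a.dl φ x i) := hG.dl_meas φ sφ
  have eX : ∀ x, a.pr v x (a.dl φ x) (a.dl φ x) = X44 a l f u v x := by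
    intro x
    rw [dφ x]
    rfl
  have bφ : ∀ x, |φ x| ≤ 2 * (L / l) := by
    intro x
    calc |G x - F x| ≤ |G x| + |F x| := abs_sub _ _
      _ ≤ 2 * (L / l) := by linarith [bG x, bF x]
  -- energies of `F` and `G` at `u` and `v`
  have iFu : Integrable (fun x => a.pr u x (a.dl F x) (a.dl F x)) a.μ :=
    Integrable.of_bound (pr_meas44 hG dF dF u).aestronglyMeasurable (E ^ 2)
      (ae_of_all _ fun x => by rw [Real.norm_eq_abs, abs_of_nonneg (pr_nonneg _ _ _)]; exact gF x)
  have iGv : Integrable (fun x => a.pr v x (a.dl G x) (a.dl G x)) a.μ :=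
    Integrable.of_bound (pr_meas44 hG dG dG v).aestronglyMeasurable (E ^ 2)
      (ae_of_all _ fun x => by rw [Real.norm_eq_abs, abs_of_nonneg (pr_nonneg _ _ _)]; exact gG x)
  obtain ⟨iFv, cFv⟩ := pr_int hG hu hv huvs dF gF
  obtain ⟨iGu, -⟩ := pr_int hG hv hu hvus dG gG
  have iX : Integrable (X44 a l f u v) a.μ := by
    refine ((iGv.const_mul 2).add (iFv.const_mul 2)).mono'
      (pr_meas44 hG dd dd v).aestronglyMeasurable (ae_of_all _ fun x => ?_)
    rw [Real.norm_eq_abs, abs_of_nonneg (X44_nonneg _ _ _ _ _)]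
    exact pr_sub_le44 v x _ _
  have iφv : Integrable (fun x => a.pr v x (a.dl φ x) (a.dl φ x)) a.μ := by
    refine iX.congr (ae_of_all _ fun x => (eX x).symm)
  have iφu : Integrable (fun x => a.pr u x (a.dl φ x) (a.dl φ x)) a.μ := by
    refine ((iGu.const_mul 2).add (iFu.const_mul 2)).mono'
      (pr_meas44 hG mdφ mdφ u).aestronglyMeasurable (ae_of_all _ fun x => ?_)
    rw [Real.norm_eq_abs, abs_of_nonneg (pr_nonneg _ _ _), dφ x]
    exact pr_sub_le44 u x _ _
  have eEn : a.En v φ φ = ∫ x, X44 a l f u v x ∂a.μ := by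
    unfold En
    exact integral_congr_ae (ae_of_all _ eX)
  -- integrability of the products of functions
  have mF : Measurable F := (hG.sm_cont F sF).measurable
  have mG : Measurable G := (hG.sm_cont G sG).measurable
  have mφ : Measurable φ := (hG.sm_cont φ sφ).measurable
  have iFφ : Integrable (fun x => F x * φ x) a.μ := by
    refine Integrable.of_bound (mF.mul mφ).aestronglyMeasurable ((L / l) * (2 * (L / l)))
      (ae_of_all _ fun x => ?_)
    rw [Real.norm_eq_abs, abs_mul]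
    exact mul_le_mul (bF x) (bφ x) (abs_nonneg _) ((abs_nonneg _).trans (bF x))
  have iGφ : Integrable (fun x => G x * φ x) a.μ := by
    refine Integrable.of_bound (mG.mul mφ).aestronglyMeasurable ((L / l) * (2 * (L / l)))
      (ae_of_all _ fun x => ?_)
    rw [Real.norm_eq_abs, abs_mul]
    exact mul_le_mul (bG x) (bφ x) (abs_nonneg _) ((abs_nonneg _).trans (bG x))
  -- the equations
  have q1 := res_eq' hG hR hl hv mv bv sφ bφ iφv
  have q2 := res_eq' hG hR hl hu mu bu sφ bφ iφu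
  rw [← hGdef] at q1
  rw [← hFdef] at q2
  have iGφv : Integrable (fun x => a.pr v x (a.dl G x) (a.dl φ x)) a.μ :=
    pr_int44 hG dG mdφ v iGv iφv
  have iFφv : Integrable (fun x => a.pr v x (a.dl F x) (a.dl φ x)) a.μ :=
    pr_int44 hG dF mdφ v iFv iφv
  have iFφu : Integrable (fun x => a.pr u x (a.dl F x) (a.dl φ x)) a.μ :=
    pr_int44 hG dF mdφ u iFu iφu
  have q3 : a.En v φ φ = a.En v G φ - a.En v F φ := by
    unfold En
    rw [← integral_sub iGφv iFφv]
    refine integral_congr_ae (ae_of_all _ fun x => ?_)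
    beta_reduce
    rw [← pr_sub_left44, ← dφ x]
  have q4 : ∫ x, φ x ^ 2 ∂a.μ = ∫ x, G x * φ x ∂a.μ - ∫ x, F x * φ x ∂a.μ := by
    rw [← integral_sub iGφ iFφ]
    refine integral_congr_ae (ae_of_all _ fun x => ?_)
    simp only [hφ]
    ring
  have e1 : a.err l f u v = a.En v φ φ + l * ∫ x, φ x ^ 2 ∂a.μ := rfl
  have e2 : a.err l f u v = (∫ x, a.push f v x * φ x ∂a.μ - ∫ x, a.push f u x * φ x ∂a.μ) -
      ∫ x, (a.pr v x (a.dl F x) (a.dl φ x) - a.pr u x (a.dl F x) (a.dl φ x)) ∂a.μ := by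
    rw [integral_sub iFφv iFφu, e1, q3, q4, ← q1, ← q2]
    unfold En
    ring
  have hsq : 0 ≤ ∫ x, φ x ^ 2 ∂a.μ := integral_nonneg fun x => sq_nonneg _
  -- the two brackets
  have t1 := transport_le hG hF hu hv huv huv' hf hL sφ bφ iφv
  rw [eEn] at t1
  obtain ⟨iN, -⟩ := rel_sub hG hu hv huv huv'
  have mX : Measurable (X44 a l f u v) := pr_meas44 hG dd dd v
  have mm : Measurable (fun x => min (2 * E ^ 2) (E * Real.sqrt (X44 a l f u v x))) :=
    measurable_const.min (measurable_const.mul mX.sqrt)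
  have iNm : Integrable (fun x => nrm (a.rel u v x - 1) *
      min (2 * E ^ 2) (E * Real.sqrt (X44 a l f u v x))) a.μ := by
    refine (iN.mul_const (2 * E ^ 2)).mono' (iN.aestronglyMeasurable.mul mm.aestronglyMeasurable)
      (ae_of_all _ fun x => ?_)
    have h1 : 0 ≤ min (2 * E ^ 2) (E * Real.sqrt (X44 a l f u v x)) :=
      le_min (by positivity) (by positivity)
    rw [Real.norm_eq_abs, abs_of_nonneg (mul_nonneg nrm_nonneg h1)]
    exact mul_le_mul_of_nonneg_left (min_le_left _ _) nrm_nonneg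
  have sF' : ∀ x, Real.sqrt (a.pr u x (a.dl F x) (a.dl F x)) ≤ E := fun x =>
    (Real.sqrt_le_left hE0).2 (gF x)
  have sG' : ∀ x, Real.sqrt (a.pr v x (a.dl G x) (a.dl G x)) ≤ E := fun x =>
    (Real.sqrt_le_left hE0).2 (gG x)
  have t2 : |∫ x, (a.pr v x (a.dl F x) (a.dl φ x) - a.pr u x (a.dl F x) (a.dl φ x)) ∂a.μ| ≤
      ∫ x, nrm (a.rel u v x - 1) *
        min (2 * E ^ 2) (E * Real.sqrt (X44 a l f u v x)) ∂a.μ := by
    refine abs_integral_le_integral_abs.trans ?_
    refine integral_mono_of_nonneg (ae_of_all _ fun x => abs_nonneg _) iNm (ae_of_all _ fun x => ?_)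
    beta_reduce
    rw [mul_min_of_nonneg _ _ nrm_nonneg]
    refine le_min ?_ ?_
    · have h1 := pr_diff_le' hG hu hv x (a.dl F x) (a.dl G x)
      have h2 := pr_diff_le hG hu hv x (a.dl F x) (a.dl F x)
      have h3 : a.pr v x (a.dl F x) (a.dl φ x) - a.pr u x (a.dl F x) (a.dl φ x) =
          (a.pr v x (a.dl F x) (a.dl G x) - a.pr u x (a.dl F x) (a.dl G x)) -
          (a.pr v x (a.dl F x) (a.dl F x) - a.pr u x (a.dl F x) (a.dl F x)) := by
        rw [dφ x, pr_sub_right44, pr_sub_right44]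
        ring
      rw [h3]
      refine (abs_sub _ _).trans ?_
      have h4 : Real.sqrt (a.pr u x (a.dl F x) (a.dl F x)) *
          Real.sqrt (a.pr v x (a.dl G x) (a.dl G x)) ≤ E * E :=
        mul_le_mul (sF' x) (sG' x) (Real.sqrt_nonneg _) hE0
      have h5 : Real.sqrt (a.pr u x (a.dl F x) (a.dl F x)) *
          Real.sqrt (a.pr u x (a.dl F x) (a.dl F x)) ≤ E * E :=
        mul_le_mul (sF' x) (sF' x) (Real.sqrt_nonneg _) hE0
      have h6 := mul_le_mul_of_nonneg_left h4 (nrm_nonneg (A := a.rel u v x - 1))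
      have h7 := mul_le_mul_of_nonneg_left h5 (nrm_nonneg (A := a.rel u v x - 1))
      calc _ ≤ nrm (a.rel u v x - 1) * (E * E) + nrm (a.rel u v x - 1) * (E * E) := by
            linarith
        _ = nrm (a.rel u v x - 1) * (2 * E ^ 2) := by ring
    · have h1 := pr_diff_le' hG hu hv x (a.dl F x) (a.dl φ x)
      rw [eX x] at h1
      refine h1.trans (mul_le_mul_of_nonneg_left ?_ nrm_nonneg)
      exact mul_le_mul_of_nonneg_right (sF' x) (Real.sqrt_nonneg _)
  refine ⟨iX, mX, ?_, ?_, ?_⟩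
  · have h1 : ∫ x, X44 a l f u v x ∂a.μ ≤
        ∫ x, (2 * a.pr v x (a.dl G x) (a.dl G x) + 2 * a.pr v x (a.dl F x) (a.dl F x)) ∂a.μ :=
      integral_mono iX ((iGv.const_mul 2).add (iFv.const_mul 2)) fun x => pr_sub_le44 v x _ _
    rw [integral_add (iGv.const_mul 2) (iFv.const_mul 2), integral_const_mul, integral_const_mul]
      at h1
    have h2 : ∫ x, a.pr v x (a.dl G x) (a.dl G x) ∂a.μ ≤ a.V * E ^ 2 := by
      have h3 : ∫ x, a.pr v x (a.dl G x) (a.dl G x) ∂a.μ ≤ ∫ _, E ^ 2 ∂a.μ :=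
        integral_mono iGv (integrable_const _) gG
      rw [integral_const, smul_eq_mul] at h3
      exact h3
    calc ∫ x, X44 a l f u v x ∂a.μ ≤ _ := h1
      _ ≤ 2 * (a.V * E ^ 2) + 2 * (2 * Fintype.card ι * a.V * E ^ 2) := by linarith
      _ = (2 + 4 * Fintype.card ι) * a.V * E ^ 2 := by ring
  · rw [e1, eEn]
    have := mul_nonneg hl.le hsq
    linarith
  · rw [e2]
    have h1 := le_abs_self (∫ x, a.push f v x * φ x ∂a.μ - ∫ x, a.push f u x * φ x ∂a.μ)
    have h2 := neg_abs_le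
      (∫ x, (a.pr v x (a.dl F x) (a.dl φ x) - a.pr u x (a.dl F x) (a.dl φ x)) ∂a.μ)
    linarith

theorem err_le (hG : a.Geom C h0) (hF : a.Flow) (hR : a.Rcd) {l : ℝ} (hl : 0 < l)
    {f : a.M → ℝ} (hf : Measurable f) {L : ℝ} (hL : ∀ x, |f x| ≤ L) :
    ∃ D, 0 ≤ D ∧ ∀ u ∈ Icc 0 a.U, ∀ v ∈ Icc 0 a.U, u ≤ v → v - u ≤ h0 →
      a.err l f u v ≤ D * (v - u) := by
  have hL' : ∀ x, |f x| ≤ |L| := fun x => (hL x).trans (le_abs_self L)
  obtain ⟨E, hE, hE'⟩ := main44 hG hF hR hl hf (abs_nonneg L) hL'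
  have hC := hG.C_nonneg
  have hV : 0 ≤ a.V := by unfold V; exact measureReal_nonneg
  refine ⟨|L| * C * Real.sqrt (2 * Fintype.card ι * a.V) *
    Real.sqrt ((2 + 4 * Fintype.card ι) * a.V * E ^ 2) +
    2 * E ^ 2 * ((6 + 2 * Fintype.card ι) * (8 * C) * a.V), by positivity, ?_⟩
  intro u hu v hv huv huv'
  obtain ⟨iX, mX, h1, -, h2⟩ := hE' u hu v hv huv huv'
  obtain ⟨iN, h3⟩ := rel_sub hG hu hv huv huv'
  have h4 : ∫ x, nrm (a.rel u v x - 1) *
      min (2 * E ^ 2) (E * Real.sqrt (X44 a l f u v x)) ∂a.μ ≤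
      ∫ x, 2 * E ^ 2 * nrm (a.rel u v x - 1) ∂a.μ := by
    refine integral_mono_of_nonneg (ae_of_all _ fun x => ?_) (iN.const_mul _)
      (ae_of_all _ fun x => ?_)
    · exact mul_nonneg nrm_nonneg (le_min (by positivity) (by positivity))
    · beta_reduce
      rw [mul_comm (2 * E ^ 2)]
      exact mul_le_mul_of_nonneg_left (min_le_left _ _) nrm_nonneg
  rw [integral_const_mul] at h4
  have h5 : Real.sqrt (∫ x, X44 a l f u v x ∂a.μ) ≤
      Real.sqrt ((2 + 4 * Fintype.card ι) * a.V * E ^ 2) := Real.sqrt_le_sqrt h1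
  have hvu : 0 ≤ v - u := by linarith
  have h6 : (v - u) * (|L| * C * Real.sqrt (2 * Fintype.card ι * a.V) *
      Real.sqrt (∫ x, X44 a l f u v x ∂a.μ)) ≤ (v - u) * (|L| * C *
      Real.sqrt (2 * Fintype.card ι * a.V) * Real.sqrt ((2 + 4 * Fintype.card ι) * a.V * E ^ 2)) :=
    mul_le_mul_of_nonneg_left (mul_le_mul_of_nonneg_left h5 (by positivity)) hvu
  have h7 : 2 * E ^ 2 * ∫ x, nrm (a.rel u v x - 1) ∂a.μ ≤
      2 * E ^ 2 * ((6 + 2 * Fintype.card ι) * (8 * C) * a.V * (v - u)) :=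
    mul_le_mul_of_nonneg_left h3 (by positivity)
  calc a.err l f u v ≤ _ := h2
    _ ≤ (v - u) * (|L| * C * Real.sqrt (2 * Fintype.card ι * a.V) *
          Real.sqrt ((2 + 4 * Fintype.card ι) * a.V * E ^ 2)) +
        2 * E ^ 2 * ((6 + 2 * Fintype.card ι) * (8 * C) * a.V * (v - u)) := by linarith
    _ = _ := by ring

/-! ### the limit -/

/-- products of a fixed integrable function with bounded functions which tend to zero -/
private theorem split44 {M β : Type} [MeasurableSpace M] {μ : Measure M} [IsFiniteMeasure μ]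
    {g : M → ℝ} (hg : Integrable g μ) (hg0 : ∀ x, 0 ≤ g x) {E : ℝ} (hE : 0 ≤ E)
    {lf : Filter β} {X : β → M → ℝ} (hX0 : ∀ v x, 0 ≤ X v x)
    (hXi : ∀ᶠ v in lf, Integrable (X v) μ) (hX : Tendsto (fun v => ∫ x, X v x ∂μ) lf (𝓝 0)) :
    Tendsto (fun v => ∫ x, g x * min (2 * E ^ 2) (E * Real.sqrt (X v x)) ∂μ) lf (𝓝 0) := by
  have hnn : ∀ v x, 0 ≤ g x * min (2 * E ^ 2) (E * Real.sqrt (X v x)) := fun v x =>
    mul_nonneg (hg0 x) (le_min (by positivity) (by positivity))
  -- the tail of `g`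
  have htail : Tendsto (fun R : ℕ => ∫ x, max (g x - R) 0 ∂μ) atTop (𝓝 0) := by
    have h := tendsto_integral_of_dominated_convergence (μ := μ)
      (F := fun (R : ℕ) x => max (g x - R) 0) (f := fun _ => (0 : ℝ)) g
      (fun R => (hg.aestronglyMeasurable.sub aestronglyMeasurable_const).sup
        aestronglyMeasurable_const) hg
      (fun R => ae_of_all _ fun x => by
        rw [Real.norm_eq_abs, abs_of_nonneg (le_max_right _ _)]
        refine max_le ?_ (hg0 x)
        have : (0 : ℝ) ≤ R := Nat.cast_nonneg R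
        linarith)
      (ae_of_all _ fun x => by
        obtain ⟨N, hN⟩ := exists_nat_ge (g x)
        refine tendsto_const_nhds.congr' ?_
        filter_upwards [eventually_ge_atTop N] with R hR
        have : (N : ℝ) ≤ R := by exact_mod_cast hR
        rw [max_eq_right (by linarith)])
    simpa using h
  have hti : ∀ R : ℕ, Integrable (fun x => max (g x - R) 0) μ := fun R =>
    hg.mono' ((hg.aestronglyMeasurable.sub aestronglyMeasurable_const).sup
        aestronglyMeasurable_const) (ae_of_all _ fun x => by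
        rw [Real.norm_eq_abs, abs_of_nonneg (le_max_right _ _)]
        refine max_le ?_ (hg0 x)
        have : (0 : ℝ) ≤ R := Nat.cast_nonneg R
        linarith)
  rw [Metric.tendsto_nhds]
  intro ε hε
  have hV : 0 ≤ μ.real univ := measureReal_nonneg
  -- choice of `R`
  have h1 : Tendsto (fun R : ℕ => 2 * E ^ 2 * ∫ x, max (g x - R) 0 ∂μ) atTop (𝓝 0) := by
    simpa using htail.const_mul (2 * E ^ 2)
  obtain ⟨R, hR⟩ := (h1.eventually_lt_const (show (0 : ℝ) < ε / 3 by positivity)).exists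
  set η : ℝ := ε / (3 * (μ.real univ + 1)) with hη
  have hη0 : 0 < η := by positivity
  have hηV : η * μ.real univ < ε / 3 := by
    rw [hη, div_mul_eq_mul_div, div_lt_div_iff₀ (by positivity) (by positivity)]
    nlinarith
  have h2 : Tendsto (fun v => (R * E) ^ 2 / (4 * η) * ∫ x, X v x ∂μ) lf (𝓝 0) := by
    simpa using hX.const_mul ((R * E) ^ 2 / (4 * η))
  filter_upwards [hXi, h2.eventually_lt_const (show (0 : ℝ) < ε / 3 by positivity)] with v hv hv2
  rw [Real.dist_eq, sub_zero, abs_of_nonneg (integral_nonneg (hnn v))]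
  have hpt : ∀ x, g x * min (2 * E ^ 2) (E * Real.sqrt (X v x)) ≤
      η + (R * E) ^ 2 / (4 * η) * X v x + 2 * E ^ 2 * max (g x - R) 0 := by
    intro x
    have hs := Real.sq_sqrt (hX0 v x)
    set s := Real.sqrt (X v x) with hsdef
    have hs0 : 0 ≤ s := Real.sqrt_nonneg _
    have hR0 : (0 : ℝ) ≤ R := Nat.cast_nonneg R
    -- `R E s ≤ η + (R E)^2 s^2 / (4 η)`
    have a1 : R * (E * s) ≤ η + (R * E) ^ 2 / (4 * η) * X v x := by
      rw [← hs]
      have a2 : η + (R * E) ^ 2 / (4 * η) * s ^ 2 - R * (E * s) =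
          (2 * η - R * E * s) ^ 2 / (4 * η) := by
        field_simp
        ring
      have a3 : 0 ≤ (2 * η - R * E * s) ^ 2 / (4 * η) := by positivity
      linarith
    have m0 : 0 ≤ min (2 * E ^ 2) (E * s) := le_min (by positivity) (by positivity)
    have m1 : min (2 * E ^ 2) (E * s) ≤ 2 * E ^ 2 := min_le_left _ _
    have m2 : min (2 * E ^ 2) (E * s) ≤ E * s := min_le_right _ _
    have g1 : g x ≤ R + max (g x - R) 0 := by linarith [le_max_left (g x - R) 0]
    have g2 : 0 ≤ max (g x - R) 0 := le_max_right _ _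
    calc g x * min (2 * E ^ 2) (E * s) ≤ (R + max (g x - R) 0) * min (2 * E ^ 2) (E * s) :=
          mul_le_mul_of_nonneg_right g1 m0
      _ = R * min (2 * E ^ 2) (E * s) + max (g x - R) 0 * min (2 * E ^ 2) (E * s) := by ring
      _ ≤ R * (E * s) + max (g x - R) 0 * (2 * E ^ 2) :=
          add_le_add (mul_le_mul_of_nonneg_left m2 hR0) (mul_le_mul_of_nonneg_left m1 g2)
      _ ≤ _ := by linarith
  have i1 : Integrable (fun x => η + (R * E) ^ 2 / (4 * η) * X v x) μ :=
    (integrable_const _).add (hv.const_mul _)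
  have hint : Integrable (fun x => η + (R * E) ^ 2 / (4 * η) * X v x +
      2 * E ^ 2 * max (g x - R) 0) μ := i1.add ((hti R).const_mul _)
  have h3 : ∫ x, g x * min (2 * E ^ 2) (E * Real.sqrt (X v x)) ∂μ ≤
      ∫ x, (η + (R * E) ^ 2 / (4 * η) * X v x + 2 * E ^ 2 * max (g x - R) 0) ∂μ :=
    integral_mono_of_nonneg (ae_of_all _ (hnn v)) hint (ae_of_all _ hpt)
  rw [integral_add i1 ((hti R).const_mul _),
    integral_add (integrable_const _) (hv.const_mul _), integral_const, integral_const_mul,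
    integral_const_mul, smul_eq_mul] at h3
  have h4 : μ.real univ * η = η * μ.real univ := mul_comm _ _
  linarith

/-! ### measurability of matrix valued functions -/

private def MM44 {M : Type} [MeasurableSpace M] (A : M → Matrix ι ι ℝ) : Prop :=
  ∀ i j, Measurable fun x => A x i j

private theorem MM44.mul {M : Type} [MeasurableSpace M] {A B : M → Matrix ι ι ℝ} (hA : MM44 A)
    (hB : MM44 B) : MM44 fun x => A x * B x := by
  intro i j
  simp only [Matrix.mul_apply]
  exact Finset.measurable_sum _ fun k _ => (hA i k).mul (hB k j)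

private theorem MM44.add {M : Type} [MeasurableSpace M] {A B : M → Matrix ι ι ℝ} (hA : MM44 A)
    (hB : MM44 B) : MM44 fun x => A x + B x := by
  intro i j
  simp only [Matrix.add_apply]
  exact (hA i j).add (hB i j)

private theorem MM44.sub {M : Type} [MeasurableSpace M] {A B : M → Matrix ι ι ℝ} (hA : MM44 A)
    (hB : MM44 B) : MM44 fun x => A x - B x := by
  intro i j
  simp only [Matrix.sub_apply]
  exact (hA i j).sub (hB i j)

private theorem MM44.neg {M : Type} [MeasurableSpace M] {A : M → Matrix ι ι ℝ} (hA : MM44 A) :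
    MM44 fun x => -A x := by
  intro i j
  simp only [Matrix.neg_apply]
  exact (hA i j).neg

private theorem MM44.smul {M : Type} [MeasurableSpace M] {A : M → Matrix ι ι ℝ} (hA : MM44 A)
    (c : ℝ) : MM44 fun x => c • A x := by
  intro i j
  simp only [Matrix.smul_apply, smul_eq_mul]
  exact (hA i j).const_mul c

private theorem MM44.tr {M : Type} [MeasurableSpace M] {A : M → Matrix ι ι ℝ} (hA : MM44 A) :
    MM44 fun x => (A x)ᵀ := fun i j => hA j i

private theorem MM44.const {M : Type} [MeasurableSpace M] (A : Matrix ι ι ℝ) :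
    MM44 (fun _ : M => A) := fun _ _ => measurable_const

private theorem MM44.det {M : Type} [MeasurableSpace M] {A : M → Matrix ι ι ℝ} (hA : MM44 A) :
    Measurable fun x => (A x).det := by
  simp only [Matrix.det_apply]
  refine Finset.measurable_sum _ fun σ _ => ?_
  exact (Finset.measurable_prod _ fun i _ => hA (σ i) i).const_smul _

private theorem MM44.inv {M : Type} [MeasurableSpace M] {A : M → Matrix ι ι ℝ} (hA : MM44 A) :
    MM44 fun x => (A x)⁻¹ := by
  intro i j
  simp only [Matrix.inv_def, Matrix.smul_apply, smul_eq_mul, Ring.inverse_eq_inv']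
  refine hA.det.inv.mul ?_
  simp only [Matrix.adjugate_apply]
  refine MM44.det (A := fun x => (A x).updateRow j (Pi.single i 1)) ?_
  intro p q
  by_cases hp : p = j
  · subst hp
    simp only [Matrix.updateRow_self]
    exact measurable_const
  · simp only [Matrix.updateRow_ne hp]
    exact hA p q

private theorem MM44.nrm {M : Type} [MeasurableSpace M] {A : M → Matrix ι ι ℝ} (hA : MM44 A) :
    Measurable fun x => SYR.nrm (A x) := by
  unfold SYR.nrm nsq ip
  exact (Finset.measurable_sum _ fun i _ => Finset.measurable_sum _ fun j _ =>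
    (hA i j).mul (hA i j)).sqrt

private theorem P44 (hG : a.Geom C h0) (u : ℝ) : MM44 (fun x => a.P u x) := fun i j =>
  (hG.P_meas i j).comp (pair44 u)

private theorem Θ44 (hG : a.Geom C h0) (u : ℝ) : MM44 (fun x => a.Θ u x) := fun i j =>
  (hG.Θ_meas i j).comp (pair44 u)

private theorem A44 (hG : a.Geom C h0) (u : ℝ) : MM44 (fun x => a.A u x) := fun i j =>
  (hG.A_meas i j).comp (pair44 u)

private theorem rel44 (hG : a.Geom C h0) (u v : ℝ) : MM44 (fun x => a.rel u v x) := by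
  unfold rel gm
  exact ((P44 hG v).mul (P44 hG u).inv).tr.mul ((P44 hG v).mul (P44 hG u).inv)

private theorem S44 (hG : a.Geom C h0) (u : ℝ) : MM44 (fun x => a.S u x) := by
  unfold S hat
  exact (((((P44 hG u).inv.tr.mul (A44 hG u)).mul (P44 hG u).inv).mul (MM44.const a.I)).add
    (MM44.const a.J)).sub ((MM44.const a.K).mul
      (((P44 hG u).inv.tr.mul (Θ44 hG u)).mul (P44 hG u).inv)) |>.neg

theorem err_lim (hG : a.Geom C h0) (hF : a.Flow) (hR : a.Rcd) {l : ℝ} (hl : 0 < l)
    {f : a.M → ℝ} (hf : Measurable f) {L : ℝ} (hL : ∀ x, |f x| ≤ L) {u : ℝ}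
    (hu : u ∈ Ico 0 a.U) :
    Tendsto (fun v => a.err l f u v / (v - u)) (𝓝[>] u) (𝓝 0) := by
  have := hG.fin
  have hL' : ∀ x, |f x| ≤ |L| := fun x => (hL x).trans (le_abs_self L)
  obtain ⟨E, hE, hE'⟩ := main44 hG hF hR hl hf (abs_nonneg L) hL'
  obtain ⟨D, hD, hD'⟩ := err_le hG hF hR hl hf hL
  have hC := hG.C_nonneg
  have hV : 0 ≤ a.V := by unfold V; exact measureReal_nonneg
  have hu' : u ∈ Icc 0 a.U := ⟨hu.1, hu.2.le⟩
  have hm : u < min a.U (u + h0) := lt_min hu.2 (by linarith [hG.h0_pos])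
  have hev : ∀ᶠ v in 𝓝[>] u, u < v ∧ v ∈ Icc 0 a.U ∧ v - u ≤ h0 := by
    filter_upwards [Ioo_mem_nhdsGT hm] with v hv
    have h1 := hv.2.trans_le (min_le_left _ _)
    have h2 := hv.2.trans_le (min_le_right _ _)
    exact ⟨hv.1, ⟨by linarith [hu.1, hv.1], h1.le⟩, by linarith⟩
  have hvu : Tendsto (fun v => v - u) (𝓝[>] u) (𝓝 0) := by
    have : Tendsto (fun v => v - u) (𝓝 u) (𝓝 (u - u)) := (continuous_id.sub continuous_const).tendsto u
    rw [sub_self] at this
    exact this.mono_left nhdsWithin_le_nhds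
  have hXnn : ∀ v, 0 ≤ ∫ x, X44 a l f u v x ∂a.μ := fun v =>
    integral_nonneg fun x => X44_nonneg _ _ _ _ _
  have hX : Tendsto (fun v => ∫ x, X44 a l f u v x ∂a.μ) (𝓝[>] u) (𝓝 0) := by
    have h0 : Tendsto (fun v => D * (v - u)) (𝓝[>] u) (𝓝 0) := by
      simpa using hvu.const_mul D
    refine squeeze_zero' (Eventually.of_forall hXnn) ?_ h0
    filter_upwards [hev] with v hv
    exact (hE' u hu' v hv.2.1 hv.1.le hv.2.2).2.2.2.1.trans
      (hD' u hu' v hv.2.1 hv.1.le hv.2.2)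
  have hXi : ∀ᶠ v in 𝓝[>] u, Integrable (X44 a l f u v) a.μ := by
    filter_upwards [hev] with v hv
    exact (hE' u hu' v hv.2.1 hv.1.le hv.2.2).1
  have t1 : Tendsto (fun v => ∫ x, nrm (a.S u x) *
      min (2 * E ^ 2) (E * Real.sqrt (X44 a l f u v x)) ∂a.μ) (𝓝[>] u) (𝓝 0) :=
    split44 (S_int hG hu') (fun x => nrm_nonneg) hE (fun v x => X44_nonneg _ _ _ _ _) hXi hX
  have t2 : Tendsto (fun v => 2 * E ^ 2 *
      ∫ x, nrm ((1 / (v - u)) • (a.rel u v x - 1) + a.S u x) ∂a.μ) (𝓝[>] u) (𝓝 0) := by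
    simpa using (rel_lim hG hu).const_mul (2 * E ^ 2)
  have t3 : Tendsto (fun v => |L| * C * Real.sqrt (2 * Fintype.card ι * a.V) *
      Real.sqrt (∫ x, X44 a l f u v x ∂a.μ)) (𝓝[>] u) (𝓝 0) := by
    have h1 : Tendsto (fun v => Real.sqrt (∫ x, X44 a l f u v x ∂a.μ)) (𝓝[>] u) (𝓝 0) := by
      have := (Real.continuous_sqrt.tendsto 0).comp hX
      rw [Real.sqrt_zero] at this
      exact this
    simpa using h1.const_mul (|L| * C * Real.sqrt (2 * Fintype.card ι * a.V))
  have t4 := (t3.add t2).add t1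
  rw [add_zero, add_zero] at t4
  refine squeeze_zero' ?_ ?_ t4
  · filter_upwards [hev] with v hv
    exact div_nonneg (err_nonneg hl) (by linarith [hv.1])
  · filter_upwards [hev] with v hv
    obtain ⟨iX, mX, -, -, h2⟩ := hE' u hu' v hv.2.1 hv.1.le hv.2.2
    obtain ⟨iN, -⟩ := rel_sub hG hu' hv.2.1 hv.1.le hv.2.2
    have hvu0 : 0 < v - u := by linarith [hv.1]
    have iS := S_int hG hu'
    have mm : Measurable (fun x => min (2 * E ^ 2) (E * Real.sqrt (X44 a l f u v x))) :=
      measurable_const.min (measurable_const.mul mX.sqrt)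
    have mm0 : ∀ x, 0 ≤ min (2 * E ^ 2) (E * Real.sqrt (X44 a l f u v x)) := fun x =>
      le_min (by positivity) (by positivity)
    have iSm : Integrable (fun x => nrm (a.S u x) *
        min (2 * E ^ 2) (E * Real.sqrt (X44 a l f u v x))) a.μ := by
      refine (iS.mul_const (2 * E ^ 2)).mono'
        (iS.aestronglyMeasurable.mul mm.aestronglyMeasurable) (ae_of_all _ fun x => ?_)
      rw [Real.norm_eq_abs, abs_of_nonneg (mul_nonneg nrm_nonneg (mm0 x))]
      exact mul_le_mul_of_nonneg_left (min_le_left _ _) nrm_nonneg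
    have iW : Integrable (fun x => nrm ((1 / (v - u)) • (a.rel u v x - 1) + a.S u x)) a.μ := by
      refine ((iN.const_mul (1 / (v - u))).add iS).mono'
        (((((rel44 hG u v).sub (MM44.const 1)).smul (1 / (v - u))).add
          (S44 hG u)).nrm).aestronglyMeasurable (ae_of_all _ fun x => ?_)
      rw [Real.norm_eq_abs, abs_of_nonneg nrm_nonneg]
      refine nrm_add_le.trans ?_
      rw [nrm_smul, abs_of_nonneg (by positivity)]
      exact le_rfl
    rw [div_le_iff₀ hvu0]
    have h3 : ∫ x, nrm (a.rel u v x - 1) *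
        min (2 * E ^ 2) (E * Real.sqrt (X44 a l f u v x)) ∂a.μ ≤
        ∫ x, (v - u) * (2 * E ^ 2 * nrm ((1 / (v - u)) • (a.rel u v x - 1) + a.S u x) +
          nrm (a.S u x) * min (2 * E ^ 2) (E * Real.sqrt (X44 a l f u v x))) ∂a.μ := by
      refine integral_mono_of_nonneg (ae_of_all _ fun x => mul_nonneg nrm_nonneg (mm0 x))
        (((iW.const_mul _).add iSm).const_mul _) (ae_of_all _ fun x => ?_)
      beta_reduce
      have e1 : a.rel u v x - 1 = (v - u) • (((1 / (v - u)) • (a.rel u v x - 1) + a.S u x) -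
          a.S u x) := by
        rw [add_sub_cancel_right, smul_smul, mul_one_div_cancel hvu0.ne', one_smul]
      have e2 : nrm (a.rel u v x - 1) ≤ (v - u) *
          (nrm ((1 / (v - u)) • (a.rel u v x - 1) + a.S u x) + nrm (a.S u x)) := by
        conv_lhs => rw [e1]
        rw [nrm_smul, abs_of_nonneg hvu0.le]
        exact mul_le_mul_of_nonneg_left nrm_sub_le hvu0.le
      calc nrm (a.rel u v x - 1) * min (2 * E ^ 2) (E * Real.sqrt (X44 a l f u v x)) ≤
            ((v - u) * (nrm ((1 / (v - u)) • (a.rel u v x - 1) + a.S u x) + nrm (a.S u x))) *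
              min (2 * E ^ 2) (E * Real.sqrt (X44 a l f u v x)) :=
            mul_le_mul_of_nonneg_right e2 (mm0 x)
        _ = (v - u) * (nrm ((1 / (v - u)) • (a.rel u v x - 1) + a.S u x) *
              min (2 * E ^ 2) (E * Real.sqrt (X44 a l f u v x)) +
              nrm (a.S u x) * min (2 * E ^ 2) (E * Real.sqrt (X44 a l f u v x))) := by ring
        _ ≤ _ := by
            refine mul_le_mul_of_nonneg_left (add_le_add ?_ le_rfl) hvu0.le
            rw [mul_comm (2 * E ^ 2)]
            exact mul_le_mul_of_nonneg_left (min_le_left _ _) nrm_nonneg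
    rw [integral_const_mul, integral_add (iW.const_mul _) iSm, integral_const_mul] at h3
    calc a.err l f u v ≤ _ := h2
      _ ≤ (v - u) * (|L| * C * Real.sqrt (2 * Fintype.card ι * a.V) *
            Real.sqrt (∫ x, X44 a l f u v x ∂a.μ)) +
          (v - u) * (2 * E ^ 2 *
            ∫ x, nrm ((1 / (v - u)) • (a.rel u v x - 1) + a.S u x) ∂a.μ +
            ∫ x, nrm (a.S u x) * min (2 * E ^ 2) (E * Real.sqrt (X44 a l f u v x)) ∂a.μ) :=
          add_le_add le_rfl h3
      _ = _ := by ring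

end Pool.Agent.SYR.Arc
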