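import Pool.Agent.SYR.Bnd
import Pool.Agent.SYR.Types

/-!
# SYR/Slice : the family of Ricci-flat metrics near one parameter, on the regular part

`M = X^reg` with the (fixed) volume measure. All forms are matrices in a measurable frame which is
orthonormal for the metric `g_u` and adapted to its hyperkähler structure `(I, J, K)`:
`I = ω_u`, `J = Re σ_u`, `K = Im σ_u`. For `h > 0` the forms `ω_{u+h}`, `σ_{u+h}` (transported by the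
trivialisation of the family in which `Re σ` is constant) are `Pᵀ I P`, `J = Pᵀ J P` and
`K + τ = Pᵀ K P`, `P = P h x`. `Θ = d/du Im σ_u` is the ambient smooth Kähler form `θ_u`, `θ h` is
`θ_{u+h}`, `η h` is the bounded `1`-form `d^c ψ_{u+h}`, so `ω_{u+h} = θ_{u+h} + d η h`. `W` is the
vector field with `L_W σ = i (ω - θ)`, `ζ = i_W ω`, `A = dζ = L_W ω`. `χ j` are cut-off functions with
compact support and `c j = |dχ_j|`.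
-/

set_option autoImplicit false

open Matrix MeasureTheory Filter Topology Set

namespace Pool.Agent.SYR

/-- The data. -/
structure Slice (ι : Type) where
  M : Type
  [mea : MeasurableSpace M]
  μ : Measure M
  I : Matrix ι ι ℝ
  J : Matrix ι ι ℝ
  K : Matrix ι ι ℝ
  P : ℝ → M → Matrix ι ι ℝ
  τ : ℝ → M → Matrix ι ι ℝ
  Θ : M → Matrix ι ι ℝ
  θ : ℝ → M → Matrix ι ι ℝ
  η : ℝ → M → ι → ℝ
  ζ : M → ι → ℝ
  A : M → Matrix ι ι ℝ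
  χ : ℕ → M → ℝ
  c : ℕ → M → ℝ

attribute [instance] Slice.mea

namespace Slice

variable {ι : Type} [Fintype ι] [DecidableEq ι] (S : Slice ι)

/-- total volume -/
noncomputable def V : ℝ := S.μ.real univ

/-- the metric at time `h` -/
def g (h : ℝ) (x : S.M) : Matrix ι ι ℝ := gm (S.P h x)

/-- the form `ω_{u+h}` -/
def w (h : ℝ) (x : S.M) : Matrix ι ι ℝ := om S.I (S.P h x)

/-- the hermitian form of the `(1,1)`-part of `ω_{u+h}` -/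
noncomputable def H (h : ℝ) (x : S.M) : Matrix ι ι ℝ := her S.I (S.w h x)

/-- the facts -/
structure Facts (C h0 : ℝ) : Prop where
  fin : IsFiniteMeasure S.μ
  h0_pos : 0 < h0
  h0_le : h0 ≤ 1
  C_nonneg : 0 ≤ C
  small : C * h0 ≤ 1 / 2
  quat : Quat S.I S.J S.K
  P_meas : ∀ h i j, Measurable (fun x => S.P h x i j)
  τ_meas : ∀ h i j, Measurable (fun x => S.τ h x i j)
  Θ_meas : ∀ i j, Measurable (fun x => S.Θ x i j)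
  θ_meas : ∀ h i j, Measurable (fun x => S.θ h x i j)
  η_meas : ∀ h i, Measurable (fun x => S.η h x i)
  ζ_meas : ∀ i, Measurable (fun x => S.ζ x i)
  A_meas : ∀ i j, Measurable (fun x => S.A x i j)
  tri : ∀ h ∈ Ioc 0 h0, ∀ x, Tri S.J S.K (S.P h x) (S.τ h x)
  lie : ∀ x, Lie S.I S.J S.K (S.A x) (S.Θ x)
  Θ_bdd : ∀ x, nrm (S.Θ x) ≤ C
  τ_lin : ∀ h ∈ Ioc 0 h0, ∀ x, nrm ((1 / h) • S.τ h x - S.Θ x) ≤ C * h
  S_bdd : ∀ h ∈ Ioc 0 h0, ∀ x, nrm (Sm (S.P h x) (S.τ h x)) ≤ C * h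
  θ_bdd : ∀ h ∈ Ioc 0 h0, ∀ x, nrm (S.θ h x) ≤ C
  η_bdd : ∀ h ∈ Ioc 0 h0, ∀ x, vsq (((S.P h x)⁻¹)ᵀ *ᵥ S.η h x) ≤ C ^ 2
  ζ_bdd : ∀ x, vsq (S.ζ x) ≤ C ^ 2
  A_sq : Integrable (fun x => nsq (S.A x)) S.μ
  χ_meas : ∀ j, Measurable (S.χ j)
  χ_nonneg : ∀ j x, 0 ≤ S.χ j x
  χ_le_one : ∀ j x, S.χ j x ≤ 1
  χ_lim : ∀ x, Tendsto (fun j => S.χ j x) atTop (𝓝 1)
  c_meas : ∀ j, Measurable (S.c j)
  c_nonneg : ∀ j x, 0 ≤ S.c j x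
  c_bdd : ∀ j, ∃ B, ∀ x, S.c j x ≤ B
  c_sq : Tendsto (fun j => ∫ x, S.c j x ^ 2 ∂S.μ) atTop (𝓝 0)
  supp_A : ∀ j, ∃ B, ∀ x, S.χ j x ≠ 0 → nrm (S.A x) ≤ B
  supp_P : ∀ j, ∀ h ∈ Ioc 0 h0, ∃ B, ∀ x, S.χ j x ≠ 0 → nrm (S.P h x) ≤ B
  /-- Stokes for `χ² dη ∧ ω^(n-1)` -/
  stokes1 : ∀ j, ∀ h ∈ Ioc 0 h0,
    |∫ x, S.χ j x ^ 2 * ip S.I (S.w h x - S.θ h x) ∂S.μ| ≤
      C * ∫ x, S.χ j x * S.c j x * Real.sqrt (vsq (S.η h x)) ∂S.μ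
  /-- Stokes for `χ dζ ∧ dζ ∧ ω^(n-2)` -/
  stokes2 : ∀ j, |∫ x, S.χ j x * Q S.I (S.A x) (S.A x) ∂S.μ| ≤
      C * ∫ x, S.c j x * Real.sqrt (vsq (S.ζ x)) * nrm (S.A x) ∂S.μ
  /-- Stokes for `χ (ω_{u+h} - ω) ∧ dζ ∧ ω^(n-2)` -/
  stokes3 : ∀ j, ∀ h ∈ Ioc 0 h0, |∫ x, S.χ j x * Q S.I (S.w h x - S.I) (S.A x) ∂S.μ| ≤
      C * ∫ x, S.c j x * Real.sqrt (vsq (S.ζ x)) * nrm (S.w h x - S.I) ∂S.μ
  /-- the intersection number of the class of `θ_{u+h}` with `κ_u^(n-1)` -/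
  coh : ∀ h ∈ Ioc 0 h0, ∫ x, ip S.I (S.θ h x) ∂S.μ = Fintype.card ι * Real.cos h * S.V
  cohΘ : ∫ x, ip S.I (S.Θ x) ∂S.μ = Fintype.card ι * S.V
  cont : ∀ x, Tendsto (fun h => S.g h x) (𝓝[>] 0) (𝓝 1)

end Slice

end Pool.Agent.SYR
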