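import Pool.Agent.SYR.Slice

/-!
# SYR/Trace : the trace of `ω_{u+h}` is cohomological

Proof. Fix `h`. With `T j = ∫ χ_j² tr H`: on `{χ_j ≠ 0}` everything is bounded (`supp_P`), so `T j` is
finite. `ip I (w) = tr H` (`Quat.ip_I`). By `stokes1`, `θ_bdd`,
`sqrt (vsq η) ≤ C sqrt (tr g) ≤ C sqrt (2 tr H)` (`vsq_mulVec_le` applied to `η = Pᵀ (P⁻ᵀ η)`,
`Tri.trace_le`) and Cauchy-Schwarz: `T j ≤ C' + C'' (∫ c_j²)^(1/2) (T j)^(1/2)`, so `T j` is bounded;
Fatou gives integrability of `tr H ≥ 0`, then dominated convergence and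
`|T j - ∫ χ_j² ip I θ| ≤ C'' (∫ c_j²)^(1/2) (T j)^(1/2) → 0`.
-/

set_option autoImplicit false

open Matrix MeasureTheory Filter Topology Set

namespace Pool.Agent.SYR.Slice

variable {ι : Type} [Fintype ι] [DecidableEq ι] {S : Slice ι} {C h0 : ℝ}

private theorem cs80 {M : Type} [MeasurableSpace M] (μ : Measure M) (f g : M → ℝ)
    (hf0 : ∀ x, 0 ≤ f x) (hg0 : ∀ x, 0 ≤ g x) (hf : MemLp f 2 μ) (hg : MemLp g 2 μ) :
    ∫ x, f x * g x ∂μ ≤ Real.sqrt (∫ x, f x ^ 2 ∂μ) * Real.sqrt (∫ x, g x ^ 2 ∂μ) := by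
  have h2 : ENNReal.ofReal 2 = 2 := by norm_num
  have h := integral_mul_le_Lp_mul_Lq_of_nonneg (μ := μ) Real.HolderConjugate.two_two
    (Eventually.of_forall hf0) (Eventually.of_forall hg0) (by rw [h2]; exact hf)
    (by rw [h2]; exact hg)
  simpa only [Real.rpow_two, ← Real.sqrt_eq_rpow] using h

private theorem core80 {M : Type} [MeasurableSpace M] (μ : Measure M) [IsFiniteMeasure μ]
    (a b s : M → ℝ) (χ c : ℕ → M → ℝ) (C D R : ℝ) (hC : 0 ≤ C) (hR : 0 ≤ R)
    (ha : Measurable a) (hb : Measurable b) (ha0 : ∀ x, 0 ≤ a x) (hbD : ∀ x, |b x| ≤ D)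
    (hs0 : ∀ x, 0 ≤ s x) (hs : ∀ x, s x ≤ R * Real.sqrt (a x))
    (hχ : ∀ j, Measurable (χ j)) (hχ0 : ∀ j x, 0 ≤ χ j x) (hχ1 : ∀ j x, χ j x ≤ 1)
    (hχl : ∀ x, Tendsto (fun j => χ j x) atTop (𝓝 1))
    (hc : ∀ j, Measurable (c j)) (hc0 : ∀ j x, 0 ≤ c j x) (hcb : ∀ j, ∃ B, ∀ x, c j x ≤ B)
    (hcs : Tendsto (fun j => ∫ x, c j x ^ 2 ∂μ) atTop (𝓝 0))
    (hsup : ∀ j, ∃ B, ∀ x, χ j x ^ 2 * a x ≤ B)
    (hst : ∀ j, |∫ x, χ j x ^ 2 * (a x - b x) ∂μ| ≤ C * ∫ x, χ j x * c j x * s x ∂μ) :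
    Integrable a μ ∧ ∫ x, a x ∂μ = ∫ x, b x ∂μ := by
  have hχ2 : ∀ j x, χ j x ^ 2 ≤ 1 := fun j x => pow_le_one₀ (hχ0 j x) (hχ1 j x)
  have hTi : ∀ j, Integrable (fun x => χ j x ^ 2 * a x) μ := by
    intro j
    obtain ⟨B, hB⟩ := hsup j
    refine Integrable.of_bound (((hχ j).pow_const 2).mul ha).aestronglyMeasurable B
      (Eventually.of_forall fun x => ?_)
    rw [Real.norm_eq_abs, abs_of_nonneg (mul_nonneg (sq_nonneg _) (ha0 x))]
    exact hB x
  have hbi : Integrable b μ := Integrable.of_bound hb.aestronglyMeasurable D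
    (Eventually.of_forall hbD)
  have hDi : ∀ j, Integrable (fun x => χ j x ^ 2 * b x) μ := by
    intro j
    refine Integrable.of_bound (((hχ j).pow_const 2).mul hb).aestronglyMeasurable D
      (Eventually.of_forall fun x => ?_)
    rw [Real.norm_eq_abs, abs_mul, abs_of_nonneg (sq_nonneg (χ j x))]
    calc χ j x ^ 2 * |b x| ≤ 1 * |b x| := mul_le_mul_of_nonneg_right (hχ2 j x) (abs_nonneg _)
      _ = |b x| := one_mul _
      _ ≤ D := hbD x
  set T : ℕ → ℝ := fun j => ∫ x, χ j x ^ 2 * a x ∂μ with hT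
  set E : ℕ → ℝ := fun j => ∫ x, χ j x ^ 2 * b x ∂μ with hE
  set q : ℕ → ℝ := fun j => Real.sqrt (∫ x, c j x ^ 2 ∂μ) with hq
  have hT0 : ∀ j, 0 ≤ T j := fun j => integral_nonneg fun x => mul_nonneg (sq_nonneg _) (ha0 x)
  have hq0 : ∀ j, 0 ≤ q j := fun j => Real.sqrt_nonneg _
  have hql : Tendsto q atTop (𝓝 0) := by
    have := hcs.sqrt
    rwa [Real.sqrt_zero] at this
  have key : ∀ j, |T j - E j| ≤ C * R * q j * Real.sqrt (T j) := by
    intro j
    have e1 : T j - E j = ∫ x, χ j x ^ 2 * (a x - b x) ∂μ := by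
      rw [hT, hE]
      simp only
      rw [← integral_sub (hTi j) (hDi j)]
      refine integral_congr_ae (Eventually.of_forall fun x => ?_)
      simp only
      ring
    rw [e1]
    refine (hst j).trans ?_
    have e2 : ∫ x, χ j x * c j x * s x ∂μ ≤ R * (q j * Real.sqrt (T j)) := by
      obtain ⟨B, hB⟩ := hcb j
      obtain ⟨B', hB'⟩ := hsup j
      have m1 : MemLp (c j) 2 μ := by
        refine MemLp.of_bound (hc j).aestronglyMeasurable B (Eventually.of_forall fun x => ?_)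
        rw [Real.norm_eq_abs, abs_of_nonneg (hc0 j x)]
        exact hB x
      have hsq : ∀ x, (χ j x * Real.sqrt (a x)) ^ 2 = χ j x ^ 2 * a x := by
        intro x
        rw [mul_pow, Real.sq_sqrt (ha0 x)]
      have m2 : MemLp (fun x => χ j x * Real.sqrt (a x)) 2 μ := by
        refine MemLp.of_bound ((hχ j).mul ha.sqrt).aestronglyMeasurable (Real.sqrt B')
          (Eventually.of_forall fun x => ?_)
        rw [Real.norm_eq_abs]
        refine Real.abs_le_sqrt ?_
        rw [hsq]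
        exact hB' x
      have h3 := cs80 μ (c j) (fun x => χ j x * Real.sqrt (a x)) (hc0 j)
        (fun x => mul_nonneg (hχ0 j x) (Real.sqrt_nonneg _)) m1 m2
      simp only [hsq] at h3
      have h4 : Integrable (fun x => c j x * (χ j x * Real.sqrt (a x))) μ := by
        have := m1.integrable_mul m2 (p := 2) (q := 2)
        exact this
      calc ∫ x, χ j x * c j x * s x ∂μ
          ≤ ∫ x, R * (c j x * (χ j x * Real.sqrt (a x))) ∂μ := by
            refine integral_mono_of_nonneg (Eventually.of_forall fun x => ?_) (h4.const_mul R)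
              (Eventually.of_forall fun x => ?_)
            · exact mul_nonneg (mul_nonneg (hχ0 j x) (hc0 j x)) (hs0 x)
            · simp only
              calc χ j x * c j x * s x ≤ χ j x * c j x * (R * Real.sqrt (a x)) :=
                    mul_le_mul_of_nonneg_left (hs x) (mul_nonneg (hχ0 j x) (hc0 j x))
                _ = _ := by ring
        _ = R * ∫ x, c j x * (χ j x * Real.sqrt (a x)) ∂μ := integral_const_mul _ _
        _ ≤ R * (q j * Real.sqrt (T j)) := mul_le_mul_of_nonneg_left h3 hR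
    calc C * ∫ x, χ j x * c j x * s x ∂μ ≤ C * (R * (q j * Real.sqrt (T j))) :=
          mul_le_mul_of_nonneg_left e2 hC
      _ = _ := by ring
  have hE' : ∀ j, |E j| ≤ ∫ x, |b x| ∂μ := by
    intro j
    refine abs_integral_le_integral_abs.trans ?_
    refine integral_mono_of_nonneg (Eventually.of_forall fun x => abs_nonneg _) hbi.abs
      (Eventually.of_forall fun x => ?_)
    simp only
    rw [abs_mul, abs_of_nonneg (sq_nonneg (χ j x))]
    calc χ j x ^ 2 * |b x| ≤ 1 * |b x| := mul_le_mul_of_nonneg_right (hχ2 j x) (abs_nonneg _)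
      _ = |b x| := one_mul _
  obtain ⟨Q, hQ⟩ : ∃ Q, ∀ j, C * R * q j ≤ Q := by
    obtain ⟨Q, hQ⟩ := (hql.const_mul (C * R)).bddAbove_range
    exact ⟨Q, fun j => hQ ⟨j, rfl⟩⟩
  have hQ0 : 0 ≤ Q := (mul_nonneg (mul_nonneg hC hR) (hq0 0)).trans (hQ 0)
  set N : ℝ := 2 * (∫ x, |b x| ∂μ) + Q ^ 2 with hN
  have hTN : ∀ j, T j ≤ N := by
    intro j
    have h1 := (abs_le.1 (key j)).2
    have h2 := (abs_le.1 (hE' j)).2
    have h3 : C * R * q j * Real.sqrt (T j) ≤ Q * Real.sqrt (T j) :=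
      mul_le_mul_of_nonneg_right (hQ j) (Real.sqrt_nonneg _)
    have h4 : Real.sqrt (T j) ^ 2 = T j := Real.sq_sqrt (hT0 j)
    nlinarith [sq_nonneg (Q - Real.sqrt (T j))]
  have hχ2l : ∀ x, Tendsto (fun j => χ j x ^ 2) atTop (𝓝 1) := by
    intro x
    have := (hχl x).pow 2
    rwa [one_pow] at this
  have haI : Integrable a μ := by
    refine ⟨ha.aestronglyMeasurable, ?_⟩
    rw [hasFiniteIntegral_iff_ofReal (Eventually.of_forall ha0)]
    have hF := lintegral_liminf_le (μ := μ) (u := atTop)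
      (f := fun j x => ENNReal.ofReal (χ j x ^ 2 * a x))
      (fun j => ENNReal.measurable_ofReal.comp (((hχ j).pow_const 2).mul ha))
    have e1 : ∀ x, liminf (fun j => ENNReal.ofReal (χ j x ^ 2 * a x)) atTop
        = ENNReal.ofReal (a x) := by
      intro x
      refine Tendsto.liminf_eq ?_
      have h1 : Tendsto (fun j => χ j x ^ 2 * a x) atTop (𝓝 (1 * a x)) :=
        (hχ2l x).mul_const (a x)
      rw [one_mul] at h1
      exact (ENNReal.continuous_ofReal.tendsto _).comp h1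
    simp only [e1] at hF
    refine lt_of_le_of_lt (hF.trans ?_) (ENNReal.ofReal_lt_top (r := N))
    refine liminf_le_of_le (by isBoundedDefault) fun y hy => ?_
    obtain ⟨j, hj⟩ := hy.exists
    refine hj.trans ?_
    rw [← ofReal_integral_eq_lintegral_ofReal (hTi j)
      (Eventually.of_forall fun x => mul_nonneg (sq_nonneg _) (ha0 x))]
    exact ENNReal.ofReal_le_ofReal (hTN j)
  refine ⟨haI, ?_⟩
  have hTl : Tendsto T atTop (𝓝 (∫ x, a x ∂μ)) := by
    refine tendsto_integral_of_dominated_convergence a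
      (fun j => (((hχ j).pow_const 2).mul ha).aestronglyMeasurable) haI
      (fun j => Eventually.of_forall fun x => ?_) (Eventually.of_forall fun x => ?_)
    · rw [Real.norm_eq_abs, abs_of_nonneg (mul_nonneg (sq_nonneg _) (ha0 x))]
      calc χ j x ^ 2 * a x ≤ 1 * a x := mul_le_mul_of_nonneg_right (hχ2 j x) (ha0 x)
        _ = a x := one_mul _
    · have h1 := (hχ2l x).mul_const (a x)
      rwa [one_mul] at h1
  have hEl : Tendsto E atTop (𝓝 (∫ x, b x ∂μ)) := by
    refine tendsto_integral_of_dominated_convergence (fun x => |b x|)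
      (fun j => (((hχ j).pow_const 2).mul hb).aestronglyMeasurable) hbi.abs
      (fun j => Eventually.of_forall fun x => ?_) (Eventually.of_forall fun x => ?_)
    · rw [Real.norm_eq_abs, abs_mul, abs_of_nonneg (sq_nonneg (χ j x))]
      calc χ j x ^ 2 * |b x| ≤ 1 * |b x| := mul_le_mul_of_nonneg_right (hχ2 j x) (abs_nonneg _)
        _ = |b x| := one_mul _
    · have h1 := (hχ2l x).mul_const (b x)
      rwa [one_mul] at h1
  have h0 : Tendsto (fun j => |T j - E j|) atTop (𝓝 0) := by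
    have hb : Tendsto (fun j => C * R * q j * Real.sqrt N) atTop (𝓝 0) := by
      have := (hql.const_mul (C * R)).mul_const (Real.sqrt N)
      rwa [mul_zero, zero_mul] at this
    refine squeeze_zero (fun j => abs_nonneg _) (fun j => ?_) hb
    refine (key j).trans ?_
    exact mul_le_mul_of_nonneg_left (Real.sqrt_le_sqrt (hTN j))
      (mul_nonneg (mul_nonneg hC hR) (hq0 j))
  have h1 : Tendsto (fun j => |T j - E j|) atTop (𝓝 |(∫ x, a x ∂μ) - ∫ x, b x ∂μ|) :=
    (hTl.sub hEl).abs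
  have h2 := tendsto_nhds_unique h1 h0
  exact sub_eq_zero.1 (abs_eq_zero.1 h2)

omit [DecidableEq ι] in
private theorem mul_meas80 {M : Type} [MeasurableSpace M] {A B : M → Matrix ι ι ℝ}
    (hA : ∀ i j, Measurable (fun x => A x i j)) (hB : ∀ i j, Measurable (fun x => B x i j)) :
    ∀ i j, Measurable (fun x => (A x * B x) i j) := by
  intro i j
  simp only [Matrix.mul_apply]
  exact Finset.measurable_sum _ fun k _ => (hA i k).mul (hB k j)

private theorem w_meas80 (hF : S.Facts C h0) (h : ℝ) :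
    ∀ i j, Measurable (fun x => S.w h x i j) := by
  have h1 : ∀ i j, Measurable (fun x => (S.P h x)ᵀ i j) := fun i j => hF.P_meas h j i
  have h2 : ∀ i j, Measurable (fun _ : S.M => S.I i j) := fun i j => measurable_const
  exact mul_meas80 (mul_meas80 h1 h2) (hF.P_meas h)

private theorem H_meas80 (hF : S.Facts C h0) (h : ℝ) :
    ∀ i j, Measurable (fun x => S.H h x i j) := by
  intro i j
  have h2 : ∀ i j, Measurable (fun _ : S.M => S.I i j) := fun i j => measurable_const
  have e : (fun x => S.H h x i j) = fun x => -(1 / 2) * ((S.w h x * S.I) i j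
      + (S.I * S.w h x) i j) := by
    funext x
    rw [H, her, Matrix.smul_apply, Matrix.add_apply, smul_eq_mul]
  rw [e]
  exact ((mul_meas80 (w_meas80 hF h) h2 i j).add (mul_meas80 h2 (w_meas80 hF h) i j)).const_mul _

private theorem tr_meas80 (hF : S.Facts C h0) (h : ℝ) :
    Measurable (fun x => (S.H h x).trace) := by
  simp only [Matrix.trace, Matrix.diag_apply]
  exact Finset.measurable_sum _ fun k _ => H_meas80 hF h k k

private theorem Sm_le80 (hF : S.Facts C h0) {h : ℝ} (hh : h ∈ Ioc 0 h0) (x : S.M) :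
    nrm (Sm (S.P h x) (S.τ h x)) ≤ 1 / 2 := by
  refine (hF.S_bdd h hh x).trans ?_
  exact (mul_le_mul_of_nonneg_left hh.2 hF.C_nonneg).trans hF.small

private theorem tr_le80 (hF : S.Facts C h0) {h : ℝ} (hh : h ∈ Ioc 0 h0) (x : S.M) :
    (S.g h x).trace ≤ 2 * (S.H h x).trace :=
  (hF.tri h hh x).trace_le hF.quat (Sm_le80 hF hh x)

theorem trace_int (hF : S.Facts C h0) {h : ℝ} (hh : h ∈ Ioc 0 h0) :
    Integrable (fun x => (S.H h x).trace) S.μ ∧
      ∫ x, (S.H h x).trace ∂S.μ = Fintype.card ι * Real.cos h * S.V := by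
  have := hF.fin
  rw [← hF.coh h hh]
  have hg0 : ∀ x, 0 ≤ (S.g h x).trace := by
    intro x
    rw [g, trace_gm]
    exact nsq_nonneg
  have ha0 : ∀ x, 0 ≤ (S.H h x).trace := fun x => by
    have h1 := tr_le80 hF hh x
    have h2 := hg0 x
    linarith
  have hw : ∀ x, ip S.I (S.w h x) = (S.H h x).trace := fun x =>
    hF.quat.ip_I (om_skew hF.quat.It)
  refine core80 S.μ (fun x => (S.H h x).trace) (fun x => ip S.I (S.θ h x))
    (fun x => Real.sqrt (vsq (S.η h x))) S.χ S.c C (nrm S.I * C) (C * Real.sqrt 2) hF.C_nonneg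
    (mul_nonneg hF.C_nonneg (Real.sqrt_nonneg _)) (tr_meas80 hF h) ?_ ha0 ?_
    (fun x => Real.sqrt_nonneg _) ?_ hF.χ_meas hF.χ_nonneg hF.χ_le_one hF.χ_lim hF.c_meas
    hF.c_nonneg hF.c_bdd hF.c_sq ?_ ?_
  · unfold ip
    exact Finset.measurable_sum _ fun i _ => Finset.measurable_sum _ fun j _ =>
      (hF.θ_meas h i j).const_mul _
  · intro x
    exact abs_ip_le.trans (mul_le_mul_of_nonneg_left (hF.θ_bdd h hh x) nrm_nonneg)
  · intro x
    have hu : IsUnit (S.P h x).det := (hF.tri h hh x).inv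
    have e1 : (S.P h x)ᵀ *ᵥ (((S.P h x)⁻¹)ᵀ *ᵥ S.η h x) = S.η h x := by
      rw [Matrix.mulVec_mulVec, ← Matrix.transpose_mul, Matrix.nonsing_inv_mul _ hu,
        Matrix.transpose_one, Matrix.one_mulVec]
    have h1 : vsq (S.η h x) ≤ C ^ 2 * (2 * (S.H h x).trace) := by
      have h2 := vsq_mulVec_le (P := S.P h x) (((S.P h x)⁻¹)ᵀ *ᵥ S.η h x)
      rw [e1] at h2
      refine h2.trans ?_
      refine (mul_le_mul_of_nonneg_right (hF.η_bdd h hh x) (hg0 x)).trans ?_
      exact mul_le_mul_of_nonneg_left (tr_le80 hF hh x) (sq_nonneg _)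
    refine (Real.sqrt_le_sqrt h1).trans (le_of_eq ?_)
    rw [Real.sqrt_mul (sq_nonneg _), Real.sqrt_sq hF.C_nonneg,
      Real.sqrt_mul (by norm_num : (0 : ℝ) ≤ 2), mul_assoc]
  · intro j
    obtain ⟨B, hB⟩ := hF.supp_P j h hh
    refine ⟨2 * B ^ 2, fun x => ?_⟩
    by_cases hx : S.χ j x = 0
    · rw [hx]
      simp only [ne_eq, OfNat.ofNat_ne_zero, not_false_eq_true, zero_pow, zero_mul]
      positivity
    · have h1 : (S.H h x).trace ≤ 2 * (S.g h x).trace :=
        (hF.tri h hh x).le_trace hF.quat (Sm_le80 hF hh x)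
      have h2 : (S.g h x).trace ≤ B ^ 2 := by
        rw [g, trace_gm, ← nrm_sq]
        exact pow_le_pow_left₀ nrm_nonneg (hB x hx) 2
      have h3 : S.χ j x ^ 2 ≤ 1 := pow_le_one₀ (hF.χ_nonneg j x) (hF.χ_le_one j x)
      calc S.χ j x ^ 2 * (S.H h x).trace ≤ 1 * (S.H h x).trace :=
            mul_le_mul_of_nonneg_right h3 (ha0 x)
        _ ≤ 2 * B ^ 2 := by linarith
  · intro j
    have e : ∀ x, ip S.I (S.w h x - S.θ h x) = (S.H h x).trace - ip S.I (S.θ h x) := by
      intro x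
      rw [sub_eq_add_neg, ip_add_right, ip_neg_right, hw, sub_eq_add_neg]
    have h1 := hF.stokes1 j h hh
    simp only [e] at h1
    exact h1

/-- the trace of the metric is integrable -/
theorem trace_g (hF : S.Facts C h0) {h : ℝ} (hh : h ∈ Ioc 0 h0) :
    Integrable (fun x => (S.g h x).trace) S.μ ∧
      ∫ x, (S.g h x).trace ∂S.μ ≤ 2 * Fintype.card ι * S.V := by
  have := hF.fin
  obtain ⟨h1, h2⟩ := trace_int hF hh
  have hg0 : ∀ x, 0 ≤ (S.g h x).trace := by
    intro x
    rw [g, trace_gm]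
    exact nsq_nonneg
  have hgm : Measurable (fun x => (S.g h x).trace) := by
    have h3 : ∀ i j, Measurable (fun x => (S.P h x)ᵀ i j) := fun i j => hF.P_meas h j i
    simp only [Matrix.trace, Matrix.diag_apply]
    exact Finset.measurable_sum _ fun k _ => mul_meas80 h3 (hF.P_meas h) k k
  have hI : Integrable (fun x => (S.g h x).trace) S.μ := by
    refine (h1.const_mul 2).mono' hgm.aestronglyMeasurable (Eventually.of_forall fun x => ?_)
    rw [Real.norm_eq_abs, abs_of_nonneg (hg0 x)]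
    exact tr_le80 hF hh x
  refine ⟨hI, ?_⟩
  have hV : 0 ≤ S.V := measureReal_nonneg
  calc ∫ x, (S.g h x).trace ∂S.μ ≤ ∫ x, 2 * (S.H h x).trace ∂S.μ :=
        integral_mono hI (h1.const_mul 2) (tr_le80 hF hh)
    _ = 2 * (Fintype.card ι * Real.cos h * S.V) := by rw [integral_const_mul, h2]
    _ ≤ 2 * Fintype.card ι * S.V := by
      have h4 : (Fintype.card ι : ℝ) * Real.cos h * S.V ≤ Fintype.card ι * 1 * S.V :=
        mul_le_mul_of_nonneg_right (mul_le_mul_of_nonneg_left (Real.cos_le_one h)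
          (Nat.cast_nonneg _)) hV
      linarith

end Pool.Agent.SYR.Slice
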